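import Mathlib
import Pool.Agent.N916.GB.LA

/-!
# PQ-LB, part 0: rectangular systems over the field with two elements with a random Laplacian block

`M` is a matrix with the rows `R ⊕ J` and the columns `C ⊕ J`; the Laplacian of a random symmetric
function on `J` is added to the block `J × J`. We determine the moments of the number of the solutions.
-/

set_option autoImplicit false
set_option linter.all false

open scoped Classical

namespace Pool.Agent.N916.PQ

open Finset Filter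
open Pool.Agent.N916.GB (ps sx mm mm_pos mm_one_le In bon_even bon_odd card_li ch ch_zero ch_add
  ch_abs z2 z2_add_self orth orthZ Qf rad mom Pc count_val z2_eq_of_add z2_sq eta eta_sum)

section
variable {R C J : Type} [Fintype R] [Fintype C] [Fintype J] [LinearOrder J]

/-- the equations -/
def ev (M : R ⊕ J → C ⊕ J → ZMod 2) (x : C ⊕ J → ZMod 2) (r : R ⊕ J) : ZMod 2 := ∑ c, M r c * x c

/-- the Laplacian -/
def lp (δ : J → J → ZMod 2) (x : C ⊕ J → ZMod 2) (l : J) : ZMod 2 :=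
  ∑ m, (x (Sum.inr m) + x (Sum.inr l)) * δ l m

theorem ev_add (M : R ⊕ J → C ⊕ J → ZMod 2) (x y : C ⊕ J → ZMod 2) (r : R ⊕ J) :
    ev M (x + y) r = ev M x r + ev M y r := by
  unfold ev
  rw [← sum_add_distrib]
  exact sum_congr rfl fun c _ => by rw [Pi.add_apply, mul_add]

theorem ev_zero (M : R ⊕ J → C ⊕ J → ZMod 2) (r : R ⊕ J) : ev M 0 r = 0 := by
  unfold ev
  exact sum_eq_zero fun c _ => by rw [Pi.zero_apply, mul_zero]

theorem ev_smul (M : R ⊕ J → C ⊕ J → ZMod 2) (a : ZMod 2) (x : C ⊕ J → ZMod 2) (r : R ⊕ J) :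
    ev M (a • x) r = a * ev M x r := by
  unfold ev
  rw [mul_sum]
  exact sum_congr rfl fun c _ => by rw [Pi.smul_apply, smul_eq_mul]; ring

theorem lp_add (δ : J → J → ZMod 2) (x y : C ⊕ J → ZMod 2) (l : J) :
    lp δ (x + y) l = lp δ x l + lp δ y l := by
  unfold lp
  rw [← sum_add_distrib]
  exact sum_congr rfl fun c _ => by rw [Pi.add_apply, Pi.add_apply]; ring

theorem lp_zero (δ : J → J → ZMod 2) (l : J) : lp δ (0 : C ⊕ J → ZMod 2) l = 0 := by
  unfold lp
  exact sum_eq_zero fun c _ => by rw [Pi.zero_apply, Pi.zero_apply, add_zero, zero_mul]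

theorem lp_smul (δ : J → J → ZMod 2) (a : ZMod 2) (x : C ⊕ J → ZMod 2) (l : J) :
    lp δ (a • x) l = a * lp δ x l := by
  unfold lp
  rw [mul_sum]
  exact sum_congr rfl fun c _ => by
    rw [Pi.smul_apply, Pi.smul_apply, smul_eq_mul, smul_eq_mul]; ring

/-- the solutions of the system -/
def IsS (M : R ⊕ J → C ⊕ J → ZMod 2) (δ : J → J → ZMod 2) (x : C ⊕ J → ZMod 2) : Prop :=
  (∀ r, ev M x (Sum.inl r) = 0) ∧ ∀ l, ev M x (Sum.inr l) + lp δ x l = 0

/-- all the solutions are multiples of `Y` -/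
def Gc (M : R ⊕ J → C ⊕ J → ZMod 2) (Y : C ⊕ J → ZMod 2) (δ : J → J → ZMod 2) : Prop :=
  ∀ x : C ⊕ J → ZMod 2, IsS M δ x → ∃ β : ZMod 2, ∀ c, x c = β * Y c

/-- the hypotheses -/
structure Hy (M : R ⊕ J → C ⊕ J → ZMod 2) (X : R ⊕ J → ZMod 2) (Y : C ⊕ J → ZMod 2)
    (u : J → ZMod 2) : Prop where
  x1 : ∀ l, X (Sum.inr l) = 1
  y1 : ∀ l, Y (Sum.inr l) = 1
  kx : ∀ c, ∑ r, X r * M r c = 0
  ky : ∀ r, ∑ c, M r c * Y c = 0
  nr : ∀ b : R → ZMod 2, (∀ l, ∑ r, b r * M (Sum.inl r) (Sum.inr l) = 0) → ∀ r, b r = 0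
  nc : ∀ b : C → ZMod 2, (∀ l, ∑ c, M (Sum.inr l) (Sum.inl c) * b c = 0) → ∀ c, b c = 0
  tw : ∀ k l, k ≠ l → M (Sum.inr k) (Sum.inr l) + M (Sum.inr l) (Sum.inr k) = u k * u l

/-- the solutions of the first rows -/
def Zs (M : R ⊕ J → C ⊕ J → ZMod 2) (k0 : J) : Submodule (ZMod 2) (C ⊕ J → ZMod 2) where
  carrier := {x | x (Sum.inr k0) = 0 ∧ ∀ v, ev M x (Sum.inl v) = 0}
  add_mem' := by
    rintro x y ⟨hx1, hx2⟩ ⟨hy1, hy2⟩
    refine ⟨?_, fun v => ?_⟩
    · rw [Pi.add_apply, hx1, hy1, add_zero]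
    · rw [ev_add, hx2, hy2, add_zero]
  zero_mem' := ⟨rfl, fun v => ev_zero _ _⟩
  smul_mem' := by
    rintro c x ⟨hx1, hx2⟩
    refine ⟨?_, fun v => ?_⟩
    · rw [Pi.smul_apply, hx1, smul_zero]
    · rw [ev_smul, hx2, mul_zero]

theorem mem_Zs {M : R ⊕ J → C ⊕ J → ZMod 2} {k0 : J} {x : C ⊕ J → ZMod 2} :
    x ∈ Zs M k0 ↔ x (Sum.inr k0) = 0 ∧ ∀ v, ev M x (Sum.inl v) = 0 := Iff.rfl

/-- the normalised solutions -/
def Kr (M : R ⊕ J → C ⊕ J → ZMod 2) (k0 : J) (δ : J → J → ZMod 2) :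
    Submodule (ZMod 2) (C ⊕ J → ZMod 2) where
  carrier := {x | x (Sum.inr k0) = 0 ∧ IsS M δ x}
  add_mem' := by
    rintro x y ⟨hx1, hx2, hx3⟩ ⟨hy1, hy2, hy3⟩
    refine ⟨?_, fun v => ?_, fun l => ?_⟩
    · rw [Pi.add_apply, hx1, hy1, add_zero]
    · rw [ev_add, hx2, hy2, add_zero]
    · rw [ev_add, lp_add, add_add_add_comm, hx3, hy3, add_zero]
  zero_mem' := ⟨rfl, fun v => ev_zero _ _, fun l => by rw [ev_zero, lp_zero, add_zero]⟩
  smul_mem' := by
    rintro c x ⟨hx1, hx2, hx3⟩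
    refine ⟨?_, fun v => ?_, fun l => ?_⟩
    · rw [Pi.smul_apply, hx1, smul_zero]
    · rw [ev_smul, hx2, mul_zero]
    · rw [ev_smul, lp_smul, ← mul_add, hx3, mul_zero]

theorem mem_Kr {M : R ⊕ J → C ⊕ J → ZMod 2} {k0 : J} {δ : J → J → ZMod 2}
    {x : C ⊕ J → ZMod 2} : x ∈ Kr M k0 δ ↔ x (Sum.inr k0) = 0 ∧ IsS M δ x := Iff.rfl

theorem isS_add {M : R ⊕ J → C ⊕ J → ZMod 2} {δ : J → J → ZMod 2} {x y : C ⊕ J → ZMod 2}
    (hx : IsS M δ x) (hy : IsS M δ y) : IsS M δ (x + y) := by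
  refine ⟨fun v => ?_, fun l => ?_⟩
  · rw [ev_add, hx.1, hy.1, add_zero]
  · rw [ev_add, lp_add, add_add_add_comm, hx.2, hy.2, add_zero]

theorem isS_smul {M : R ⊕ J → C ⊕ J → ZMod 2} {δ : J → J → ZMod 2} {y : C ⊕ J → ZMod 2}
    (a : ZMod 2) (hy : IsS M δ y) : IsS M δ (a • y) := by
  refine ⟨fun v => ?_, fun l => ?_⟩
  · rw [ev_smul, hy.1, mul_zero]
  · rw [ev_smul, lp_smul, ← mul_add, hy.2, mul_zero]

variable {M : R ⊕ J → C ⊕ J → ZMod 2} {X : R ⊕ J → ZMod 2} {Y : C ⊕ J → ZMod 2} {u : J → ZMod 2}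

theorem isS_Y (H : Hy M X Y u) (δ : J → J → ZMod 2) : IsS M δ Y := by
  refine ⟨fun v => H.ky _, fun l => ?_⟩
  have h1 : ev M Y (Sum.inr l) = 0 := H.ky _
  have h2 : lp δ Y l = 0 := by
    unfold lp
    refine sum_eq_zero fun m _ => ?_
    rw [H.y1, H.y1, z2_add_self, zero_mul]
  rw [h1, h2, add_zero]

theorem Gc_iff (H : Hy M X Y u) (k0 : J) (δ : J → J → ZMod 2) :
    Gc M Y δ ↔ Module.finrank (ZMod 2) (Kr M k0 δ) = 0 := by
  rw [Submodule.finrank_eq_zero]
  constructor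
  · intro h
    rw [Submodule.eq_bot_iff]
    intro x hx
    rw [mem_Kr] at hx
    obtain ⟨β, hβ⟩ := h x hx.2
    have h1 := hβ (Sum.inr k0)
    rw [hx.1, H.y1, mul_one] at h1
    funext p
    rw [hβ p, ← h1, zero_mul]
    rfl
  · intro h x hx
    have h1 : (x + x (Sum.inr k0) • Y) ∈ Kr M k0 δ := by
      rw [mem_Kr]
      refine ⟨?_, isS_add hx (isS_smul _ (isS_Y H δ))⟩
      rw [Pi.add_apply, Pi.smul_apply, H.y1, smul_eq_mul, mul_one, z2_add_self]
    rw [h, Submodule.mem_bot] at h1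
    refine ⟨x (Sum.inr k0), fun c => ?_⟩
    have h2 := congrFun h1 c
    rw [Pi.add_apply, Pi.smul_apply, smul_eq_mul] at h2
    exact z2_eq_of_add h2

noncomputable instance instZ (M : R ⊕ J → C ⊕ J → ZMod 2) (k0 : J) : Fintype (Zs M k0) :=
  Fintype.ofFinite _

theorem Zs_coe_sum {k0 : J} {k : ℕ} (c : Fin k → ZMod 2) (z : Fin k → Zs M k0) (q : C ⊕ J) :
    ((∑ i, c i • z i : Zs M k0) : C ⊕ J → ZMod 2) q = ∑ i, c i * (z i : C ⊕ J → ZMod 2) q := by
  rw [AddSubmonoidClass.coe_finsetSum, Finset.sum_apply]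
  refine sum_congr rfl fun i _ => ?_
  rw [Submodule.coe_smul, Pi.smul_apply, smul_eq_mul]

/-- the large coordinates of a tuple -/
def yy {k0 : J} {k : ℕ} (z : Fin k → Zs M k0) (i : Fin k) (l : J) : ZMod 2 :=
  (z i : C ⊕ J → ZMod 2) (Sum.inr l)

/-- the equations of a tuple -/
def ee {k0 : J} {k : ℕ} (z : Fin k → Zs M k0) (i : Fin k) (l : J) : ZMod 2 :=
  ev M (z i : C ⊕ J → ZMod 2) (Sum.inr l)

theorem Kr_iff {k0 : J} {k : ℕ} (z : Fin k → Zs M k0) (σ : ps J → ZMod 2) :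
    (∀ i, (z i : C ⊕ J → ZMod 2) ∈ Kr M k0 (sx σ)) ↔ Pc (yy z) (ee z) σ := by
  unfold Pc
  constructor
  · intro h i l
    exact (mem_Kr.1 (h i)).2.2 l
  · intro h i
    rw [mem_Kr]
    exact ⟨(mem_Zs.1 (z i).2).1, (mem_Zs.1 (z i).2).2, fun l => h i l⟩

theorem Kr_le (M : R ⊕ J → C ⊕ J → ZMod 2) (k0 : J) (δ : J → J → ZMod 2) :
    Kr M k0 δ ≤ Zs M k0 := by
  intro x hx
  rw [mem_Kr] at hx
  rw [mem_Zs]
  exact ⟨hx.1, hx.2.1⟩

theorem card_Kr (M : R ⊕ J → C ⊕ J → ZMod 2) (k0 : J) (k : ℕ) (σ : ps J → ZMod 2) :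
    In k (Module.finrank (ZMod 2) (Kr M k0 (sx σ))) =
      ((univ.filter fun z : Fin k → Zs M k0 => LinearIndependent (ZMod 2) z ∧
        Pc (yy z) (ee z) σ).card : ℝ) := by
  rw [← card_li k]
  have h1 : ((univ.filter fun z : Fin k → Zs M k0 => LinearIndependent (ZMod 2) z ∧
      Pc (yy z) (ee z) σ).card) = Nat.card {z : Fin k → Zs M k0 // LinearIndependent (ZMod 2) z ∧
      Pc (yy z) (ee z) σ} := by
    rw [Nat.card_eq_fintype_card, Fintype.card_subtype]
  rw [h1]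
  norm_cast
  have hle := Kr_le M k0 (sx σ)
  refine Nat.card_congr ⟨fun s => ⟨fun i => ⟨(s.1 i : C ⊕ J → ZMod 2), hle (s.1 i).2⟩, ?_, ?_⟩,
    fun z => ⟨fun i => ⟨(z.1 i : C ⊕ J → ZMod 2), (Kr_iff z.1 σ).2 z.2.2 i⟩, ?_⟩, ?_, ?_⟩
  · have h2 := s.2
    rw [← LinearMap.linearIndependent_iff (Submodule.subtype _) (Submodule.ker_subtype _)] at h2 ⊢
    exact h2
  · exact (Kr_iff _ σ).1 fun i => (s.1 i).2
  · have h2 := z.2.1
    rw [← LinearMap.linearIndependent_iff (Submodule.subtype _) (Submodule.ker_subtype _)] at h2 ⊢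
    exact h2
  · intro s
    rfl
  · intro z
    rfl

/-- the good tuples -/
noncomputable def GG (M : R ⊕ J → C ⊕ J → ZMod 2) (k0 : J) (k : ℕ) : Finset (Fin k → Zs M k0) :=
  univ.filter fun z => ∀ c : Fin k → ZMod 2, (∀ l, ∑ i, c i * yy z i l = 0) → ∀ i, c i = 0

theorem GG_li {k0 : J} {k : ℕ} {z : Fin k → Zs M k0} (hz : z ∈ GG M k0 k) :
    LinearIndependent (ZMod 2) z := by
  unfold GG at hz
  rw [mem_filter] at hz
  rw [Fintype.linearIndependent_iff]
  intro c hc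
  refine hz.2 c fun l => ?_
  have h1 := Zs_coe_sum c z (Sum.inr l)
  rw [hc] at h1
  exact h1.symm

theorem li_GG (H : Hy M X Y u) {k0 : J} {k : ℕ} {z : Fin k → Zs M k0}
    (hz : LinearIndependent (ZMod 2) z) {σ : ps J → ZMod 2}
    (hσ : Pc (yy z) (ee z) σ) : z ∈ GG M k0 k := by
  unfold GG
  rw [mem_filter]
  refine ⟨mem_univ _, fun c hc => ?_⟩
  rw [Fintype.linearIndependent_iff] at hz
  refine hz c ?_
  set a : Zs M k0 := ∑ i, c i • z i with ha
  have hal : ∀ l, (a : C ⊕ J → ZMod 2) (Sum.inr l) = 0 := by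
    intro l
    rw [ha, Zs_coe_sum]
    exact hc l
  have haK : (a : C ⊕ J → ZMod 2) ∈ Kr M k0 (sx σ) := by
    have h1 := (Kr_iff z σ).2 hσ
    rw [ha, AddSubmonoidClass.coe_finsetSum]
    refine Submodule.sum_mem _ fun i _ => ?_
    rw [Submodule.coe_smul]
    exact Submodule.smul_mem _ _ (h1 i)
  have h6 : ∀ l, ∑ c, M (Sum.inr l) (Sum.inl c) * (a : C ⊕ J → ZMod 2) (Sum.inl c) = 0 := by
    intro l
    have h7 := (mem_Kr.1 haK).2.2 l
    have h8 : lp (sx σ) (a : C ⊕ J → ZMod 2) l = 0 := by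
      unfold lp
      refine sum_eq_zero fun m _ => ?_
      rw [hal, hal, add_zero, zero_mul]
    rw [h8, add_zero] at h7
    unfold ev at h7
    rw [Fintype.sum_sum_type] at h7
    have h9 : ∑ m, M (Sum.inr l) (Sum.inr m) * (a : C ⊕ J → ZMod 2) (Sum.inr m) = 0 :=
      sum_eq_zero fun m _ => by rw [hal, mul_zero]
    rw [h9, add_zero] at h7
    exact h7
  have h9 := H.nc (fun c => (a : C ⊕ J → ZMod 2) (Sum.inl c)) h6
  refine Subtype.ext (funext fun q => ?_)
  rcases q with v | l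
  · exact h9 v
  · exact hal l

theorem sum_ee (H : Hy M X Y u) {k0 : J} {k : ℕ} (z : Fin k → Zs M k0) (i : Fin k) :
    ∑ l, ee z i l = 0 := by
  have h : ∑ r, X r * ev M (z i : C ⊕ J → ZMod 2) r = 0 := by
    have h1 : ∑ r, X r * ev M (z i : C ⊕ J → ZMod 2) r =
        ∑ c, (∑ r, X r * M r c) * (z i : C ⊕ J → ZMod 2) c := by
      unfold ev
      simp only [mul_sum, sum_mul]
      rw [sum_comm]
      refine sum_congr rfl fun c _ => sum_congr rfl fun r _ => ?_
      ring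
    rw [h1]
    exact sum_eq_zero fun c _ => by rw [H.kx, zero_mul]
  rw [Fintype.sum_sum_type] at h
  rw [sum_eq_zero fun v _ => by rw [(mem_Zs.1 (z i).2).2 v, mul_zero], zero_add] at h
  rw [← h]
  refine sum_congr rfl fun l _ => ?_
  rw [H.x1, one_mul]
  rfl

/-- the form -/
def BB (M : R ⊕ J → C ⊕ J → ZMod 2) (k0 : J) (a b : Zs M k0) : ZMod 2 :=
  ∑ l, ((a : C ⊕ J → ZMod 2) (Sum.inr l) * ev M (b : C ⊕ J → ZMod 2) (Sum.inr l) +
    (b : C ⊕ J → ZMod 2) (Sum.inr l) * ev M (a : C ⊕ J → ZMod 2) (Sum.inr l))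

theorem BB_symm (M : R ⊕ J → C ⊕ J → ZMod 2) (k0 : J) (a b : Zs M k0) :
    BB M k0 a b = BB M k0 b a := by
  unfold BB
  exact sum_congr rfl fun l _ => add_comm _ _

theorem BB_add (M : R ⊕ J → C ⊕ J → ZMod 2) (k0 : J) (a b c : Zs M k0) :
    BB M k0 a (b + c) = BB M k0 a b + BB M k0 a c := by
  unfold BB
  rw [← sum_add_distrib]
  refine sum_congr rfl fun l _ => ?_
  rw [Submodule.coe_add, ev_add, Pi.add_apply]
  ring

/-- the size of the space -/
theorem card_Zs (H : Hy M X Y u) (k0 : J) :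
    (Fintype.card (Zs M k0) : ℝ) * 2 ^ (Fintype.card R + 1) =
      2 ^ (Fintype.card C + Fintype.card J) := by
  -- the linear forms
  set aa : (C ⊕ J → ZMod 2) → Option R → ZMod 2 := fun x o =>
    Option.elim o (x (Sum.inr k0)) (fun v => ev M x (Sum.inl v)) with haa
  set L : (Option R → ZMod 2) → C ⊕ J → ZMod 2 := fun t q =>
    ∑ v, t (some v) * M (Sum.inl v) q + (if q = Sum.inr k0 then t none else 0) with hL
  have hid : ∀ x t, ∑ o, t o * aa x o = ∑ q, x q * L t q := by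
    intro x t
    have h1 : ∑ q, x q * L t q = ∑ q, x q * ∑ v, t (some v) * M (Sum.inl v) q +
        x (Sum.inr k0) * t none := by
      rw [hL]
      simp only [mul_add, sum_add_distrib]
      congr 1
      simp only [mul_ite, mul_zero]
      rw [sum_ite_eq', if_pos (mem_univ _)]
    rw [h1, Fintype.sum_option, haa]
    simp only [Option.elim_none, Option.elim_some]
    have h2 : ∑ v, t (some v) * ev M x (Sum.inl v) =
        ∑ q, x q * ∑ v, t (some v) * M (Sum.inl v) q := by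
      unfold ev
      simp only [mul_sum]
      rw [sum_comm (s := (univ : Finset (C ⊕ J)))]
      refine sum_congr rfl fun v _ => sum_congr rfl fun p _ => ?_
      ring
    rw [h2]
    ring
  have hL0 : ∀ t, (∀ q, L t q = 0) ↔ t = 0 := by
    intro t
    constructor
    · intro h
      have h1 : ∑ q, L t q * Y q = 0 := sum_eq_zero fun q _ => by rw [h q, zero_mul]
      have h2 : ∑ q, L t q * Y q = t none := by
        rw [hL]
        simp only [add_mul, sum_add_distrib, ite_mul, zero_mul]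
        rw [sum_ite_eq', if_pos (mem_univ _), H.y1, mul_one]
        have h3 : ∑ q, (∑ v, t (some v) * M (Sum.inl v) q) * Y q =
            ∑ v, t (some v) * ∑ q, M (Sum.inl v) q * Y q := by
          simp only [mul_sum, sum_mul]
          rw [sum_comm]
          refine sum_congr rfl fun v _ => sum_congr rfl fun p _ => ?_
          ring
        rw [h3, sum_eq_zero fun v _ => by rw [H.ky, mul_zero], zero_add]
      rw [h2] at h1
      have h4 : ∀ v, t (some v) = 0 := H.nr (fun v => t (some v)) fun l => by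
        have h5 := h (Sum.inr l)
        rw [hL] at h5
        simp only at h5
        rw [h1, ite_self, add_zero] at h5
        exact h5
      funext o
      rcases o with _ | v
      · exact h1
      · exact h4 v
    · intro h q
      subst h
      rw [hL]
      simp
  have hZ : (Fintype.card (Zs M k0) : ℝ) =
      ∑ x : C ⊕ J → ZMod 2, if x ∈ Zs M k0 then (1 : ℝ) else 0 := by
    rw [← sum_filter, sum_const, nsmul_eq_mul, mul_one, Fintype.card_subtype]
  have hZ2 : ∀ x : C ⊕ J → ZMod 2, (if x ∈ Zs M k0 then (1 : ℝ) else 0) * 2 ^ (Fintype.card R + 1) =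
      ∑ t : Option R → ZMod 2, ch (∑ o, t o * aa x o) := by
    intro x
    rw [orth, Fintype.card_option]
    have h1 : x ∈ Zs M k0 ↔ ∀ o, aa x o = 0 := by
      rw [mem_Zs, haa]
      constructor
      · rintro ⟨h1, h2⟩ (_ | v)
        · exact h1
        · exact h2 v
      · intro h
        exact ⟨h none, fun v => h (some v)⟩
    by_cases h : x ∈ Zs M k0
    · rw [if_pos h, if_pos (h1.1 h), one_mul]
    · rw [if_neg h, if_neg fun h' => h (h1.2 h'), zero_mul]
  rw [hZ, sum_mul, sum_congr rfl fun x _ => hZ2 x, sum_comm]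
  have h1 : ∀ t : Option R → ZMod 2, ∑ x : C ⊕ J → ZMod 2, ch (∑ o, t o * aa x o) =
      if t = 0 then (2 : ℝ) ^ (Fintype.card C + Fintype.card J) else 0 := by
    intro t
    rw [sum_congr rfl fun x _ => by rw [hid x t], orth, Fintype.card_sum]
    by_cases ht : t = 0
    · rw [if_pos ht, if_pos ((hL0 t).2 ht)]
    · rw [if_neg ht, if_neg fun h => ht ((hL0 t).1 h)]
  rw [sum_congr rfl fun t _ => h1 t, sum_ite_eq' univ (0 : Option R → ZMod 2),
    if_pos (mem_univ _)]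

/-- the annihilator -/
noncomputable def Ann (M : R ⊕ J → C ⊕ J → ZMod 2) (k0 : J) : Finset (C ⊕ J → ZMod 2) :=
  univ.filter fun h => ∀ b : Zs M k0, ∑ q, h q * (b : C ⊕ J → ZMod 2) q = 0

theorem card_Ann (M : R ⊕ J → C ⊕ J → ZMod 2) (k0 : J) :
    ((Ann M k0).card : ℝ) * Fintype.card (Zs M k0) = 2 ^ (Fintype.card C + Fintype.card J) := by
  have h1 : ((Ann M k0).card : ℝ) * Fintype.card (Zs M k0) =
      ∑ h : C ⊕ J → ZMod 2, ∑ b : Zs M k0, ch (∑ q, h q * (b : C ⊕ J → ZMod 2) q) := by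
    unfold Ann
    rw [card_filter, Nat.cast_sum, sum_mul]
    refine sum_congr rfl fun h _ => ?_
    rw [orthZ (fun b : Zs M k0 => ∑ q, h q * (b : C ⊕ J → ZMod 2) q)]
    · split_ifs
      · rw [Nat.cast_one, one_mul]
      · rw [Nat.cast_zero, zero_mul]
    · intro a b
      rw [← sum_add_distrib]
      refine sum_congr rfl fun q _ => ?_
      rw [Submodule.coe_add, Pi.add_apply, mul_add]
  rw [h1, sum_comm]
  have h2 : ∀ b : Zs M k0, ∑ h : C ⊕ J → ZMod 2, ch (∑ q, h q * (b : C ⊕ J → ZMod 2) q) =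
      if b = 0 then (2 : ℝ) ^ (Fintype.card C + Fintype.card J) else 0 := by
    intro b
    rw [orth, Fintype.card_sum]
    by_cases hb : b = 0
    · rw [if_pos hb, if_pos]
      intro q
      rw [hb]
      rfl
    · rw [if_neg hb, if_neg]
      intro h
      exact hb (Subtype.ext (funext h))
  rw [sum_congr rfl fun b _ => h2 b, sum_ite_eq' univ (0 : Zs M k0), if_pos (mem_univ _)]

/-- the linear form of an element -/
def hh (M : R ⊕ J → C ⊕ J → ZMod 2) (a : C ⊕ J → ZMod 2) (q : C ⊕ J) : ZMod 2 :=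
  ∑ l, a (Sum.inr l) * M (Sum.inr l) q + Sum.elim (fun _ => 0) (fun m => ev M a (Sum.inr m)) q

theorem hh_BB (M : R ⊕ J → C ⊕ J → ZMod 2) (k0 : J) (a b : Zs M k0) :
    ∑ q, hh M (a : C ⊕ J → ZMod 2) q * (b : C ⊕ J → ZMod 2) q = BB M k0 b a := by
  unfold hh BB
  simp only [add_mul, sum_add_distrib]
  rw [add_comm]
  congr 1
  · rw [Fintype.sum_sum_type]
    simp only [Sum.elim_inl, Sum.elim_inr, zero_mul, sum_const_zero, zero_add]
    exact sum_congr rfl fun l _ => mul_comm _ _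
  · unfold ev
    simp only [mul_sum, sum_mul]
    rw [sum_comm]
    refine sum_congr rfl fun v _ => sum_congr rfl fun p _ => ?_
    ring

theorem hh_inr (H : Hy M X Y u) (a : C ⊕ J → ZMod 2) (m : J) :
    hh M a (Sum.inr m) = ∑ c, M (Sum.inr m) (Sum.inl c) * a (Sum.inl c) +
      u m * ∑ l, u l * a (Sum.inr l) + u m * a (Sum.inr m) := by
  have h1 : hh M a (Sum.inr m) = ∑ c, M (Sum.inr m) (Sum.inl c) * a (Sum.inl c) +
      ∑ l, (M (Sum.inr m) (Sum.inr l) + M (Sum.inr l) (Sum.inr m)) * a (Sum.inr l) := by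
    unfold hh ev
    rw [Sum.elim_inr, Fintype.sum_sum_type]
    simp only [add_mul, sum_add_distrib]
    have : ∑ l, M (Sum.inr l) (Sum.inr m) * a (Sum.inr l) =
        ∑ l, a (Sum.inr l) * M (Sum.inr l) (Sum.inr m) := sum_congr rfl fun l _ => mul_comm _ _
    rw [this]
    ring
  rw [h1, add_assoc]
  congr 1
  have h2 : u m * ∑ l, u l * a (Sum.inr l) = ∑ l, u m * u l * a (Sum.inr l) := by
    rw [mul_sum]
    exact sum_congr rfl fun l _ => by ring
  rw [h2, ← Finset.add_sum_erase univ _ (mem_univ m), ← Finset.add_sum_erase univ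
    (fun l => u m * u l * a (Sum.inr l)) (mem_univ m)]
  have h3 : ∑ l ∈ univ.erase m, (M (Sum.inr m) (Sum.inr l) + M (Sum.inr l) (Sum.inr m)) *
      a (Sum.inr l) = ∑ l ∈ univ.erase m, u m * u l * a (Sum.inr l) := by
    refine sum_congr rfl fun l hl => ?_
    rw [H.tw m l (Finset.ne_of_mem_erase hl).symm]
  rw [h3, z2_add_self, zero_mul, z2_sq]
  have h4 := z2_add_self (u m * a (Sum.inr m))
  linear_combination -h4

theorem card_rad (H : Hy M X Y u) (k0 : J) :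
    ((rad (BB M k0)).card : ℝ) ≤ (Ann M k0).card * (2 * (2 ^ Fintype.card C *
      2 ^ (Fintype.card J - (univ.filter fun k : J => u k = 1).card))) := by
  set ff : Zs M k0 → (C ⊕ J → ZMod 2) × (ZMod 2 × ((C → ZMod 2) ×
      ({l : J // l ∈ (univ.filter fun k : J => u k = 1)ᶜ} → ZMod 2))) := fun a =>
    (hh M (a : C ⊕ J → ZMod 2),
      (∑ l, u l * (a : C ⊕ J → ZMod 2) (Sum.inr l), (fun v => (a : C ⊕ J → ZMod 2) (Sum.inl v),
        fun l => (a : C ⊕ J → ZMod 2) (Sum.inr l.1)))) with hff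
  have h1 : (rad (BB M k0)).card ≤ ((Ann M k0) ×ˢ (univ : Finset (ZMod 2 × ((C → ZMod 2) ×
      ({l : J // l ∈ (univ.filter fun k : J => u k = 1)ᶜ} → ZMod 2))))).card := by
    refine card_le_card_of_injOn ff (fun a ha => ?_) ?_
    · rw [mem_coe, mem_product]
      refine ⟨?_, mem_univ _⟩
      unfold Ann
      rw [mem_filter]
      refine ⟨mem_univ _, fun b => ?_⟩
      have h2 : a ∈ rad (BB M k0) := ha
      unfold rad at h2
      rw [mem_filter] at h2
      rw [← h2.2 b]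
      exact hh_BB M k0 a b
    · intro a _ b _ hab
      rw [hff] at hab
      simp only [Prod.mk.injEq] at hab
      obtain ⟨h2, h3, h4, h5⟩ := hab
      refine Subtype.ext (funext fun q => ?_)
      rcases q with v | l
      · exact congrFun h4 v
      · by_cases hl : u l = 1
        · have h6 := congrFun h2 (Sum.inr l)
          rw [hh_inr H, hh_inr H, h3, hl, one_mul, one_mul, one_mul] at h6
          have h7 : ∀ c, (a : C ⊕ J → ZMod 2) (Sum.inl c) = (b : C ⊕ J → ZMod 2) (Sum.inl c) :=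
            congrFun h4
          rw [sum_congr rfl fun c _ => by rw [h7 c]] at h6
          exact add_left_cancel h6
        · have hm : l ∈ (univ.filter fun k : J => u k = 1)ᶜ := by
            rw [mem_compl, mem_filter]
            exact fun h => hl h.2
          exact congrFun h5 ⟨l, hm⟩
  have h2 : ((rad (BB M k0)).card : ℝ) ≤ _ := Nat.cast_le.2 h1
  refine h2.trans (le_of_eq ?_)
  rw [card_product, Nat.cast_mul]
  congr 1
  rw [card_univ, Fintype.card_prod, Fintype.card_prod, Fintype.card_fun, Fintype.card_fun,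
    ZMod.card, Fintype.card_coe, card_compl]
  push_cast
  rfl

/-- the vectors supported on the first columns -/
noncomputable def SU (M : R ⊕ J → C ⊕ J → ZMod 2) (k0 : J) : Finset (Zs M k0) :=
  univ.filter fun a => ∀ l, (a : C ⊕ J → ZMod 2) (Sum.inr l) = 0

theorem card_SU (M : R ⊕ J → C ⊕ J → ZMod 2) (k0 : J) :
    ((SU M k0).card : ℝ) ≤ 2 ^ Fintype.card C := by
  have h1 : (SU M k0).card ≤ (univ : Finset (C → ZMod 2)).card := by
    refine card_le_card_of_injOn (fun a v => (a : C ⊕ J → ZMod 2) (Sum.inl v))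
      (fun a _ => mem_coe.2 (mem_univ _)) ?_
    intro a ha b hb hab
    have ha' : a ∈ SU M k0 := ha
    have hb' : b ∈ SU M k0 := hb
    unfold SU at ha' hb'
    rw [mem_filter] at ha' hb'
    refine Subtype.ext (funext fun q => ?_)
    rcases q with v | l
    · exact congrFun hab v
    · rw [ha'.2, hb'.2]
  rw [card_univ, Fintype.card_fun, ZMod.card] at h1
  exact_mod_cast h1

theorem T_val (H : Hy M X Y u) (k0 : J) (k : ℕ) :
    (∑ σ : ps J → ZMod 2, In k (Module.finrank (ZMod 2) (Kr M k0 (sx σ)))) *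
        2 ^ (k * Fintype.card J) =
      2 ^ (ps J).card * (2 ^ k * ∑ τ : ps (Fin k) → ZMod 2, ∑ z ∈ GG M k0 k,
        ch (Qf (BB M k0) τ z)) := by
  have h6 : ∑ σ : ps J → ZMod 2, In k (Module.finrank (ZMod 2) (Kr M k0 (sx σ))) =
      ∑ z ∈ GG M k0 k, ((univ.filter fun σ : ps J → ZMod 2 => Pc (yy z) (ee z) σ).card : ℝ) := by
    rw [sum_congr rfl fun σ _ => card_Kr M k0 k σ]
    simp only [card_filter, Nat.cast_sum]
    rw [sum_comm]
    unfold GG
    rw [sum_filter]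
    refine sum_congr rfl fun z _ => ?_
    by_cases hz : z ∈ GG M k0 k
    · have hz' := hz
      unfold GG at hz'
      rw [mem_filter] at hz'
      rw [if_pos hz'.2]
      refine sum_congr rfl fun σ _ => ?_
      have := GG_li hz
      by_cases hσ : Pc (yy z) (ee z) σ
      · rw [if_pos ⟨this, hσ⟩, if_pos hσ]
      · rw [if_neg fun h => hσ h.2, if_neg hσ]
    · have hz' := hz
      unfold GG at hz'
      rw [mem_filter] at hz'
      rw [if_neg fun h => hz' ⟨mem_univ _, h⟩]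
      refine sum_eq_zero fun σ _ => ?_
      rw [if_neg, Nat.cast_zero]
      rintro ⟨h1, h2⟩
      exact hz (li_GG H h1 h2)
  rw [h6, sum_mul]
  have h7 : ∀ z ∈ GG M k0 k, ((univ.filter fun σ : ps J → ZMod 2 => Pc (yy z) (ee z) σ).card : ℝ) *
      2 ^ (k * Fintype.card J) = 2 ^ (ps J).card * (2 ^ k * ∑ τ : ps (Fin k) → ZMod 2,
        ch (Qf (BB M k0) τ z)) := by
    intro z hz
    unfold GG at hz
    rw [mem_filter] at hz
    rw [count_val (yy z) (ee z) hz.2 k0 (fun i => (mem_Zs.1 (z i).2).1) (sum_ee H z)]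
    congr 2
  rw [sum_congr rfl h7, ← mul_sum, ← mul_sum, sum_comm]

theorem T_bound (H : Hy M X Y u) (k0 : J) (k V D : ℕ) (hD : Fintype.card C = Fintype.card R + D)
    (hV : Fintype.card R + Fintype.card C + V ≤ (univ.filter fun k : J => u k = 1).card) :
    |(∑ σ : ps J → ZMod 2, In k (Module.finrank (ZMod 2) (Kr M k0 (sx σ)))) /
        2 ^ (ps J).card - (2 ^ D) ^ k| * 2 ^ V ≤ (2 ^ D) ^ k * 2 ^ (k ^ 2 + k + 4) := by
  set T : ℝ := (∑ σ : ps J → ZMod 2, In k (Module.finrank (ZMod 2) (Kr M k0 (sx σ)))) /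
        2 ^ (ps J).card with hT
  set S : ℝ := ∑ τ : ps (Fin k) → ZMod 2, ∑ z ∈ GG M k0 k, ch (Qf (BB M k0) τ z) with hS
  set Z : ℝ := (Fintype.card (Zs M k0) : ℝ) with hZ
  have hZ1 : Z * 2 ^ (Fintype.card R + 1) = 2 ^ (Fintype.card C + Fintype.card J) := card_Zs H k0
  have hZ2 : Z * 2 = 2 ^ D * 2 ^ Fintype.card J := by
    have h2 : (0 : ℝ) < 2 ^ Fintype.card R := by positivity
    refine mul_right_cancel₀ h2.ne' ?_
    calc Z * 2 * 2 ^ Fintype.card R = Z * 2 ^ (Fintype.card R + 1) := by ring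
      _ = 2 ^ (Fintype.card C + Fintype.card J) := hZ1
      _ = 2 ^ D * 2 ^ Fintype.card J * 2 ^ Fintype.card R := by rw [hD]; ring
  have hDp : (0 : ℝ) < 2 ^ D := by positivity
  have hD1 : (1 : ℝ) ≤ 2 ^ D := one_le_pow₀ (by norm_num)
  have hZ0 : 0 < Z := by
    have : (0 : ℝ) < 2 ^ D * 2 ^ Fintype.card J := by positivity
    linarith
  have h6 := T_val H k0 k
  have hp : (0 : ℝ) < 2 ^ (ps J).card := by positivity
  have h7 : T * 2 ^ (k * Fintype.card J) = 2 ^ k * S := by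
    rw [hT, div_mul_eq_mul_div, h6, mul_div_cancel_left₀ _ hp.ne']
  have h8 : (2 ^ D) ^ k * (2 : ℝ) ^ (k * Fintype.card J) = Z ^ k * 2 ^ k := by
    rw [← mul_pow, hZ2, mul_pow, ← pow_mul 2 (Fintype.card J), mul_comm (Fintype.card J) k]
  have hk2 : (0 : ℝ) < 2 ^ k := by positivity
  have h9 : T * Z ^ k = (2 ^ D) ^ k * S := by
    refine mul_left_cancel₀ hk2.ne' ?_
    calc 2 ^ k * (T * Z ^ k) = T * (Z ^ k * 2 ^ k) := by ring
      _ = (2 ^ D) ^ k * (T * 2 ^ (k * Fintype.card J)) := by rw [← h8]; ring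
      _ = 2 ^ k * ((2 ^ D) ^ k * S) := by rw [h7]; ring
  have hZk : 0 < Z ^ k := by positivity
  have hDk : (0 : ℝ) < (2 ^ D) ^ k := by positivity
  have h10 := mom (B := BB M k0) (BB_add M k0) (BB_symm M k0) k (SU M k0) (GG M k0 k)
    (fun z hz => by
      unfold GG at hz
      rw [mem_filter] at hz
      have hz' : ¬ ∀ c : Fin k → ZMod 2, (∀ l, ∑ i, c i * yy z i l = 0) → ∀ i, c i = 0 :=
        fun h => hz ⟨mem_univ _, h⟩
      push Not at hz'
      obtain ⟨c, hc1, hc2⟩ := hz'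
      refine ⟨c, hc2, ?_⟩
      unfold SU
      rw [mem_filter]
      refine ⟨mem_univ _, fun l => ?_⟩
      rw [Zs_coe_sum]
      exact hc1 l)
  rw [← hS, ← hZ] at h10
  have h11 : |T - (2 ^ D) ^ k| * Z ≤
      (2 ^ D) ^ k * (2 ^ k ^ 2 * ((rad (BB M k0)).card + 2 ^ k * (SU M k0).card)) := by
    have h12 : (2 ^ D) ^ k * |S - Z ^ k| = |T - (2 ^ D) ^ k| * Z ^ k := by
      rw [← abs_of_pos hDk, ← abs_mul, ← abs_of_pos hZk, ← abs_mul, abs_of_pos hDk,
        abs_of_pos hZk, sub_mul, h9, mul_sub]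
    refine le_of_mul_le_mul_left ?_ hZk
    calc Z ^ k * (|T - (2 ^ D) ^ k| * Z) = |T - (2 ^ D) ^ k| * Z ^ k * Z := by ring
      _ = (2 ^ D) ^ k * (|S - Z ^ k| * Z) := by rw [← h12]; ring
      _ ≤ (2 ^ D) ^ k * (2 ^ k ^ 2 * (Z ^ k * ((rad (BB M k0)).card + 2 ^ k * (SU M k0).card))) :=
        mul_le_mul_of_nonneg_left h10 hDk.le
      _ = _ := by ring
  -- the radical
  have h13 := card_rad H k0
  have h14 := card_Ann M k0
  rw [← hZ] at h14
  set r : ℝ := ((rad (BB M k0)).card : ℝ) with hr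
  set A : ℝ := ((Ann M k0).card : ℝ) with hA
  set o : ℕ := (univ.filter fun k : J => u k = 1).card with ho
  have hoJ : o ≤ Fintype.card J := by
    rw [ho]
    exact (card_filter_le _ _).trans (le_of_eq card_univ)
  have h15 : r * 2 ^ V ≤ 8 * Z := by
    refine le_of_mul_le_mul_left ?_ hZ0
    calc Z * (r * 2 ^ V) = (r * Z) * 2 ^ V := by ring
      _ ≤ (A * (2 * (2 ^ Fintype.card C * 2 ^ (Fintype.card J - o))) * Z) * 2 ^ V := by gcongr
      _ = (A * Z) * (2 * (2 ^ Fintype.card C * 2 ^ (Fintype.card J - o))) * 2 ^ V := by ring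
      _ = 2 ^ (Fintype.card C + Fintype.card J + 1 + Fintype.card C + (Fintype.card J - o) + V) := by
        rw [h14]
        ring
      _ ≤ (2 : ℝ) ^ (D + Fintype.card J + (D + Fintype.card J) + 1) :=
        pow_le_pow_right₀ (by norm_num) (by omega)
      _ = (2 ^ D * 2 ^ Fintype.card J) * (2 ^ D * 2 ^ Fintype.card J) * 2 := by ring
      _ = (Z * 2) * (Z * 2) * 2 := by rw [hZ2]
      _ = Z * (8 * Z) := by ring
  have h16 : ((SU M k0).card : ℝ) * 2 ^ V ≤ 2 * Z := by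
    calc ((SU M k0).card : ℝ) * 2 ^ V ≤ 2 ^ Fintype.card C * 2 ^ V := by
          have := card_SU M k0
          gcongr
      _ = 2 ^ (Fintype.card C + V) := by ring
      _ ≤ 2 ^ Fintype.card J := pow_le_pow_right₀ (by norm_num) (by omega)
      _ ≤ 2 ^ D * 2 ^ Fintype.card J := le_mul_of_one_le_left (by positivity) hD1
      _ = 2 * Z := by rw [← hZ2]; ring
  have hk1 : (1 : ℝ) ≤ 2 ^ k := one_le_pow₀ (by norm_num)
  have h17 : (|T - (2 ^ D) ^ k| * 2 ^ V) * Z ≤ ((2 ^ D) ^ k * 2 ^ (k ^ 2 + k + 4)) * Z := by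
    calc (|T - (2 ^ D) ^ k| * 2 ^ V) * Z = (|T - (2 ^ D) ^ k| * Z) * 2 ^ V := by ring
      _ ≤ ((2 ^ D) ^ k * (2 ^ k ^ 2 * (r + 2 ^ k * (SU M k0).card))) * 2 ^ V := by gcongr
      _ = (2 ^ D) ^ k * (2 ^ k ^ 2 * (r * 2 ^ V + 2 ^ k * ((SU M k0).card * 2 ^ V))) := by ring
      _ ≤ (2 ^ D) ^ k * (2 ^ k ^ 2 * (8 * Z + 2 ^ k * (2 * Z))) := by gcongr
      _ ≤ (2 ^ D) ^ k * (2 ^ k ^ 2 * (8 * Z * 2 ^ k + 2 ^ k * (8 * Z))) := by
          have : 8 * Z ≤ 8 * Z * 2 ^ k := le_mul_of_one_le_right (by linarith) hk1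
          have h18 : 2 * Z ≤ 8 * Z := by linarith
          gcongr
      _ = ((2 ^ D) ^ k * 2 ^ (k ^ 2 + k + 4)) * Z := by ring
  exact le_of_mul_le_mul_right h17 hZ0

end

end Pool.Agent.N916.PQ
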