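import Mathlib
import Pool.Agent.N916.PQ.LB0

/-!
# PQ-LB, part 1: the probability that a random system has only the trivial solutions
-/

set_option autoImplicit false
set_option linter.all false

open scoped Classical

namespace Pool.Agent.N916.PQ

open Finset Filter
open Pool.Agent.N916.GB (ps sx mm mm_pos mm_one_le In bon_even bon_odd eta eta_sum)

theorem t_LB : ∀ ε : ℝ, 0 < ε → ∃ V₀ : ℕ, ∀ (R C J : Type) [Fintype R] [Fintype C] [Fintype J]
    [LinearOrder J] (M : R ⊕ J → C ⊕ J → ZMod 2) (X : R ⊕ J → ZMod 2) (Y : C ⊕ J → ZMod 2)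
    (u : J → ZMod 2), Hy M X Y u → Fintype.card C = Fintype.card R →
    2 * Fintype.card R + V₀ ≤ (univ.filter fun k : J => u k = 1).card →
    |((univ.filter fun σ : ps J → ZMod 2 => Gc M Y (sx σ)).card : ℝ) / 2 ^ (ps J).card - eta| ≤ ε := by
  intro ε hε
  -- the truncation
  have hlim := eta_sum
  rw [Metric.tendsto_atTop] at hlim
  obtain ⟨K0, hK0⟩ := hlim (ε / 2) (by linarith)
  set K : ℕ := 2 * K0 with hK
  set M' : ℝ := ∑ k ∈ range (K + 2), (2 : ℝ) ^ (k ^ 2 + k + 4) with hM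
  have hM0 : 0 ≤ M' := sum_nonneg fun k _ => by positivity
  obtain ⟨V1, hV1⟩ := pow_unbounded_of_one_lt (M' / (ε / 2)) (by norm_num : (1 : ℝ) < 2)
  refine ⟨V1 + 1, ?_⟩
  intro R C J _ _ _ _ M X Y u H hRC hV
  have hne : (univ.filter fun k : J => u k = 1).Nonempty := by
    rw [← card_pos]
    omega
  obtain ⟨k0, -⟩ := hne
  set P : ℝ := ((univ.filter fun σ : ps J → ZMod 2 => Gc M Y (sx σ)).card : ℝ) /
    2 ^ (ps J).card with hP
  have hp : (0 : ℝ) < 2 ^ (ps J).card := by positivity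
  set T : ℕ → ℝ := fun k => (∑ σ : ps J → ZMod 2,
    In k (Module.finrank (ZMod 2) (Kr M k0 (sx σ)))) / 2 ^ (ps J).card with hT
  have hTb : ∀ k, |T k - 1| ≤ 2 ^ (k ^ 2 + k + 4) / 2 ^ V1 := by
    intro k
    rw [le_div_iff₀ (by positivity)]
    have h := T_bound H k0 k V1 0 (by omega) (by omega)
    rw [pow_zero, one_pow, one_mul] at h
    exact h
  have hPs : ((univ.filter fun σ : ps J → ZMod 2 => Gc M Y (sx σ)).card : ℝ) =
      ∑ σ : ps J → ZMod 2,
        if Module.finrank (ZMod 2) (Kr M k0 (sx σ)) = 0 then (1 : ℝ) else 0 := by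
    rw [card_filter, Nat.cast_sum]
    refine sum_congr rfl fun σ _ => ?_
    by_cases h : Gc M Y (sx σ)
    · rw [if_pos h, if_pos ((Gc_iff H k0 _).1 h), Nat.cast_one]
    · rw [if_neg h, if_neg fun h' => h ((Gc_iff H k0 _).2 h'), Nat.cast_zero]
  have hsw : ∀ n : ℕ, ∑ k ∈ range n, (-1) ^ k * T k / mm k =
      (∑ σ : ps J → ZMod 2, ∑ k ∈ range n,
        (-1) ^ k * In k (Module.finrank (ZMod 2) (Kr M k0 (sx σ))) / mm k) /
        2 ^ (ps J).card := by
    intro n
    rw [sum_comm, sum_div]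
    refine sum_congr rfl fun k _ => ?_
    rw [hT]
    simp only
    rw [← sum_div, ← mul_sum]
    ring
  have hup : P ≤ ∑ k ∈ range (K + 1), (-1) ^ k * T k / mm k := by
    rw [hsw, hP, hPs]
    refine div_le_div_of_nonneg_right (sum_le_sum fun σ _ => ?_) hp.le
    exact bon_even ⟨K0, by omega⟩ _
  have hlo : ∑ k ∈ range (K + 2), (-1) ^ k * T k / mm k ≤ P := by
    rw [hsw, hP, hPs]
    refine div_le_div_of_nonneg_right (sum_le_sum fun σ _ => ?_) hp.le
    exact bon_odd (K := K + 1) ⟨K0, by omega⟩ _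
  have herr : ∀ n : ℕ, n ≤ K + 2 → |∑ k ∈ range n, (-1) ^ k * T k / mm k -
      ∑ k ∈ range n, (-1 : ℝ) ^ k / mm k| ≤ ε / 2 := by
    intro n hn
    rw [← sum_sub_distrib]
    refine (abs_sum_le_sum_abs _ _).trans ?_
    have h1 : ∀ k ∈ range n, |(-1) ^ k * T k / mm k - (-1 : ℝ) ^ k / mm k| ≤
        2 ^ (k ^ 2 + k + 4) / 2 ^ V1 := by
      intro k _
      have h2 : (-1) ^ k * T k / mm k - (-1 : ℝ) ^ k / mm k = (-1) ^ k * ((T k - 1) / mm k) := by
        ring
      rw [h2, abs_mul, abs_pow, abs_neg, abs_one, one_pow, one_mul, abs_div, abs_of_pos (mm_pos k)]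
      refine (div_le_self (abs_nonneg _) (mm_one_le k)).trans (hTb k)
    refine (sum_le_sum h1).trans ?_
    rw [← sum_div]
    have h2 : ∑ k ∈ range n, (2 : ℝ) ^ (k ^ 2 + k + 4) ≤ M' := by
      rw [hM]
      refine sum_le_sum_of_subset_of_nonneg (fun k hk => ?_) fun k _ _ => by positivity
      rw [mem_range] at hk ⊢
      omega
    rw [div_le_iff₀ (by positivity)]
    refine h2.trans ?_
    rw [div_lt_iff₀ (by linarith)] at hV1
    linarith
  have h6 := hK0 (K + 1) (by omega)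
  have h7 := hK0 (K + 2) (by omega)
  rw [Real.dist_eq] at h6 h7
  have h8 := herr (K + 1) (by omega)
  have h9 := herr (K + 2) le_rfl
  rw [abs_le] at h8 h9 ⊢
  rw [abs_lt] at h6 h7
  constructor
  · linarith [h9.1, h7.1]
  · linarith [h8.2, h6.2]

end Pool.Agent.N916.PQ
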