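import Mathlib
import Pool.Agent.N916.PQ.LB1

/-!
# PQ-LB, part 2: bordered Rédei matrices
-/

set_option autoImplicit false
set_option linter.all false

open scoped Classical

namespace Pool.Agent.N916.PQ

open Finset Filter
open Pool.Agent.N916.GB (ps sx eta Ev pt Ev_inl Ev_inr z2_add_self)

/-- the kernel of the bordered matrix is generated by `(1, 0)`: the rows `u`, `w` and the corner `e`
are the border -/
def Kb {V : Type} [Fintype V] (N : V → V → ZMod 2) (u w : V → ZMod 2) (e : ZMod 2) : Prop :=
  ∀ (y : V → ZMod 2) (a : ZMod 2), (∀ i, Ev N y i + a * u i = 0) → ∑ j, w j * y j + a * e = 0 →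
    a = 0 ∧ ∃ β : ZMod 2, ∀ j, y j = β

/-- the matrix with row sums zero -/
noncomputable def Lm {V : Type} [Fintype V] (N : V → V → ZMod 2) (i j : V) : ZMod 2 :=
  if i = j then ∑ k, (if k = i then 0 else N i k) else N i j

theorem Lm_ne {V : Type} [Fintype V] (N : V → V → ZMod 2) {i j : V} (h : i ≠ j) :
    Lm N i j = N i j := if_neg h

theorem Lm_Ev {V : Type} [Fintype V] (N : V → V → ZMod 2) (y : V → ZMod 2) (i : V) :
    ∑ j, Lm N i j * y j = Ev N y i := by
  unfold Ev
  rw [← Finset.add_sum_erase univ _ (mem_univ i), ← Finset.add_sum_erase univ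
    (fun p => (y p + y i) * N i p) (mem_univ i)]
  have h1 : Lm N i i = ∑ k ∈ univ.erase i, N i k := by
    unfold Lm
    rw [if_pos rfl, ← Finset.add_sum_erase univ _ (mem_univ i), if_pos rfl, zero_add]
    exact sum_congr rfl fun k hk => if_neg (Finset.ne_of_mem_erase hk)
  have h2 : ∑ j ∈ univ.erase i, Lm N i j * y j = ∑ j ∈ univ.erase i, N i j * y j :=
    sum_congr rfl fun j hj => by rw [Lm_ne _ (Finset.ne_of_mem_erase hj).symm]
  rw [h1, h2, z2_add_self, zero_mul, zero_add, sum_mul, ← sum_add_distrib]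
  exact sum_congr rfl fun j _ => by ring

section
variable {U J : Type} [Fintype U] [Fintype J] [LinearOrder J]

/-- the index -/
def ph : Option U ⊕ J → Option (U ⊕ J)
  | Sum.inl none => none
  | Sum.inl (some v) => some (Sum.inl v)
  | Sum.inr l => some (Sum.inr l)

theorem sum_ph (f : Option (U ⊕ J) → ZMod 2) : ∑ i : Option U ⊕ J, f (ph i) = ∑ o, f o := by
  rw [Fintype.sum_sum_type, Fintype.sum_option, Fintype.sum_option, Fintype.sum_sum_type, add_assoc]
  rfl

/-- the bordered matrix -/
noncomputable def Bm {V : Type} [Fintype V] (N : V → V → ZMod 2) (u w : V → ZMod 2) (e : ZMod 2) :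
    Option V → Option V → ZMod 2
  | none, none => e
  | none, some j => w j
  | some i, none => u i
  | some i, some j => Lm N i j

/-- the bordered matrix, reindexed -/
noncomputable def Mt (N : U ⊕ J → U ⊕ J → ZMod 2) (u w : U ⊕ J → ZMod 2) (e : ZMod 2)
    (i j : Option U ⊕ J) : ZMod 2 := Bm N u w e (ph i) (ph j)

/-- a vector with a border -/
def vc (x : U ⊕ J → ZMod 2) (a : ZMod 2) (i : Option U ⊕ J) : ZMod 2 := Option.elim (ph i) a x

theorem vc_inr (x : U ⊕ J → ZMod 2) (a : ZMod 2) (l : J) : vc x a (Sum.inr l) = x (Sum.inr l) := rfl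

theorem ev_vc (N : U ⊕ J → U ⊕ J → ZMod 2) (u w : U ⊕ J → ZMod 2) (e : ZMod 2)
    (y : U ⊕ J → ZMod 2) (a : ZMod 2) (i : Option U ⊕ J) :
    ev (Mt N u w e) (vc y a) i = Option.elim (ph i) (∑ j, w j * y j + a * e)
      fun i => Ev N y i + a * u i := by
  unfold ev Mt vc
  rw [sum_ph (fun o => Bm N u w e (ph i) o * Option.elim o a y), Fintype.sum_option]
  rcases ph i with _ | i
  · simp only [Option.elim_none, Option.elim_some, Bm]
    ring
  · simp only [Option.elim_none, Option.elim_some, Bm]
    rw [Lm_Ev]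
    ring

theorem Gc_Kb (N : U ⊕ J → U ⊕ J → ZMod 2) (u w : U ⊕ J → ZMod 2) (e : ZMod 2)
    (δ : J → J → ZMod 2) :
    Gc (Mt N u w e) (vc (fun _ => 1) 0) δ ↔ Kb (pt N δ) u w e := by
  have key : ∀ (y : U ⊕ J → ZMod 2) (a : ZMod 2), IsS (Mt N u w e) δ (vc y a) ↔
      (∀ i, Ev (pt N δ) y i + a * u i = 0) ∧ ∑ j, w j * y j + a * e = 0 := by
    intro y a
    unfold IsS
    constructor
    · rintro ⟨h1, h2⟩
      refine ⟨?_, ?_⟩
      · rintro (v | l)
        · have := h1 (some v)
          rw [ev_vc] at this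
          rw [Ev_inl]
          exact this
        · have := h2 l
          rw [ev_vc] at this
          rw [Ev_inr, ← this]
          show _ = Ev N y (Sum.inr l) + a * u (Sum.inr l) + _
          unfold lp
          simp only [vc_inr]
          ring
      · have := h1 none
        rw [ev_vc] at this
        exact this
    · rintro ⟨h1, h2⟩
      refine ⟨?_, ?_⟩
      · rintro (_ | v)
        · rw [ev_vc]
          exact h2
        · rw [ev_vc]
          have := h1 (Sum.inl v)
          rw [Ev_inl] at this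
          exact this
      · intro l
        have := h1 (Sum.inr l)
        rw [Ev_inr] at this
        rw [ev_vc, ← this]
        show Ev N y (Sum.inr l) + a * u (Sum.inr l) + _ = _
        unfold lp
        simp only [vc_inr]
        ring
  have hx : ∀ x : Option U ⊕ J → ZMod 2, x = vc (fun i => Sum.elim (fun v => x (Sum.inl (some v)))
      (fun l => x (Sum.inr l)) i) (x (Sum.inl none)) := by
    intro x
    funext i
    rcases i with (_ | v) | l <;> rfl
  constructor
  · intro h y a h1 h2
    obtain ⟨β, hβ⟩ := h _ ((key y a).2 ⟨h1, h2⟩)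
    refine ⟨?_, β, ?_⟩
    · have := hβ (Sum.inl none)
      change a = β * 0 at this
      rw [this, mul_zero]
    · rintro (v | l)
      · have := hβ (Sum.inl (some v))
        change y (Sum.inl v) = β * 1 at this
        rw [this, mul_one]
      · have := hβ (Sum.inr l)
        change y (Sum.inr l) = β * 1 at this
        rw [this, mul_one]
  · intro h x h1
    rw [hx x, key] at h1
    obtain ⟨h2, β, h3⟩ := h _ _ h1.1 h1.2
    refine ⟨β, ?_⟩
    rintro ((_ | v) | l)
    · rw [h2]
      show 0 = β * 0
      rw [mul_zero]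
    · have := h3 (Sum.inl v)
      show _ = β * 1
      rw [mul_one]
      exact this
    · have := h3 (Sum.inr l)
      show _ = β * 1
      rw [mul_one]
      exact this

end

/-- **the probability that a random bordered matrix is good** -/
theorem t_LC : ∀ ε : ℝ, 0 < ε → ∃ V₀ : ℕ, ∀ (U J : Type) [Fintype U] [Fintype J]
    [LinearOrder J] (N : U ⊕ J → U ⊕ J → ZMod 2) (wd ud u w : U ⊕ J → ZMod 2) (e x0 : ZMod 2),
    (∀ k, wd (Sum.inr k) = 1) →
    (∀ i j, i ≠ j → wd i * N i j + wd j * N j i = ud i * ud j) →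
    ∑ j, w j = 0 →
    (∀ y : U ⊕ J → ZMod 2, ∑ i, wd i * Ev N y i + x0 * ∑ j, w j * y j = 0) →
    ∑ i, wd i * u i + x0 * e = 0 →
    (∀ (b : U → ZMod 2) (a : ZMod 2), (∀ l, ∑ v, b v * N (Sum.inl v) (Sum.inr l) +
      a * w (Sum.inr l) = 0) → (∀ v, b v = 0) ∧ a = 0) →
    (∀ (b : U → ZMod 2) (a : ZMod 2), (∀ l, ∑ v, b v * N (Sum.inr l) (Sum.inl v) +
      a * u (Sum.inr l) = 0) → (∀ v, b v = 0) ∧ a = 0) →
    2 * (Fintype.card U + 1) + V₀ ≤ (univ.filter fun k : J => ud (Sum.inr k) = 1).card →
    |((univ.filter fun σ : ps J → ZMod 2 => Kb (pt N (sx σ)) u w e).card : ℝ) / 2 ^ (ps J).card -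
      eta| ≤ ε := by
  intro ε hε
  obtain ⟨V₀, hV₀⟩ := t_LB ε hε
  refine ⟨V₀, ?_⟩
  intro U J _ _ _ N wd ud u w e x0 hw h3 hky hkx1 hkx2 hnr hnc hV
  have hkx1' : ∀ j, ∑ i, wd i * Lm N i j + x0 * w j = 0 := by
    intro j
    have h := hkx1 (Pi.single j 1)
    have h1 : ∀ f : U ⊕ J → ZMod 2, ∑ k, f k * (Pi.single j 1 : U ⊕ J → ZMod 2) k = f j := by
      intro f
      rw [sum_eq_single j]
      · rw [Pi.single_eq_same, mul_one]
      · intro k _ hk
        rw [Pi.single_eq_of_ne hk, mul_zero]
      · intro h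
        exact absurd (mem_univ j) h
    rw [h1] at h
    rw [← h]
    congr 1
    refine sum_congr rfl fun i _ => ?_
    rw [← Lm_Ev, h1]
  have H : Hy (Mt N u w e) (vc wd x0) (vc (fun _ => 1) 0) (fun k => ud (Sum.inr k)) := by
    refine ⟨hw, fun l => rfl, ?_, ?_, ?_, ?_, ?_⟩
    · intro c
      unfold vc Mt
      rw [sum_ph (fun o => Option.elim o x0 wd * Bm N u w e o (ph c)), Fintype.sum_option]
      rcases ph c with _ | j
      · show x0 * e + ∑ i, wd i * u i = 0
        rw [add_comm]
        exact hkx2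
      · show x0 * w j + ∑ i, wd i * Lm N i j = 0
        rw [add_comm]
        exact hkx1' j
    · intro r
      have h := ev_vc N u w e (fun _ => 1) 0 r
      unfold ev at h
      rw [h]
      rcases ph r with _ | i
      · show ∑ j, w j * 1 + 0 * e = 0
        rw [zero_mul, add_zero]
        simp only [mul_one]
        exact hky
      · show Ev N (fun _ => 1) i + 0 * u i = 0
        rw [Pool.Agent.N916.GB.Ev_const, zero_mul, add_zero]
    · intro b hb
      have h := hnr (fun v => b (some v)) (b none) fun l => by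
        have h1 := hb l
        rw [Fintype.sum_option] at h1
        rw [← h1, add_comm]
        congr 1
        refine sum_congr rfl fun v _ => ?_
        have h2 : Mt N u w e (Sum.inl (some v)) (Sum.inr l) = N (Sum.inl v) (Sum.inr l) :=
          Lm_ne N (by simp)
        rw [h2]
      intro r
      rcases r with _ | v
      · exact h.2
      · exact h.1 v
    · intro b hb
      have h := hnc (fun v => b (some v)) (b none) fun l => by
        have h1 := hb l
        rw [Fintype.sum_option] at h1
        rw [← h1, add_comm]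
        congr 1
        · exact mul_comm _ _
        · refine sum_congr rfl fun v _ => ?_
          have h2 : Mt N u w e (Sum.inr l) (Sum.inl (some v)) = N (Sum.inr l) (Sum.inl v) :=
            Lm_ne N (by simp)
          rw [h2, mul_comm]
      intro r
      rcases r with _ | v
      · exact h.2
      · exact h.1 v
    · intro k l hkl
      have h := h3 (Sum.inr k) (Sum.inr l) fun h => hkl (Sum.inr_injective h)
      rw [hw, hw, one_mul, one_mul] at h
      rw [← h]
      show Lm N (Sum.inr k) (Sum.inr l) + Lm N (Sum.inr l) (Sum.inr k) = _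
      rw [Lm_ne _ fun h => hkl (Sum.inr_injective h), Lm_ne _ fun h => hkl (Sum.inr_injective h).symm]
  have h := hV₀ (Option U) (Option U) J (Mt N u w e) _ _ _ H rfl (by
    rw [Fintype.card_option]
    exact hV)
  have h2 : (univ.filter fun σ : ps J → ZMod 2 => Gc (Mt N u w e) (vc (fun _ => 1) 0) (sx σ)) =
      univ.filter fun σ : ps J → ZMod 2 => Kb (pt N (sx σ)) u w e :=
    filter_congr fun σ _ => Gc_Kb N u w e (sx σ)
  rw [h2] at h
  exact h

end Pool.Agent.N916.PQ
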