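import Mathlib
import Pool.Agent.N919.BS.Fin

/-!
# PQ: the natural density of a criterion among all squarefree integers and among all fundamental
# discriminants, for a root number condition which depends on the classes of several primes
-/

set_option autoImplicit false
set_option linter.all false

namespace Pool.Agent.N916.PQ

open Finset Filter
open Pool.Agent.N919.BS (UU eqd NN NS NF NS_eq NF_eq HG low1 ratio)

/-- weighted sums over the classes -/
theorem wsum {M : ℕ} (hM : 0 < M) (wt : ℕ → ℤ) (B : ℕ)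
    (h0 : ∀ g ∈ range (M + 1), ∑ a ∈ (range M).filter (fun a => a.gcd M = g), wt a = 0)
    (hB : ∀ a, |wt a| ≤ B) (Y : ℕ) :
    |∑ a ∈ range M, (wt a : ℝ) * ((UU M a Y).card : ℝ)| ≤ B * M * Real.sqrt Y := by
  have h1 : ∑ a ∈ range M, (wt a : ℝ) * ((UU M ((a.gcd M) % M) Y).card : ℝ) = 0 := by
    rw [← sum_fiberwise_of_maps_to (s := range M) (t := range (M + 1)) (g := fun a => a.gcd M)
      (fun a _ => mem_range.2 (by
        have := Nat.gcd_le_right a hM
        show a.gcd M < M + 1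
        omega))]
    refine sum_eq_zero fun g hg => ?_
    have h2 : ∑ a ∈ (range M).filter (fun a => a.gcd M = g),
        (wt a : ℝ) * ((UU M ((a.gcd M) % M) Y).card : ℝ) =
        (∑ a ∈ (range M).filter (fun a => a.gcd M = g), (wt a : ℝ)) *
          ((UU M (g % M) Y).card : ℝ) := by
      rw [sum_mul]
      refine sum_congr rfl fun a ha => ?_
      rw [(mem_filter.1 ha).2]
    rw [h2]
    have h3 : ∑ a ∈ (range M).filter (fun a => a.gcd M = g), (wt a : ℝ) = 0 := by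
      have := h0 g hg
      exact_mod_cast congrArg (Int.cast : ℤ → ℝ) this
    rw [h3, zero_mul]
  have h2 : ∑ a ∈ range M, (wt a : ℝ) * ((UU M a Y).card : ℝ) =
      ∑ a ∈ range M, (wt a : ℝ) * (((UU M a Y).card : ℝ) - ((UU M ((a.gcd M) % M) Y).card : ℝ)) := by
    simp only [mul_sub, sum_sub_distrib]
    rw [h1, sub_zero]
  rw [h2]
  refine (abs_sum_le_sum_abs _ _).trans ?_
  refine (sum_le_sum (g := fun _ => (B : ℝ) * Real.sqrt Y) fun a ha => ?_).trans ?_
  · rw [abs_mul]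
    have h3 : |(wt a : ℝ)| ≤ B := by exact_mod_cast hB a
    refine mul_le_mul h3 ?_ (abs_nonneg _) (Nat.cast_nonneg _)
    refine eqd M a ((a.gcd M) % M) Y hM (mem_range.1 ha) (Nat.mod_lt _ hM) ?_
    have h4 : ((a.gcd M) % M).gcd M = (a.gcd M).gcd M := by
      rw [Nat.gcd_comm (a.gcd M) M, Nat.gcd_rec M (a.gcd M)]
    rw [h4, Nat.gcd_eq_left (Nat.gcd_dvd_right a M)]
  · rw [sum_const, card_range, nsmul_eq_mul]
    refine le_of_eq ?_
    ring

/-- the indicator -/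
def fi (f : ℤ → Bool) (s : ℤ) (k c a : ℕ) : ℤ := if a % 4 = c ∧ f (s * (k * a : ℕ)) = true then 1 else 0

/-- the count as a weighted sum -/
theorem NN_w {M : ℕ} (hM : 0 < M) (h4 : 4 ∣ M) (f : ℤ → Bool) (s : ℤ) (k c : ℕ)
    (hc : c = 1 ∨ c = 3)
    (hf : ∀ n : ℕ, n % 2 = 1 → f (s * (k * n : ℕ)) = f (s * (k * (n % M) : ℕ))) (Y : ℕ) :
    (NN (fun d => f d = true) s k c Y : ℝ) =
      ∑ a ∈ range M, (fi f s k c a : ℝ) * ((UU M a Y).card : ℝ) := by
  classical
  have e : NN (fun d => f d = true) s k c Y = ∑ a ∈ (range M).filter (fun a => a % 4 = c ∧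
      f (s * (k * a : ℕ)) = true), (UU M a Y).card := by
    unfold NN
    rw [← card_biUnion]
    · congr 1
      ext n
      rw [mem_biUnion]
      simp only [UU, mem_filter, mem_range, mem_Icc]
      constructor
      · rintro ⟨h1, h2, h3, h5⟩
        refine ⟨n % M, ⟨Nat.mod_lt _ hM, ?_, ?_⟩, h1, h2, rfl⟩
        · rw [Nat.mod_mod_of_dvd _ h4]
          exact h3
        · rw [← hf n (by omega)]
          exact h5
      · rintro ⟨a, ⟨h1, h2, h3⟩, h5, h6, h7⟩
        have h8 : n % 4 = c := by rw [← h2, ← h7, Nat.mod_mod_of_dvd _ h4]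
        refine ⟨h5, h6, h8, ?_⟩
        rw [hf n (by omega), h7]
        exact h3
    · intro a _ b _ hab
      refine disjoint_left.2 fun n h1 h2 => hab ?_
      simp only [UU, mem_filter] at h1 h2
      rw [← h1.2.2, h2.2.2]
  rw [e, Nat.cast_sum, sum_filter]
  refine sum_congr rfl fun a _ => ?_
  unfold fi
  by_cases h : a % 4 = c ∧ f (s * (k * a : ℕ)) = true
  · rw [if_pos h, if_pos h, Int.cast_one, one_mul]
  · rw [if_neg h, if_neg h, Int.cast_zero, zero_mul]

/-- the conditions on the classes -/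
structure Hf (M : ℕ) (f : ℤ → Bool) : Prop where
  pos : 0 < M
  four : 4 ∣ M
  per : ∀ (s : ℤ) (k n : ℕ), (s = 1 ∨ s = -1) → (k = 1 ∨ k = 2) → n % 2 = 1 →
    f (s * (k * n : ℕ)) = f (s * (k * (n % M) : ℕ))
  w1 : ∀ g ∈ range (M + 1), ∑ a ∈ (range M).filter (fun a => a.gcd M = g),
    (2 * fi f 1 1 1 a + 2 * fi f (-1) 1 3 a - fi (fun _ => true) 1 1 1 a -
      fi (fun _ => true) (-1) 1 3 a) = 0
  w2 : ∀ g ∈ range (M + 1), ∑ a ∈ (range M).filter (fun a => a.gcd M = g),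
    (2 * fi f 1 1 3 a + 2 * fi f (-1) 1 1 a - fi (fun _ => true) 1 1 3 a -
      fi (fun _ => true) (-1) 1 1 a) = 0
  w3 : ∀ g ∈ range (M + 1), ∑ a ∈ (range M).filter (fun a => a.gcd M = g),
    (2 * fi f 1 2 1 a + 2 * fi f 1 2 3 a + 2 * fi f (-1) 2 1 a + 2 * fi f (-1) 2 3 a -
      fi (fun _ => true) 1 2 1 a - fi (fun _ => true) 1 2 3 a - fi (fun _ => true) (-1) 2 1 a -
      fi (fun _ => true) (-1) 2 3 a) = 0

theorem fi_abs (f : ℤ → Bool) (s : ℤ) (k c a : ℕ) : 0 ≤ fi f s k c a ∧ fi f s k c a ≤ 1 := by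
  unfold fi
  split_ifs <;> omega

section
variable {M : ℕ} {f : ℤ → Bool}

theorem NN_T (s : ℤ) (k c Y : ℕ) :
    NN (fun _ => True) s k c Y = NN (fun d => (fun _ : ℤ => true) d = true) s k c Y := by
  congr
  funext d
  exact (eq_self true).symm

theorem h1 (H : Hf M f) (Y : ℕ) : |2 * (NN (fun d => f d = true) 1 1 1 Y : ℝ) +
    2 * NN (fun d => f d = true) (-1) 1 3 Y - NN (fun _ => True) 1 1 1 Y -
    NN (fun _ => True) (-1) 1 3 Y| ≤ 16 * M * Real.sqrt Y := by
  have h := wsum H.pos _ 16 H.w1 (fun a => by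
    have a1 := fi_abs f 1 1 1 a
    have a2 := fi_abs f (-1) 1 3 a
    have a3 := fi_abs (fun _ => true) 1 1 1 a
    have a4 := fi_abs (fun _ => true) (-1) 1 3 a
    rw [abs_le]
    push_cast
    constructor <;> linarith [a1.1, a1.2, a2.1, a2.2, a3.1, a3.2, a4.1, a4.2]) Y
  rw [NN_T, NN_T, NN_w H.pos H.four f 1 1 1 (Or.inl rfl) (fun n => H.per 1 1 n (Or.inl rfl) (Or.inl rfl)),
    NN_w H.pos H.four f (-1) 1 3 (Or.inr rfl) (fun n => H.per (-1) 1 n (Or.inr rfl) (Or.inl rfl)),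
    NN_w H.pos H.four _ 1 1 1 (Or.inl rfl) (fun n _ => rfl), NN_w H.pos H.four _ (-1) 1 3 (Or.inr rfl) (fun n _ => rfl)]
  refine le_trans (le_of_eq ?_) h
  congr 1
  push_cast
  simp only [mul_sum, sub_mul, add_mul, sum_add_distrib, sum_sub_distrib, mul_assoc]

theorem h2 (H : Hf M f) (Y : ℕ) : |2 * (NN (fun d => f d = true) 1 1 3 Y : ℝ) +
    2 * NN (fun d => f d = true) (-1) 1 1 Y - NN (fun _ => True) 1 1 3 Y -
    NN (fun _ => True) (-1) 1 1 Y| ≤ 16 * M * Real.sqrt Y := by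
  have h := wsum H.pos _ 16 H.w2 (fun a => by
    have a1 := fi_abs f 1 1 3 a
    have a2 := fi_abs f (-1) 1 1 a
    have a3 := fi_abs (fun _ => true) 1 1 3 a
    have a4 := fi_abs (fun _ => true) (-1) 1 1 a
    rw [abs_le]
    push_cast
    constructor <;> linarith [a1.1, a1.2, a2.1, a2.2, a3.1, a3.2, a4.1, a4.2]) Y
  rw [NN_T, NN_T, NN_w H.pos H.four f 1 1 3 (Or.inr rfl) (fun n => H.per 1 1 n (Or.inl rfl) (Or.inl rfl)),
    NN_w H.pos H.four f (-1) 1 1 (Or.inl rfl) (fun n => H.per (-1) 1 n (Or.inr rfl) (Or.inl rfl)),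
    NN_w H.pos H.four _ 1 1 3 (Or.inr rfl) (fun n _ => rfl), NN_w H.pos H.four _ (-1) 1 1 (Or.inl rfl) (fun n _ => rfl)]
  refine le_trans (le_of_eq ?_) h
  congr 1
  push_cast
  simp only [mul_sum, sub_mul, add_mul, sum_add_distrib, sum_sub_distrib, mul_assoc]

theorem h3 (H : Hf M f) (Y : ℕ) : |2 * (NN (fun d => f d = true) 1 2 1 Y : ℝ) +
    2 * NN (fun d => f d = true) 1 2 3 Y + 2 * NN (fun d => f d = true) (-1) 2 1 Y +
    2 * NN (fun d => f d = true) (-1) 2 3 Y - NN (fun _ => True) 1 2 1 Y -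
    NN (fun _ => True) 1 2 3 Y - NN (fun _ => True) (-1) 2 1 Y -
    NN (fun _ => True) (-1) 2 3 Y| ≤ 16 * M * Real.sqrt Y := by
  have h := wsum H.pos _ 16 H.w3 (fun a => by
    have a1 := fi_abs f 1 2 1 a
    have a2 := fi_abs f 1 2 3 a
    have a3 := fi_abs f (-1) 2 1 a
    have a4 := fi_abs f (-1) 2 3 a
    have b1 := fi_abs (fun _ => true) 1 2 1 a
    have b2 := fi_abs (fun _ => true) 1 2 3 a
    have b3 := fi_abs (fun _ => true) (-1) 2 1 a
    have b4 := fi_abs (fun _ => true) (-1) 2 3 a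
    rw [abs_le]
    push_cast
    constructor <;> linarith [a1.1, a1.2, a2.1, a2.2, a3.1, a3.2, a4.1, a4.2, b1.1, b1.2, b2.1,
      b2.2, b3.1, b3.2, b4.1, b4.2]) Y
  simp only [NN_T]
  rw [NN_w H.pos H.four f 1 2 1 (Or.inl rfl) (fun n => H.per 1 2 n (Or.inl rfl) (Or.inr rfl)),
    NN_w H.pos H.four f 1 2 3 (Or.inr rfl) (fun n => H.per 1 2 n (Or.inl rfl) (Or.inr rfl)),
    NN_w H.pos H.four f (-1) 2 1 (Or.inl rfl) (fun n => H.per (-1) 2 n (Or.inr rfl) (Or.inr rfl)),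
    NN_w H.pos H.four f (-1) 2 3 (Or.inr rfl) (fun n => H.per (-1) 2 n (Or.inr rfl) (Or.inr rfl)),
    NN_w H.pos H.four (fun _ => true) 1 2 1 (Or.inl rfl) (fun n _ => rfl),
    NN_w H.pos H.four (fun _ => true) 1 2 3 (Or.inr rfl) (fun n _ => rfl),
    NN_w H.pos H.four (fun _ => true) (-1) 2 1 (Or.inl rfl) (fun n _ => rfl),
    NN_w H.pos H.four (fun _ => true) (-1) 2 3 (Or.inr rfl) (fun n _ => rfl)]
  refine le_trans (le_of_eq ?_) h
  congr 1
  push_cast
  simp only [mul_sum, sub_mul, add_mul, sum_add_distrib, sum_sub_distrib, mul_assoc]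

theorem sqrt_div_le (X e : ℕ) : Real.sqrt ((X / e : ℕ) : ℝ) ≤ Real.sqrt X :=
  Real.sqrt_le_sqrt (by exact_mod_cast Nat.div_le_self X e)

/-- nearly half of the squarefree integers have the property -/
theorem NS_half (H : Hf M f) (X : ℕ) :
    |2 * (NS (fun d => f d = true) X : ℝ) - NS (fun _ => True) X| ≤ 48 * M * Real.sqrt X := by
  have a1 := h1 H X
  have a2 := h2 H X
  have a3 := h3 H (X / 2)
  have b3 := sqrt_div_le X 2
  have hM : (0 : ℝ) ≤ 16 * M := by positivity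
  have b3' := mul_le_mul_of_nonneg_left b3 hM
  rw [NS_eq, NS_eq]
  push_cast
  rw [abs_le] at a1 a2 a3 ⊢
  constructor
  · linarith [a1.1, a2.1, a3.1]
  · linarith [a1.2, a2.2, a3.2]

/-- nearly half of the fundamental discriminants have the property -/
theorem NF_half (H : Hf M f) (X : ℕ) :
    |2 * (NF (fun d => f d = true) X : ℝ) - NF (fun _ => True) X| ≤ 48 * M * Real.sqrt X := by
  have a1 := h1 H X
  have a2 := h2 H (X / 4)
  have a3 := h3 H (X / 8)
  have b2 := sqrt_div_le X 4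
  have b3 := sqrt_div_le X 8
  have hM : (0 : ℝ) ≤ 16 * M := by positivity
  have b2' := mul_le_mul_of_nonneg_left b2 hM
  have b3' := mul_le_mul_of_nonneg_left b3 hM
  rw [NF_eq, NF_eq]
  push_cast
  rw [abs_le] at a1 a2 a3 ⊢
  constructor
  · linarith [a1.1, a2.1, a3.1]
  · linarith [a1.2, a2.2, a3.2]

theorem sqrt_small {B ε : ℝ} (hB : 0 ≤ B) (hε : 0 < ε) {X : ℕ} (hX : ⌈(2 * B / ε) ^ 2⌉₊ ≤ X) :
    B * Real.sqrt X ≤ ε / 2 * X := by
  have h5 : (2 * B / ε) ^ 2 ≤ X := (Nat.le_ceil _).trans (by exact_mod_cast hX)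
  have h6 : 2 * B / ε ≤ Real.sqrt X := Real.le_sqrt_of_sq_le h5
  have h7 : 2 * B ≤ Real.sqrt X * ε := by rwa [div_le_iff₀ hε] at h6
  have h8 : Real.sqrt X * Real.sqrt X = X := Real.mul_self_sqrt (Nat.cast_nonneg _)
  have h9 : 0 ≤ Real.sqrt X := Real.sqrt_nonneg _
  nlinarith

/-- **density among the squarefree integers** -/
theorem t_NS (H : Hf M f) {G : ℤ → Prop} {c : ℝ} (hc : 0 ≤ c) (hG : HG (fun d => f d = true) G c) :
    Tendsto (fun X : ℕ => (NS (fun d => f d = true ∧ G d) X : ℝ) / (NS (fun _ => True) X : ℝ)) atTop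
      (nhds (c / 2)) := by
  obtain ⟨c₁, X₁, hc₁, hlow⟩ := low1
  refine ratio hc₁ (X₁ := X₁) (fun X hX => (hlow X hX).trans ?_) ?_
  · rw [NS_eq]
    exact_mod_cast (by omega)
  · intro ε hε
    obtain ⟨X₀, hX₀⟩ := hG.all (ε := ε / 16) (by positivity)
    set B : ℝ := c / 2 * (48 * M) with hB
    have hB0 : 0 ≤ B := by positivity
    refine ⟨X₀ + ⌈(2 * B / ε) ^ 2⌉₊, fun X hX => ?_⟩
    have a := hX₀ X (by omega)
    have e1 := a 1 1 1 1 (Or.inl rfl) (Or.inl rfl) (Or.inl rfl) le_rfl (by norm_num)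
    have e2 := a 1 1 3 1 (Or.inl rfl) (Or.inl rfl) (Or.inr rfl) le_rfl (by norm_num)
    have e3 := a 1 2 1 2 (Or.inl rfl) (Or.inr rfl) (Or.inl rfl) (by norm_num) (by norm_num)
    have e4 := a 1 2 3 2 (Or.inl rfl) (Or.inr rfl) (Or.inr rfl) (by norm_num) (by norm_num)
    have e5 := a (-1) 1 1 1 (Or.inr rfl) (Or.inl rfl) (Or.inl rfl) le_rfl (by norm_num)
    have e6 := a (-1) 1 3 1 (Or.inr rfl) (Or.inl rfl) (Or.inr rfl) le_rfl (by norm_num)
    have e7 := a (-1) 2 1 2 (Or.inr rfl) (Or.inr rfl) (Or.inl rfl) (by norm_num) (by norm_num)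
    have e8 := a (-1) 2 3 2 (Or.inr rfl) (Or.inr rfl) (Or.inr rfl) (by norm_num) (by norm_num)
    rw [Nat.div_one] at e1 e2 e5 e6
    have h1 : |(NS (fun d => f d = true ∧ G d) X : ℝ) - c * (NS (fun d => f d = true) X : ℝ)| ≤
        ε / 2 * X := by
      rw [NS_eq, NS_eq]
      push_cast
      rw [abs_le] at e1 e2 e3 e4 e5 e6 e7 e8 ⊢
      constructor
      · linarith [e1.1, e2.1, e3.1, e4.1, e5.1, e6.1, e7.1, e8.1]
      · linarith [e1.2, e2.2, e3.2, e4.2, e5.2, e6.2, e7.2, e8.2]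
    have h2 := NS_half H X
    have h3 : |c * (NS (fun d => f d = true) X : ℝ) - c / 2 * (NS (fun _ => True) X : ℝ)| ≤
        B * Real.sqrt X := by
      have e : c * (NS (fun d => f d = true) X : ℝ) - c / 2 * (NS (fun _ => True) X : ℝ) =
          c / 2 * (2 * (NS (fun d => f d = true) X : ℝ) - NS (fun _ => True) X) := by ring
      rw [e, abs_mul, abs_of_nonneg (by positivity : 0 ≤ c / 2), hB, mul_assoc]
      exact mul_le_mul_of_nonneg_left h2 (by positivity)
    have h4 := sqrt_small hB0 hε (X := X) (by omega)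
    have h5 := abs_sub_le (NS (fun d => f d = true ∧ G d) X : ℝ)
      (c * (NS (fun d => f d = true) X : ℝ)) (c / 2 * (NS (fun _ => True) X : ℝ))
    linarith

/-- **density among the fundamental discriminants** -/
theorem t_NF (H : Hf M f) {G : ℤ → Prop} {c : ℝ} (hc : 0 ≤ c) (hG : HG (fun d => f d = true) G c) :
    Tendsto (fun X : ℕ => (NF (fun d => f d = true ∧ G d) X : ℝ) / (NF (fun _ => True) X : ℝ)) atTop
      (nhds (c / 2)) := by
  obtain ⟨c₁, X₁, hc₁, hlow⟩ := low1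
  refine ratio hc₁ (X₁ := X₁) (fun X hX => (hlow X hX).trans ?_) ?_
  · rw [NF_eq]
    exact_mod_cast (by omega)
  · intro ε hε
    obtain ⟨X₀, hX₀⟩ := hG.all (ε := ε / 16) (by positivity)
    set B : ℝ := c / 2 * (48 * M) with hB
    have hB0 : 0 ≤ B := by positivity
    refine ⟨X₀ + ⌈(2 * B / ε) ^ 2⌉₊, fun X hX => ?_⟩
    have a := hX₀ X (by omega)
    have e1 := a 1 1 1 1 (Or.inl rfl) (Or.inl rfl) (Or.inl rfl) le_rfl (by norm_num)
    have e2 := a 1 1 3 4 (Or.inl rfl) (Or.inl rfl) (Or.inr rfl) (by norm_num) (by norm_num)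
    have e3 := a 1 2 1 8 (Or.inl rfl) (Or.inr rfl) (Or.inl rfl) (by norm_num) (by norm_num)
    have e4 := a 1 2 3 8 (Or.inl rfl) (Or.inr rfl) (Or.inr rfl) (by norm_num) (by norm_num)
    have e5 := a (-1) 1 1 4 (Or.inr rfl) (Or.inl rfl) (Or.inl rfl) (by norm_num) (by norm_num)
    have e6 := a (-1) 1 3 1 (Or.inr rfl) (Or.inl rfl) (Or.inr rfl) le_rfl (by norm_num)
    have e7 := a (-1) 2 1 8 (Or.inr rfl) (Or.inr rfl) (Or.inl rfl) (by norm_num) (by norm_num)
    have e8 := a (-1) 2 3 8 (Or.inr rfl) (Or.inr rfl) (Or.inr rfl) (by norm_num) (by norm_num)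
    rw [Nat.div_one] at e1 e6
    have h1 : |(NF (fun d => f d = true ∧ G d) X : ℝ) - c * (NF (fun d => f d = true) X : ℝ)| ≤
        ε / 2 * X := by
      rw [NF_eq, NF_eq]
      push_cast
      rw [abs_le] at e1 e2 e3 e4 e5 e6 e7 e8 ⊢
      constructor
      · linarith [e1.1, e2.1, e3.1, e4.1, e5.1, e6.1, e7.1, e8.1]
      · linarith [e1.2, e2.2, e3.2, e4.2, e5.2, e6.2, e7.2, e8.2]
    have h2 := NF_half H X
    have h3 : |c * (NF (fun d => f d = true) X : ℝ) - c / 2 * (NF (fun _ => True) X : ℝ)| ≤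
        B * Real.sqrt X := by
      have e : c * (NF (fun d => f d = true) X : ℝ) - c / 2 * (NF (fun _ => True) X : ℝ) =
          c / 2 * (2 * (NF (fun d => f d = true) X : ℝ) - NF (fun _ => True) X) := by ring
      rw [e, abs_mul, abs_of_nonneg (by positivity : 0 ≤ c / 2), hB, mul_assoc]
      exact mul_le_mul_of_nonneg_left h2 (by positivity)
    have h4 := sqrt_small hB0 hε (X := X) (by omega)
    have h5 := abs_sub_le (NF (fun d => f d = true ∧ G d) X : ℝ)
      (c * (NF (fun d => f d = true) X : ℝ)) (c / 2 * (NF (fun _ => True) X : ℝ))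
    linarith

end

/-! ### level 15 -/

/-- the root number condition of level 15 -/
def f15 (m : ℤ) : Bool := decide ((if m < 0 then (-1 : ℤ) else 1) *
  (if m % 3 = 2 then -1 else 1) * (if m % 5 = 1 ∨ m % 5 = 4 then 1 else -1) = 1)

theorem hf15 : Hf 60 f15 where
  pos := by norm_num
  four := by norm_num
  per := by
    intro s k n hs hk hn
    unfold f15
    have e0 : (s * (k * n : ℕ) < 0) ↔ (s * (k * (n % 60) : ℕ) < 0) := by
      rcases hs with rfl | rfl <;> rcases hk with rfl | rfl <;> push_cast <;> omega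
    have e3 : (s * (k * n : ℕ)) % 3 = (s * (k * (n % 60) : ℕ)) % 3 := by
      rcases hs with rfl | rfl <;> rcases hk with rfl | rfl <;> push_cast <;> omega
    have e5 : (s * (k * n : ℕ)) % 5 = (s * (k * (n % 60) : ℕ)) % 5 := by
      rcases hs with rfl | rfl <;> rcases hk with rfl | rfl <;> push_cast <;> omega
    simp only [e0, e3, e5]
  w1 := by decide +kernel
  w2 := by decide +kernel
  w3 := by decide +kernel

end Pool.Agent.N916.PQ
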