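import Mathlib
import Pool.Agent.N916.PQ.LB2

/-!
# PQ: the two kernels of a square matrix over the field with two elements
-/

set_option autoImplicit false
set_option linter.all false

open scoped Classical

namespace Pool.Agent.N916.PQ

open Finset Filter
open Pool.Agent.N916.GB (ch orth z2 z2_add_self Ev Gv)

/-- the two kernels have the same number of elements -/
theorem card_ker {V W : Type} [Fintype V] [Fintype W] (hVW : Fintype.card V = Fintype.card W)
    (A : V → W → ZMod 2) :
    (univ.filter fun y : W → ZMod 2 => ∀ i, ∑ j, A i j * y j = 0).card =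
      (univ.filter fun x : V → ZMod 2 => ∀ j, ∑ i, A i j * x i = 0).card := by
  have h1 : ∑ y : W → ZMod 2, ∑ t : V → ZMod 2, ch (∑ i, t i * ∑ j, A i j * y j) =
      ((univ.filter fun y : W → ZMod 2 => ∀ i, ∑ j, A i j * y j = 0).card : ℝ) *
        2 ^ Fintype.card V := by
    rw [card_filter, Nat.cast_sum, sum_mul]
    refine sum_congr rfl fun y _ => ?_
    rw [orth]
    split_ifs
    · rw [Nat.cast_one, one_mul]
    · rw [Nat.cast_zero, zero_mul]
  have h2 : ∑ t : V → ZMod 2, ∑ y : W → ZMod 2, ch (∑ j, y j * ∑ i, A i j * t i) =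
      ((univ.filter fun x : V → ZMod 2 => ∀ j, ∑ i, A i j * x i = 0).card : ℝ) *
        2 ^ Fintype.card W := by
    rw [card_filter, Nat.cast_sum, sum_mul]
    refine sum_congr rfl fun y _ => ?_
    rw [orth]
    split_ifs
    · rw [Nat.cast_one, one_mul]
    · rw [Nat.cast_zero, zero_mul]
  have h3 : ∑ y : W → ZMod 2, ∑ t : V → ZMod 2, ch (∑ i, t i * ∑ j, A i j * y j) =
      ∑ t : V → ZMod 2, ∑ y : W → ZMod 2, ch (∑ j, y j * ∑ i, A i j * t i) := by
    rw [sum_comm]
    refine sum_congr rfl fun t _ => sum_congr rfl fun y _ => congrArg ch ?_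
    simp only [mul_sum]
    rw [sum_comm]
    refine sum_congr rfl fun v _ => sum_congr rfl fun p _ => ?_
    ring
  rw [h1, h2, hVW] at h3
  have h4 : (0 : ℝ) < 2 ^ Fintype.card W := by positivity
  exact_mod_cast mul_right_cancel₀ h4.ne' h3

/-- if one kernel is generated by one vector, so is the other -/
theorem dual {V W : Type} [Fintype V] [Fintype W] (hVW : Fintype.card V = Fintype.card W)
    (A : V → W → ZMod 2) (x0 : V → ZMod 2) (y0 : W → ZMod 2) (hx : ∀ j, ∑ i, A i j * x0 i = 0)
    (hx0 : x0 ≠ 0)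
    (hR : ∀ y : W → ZMod 2, (∀ i, ∑ j, A i j * y j = 0) → ∃ β : ZMod 2, y = β • y0) :
    ∀ x : V → ZMod 2, (∀ j, ∑ i, A i j * x i = 0) → ∃ α : ZMod 2, x = α • x0 := by
  have h1 : (univ.filter fun y : W → ZMod 2 => ∀ i, ∑ j, A i j * y j = 0).card ≤ 2 := by
    refine le_trans (card_le_card (t := {0, y0}) fun y hy => ?_) card_le_two
    rw [mem_filter] at hy
    obtain ⟨β, hβ⟩ := hR y hy.2
    rw [mem_insert, mem_singleton]
    rcases z2 β with h | h
    · left
      rw [hβ, h, zero_smul]
    · right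
      rw [hβ, h, one_smul]
  rw [card_ker hVW] at h1
  have h2 : ({0, x0} : Finset (V → ZMod 2)) =
      univ.filter fun x : V → ZMod 2 => ∀ j, ∑ i, A i j * x i = 0 := by
    refine eq_of_subset_of_card_le ?_ ?_
    · intro x hx'
      rw [mem_insert, mem_singleton] at hx'
      rw [mem_filter]
      refine ⟨mem_univ _, fun j => ?_⟩
      rcases hx' with h | h
      · rw [h]
        exact sum_eq_zero fun i _ => mul_zero _
      · rw [h]
        exact hx j
    · rw [card_pair (Ne.symm hx0)]
      exact h1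
  intro x hx'
  have h3 : x ∈ ({0, x0} : Finset (V → ZMod 2)) := by
    rw [h2, mem_filter]
    exact ⟨mem_univ _, hx'⟩
  rw [mem_insert, mem_singleton] at h3
  rcases h3 with h | h
  · exact ⟨0, by rw [h, zero_smul]⟩
  · exact ⟨1, by rw [h, one_smul]⟩

/-- the left kernel of the bordered matrix is generated by `(wx, x0)` -/
def Kl {V : Type} [Fintype V] (N : V → V → ZMod 2) (u w : V → ZMod 2) (e : ZMod 2)
    (wx : V → ZMod 2) (x0 : ZMod 2) : Prop :=
  ∀ (x : V → ZMod 2) (s : ZMod 2), (∀ j, ∑ i, Lm N i j * x i + s * w j = 0) →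
    ∑ i, u i * x i + s * e = 0 → ∃ α : ZMod 2, s = α * x0 ∧ ∀ i, x i = α * wx i

section
variable {V : Type} [Fintype V] {N : V → V → ZMod 2} {u w wx : V → ZMod 2} {e x0 : ZMod 2}

theorem Bm_r (y : Option V → ZMod 2) : (∀ i, ∑ j, Bm N u w e i j * y j = 0) ↔
    (∀ i, Ev N (fun j => y (some j)) i + y none * u i = 0) ∧
      ∑ j, w j * y (some j) + y none * e = 0 := by
  have h1 : ∀ i, ∑ j, Bm N u w e (some i) j * y j =
      Ev N (fun j => y (some j)) i + y none * u i := by
    intro i
    rw [Fintype.sum_option, ← Lm_Ev, add_comm, mul_comm (y none)]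
    rfl
  have h2 : ∑ j, Bm N u w e none j * y j = ∑ j, w j * y (some j) + y none * e := by
    rw [Fintype.sum_option, add_comm, mul_comm (y none)]
    rfl
  constructor
  · intro h
    exact ⟨fun i => by rw [← h1]; exact h _, by rw [← h2]; exact h _⟩
  · rintro ⟨h3, h4⟩ (_ | i)
    · rw [h2, h4]
    · rw [h1, h3]

theorem Bm_l (x : Option V → ZMod 2) : (∀ j, ∑ i, Bm N u w e i j * x i = 0) ↔
    (∀ j, ∑ i, Lm N i j * x (some i) + x none * w j = 0) ∧
      ∑ i, u i * x (some i) + x none * e = 0 := by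
  have h1 : ∀ j, ∑ i, Bm N u w e i (some j) * x i =
      ∑ i, Lm N i j * x (some i) + x none * w j := by
    intro j
    rw [Fintype.sum_option, add_comm, mul_comm (x none)]
    rfl
  have h2 : ∑ i, Bm N u w e i none * x i = ∑ i, u i * x (some i) + x none * e := by
    rw [Fintype.sum_option, add_comm, mul_comm (x none)]
    rfl
  constructor
  · intro h
    exact ⟨fun j => by rw [← h1]; exact h _, by rw [← h2]; exact h _⟩
  · rintro ⟨h3, h4⟩ (_ | i)
    · rw [h2, h4]
    · rw [h1, h3]

theorem Kb_Kl [Nonempty V] (hw : ∑ j, w j = 0)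
    (h1 : ∀ j, ∑ i, Lm N i j * wx i + x0 * w j = 0) (h2 : ∑ i, u i * wx i + x0 * e = 0)
    (hne : (∃ i, wx i ≠ 0) ∨ x0 ≠ 0) : Kb N u w e ↔ Kl N u w e wx x0 := by
  have hX : ∀ j, ∑ i, Bm N u w e i j * (fun o : Option V => Option.elim o x0 wx) i = 0 :=
    (Bm_l _).2 ⟨h1, h2⟩
  have hY : ∀ i, ∑ j, Bm N u w e i j * (fun o : Option V => Option.elim o 0 fun _ => 1) j = 0 := by
    rw [Bm_r]
    refine ⟨fun i => ?_, ?_⟩
    · show Ev N (fun _ => 1) i + 0 * u i = 0
      rw [Pool.Agent.N916.GB.Ev_const, zero_mul, add_zero]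
    · show ∑ j, w j * 1 + 0 * e = 0
      rw [zero_mul, add_zero]
      simp only [mul_one]
      exact hw
  constructor
  · intro h x s h3 h4
    have h5 := dual rfl (Bm N u w e) _ (fun o : Option V => Option.elim o 0 fun _ => 1) hX (by
      intro h
      rcases hne with ⟨i, hi⟩ | h0
      · exact hi (congrFun h (some i))
      · exact h0 (congrFun h none)) (fun y hy => by
        obtain ⟨h6, β, h7⟩ := h _ _ ((Bm_r y).1 hy).1 ((Bm_r y).1 hy).2
        refine ⟨β, funext ?_⟩
        rintro (_ | i)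
        · rw [h6]
          show 0 = β * 0
          rw [mul_zero]
        · show _ = β * 1
          rw [mul_one]
          exact h7 i) (fun o => Option.elim o s x) ((Bm_l _).2 ⟨h3, h4⟩)
    obtain ⟨α, hα⟩ := h5
    exact ⟨α, congrFun hα none, fun i => congrFun hα (some i)⟩
  · intro h y a h3 h4
    have h5 := dual rfl (fun j i => Bm N u w e i j)
      (fun o : Option V => Option.elim o 0 fun _ => 1)
      (fun o : Option V => Option.elim o x0 wx) hY (by
      intro h
      have i : V := Classical.arbitrary V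
      exact one_ne_zero (congrFun h (some i))) (fun x hx => by
        obtain ⟨α, h6, h7⟩ := h _ _ ((Bm_l x).1 hx).1 ((Bm_l x).1 hx).2
        refine ⟨α, funext ?_⟩
        rintro (_ | i)
        · exact h6
        · exact h7 i) (fun o => Option.elim o a y) ((Bm_r _).2 ⟨h3, h4⟩)
    obtain ⟨β, hβ⟩ := h5
    refine ⟨?_, β, fun j => ?_⟩
    · have : a = β * 0 := congrFun hβ none
      rw [this, mul_zero]
    · have : y j = β * 1 := congrFun hβ (some j)
      rw [this, mul_one]

/-- without a border -/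
theorem Gv_l [Nonempty V] (h1 : ∀ j, ∑ i, Lm N i j * wx i = 0) (hne : ∃ i, wx i ≠ 0) :
    Gv N ↔ ∀ x : V → ZMod 2, (∀ j, ∑ i, Lm N i j * x i = 0) → ∃ α : ZMod 2, ∀ i, x i = α * wx i := by
  have hY : ∀ i, ∑ j, Lm N i j * (fun _ : V => (1 : ZMod 2)) j = 0 := by
    intro i
    rw [Lm_Ev, Pool.Agent.N916.GB.Ev_const]
  constructor
  · intro h x hx
    obtain ⟨α, hα⟩ := dual rfl (Lm N) wx (fun _ => 1) h1 (by
      intro h
      obtain ⟨i, hi⟩ := hne
      exact hi (congrFun h i)) (fun y hy => by
        have h2 := h y fun q => by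
          have := hy q
          rw [Lm_Ev] at this
          exact this
        refine ⟨y (Classical.arbitrary V), funext fun i => ?_⟩
        rw [Pi.smul_apply, smul_eq_mul, mul_one]
        exact h2 _ _) x hx
    exact ⟨α, congrFun hα⟩
  · intro h y hy
    obtain ⟨β, hβ⟩ := dual rfl (fun j i => Lm N i j) (fun _ => 1) wx hY (by
      intro h
      have i : V := Classical.arbitrary V
      exact one_ne_zero (congrFun h i)) (fun x hx => by
        obtain ⟨α, hα⟩ := h x hx
        exact ⟨α, funext hα⟩) y (fun q => by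
          rw [Lm_Ev]
          exact hy q)
    intro p q
    rw [hβ]
    rfl

end

end Pool.Agent.N916.PQ
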