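import Mathlib
import Pool.Agent.N916.PQ.Dual
import Pool.Agent.N916.AM.Red

/-!
# PQ: the hypothesis LAH for bordered Rédei matrices
-/

set_option autoImplicit false
set_option linter.all false

open scoped Classical

namespace Pool.Agent.N916.PQ

open Finset Filter
open Pool.Agent.Y703.CQ (nr sg)
open Pool.Agent.N973.ND (uu nr_rec nr_self)
open Pool.Agent.N916.GB (Po ps sx pt Vt eta sy Ev z2_add_self)
open Pool.Agent.N958.GB (lb rr rr_inj rr_im NR sgm two_tuples rec_NR ud wd z2 mem_Vt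
  Vt_sub sy_ne)
open Pool.Agent.N916.AM (LAH Nd Rich Bs sub_Bs uu_mod nr_Bs rich3)

section
variable {M : ℕ} {ι : Type} [Fintype ι] [LinearOrder ι] {S₀ : Finset ℕ} {p : ι → ℕ}
  {t : Bool} {r s : ZMod 2}

theorem prm (hS₀ : ∀ v ∈ S₀, Po v) (hp : ∀ i, Po (p i) ∧ p i ∉ S₀ ∧ (p i).Coprime M)
    (i : (Vt t S₀ : Finset ℕ) ⊕ ι) : (rr t S₀ p i).Prime := by
  rcases i with v | k
  · rcases mem_Vt.1 v.2 with h | h
    · show (v : ℕ).Prime
      rw [h.2]
      exact Nat.prime_two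
    · exact (hS₀ _ h).1
  · exact (hp k).1.1

theorem uniq2 (htr : t = true → r ≠ 0 ∨ s ≠ 0) (hS₀ : ∀ v ∈ S₀, Po v) :
    ∀ v, wd r (rr t S₀ p) (Sum.inl v) = 0 → ud s (rr t S₀ p) (Sum.inl v) = 1 ∧
      ∀ v', wd r (rr t S₀ p) (Sum.inl v') = 0 → v = v' := by
  have h2S : 2 ∉ S₀ := fun h => (hS₀ 2 h).2 rfl
  have ht : ∀ v ∈ Vt t S₀, v = 2 → t = true := by
    intro v hv hv2
    rcases mem_Vt.1 hv with h | h
    · exact h.1
    · exact absurd (hv2 ▸ h) h2S
  intro v hv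
  have b1 : ∀ v' : (Vt t S₀ : Finset ℕ), wd r (rr t S₀ p) (Sum.inl v') = 0 → (v' : ℕ) = 2 ∧ r = 0 := by
    intro v' hv'
    have hv'' : (if (v' : ℕ) = 2 then r else 1) = 0 := hv'
    by_cases h : (v' : ℕ) = 2
    · rw [if_pos h] at hv''
      exact ⟨h, hv''⟩
    · rw [if_neg h] at hv''
      exact absurd hv'' (by decide)
  obtain ⟨b2, b3⟩ := b1 v hv
  refine ⟨?_, fun v' hv' => Subtype.ext (b2.trans (b1 v' hv').1.symm)⟩
  have b4 : s = 1 := by
    rcases z2 s with h | h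
    · exact absurd (htr (ht v v.2 b2)) (by
        rintro (h' | h')
        · exact h' b3
        · exact h' h)
    · exact h
  show (if (v : ℕ) = 2 then s else uu v) = 1
  rw [if_pos b2, b4]

theorem card_Vt : Fintype.card (Vt t S₀ : Finset ℕ) ≤ S₀.card + 1 := by
  rw [Fintype.card_coe]
  exact (card_le_card (Vt_sub t S₀)).trans (card_insert_le _ _)

/-- the use of the nondegenerate labels -/
theorem nd_use (hM : 8 ∣ M) (hM0 : 0 < M) (hN : Nd M S₀ (univ.image p)) {g : ℕ}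
    (hg : g ∈ Bs M S₀) (hgV : g ∉ Vt t S₀) (b : ↥(Vt t S₀) → ZMod 2) (a c : ZMod 2)
    (h : ∀ l, ∑ v, b v * nr (p l) v + a * nr (p l) g + c * uu (p l) = 0) :
    (∀ v, b v = 0) ∧ a = 0 ∧ c = 0 := by
  by_contra hcon
  set w : ℕ → ZMod 2 := fun n => if h : n ∈ Vt t S₀ then b ⟨n, h⟩ else if n = g then a else 0
    with hw
  have hw1 : ∀ v : (Vt t S₀ : Finset ℕ), w v = b v := fun v => by
    rw [hw]
    exact dif_pos v.2
  have hwg : w g = a := by
    rw [hw]
    show dite _ _ _ = _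
    rw [dif_neg hgV, if_pos rfl]
  have hw2 : ∀ n, n ∉ insert g (Vt t S₀) → w n = 0 := fun n hn => by
    rw [mem_insert, not_or] at hn
    rw [hw]
    show dite _ _ _ = _
    rw [dif_neg hn.2, if_neg hn.1]
  have hsub : insert g (Vt t S₀) ⊆ Bs M S₀ := by
    intro x hx
    rcases mem_insert.1 hx with h | h
    · rw [h]
      exact hg
    · exact (Vt_sub t S₀).trans (sub_Bs hM hM0 S₀) h
  obtain ⟨x, hx, hx2⟩ := hN w c (by
    by_contra h0
    push Not at h0
    refine hcon ⟨fun v => ?_, ?_, h0.2⟩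
    · rw [← hw1]
      exact h0.1 _ (hsub (mem_insert_of_mem v.2))
    · rw [← hwg]
      exact h0.1 _ hg)
  obtain ⟨k, -, rfl⟩ := mem_image.1 hx
  apply hx2
  have c2 : ∑ v ∈ insert g (Vt t S₀), w v * nr (p k) v = ∑ v ∈ Bs M S₀, w v * nr (p k) v :=
    sum_subset hsub fun x _ hx => by rw [hw2 x hx, zero_mul]
  have c3 : ∑ v : (Vt t S₀ : Finset ℕ), b v * nr (p k) v = ∑ v ∈ Vt t S₀, w v * nr (p k) v := by
    rw [← Finset.sum_coe_sort (Vt t S₀)]
    refine sum_congr rfl fun v _ => ?_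
    rw [hw1]
  rw [← c2, sum_insert hgV, hwg, ← c3, ← h k]
  ring

/-- two tuples of large primes -/
theorem two_q (hM : 8 ∣ M) (hM0 : 0 < M) (hS₀ : ∀ v ∈ S₀, Po v)
    (hp : ∀ i, Po (p i) ∧ p i ∉ S₀ ∧ (p i).Coprime M) (hpi : Function.Injective p) {q : ι → ℕ}
    (hqi : Function.Injective q) (hq : ∀ i, Po (q i) ∧ q i ∉ S₀ ∧ q i % M = p i % M ∧
      ∀ v ∈ S₀, nr (q i) v = nr (p i) v) :
    NR r s (rr t S₀ q) = pt (NR r s (rr t S₀ p)) (sx (sgm q + sgm p)) ∧
    (∀ i, (q i).Coprime M) ∧ (∀ i, ∀ v ∈ Bs M S₀, nr (q i) v = nr (p i) v) ∧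
    ∀ i, uu (q i) = uu (p i) := by
  have h4M : (4 : ℕ) ∣ M := Dvd.dvd.trans (by norm_num) hM
  have hmod4 : ∀ i, q i % 4 = p i % 4 := by
    intro i
    rw [← Nat.mod_mod_of_dvd (q i) h4M, (hq i).2.2.1, Nat.mod_mod_of_dvd (p i) h4M]
  have huu : ∀ i, uu (q i) = uu (p i) := fun i => uu_mod hM (hq i).2.2.1
  have hqc : ∀ i, (q i).Coprime M := by
    intro i
    have h1 := (hp i).2.2
    rw [Nat.coprime_comm, Nat.Coprime, Nat.gcd_rec] at h1 ⊢
    rw [(hq i).2.2.1]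
    exact h1
  have hv : ∀ i, ∀ v ∈ Bs M S₀, nr (q i) v = nr (p i) v := fun i =>
    nr_Bs hM (hq i).1 (hp i).1 (hqc i) (hp i).2.2 (hq i).2.2.1 (hq i).2.2.2
  refine ⟨?_, hqc, hv, huu⟩
  refine two_tuples (S₀ := S₀) (τ := fun i => p i % 4) t r s hqi hpi (fun i => (hq i).1)
    (fun i => (hp i).1) hmod4 (fun i => rfl) (fun i => ?_)
  refine Prod.ext ?_ ?_
  · funext v
    exact hv i v (sub_Bs hM hM0 S₀ v.2)
  · funext v
    show nr v (q i) = nr v (p i)
    have hne1 : q i ≠ v := fun h => (hq i).2.1 (h ▸ v.2)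
    have hne2 : p i ≠ v := fun h => (hp i).2.1 (h ▸ v.2)
    rw [nr_rec (hq i).1.1 (hq i).1.2 (hS₀ v v.2).1 (hS₀ v v.2).2 hne1,
      nr_rec (hp i).1.1 (hp i).1.2 (hS₀ v v.2).1 (hS₀ v v.2).2 hne2, huu,
      hv i v (sub_Bs hM hM0 S₀ (mem_insert_of_mem v.2))]

end

/-- shifting the symbols -/
theorem shift_card {ι : Type} [Fintype ι] [LinearOrder ι] (P : (ps ι → ZMod 2) → Prop)
    (τ : ps ι → ZMod 2) : (univ.filter fun σ : ps ι → ZMod 2 => P (σ + τ)).card =
      (univ.filter P).card := by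
  refine card_bij (fun σ _ => σ + τ) ?_ ?_ ?_
  · intro σ hσ
    rw [mem_filter] at hσ ⊢
    exact ⟨mem_univ _, hσ.2⟩
  · intro σ _ σ' _ h
    exact add_right_cancel h
  · intro σ hσ
    refine ⟨σ - τ, ?_, sub_add_cancel _ _⟩
    rw [mem_filter] at hσ ⊢
    refine ⟨mem_univ _, ?_⟩
    simp only [sub_add_cancel]
    exact hσ.2

/-- the criterion `G` is the criterion of a bordered Rédei matrix -/
def IsB (M : ℕ) (K : Finset ℕ) (t : Bool) (r s : ZMod 2) (fu fw : ℕ → ZMod 2) (e x0 : ZMod 2)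
    (G : Finset ℕ → Prop) : Prop :=
  ∀ (V : Type) [Fintype V] (ρ : V → ℕ) (S : Finset ℕ), (∀ v ∈ S, Po v) → (∏ v ∈ S, v) % M ∈ K →
    S.Nonempty → Function.Injective ρ → univ.image ρ = Vt t S →
    (G S ↔ Kb (NR r s ρ) (fun i => fu (ρ i)) (fun i => fw (ρ i)) e) ∧ ∑ i, fw (ρ i) = 0 ∧
    (∀ j, ∑ i, Lm (NR r s ρ) i j * wd r ρ i + x0 * fw (ρ j) = 0) ∧
    ∑ i, fu (ρ i) * wd r ρ i + x0 * e = 0

theorem lah_b {M : ℕ} (hM : 8 ∣ M) (hM0 : 0 < M) {t : Bool} {r s : ZMod 2} {K : Finset ℕ}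
    (htr : t = true → r ≠ 0 ∨ s ≠ 0) {g h : ℕ} (hg : g ∈ M.primeFactors) (hg2 : g ≠ 2)
    (hh : h ∈ M.primeFactors) (hh2 : h ≠ 2) (hgK : ∀ a ∈ K, ¬ g ∣ a) (hhK : ∀ a ∈ K, ¬ h ∣ a)
    {fu fw : ℕ → ZMod 2} {e x0 κ a0 κ' : ZMod 2}
    (hfu : ∀ p, Po p → p.Coprime M → fu p = nr p g + κ * uu p)
    (hfw : ∀ p, Po p → p.Coprime M → fw p = a0 * nr p h + κ' * uu p) (ha0 : a0 = 1 ∨ κ' = 1)
    {G : Finset ℕ → Prop} (hG : IsB M K t r s fu fw e x0 G) : LAH M K G eta := by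
  intro ε hε
  obtain ⟨V₀, hV₀⟩ := t_LC ε hε
  refine ⟨V₀ + 4, ?_⟩
  intro ι _ _ S₀ p hS₀ hp hpi hpK hN hR
  have h2S : 2 ∉ S₀ := fun h => (hS₀ 2 h).2 rfl
  set r₀ := rr t S₀ p with hr₀
  have hrp : ∀ i, (r₀ i).Prime := prm hS₀ hp
  have hrinj : Function.Injective r₀ := rr_inj t hpi (fun i => (hp i).2.1) fun i => (hp i).1.2
  -- the number of the large primes
  have hcnt := rich3 hM hM0 hpi hR
  have hιn : 0 < (univ.filter fun i => uu (p i) = 1).card := by
    have : 0 < (V₀ + 4) * (S₀.card + 1) := by positivity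
    omega
  obtain ⟨i₀, -⟩ := card_pos.1 hιn
  have hprod : ∀ q : ι → ℕ, Function.Injective q → (∀ i, q i ∉ S₀) →
      ∏ x ∈ S₀ ∪ univ.image q, x = (∏ v ∈ S₀, v) * ∏ i, q i := by
    intro q hqi hq
    have hdis : Disjoint S₀ (univ.image q) := by
      rw [Finset.disjoint_left]
      intro x hx hx'
      obtain ⟨i, -, rfl⟩ := mem_image.1 hx'
      exact hq i hx
    rw [prod_union hdis, prod_image fun i _ j _ h => hqi h]
  have hKq : ∀ q : ι → ℕ, Function.Injective q → (∀ i, q i ∉ S₀) → (∀ i, q i % M = p i % M) →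
      (∏ x ∈ S₀ ∪ univ.image q, x) % M ∈ K := by
    intro q hqi hq hqm
    rw [hprod q hqi hq]
    have h1 : (∏ i, q i) % M = (∏ i, p i) % M := by
      rw [Finset.prod_nat_mod, Finset.prod_nat_mod univ M p]
      simp only [hqm]
    rw [Nat.mul_mod, h1, ← Nat.mul_mod]
    exact hpK
  have hPoS : ∀ q : ι → ℕ, (∀ i, Po (q i)) → ∀ v ∈ S₀ ∪ univ.image q, Po v := by
    intro q hq v hv
    rcases mem_union.1 hv with h | h
    · exact hS₀ v h
    · obtain ⟨i, -, rfl⟩ := mem_image.1 h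
      exact hq i
  have hne : ∀ q : ι → ℕ, (S₀ ∪ univ.image q).Nonempty := fun q =>
    ⟨q i₀, mem_union_right _ (mem_image_of_mem q (mem_univ i₀))⟩
  have hnd : ∀ {g : ℕ}, g ∈ M.primeFactors → g ≠ 2 → (∀ a ∈ K, ¬ g ∣ a) →
      g ∈ Bs M S₀ ∧ g ∉ Vt t S₀ := by
    intro g hg hg2 hgK
    refine ⟨mem_union_right _ hg, fun h => ?_⟩
    rcases mem_Vt.1 h with h | h
    · exact hg2 h.2
    · refine hgK _ hpK ?_
      rw [Nat.dvd_mod_iff (Nat.dvd_of_mem_primeFactors hg)]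
      exact Dvd.dvd.mul_right (dvd_prod_of_mem (fun x => x) h) _
  obtain ⟨hgB, hgV⟩ := hnd hg hg2 hgK
  obtain ⟨hhB, hhV⟩ := hnd hh hh2 hhK
  obtain ⟨-, k1, k2, k3⟩ := hG _ r₀ (S₀ ∪ univ.image p) (hPoS p fun i => (hp i).1)
    (hKq p hpi (fun i => (hp i).2.1) fun i => rfl) (hne p) hrinj (rr_im t)
  have hN1 : ∀ (v : (Vt t S₀ : Finset ℕ)) (l : ι), NR r s r₀ (Sum.inl v) (Sum.inr l) = nr (p l) v :=
    fun v l => sy_ne r s (hp l).1.2
  have hud : ∀ l : ι, ud s r₀ (Sum.inr l) = uu (p l) := fun l => if_neg (hp l).1.2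
  have hwd : ∀ l : ι, wd r r₀ (Sum.inr l) = 1 := fun l => if_neg (hp l).1.2
  have h2 := hV₀ (Vt t S₀) ι (NR r s r₀) (wd r r₀) (ud s r₀) (fun i => fu (r₀ i))
    (fun i => fw (r₀ i)) e x0 hwd (fun i j hij => rec_NR r s hrinj hrp i j hij) k1
    (by
      intro y
      have h1 : ∑ i, wd r r₀ i * Ev (NR r s r₀) y i + x0 * ∑ j, fw (r₀ j) * y j =
          ∑ j, (∑ i, Lm (NR r s r₀) i j * wd r r₀ i + x0 * fw (r₀ j)) * y j := by
        simp only [add_mul, sum_add_distrib, mul_sum, sum_mul, ← Lm_Ev]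
        congr 1
        · rw [sum_comm]
          refine sum_congr rfl fun i _ => sum_congr rfl fun j _ => ?_
          ring
        · exact sum_congr rfl fun j _ => by ring
      rw [h1]
      exact sum_eq_zero fun j _ => by rw [k2, zero_mul])
    (by
      rw [← k3]
      congr 1
      exact sum_congr rfl fun i _ => mul_comm _ _)
    (by
      intro b a hb
      obtain ⟨h3, h4, h5⟩ := nd_use hM hM0 hN hhB hhV b (a * a0) (a * κ') fun l => by
        have h6 := hb l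
        have h7 : fw (r₀ (Sum.inr l)) = a0 * nr (p l) h + κ' * uu (p l) :=
          hfw (p l) (hp l).1 (hp l).2.2
        simp only [hN1] at h6
        rw [h7] at h6
        rw [← h6]
        ring
      refine ⟨h3, ?_⟩
      rcases ha0 with h6 | h6
      · rw [h6, mul_one] at h4
        exact h4
      · rw [h6, mul_one] at h5
        exact h5)
    (by
      intro b a hb
      obtain ⟨h3, h4, h5⟩ := nd_use hM hM0 hN hgB hgV (fun v => b v * wd r r₀ (Sum.inl v)) a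
        (∑ v, b v * ud s r₀ (Sum.inl v) + a * κ) fun l => by
        have h6 := hb l
        have h7 : fu (r₀ (Sum.inr l)) = nr (p l) g + κ * uu (p l) :=
          hfu (p l) (hp l).1 (hp l).2.2
        rw [h7] at h6
        have h8 : ∀ v, NR r s r₀ (Sum.inr l) (Sum.inl v) = wd r r₀ (Sum.inl v) * nr (p l) v +
            ud s r₀ (Sum.inl v) * uu (p l) := by
          intro v
          have h9 := rec_NR r s hrinj hrp (Sum.inr l) (Sum.inl v) (by simp)
          rw [hwd, hud, one_mul, hN1] at h9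
          have h10 := z2_add_self (wd r r₀ (Sum.inl v) * nr (p l) v)
          linear_combination h9 - h10
        simp only [h8] at h6
        rw [← h6, add_mul, sum_mul]
        simp only [mul_add, sum_add_distrib, mul_assoc]
        ring
      refine ⟨fun v => ?_, h4⟩
      rcases z2 (wd r r₀ (Sum.inl v)) with h6 | h6
      · obtain ⟨h7, h8⟩ := uniq2 htr hS₀ v h6
        rw [h4, zero_mul, add_zero, sum_eq_single v] at h5
        · rw [h7, mul_one] at h5
          exact h5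
        · intro v' _ hv'
          rcases z2 (wd r r₀ (Sum.inl v')) with h9 | h9
          · exact absurd (h8 v' h9).symm hv'
          · have : b v' * wd r r₀ (Sum.inl v') = 0 := h3 v'
            rw [h9, mul_one] at this
            rw [this, zero_mul]
        · intro h
          exact absurd (mem_univ v) h
      · have : b v * wd r r₀ (Sum.inl v) = 0 := h3 v
        rw [h6, mul_one] at this
        exact this)
    (by
      have d1 := card_Vt (t := t) (S₀ := S₀)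
      have d2 : (univ.filter fun k : ι => ud s r₀ (Sum.inr k) = 1) =
          univ.filter fun i => uu (p i) = 1 := by
        refine filter_congr fun k _ => ?_
        rw [hud]
      rw [d2]
      refine le_trans ?_ hcnt
      have : (V₀ + 4) * (S₀.card + 1) = V₀ * S₀.card + V₀ + 4 * (S₀.card + 1) := by ring
      rw [this]
      have := Nat.zero_le (V₀ * S₀.card)
      omega)
  refine ⟨fun σ => Kb (pt (NR r s r₀) (sx (σ + sgm p))) (fun i => fu (r₀ i))
    (fun i => fw (r₀ i)) e, ?_, ?_⟩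
  · intro q hqi hq
    obtain ⟨a1, a2, a3, a4⟩ := two_q (t := t) (r := r) (s := s) hM hM0 hS₀ hp hpi hqi hq
    obtain ⟨b1, -⟩ := hG _ (rr t S₀ q) (S₀ ∪ univ.image q) (hPoS q fun i => (hq i).1)
      (hKq q hqi (fun i => (hq i).2.1) fun i => (hq i).2.2.1) (hne q)
      (rr_inj t hqi (fun i => (hq i).2.1) fun i => (hq i).1.2) (rr_im t)
    rw [b1, a1]
    have c1 : (fun i => fu (rr t S₀ q i)) = fun i => fu (r₀ i) := by
      funext i
      rcases i with v | k
      · rfl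
      · show fu (q k) = fu (p k)
        rw [hfu _ (hq k).1 (a2 k), hfu _ (hp k).1 (hp k).2.2, a3 k g hgB, a4 k]
    have c2 : (fun i => fw (rr t S₀ q i)) = fun i => fw (r₀ i) := by
      funext i
      rcases i with v | k
      · rfl
      · show fw (q k) = fw (p k)
        rw [hfw _ (hq k).1 (a2 k), hfw _ (hp k).1 (hp k).2.2, a3 k h hhB, a4 k]
    rw [c1, c2]
    rfl
  · rw [shift_card (fun σ => Kb (pt (NR r s r₀) (sx σ)) (fun i => fu (r₀ i))
      (fun i => fw (r₀ i)) e)]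
    exact h2

end Pool.Agent.N916.PQ
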