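import Mathlib
import Pool.Agent.N916.PQ.Dual
import Pool.Agent.N809.PQ.P15

/-!
# PQ: the reduction of the system of level 15 to a bordered Rédei matrix
-/

set_option autoImplicit false
set_option linter.all false

open scoped Classical

namespace Pool.Agent.N916.PQ

open Finset Filter
open Pool.Agent.N916.GB (z2_add_self Ev Gv)
open Pool.Agent.N875.X15 (PR ps ra)
open Pool.Agent.N875.P17 (al row_sum)
open Pool.Agent.N809.PQ

/-- the index set -/
structure Ix (m : ℤ) {V : Type} [Fintype V] (r : V → ℕ) : Prop where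
  inj : Function.Injective r
  im : univ.image r = PR m

/-- the Rédei symbols -/
def Nm (m : ℤ) {V : Type} (r : V → ℕ) (i j : V) : ZMod 2 := ra (r i) (ps m (r j))

section
variable {m : ℤ} {V : Type} [Fintype V] {r : V → ℕ}

theorem Ix.mem (H : Ix m r) (i : V) : r i ∈ PR m := by
  rw [← H.im]
  exact mem_image_of_mem r (mem_univ i)

theorem Ix.sum (H : Ix m r) (f : ℕ → ZMod 2) : ∑ q ∈ PR m, f q = ∑ i, f (r i) := by
  rw [← H.im, sum_image fun i _ j _ h => H.inj h]

theorem Ix.all (H : Ix m r) (P : ℕ → Prop) : (∀ q ∈ PR m, P q) ↔ ∀ i, P (r i) := by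
  rw [← H.im]
  constructor
  · intro h i
    exact h _ (mem_image_of_mem r (mem_univ i))
  · intro h q hq
    obtain ⟨i, -, rfl⟩ := mem_image.1 hq
    exact h i

theorem Ix.ext (H : Ix m r) (x : V → ZMod 2) : ∃ x' : ℕ → ZMod 2, ∀ i, x' (r i) = x i :=
  ⟨Function.extend r x 0, fun i => H.inj.extend_apply x 0 i⟩

theorem Ix.lm (H : Ix m r) (i j : V) :
    Pool.Agent.N875.P17.Lm m (r i) (r j) = Lm (Nm m r) i j := by
  by_cases h : i = j
  · subst h
    unfold Pool.Agent.N875.P17.Lm Lm
    rw [if_pos rfl, if_pos rfl]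
    have h1 : ∀ q ∈ PR m, (if q = r i then (0 : ZMod 2) else ra (r i) (ps m q)) =
        if q = r i then (0 : ZMod 2) else ra (r i) (ps m q) := fun _ _ => rfl
    have h2 : ∑ q ∈ (PR m).erase (r i), ra (r i) (ps m q) =
        ∑ q ∈ PR m, if q = r i then (0 : ZMod 2) else ra (r i) (ps m q) := by
      rw [← Finset.add_sum_erase (PR m) _ (H.mem i), if_pos rfl, zero_add]
      exact sum_congr rfl fun k hk => (if_neg (Finset.ne_of_mem_erase hk)).symm
    rw [h2, H.sum]
    refine sum_congr rfl fun k _ => ?_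
    by_cases hk : k = i
    · rw [if_pos hk, if_pos (by rw [hk])]
    · rw [if_neg hk, if_neg fun h => hk (H.inj h)]
      rfl
  · unfold Pool.Agent.N875.P17.Lm Lm
    rw [if_neg h, if_neg fun h' => h (H.inj h')]
    rfl

/-- the border vectors -/
def wx (m : ℤ) {V : Type} (r : V → ℕ) (i : V) : ZMod 2 := if (r i : ℤ) ∣ m then 1 else 0
def ua (m : ℤ) {V : Type} (r : V → ℕ) (i : V) : ZMod 2 := al m (r i)
def uc (d : ℤ) {V : Type} (r : V → ℕ) (i : V) : ZMod 2 := ra (r i) d
def vq (m : ℤ) (q : ℕ) {V : Type} (r : V → ℕ) (i : V) : ZMod 2 := ra q (ps m (r i))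

/-- the system of level 15 -/
structure SV (m : ℤ) (r : V → ℕ) (x y : V → ZMod 2) (s a c : ZMod 2) : Prop where
  s0 : m < 0 → s = 0
  a0 : ¬ B3 m → a = 0
  c0 : ¬ B5 m → c = 0
  row : ∀ i, ∑ j, Lm (Nm m r) i j * y j + a * uc (-3) r i + c * uc 5 r i = 0
  col : ∀ j, ∑ i, Lm (Nm m r) i j * x i + s * ua m r j + c * vq m 5 r j = 0
  sgn : 0 < m → ∑ j, ua m r j * y j + a = 0
  at3 : B3 m → ∑ i, uc (-3) r i * x i + s + c = 0
  at5 : B5 m → ∑ i, uc 5 r i * x i + ∑ j, vq m 5 r j * y j + a = 0

theorem Sol_SV (H : Ix m r) (x y : ℕ → ZMod 2) (s a c : ZMod 2) :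
    Sol15 m x y s a c ↔ SV m r (fun i => x (r i)) (fun i => y (r i)) s a c := by
  have e1 : ∀ i, ∑ q ∈ PR m, Pool.Agent.N875.P17.Lm m (r i) q * y q =
      ∑ j, Lm (Nm m r) i j * y (r j) := fun i => by
    rw [H.sum]
    exact sum_congr rfl fun j _ => by rw [H.lm]
  have e2 : ∀ j, ∑ p ∈ PR m, Pool.Agent.N875.P17.Lm m p (r j) * x p =
      ∑ i, Lm (Nm m r) i j * x (r i) := fun j => by
    rw [H.sum]
    exact sum_congr rfl fun j _ => by rw [H.lm]
  constructor
  · rintro ⟨h1, h2, h3, h4, h5, h6, h7, h8⟩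
    refine ⟨h1, h2, h3, fun i => ?_, fun j => ?_, fun h => ?_, fun h => ?_, fun h => ?_⟩
    · rw [← e1]
      exact h4 _ (H.mem i)
    · rw [← e2]
      exact h5 _ (H.mem j)
    · have := h6 h
      rw [H.sum] at this
      exact this
    · have := h7 h
      rw [H.sum] at this
      exact this
    · have := h8 h
      rw [H.sum, H.sum] at this
      exact this
  · rintro ⟨h1, h2, h3, h4, h5, h6, h7, h8⟩
    refine ⟨h1, h2, h3, ?_, ?_, fun h => ?_, fun h => ?_, fun h => ?_⟩
    · rw [H.all fun p => ∑ q ∈ PR m, Pool.Agent.N875.P17.Lm m p q * y q + a * ra p (-3) +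
        c * ra p 5 = 0]
      intro i
      rw [e1]
      exact h4 i
    · rw [H.all fun q => ∑ p ∈ PR m, Pool.Agent.N875.P17.Lm m p q * x p + s * al m q +
        c * ra 5 (ps m q) = 0]
      intro i
      rw [e2]
      exact h5 i
    · rw [H.sum]
      exact h6 h
    · rw [H.sum]
      exact h7 h
    · rw [H.sum, H.sum]
      exact h8 h

theorem Sg_SV (H : Ix m r) : Sg15 m ↔ ∀ (x y : V → ZMod 2) (s a c : ZMod 2), SV m r x y s a c →
    a = 0 ∧ c = 0 ∧ ∃ α β : ZMod 2, s = (if 0 < m then α else 0) ∧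
      (∀ i, x i = α * wx m r i) ∧ ∀ i, y i = β := by
  have ew : ∀ (α : ZMod 2) i, (if (r i : ℤ) ∣ m then α else 0) = α * wx m r i := by
    intro α i
    unfold wx
    split_ifs
    · rw [mul_one]
    · rw [mul_zero]
  constructor
  · intro h x y s a c hS
    obtain ⟨x', hx'⟩ := H.ext x
    obtain ⟨y', hy'⟩ := H.ext y
    have e1 : (fun i => x' (r i)) = x := funext hx'
    have e2 : (fun i => y' (r i)) = y := funext hy'
    obtain ⟨h1, h2, α, β, h3, h4, h5⟩ := h x' y' s a c ((Sol_SV H x' y' s a c).2 (by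
      rw [e1, e2]
      exact hS))
    refine ⟨h1, h2, α, β, h3, fun i => ?_, fun i => ?_⟩
    · rw [← hx', h4 _ (H.mem i), ew]
    · rw [← hy', h5 _ (H.mem i)]
  · intro h x y s a c hS
    obtain ⟨h1, h2, α, β, h3, h4, h5⟩ := h _ _ s a c ((Sol_SV H x y s a c).1 hS)
    refine ⟨h1, h2, α, β, h3, ?_, ?_⟩
    · rw [H.all fun p => x p = if (p : ℤ) ∣ m then α else 0]
      intro i
      rw [h4 i, ew]
    · rw [H.all fun q => y q = β]
      exact h5

/-! ### the trivial solutions -/

theorem torx (H : Ix m r) (hs : Squarefree m) : SV m r (wx m r) (fun _ => 0)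
    (if 0 < m then 1 else 0) 0 0 := (Sol_SV H _ _ _ _ _).1 (tor15_x hs)

theorem tory (H : Ix m r) (hs : Squarefree m) : SV m r (fun _ => 0) (fun _ => 1) 0 0 0 :=
  (Sol_SV H _ _ _ _ _).1 (tor15_y hs)

theorem colx (H : Ix m r) (hs : Squarefree m) (j : V) :
    ∑ i, Lm (Nm m r) i j * wx m r i + (if 0 < m then 1 else 0) * ua m r j = 0 := by
  have h := (torx H hs).col j
  rw [zero_mul, add_zero] at h
  exact h

theorem Lm1 (N : V → V → ZMod 2) (β : ZMod 2) (i : V) : ∑ j, Lm N i j * β = 0 := by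
  rw [Lm_Ev N (fun _ => β), Pool.Agent.N916.GB.Ev_const]

theorem sm0 (f : V → ZMod 2) : ∑ i, f i * 0 = 0 := sum_eq_zero fun _ _ => mul_zero _

/-! ### the four classes -/

variable [Nonempty V]

/-- **class A** -/
theorem sgA (H : Ix m r) (hs : Squarefree m) (hd : ∃ i, (r i : ℤ) ∣ m) (h0 : m < 0)
    (h3 : ¬ B3 m) (h5 : ¬ B5 m) : Sg15 m ↔ Gv (Nm m r) := by
  have hcol : ∀ j, ∑ i, Lm (Nm m r) i j * wx m r i = 0 := fun j => by
    have := colx H hs j
    rw [if_neg (by omega), zero_mul, add_zero] at this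
    exact this
  have hne : ∃ i, wx m r i ≠ 0 := by
    obtain ⟨i, hi⟩ := hd
    refine ⟨i, ?_⟩
    unfold wx
    rw [if_pos hi]
    exact one_ne_zero
  rw [Sg_SV H]
  constructor
  · intro h y hy
    obtain ⟨-, -, α, β, -, -, h4⟩ := h (fun _ => 0) y 0 0 0 ⟨fun _ => rfl, fun _ => rfl, fun _ => rfl,
      fun i => by
        rw [zero_mul, zero_mul, add_zero, add_zero, Lm_Ev]
        exact hy i, fun j => by
        rw [zero_mul, zero_mul, add_zero, add_zero, sm0], fun h => absurd h (by omega),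
      fun h => absurd h h3, fun h => absurd h h5⟩
    intro p q
    rw [h4, h4]
  · intro h x y s a c hS
    have es := hS.s0 h0
    have ea := hS.a0 h3
    have ec := hS.c0 h5
    have hrow : ∀ q, Ev (Nm m r) y q = 0 := by
      intro q
      have := hS.row q
      rw [ea, ec, zero_mul, zero_mul, add_zero, add_zero, Lm_Ev] at this
      exact this
    obtain ⟨α, hα⟩ := (Gv_l hcol hne).1 h x fun j => by
      have := hS.col j
      rw [es, ec, zero_mul, zero_mul, add_zero, add_zero] at this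
      exact this
    refine ⟨ea, ec, α, y (Classical.arbitrary V), ?_, hα, fun i => h y hrow _ _⟩
    rw [es, if_neg (by omega)]

/-- **class B** -/
theorem sgB (H : Ix m r) (hs : Squarefree m) (h0 : 0 < m) (h3 : B3 m) (h5 : ¬ B5 m) :
    Sg15 m ↔ Kb (Nm m r) (uc (-3) r) (ua m r) 1 := by
  have hT := torx H hs
  have hU := tory H hs
  have k1 : ∑ j, ua m r j = 0 := by
    have := hU.sgn h0
    rw [add_zero] at this
    simpa only [mul_one] using this
  have k2 : ∀ j, ∑ i, Lm (Nm m r) i j * wx m r i + 1 * ua m r j = 0 := fun j => by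
    have := colx H hs j
    rw [if_pos h0] at this
    exact this
  have k3 : ∑ i, uc (-3) r i * wx m r i + 1 * 1 = 0 := by
    have := hT.at3 h3
    rw [add_zero, if_pos h0] at this
    rw [mul_one]
    exact this
  have kd := Kb_Kl k1 k2 k3 (Or.inr one_ne_zero)
  rw [Sg_SV H]
  constructor
  · intro h y a h1 h2
    obtain ⟨h6, -, α, β, -, -, h7⟩ := h (fun _ => 0) y 0 a 0 ⟨fun _ => rfl, fun h => absurd h3 h,
      fun _ => rfl, fun i => by
        rw [zero_mul, add_zero, Lm_Ev]
        exact h1 i, fun j => by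
        rw [zero_mul, zero_mul, add_zero, add_zero, sm0], fun _ => by
        rw [mul_one] at h2
        exact h2, fun _ => by
        rw [add_zero, add_zero, sm0], fun h => absurd h h5⟩
    exact ⟨h6, β, h7⟩
  · intro h x y s a c hS
    have ec := hS.c0 h5
    obtain ⟨ea, β, hβ⟩ := h y a (fun i => by
      have := hS.row i
      rw [ec, zero_mul, add_zero, Lm_Ev] at this
      exact this) (by
      rw [mul_one]
      exact hS.sgn h0)
    obtain ⟨α, hs', hα⟩ := (kd.1 h) x s (fun j => by
      have := hS.col j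
      rw [ec, zero_mul, add_zero] at this
      exact this) (by
      have := hS.at3 h3
      rw [ec, add_zero] at this
      rw [mul_one]
      exact this)
    refine ⟨ea, ec, α, β, ?_, hα, hβ⟩
    rw [hs', if_pos h0, mul_one]

/-- **class C** -/
theorem sgC (H : Ix m r) (hs : Squarefree m) (h0 : 0 < m) (h3 : ¬ B3 m) (h5 : B5 m) :
    Sg15 m ↔ Kb (Nm m r) (uc 5 r) (ua m r) 0 := by
  have hT := torx H hs
  have hU := tory H hs
  have k1 : ∑ j, ua m r j = 0 := by
    have := hU.sgn h0
    rw [add_zero] at this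
    simpa only [mul_one] using this
  have k2 : ∀ j, ∑ i, Lm (Nm m r) i j * wx m r i + 1 * ua m r j = 0 := fun j => by
    have := colx H hs j
    rw [if_pos h0] at this
    exact this
  have k3 : ∑ i, uc 5 r i * wx m r i + 1 * 0 = 0 := by
    have := hT.at5 h5
    rw [add_zero, sm0] at this
    rw [mul_zero]
    exact this
  have k4 : ∑ j, vq m 5 r j = 0 := by
    have := hU.at5 h5
    rw [add_zero, sm0, zero_add] at this
    simpa only [mul_one] using this
  have kd := Kb_Kl k1 k2 k3 (Or.inr one_ne_zero)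
  rw [Sg_SV H]
  constructor
  · intro h
    rw [kd]
    intro x s h1 h2
    rw [mul_zero, add_zero] at h2
    obtain ⟨-, -, α, β, h6, h7, -⟩ := h x (fun _ => 0) s 0 0 ⟨fun h => absurd h (by omega),
      fun _ => rfl, fun h => absurd h5 h, fun i => by
        rw [zero_mul, zero_mul, add_zero, add_zero, sm0], fun j => by
        rw [zero_mul, add_zero]
        exact h1 j, fun _ => by
        rw [add_zero, sm0], fun h => absurd h h3, fun _ => by
        rw [add_zero, sm0, add_zero]
        exact h2⟩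
    refine ⟨α, ?_, h7⟩
    rw [h6, if_pos h0, mul_one]
  · intro h x y s a c hS
    have ea := hS.a0 h3
    obtain ⟨ec, β, hβ⟩ := h y c (fun i => by
      have := hS.row i
      rw [ea, zero_mul, add_zero, Lm_Ev] at this
      exact this) (by
      rw [mul_zero]
      have := hS.sgn h0
      rw [ea] at this
      exact this)
    obtain ⟨α, hs', hα⟩ := (kd.1 h) x s (fun j => by
      have := hS.col j
      rw [ec, zero_mul, add_zero] at this
      exact this) (by
      have h8 := hS.at5 h5
      have h9 : ∑ j, vq m 5 r j * y j = 0 := by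
        rw [sum_congr rfl fun j _ => by rw [hβ j], ← sum_mul, k4, zero_mul]
      rw [h9, ea, add_zero, add_zero] at h8
      rw [mul_zero, add_zero]
      exact h8)
    refine ⟨ea, ec, α, β, ?_, hα, hβ⟩
    rw [hs', if_pos h0, mul_one]

/-- **class D** -/
theorem sgD (H : Ix m r) (hs : Squarefree m) (hd : ∃ i, (r i : ℤ) ∣ m) (h0 : m < 0) (h3 : B3 m)
    (h5 : B5 m) : Sg15 m ↔ Kb (Nm m r) (uc (-3) r) (vq m 5 r) 1 := by
  have hT := torx H hs
  have hU := tory H hs
  have k1 : ∑ j, vq m 5 r j = 0 := by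
    have := hU.at5 h5
    rw [add_zero, sm0, zero_add] at this
    simpa only [mul_one] using this
  have k2 : ∀ j, ∑ i, Lm (Nm m r) i j * wx m r i + 0 * vq m 5 r j = 0 := fun j => by
    have := colx H hs j
    rw [if_neg (by omega), zero_mul] at this
    rw [zero_mul]
    exact this
  have k3 : ∑ i, uc (-3) r i * wx m r i + 0 * 1 = 0 := by
    have := hT.at3 h3
    rw [add_zero, if_neg (by omega)] at this
    rw [zero_mul]
    exact this
  have k4 : ∑ i, uc 5 r i * wx m r i = 0 := by
    have := hT.at5 h5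
    rw [add_zero, sm0, add_zero] at this
    exact this
  have hne : ∃ i, wx m r i ≠ 0 := by
    obtain ⟨i, hi⟩ := hd
    refine ⟨i, ?_⟩
    unfold wx
    rw [if_pos hi]
    exact one_ne_zero
  have kd := Kb_Kl k1 k2 k3 (Or.inl hne)
  rw [Sg_SV H]
  constructor
  · intro h y a h1 h2
    obtain ⟨h6, -, α, β, -, -, h7⟩ := h (fun _ => 0) y 0 a 0 ⟨fun _ => rfl, fun h => absurd h3 h,
      fun _ => rfl, fun i => by
        rw [zero_mul, add_zero, Lm_Ev]
        exact h1 i, fun j => by
        rw [zero_mul, zero_mul, add_zero, add_zero, sm0], fun h => absurd h (by omega), fun _ => by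
        rw [add_zero, add_zero, sm0], fun _ => by
        rw [sm0, zero_add]
        rw [mul_one] at h2
        exact h2⟩
    exact ⟨h6, β, h7⟩
  · intro h x y s a c hS
    have es := hS.s0 h0
    obtain ⟨α, ec, hα⟩ := (kd.1 h) x c (fun j => by
      have := hS.col j
      rw [es, zero_mul, add_zero] at this
      exact this) (by
      have := hS.at3 h3
      rw [es, add_zero] at this
      rw [mul_one]
      exact this)
    rw [mul_zero] at ec
    obtain ⟨ea, β, hβ⟩ := h y a (fun i => by
      have := hS.row i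
      rw [ec, zero_mul, add_zero, Lm_Ev] at this
      exact this) (by
      have h8 := hS.at5 h5
      have h9 : ∑ i, uc 5 r i * x i = 0 := by
        rw [sum_congr rfl fun j _ => by rw [hα j, mul_left_comm], ← mul_sum, k4, mul_zero]
      rw [h9, zero_add] at h8
      rw [mul_one]
      exact h8)
    refine ⟨ea, ec, α, β, ?_, hα, hβ⟩
    rw [es, if_neg (by omega)]

end

end Pool.Agent.N916.PQ
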