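import Mathlib
import Pool.Agent.N916.PQ.Red15
import Pool.Agent.N916.PQ.Lah

/-!
# PQ: translation between the symbols of the squarefree integer `m` and the Legendre symbols
-/

set_option autoImplicit false
set_option linter.all false

open scoped Classical

namespace Pool.Agent.N916.PQ

open Finset Filter
open Pool.Agent.Y703.CQ (nr sg)
open Pool.Agent.N973.ND (uu nr_rec nr_self)
open Pool.Agent.N916.GB (Po Vt sy Ev Gv z2_add_self)
open Pool.Agent.N958.GB (NR ud wd z2 mem_Vt sy_ne sy_two)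
open Pool.Agent.N875.X15 (PR ps ra sgp d2 oe ch ps_odd ps_two ch_odd oe_mod d2_spec)
open Pool.Agent.N875.P17 (al ra_rec al_odd ra_neg_one)

/-- the type of `m`: the part at `2` of the discriminant -/
def PT (m : ℤ) (M : ℕ) (t : Bool) (r s : ZMod 2) : Prop :=
  (t = false ∧ r = 0 ∧ s = 0 ∧ m % 4 = 1 ∧ m.natAbs = M) ∨
  (t = true ∧ r = 0 ∧ s = 1 ∧ m % 4 = 3 ∧ m.natAbs = M) ∨
  (t = true ∧ r = 1 ∧ s = 0 ∧ d2 m = 2 ∧ m.natAbs = 2 * M) ∨
  (t = true ∧ r = 1 ∧ s = 1 ∧ d2 m = -2 ∧ m.natAbs = 2 * M)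

theorem ra_nr {q n : ℕ} (hq : q.Prime) (hq2 : q ≠ 2) (h : ¬ q ∣ n) : ra q (n : ℤ) = nr q n := by
  haveI : Fact q.Prime := ⟨hq⟩
  have h0 : (((n : ℤ)) : ZMod q) ≠ 0 := by
    rw [Int.cast_natCast, Ne, ZMod.natCast_eq_zero_iff]
    exact h
  have h1 : jacobiSym (n : ℤ) q = 1 ↔ IsSquare ((n : ℕ) : ZMod q) := by
    rw [← jacobiSym.legendreSym.to_jacobiSym, legendreSym.eq_one_iff q h0, Int.cast_natCast]
  unfold ra nr
  rw [ch_odd hq2]
  by_cases h2 : IsSquare ((n : ℕ) : ZMod q)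
  · rw [if_pos (h1.2 h2), if_pos h2]
  · rw [if_neg fun h3 => h2 (h1.1 h3), if_neg h2]

theorem nr_mod {q a b : ℕ} (h : a % q = b % q) : nr q a = nr q b := by
  unfold nr
  have : (a : ZMod q) = b := (ZMod.natCast_eq_natCast_iff' a b q).2 h
  rw [this]

theorem al_uu {m : ℤ} {q : ℕ} (hq : q.Prime) (hq2 : q ≠ 2) : al m q = uu q := by
  rw [al_odd hq2]
  have h1 := hq.eq_two_or_odd
  have h2 := hq.pos
  unfold sgp uu
  by_cases h : q % 4 = 1
  · rw [if_pos h, if_neg (by omega), if_neg (by omega)]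
  · rw [if_neg h, if_pos (by omega), if_pos (by omega)]

section
variable {m : ℤ} {M : ℕ} {t : Bool} {r s : ZMod 2}

theorem PT.d2_neg (hs : Squarefree m) (h : m % 4 = 3) : d2 m = -1 := by
  obtain ⟨h1, h2⟩ := d2_spec hs
  have h3 := oe_mod m
  rcases h2 with ⟨h4, h5 | h5⟩ | ⟨h4, h5⟩
  · rw [h5, one_mul] at h1
    omega
  · exact h5
  · omega

/-- the symbol of the part at `2` -/
theorem ra_d2 (H : PT m M t r s) (ht : t = true) (hs : Squarefree m) {p : ℕ} (hp : p.Prime)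
    (hp2 : p ≠ 2) : ra p (d2 m) = r * nr p 2 + s * uu p := by
  have hn2 : ¬ p ∣ 2 := fun h => hp2 ((Nat.prime_dvd_prime_iff_eq hp Nat.prime_two).1 h)
  have e2 : ra p 2 = nr p 2 := by
    have := ra_nr hp hp2 hn2
    rwa [Nat.cast_ofNat] at this
  have e1 : ra p (-1) = uu p := by rw [ra_neg_one (m := m) hp hp2, al_uu hp hp2]
  have g1 : Pool.Agent.N875.X15.Gd p (-1) := by
    rw [Pool.Agent.N875.X15.gd_odd hp2]
    intro h
    rw [dvd_neg] at h
    exact hp.one_lt.ne' (by exact_mod_cast Int.eq_one_of_dvd_one (by positivity) h)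
  have g2 : Pool.Agent.N875.X15.Gd p 2 := by
    rw [Pool.Agent.N875.X15.gd_odd hp2]
    intro h
    exact hn2 (by exact_mod_cast h)
  rcases H with ⟨h, -⟩ | ⟨-, h1, h2, h3, -⟩ | ⟨-, h1, h2, h3, -⟩ | ⟨-, h1, h2, h3, -⟩
  · rw [h] at ht
    exact absurd ht (by decide)
  · rw [PT.d2_neg hs h3, e1, h1, h2, zero_mul, one_mul, zero_add]
  · rw [h3, e2, h1, h2, zero_mul, one_mul, add_zero]
  · rw [h3, show (-2 : ℤ) = 2 * (-1) by norm_num, Pool.Agent.N875.P17.ra_mul hp g2 g1, e2, e1, h1, h2,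
      one_mul, one_mul]

/-- the ramified primes -/
theorem PR_Vt (H : PT m M t r s) (hM : Squarefree M) (h2 : M % 2 = 1) {S : Finset ℕ}
    (hS : M.primeFactors = S) : PR m = Vt t S := by
  have hM0 := hM.ne_zero
  have e1 : (2 * M).primeFactors = insert 2 S := by
    rw [Nat.primeFactors_mul (by norm_num) hM0, hS, Nat.Prime.primeFactors Nat.prime_two]
    rfl
  have e2 : (2 * (2 * M)).primeFactors = insert 2 S := by
    rw [Nat.primeFactors_mul (by norm_num) (by omega), e1, Nat.Prime.primeFactors Nat.prime_two]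
    ext x
    simp
  unfold PR Vt
  rcases H with ⟨h1, -, -, h3, h4⟩ | ⟨h1, -, -, h3, h4⟩ | ⟨h1, -, -, h3, h4⟩ | ⟨h1, -, -, h3, h4⟩
  · rw [if_pos h3, h4, hS, if_neg (by rw [h1]; decide)]
  · rw [if_neg (by omega), h4, e1, if_pos h1]
  · rw [if_neg (by omega), h4, e2, if_pos h1]
  · rw [if_neg (by omega), h4, e2, if_pos h1]

variable {V : Type} [Fintype V] {ρ : V → ℕ} {S : Finset ℕ}

/-- the data -/
structure Dt (m : ℤ) (M : ℕ) (t : Bool) (r s : ZMod 2) (S : Finset ℕ) (ρ : V → ℕ) : Prop where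
  pt : PT m M t r s
  sq : Squarefree m
  sM : Squarefree M
  od : M % 2 = 1
  pf : M.primeFactors = S
  po : ∀ v ∈ S, Po v
  inj : Function.Injective ρ
  im : univ.image ρ = Vt t S

theorem Dt.ix (H : Dt m M t r s S ρ) : Ix m ρ :=
  ⟨H.inj, by rw [H.im, PR_Vt H.pt H.sM H.od H.pf]⟩

theorem Dt.prime (H : Dt m M t r s S ρ) (i : V) : (ρ i).Prime := by
  have h : ρ i ∈ Vt t S := by
    rw [← H.im]
    exact mem_image_of_mem ρ (mem_univ i)
  rcases mem_Vt.1 h with h | h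
  · rw [h.2]
    exact Nat.prime_two
  · exact (H.po _ h).1

theorem Dt.memS (H : Dt m M t r s S ρ) {i : V} (h2 : ρ i ≠ 2) : ρ i ∈ S := by
  have h : ρ i ∈ Vt t S := by
    rw [← H.im]
    exact mem_image_of_mem ρ (mem_univ i)
  rcases mem_Vt.1 h with h | h
  · exact absurd h.2 h2
  · exact h

theorem Dt.tt (H : Dt m M t r s S ρ) {i : V} (h2 : ρ i = 2) : t = true := by
  have h : ρ i ∈ Vt t S := by
    rw [← H.im]
    exact mem_image_of_mem ρ (mem_univ i)
  rcases mem_Vt.1 h with h | h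
  · exact h.1
  · exact absurd h2 (H.po _ h).2

/-- the symbols -/
theorem Dt.nm (H : Dt m M t r s S ρ) {i j : V} (hij : i ≠ j) : Nm m ρ i j = NR r s ρ i j := by
  have hne : ρ i ≠ ρ j := fun h => hij (H.inj h)
  have hi := H.prime i
  have hj := H.prime j
  unfold Nm NR
  by_cases h : ρ j = 2
  · have hi2 : ρ i ≠ 2 := fun h' => hne (h'.trans h.symm)
    rw [h, ps_two, sy_two, ra_d2 H.pt (H.tt h) H.sq hi hi2]
  · rw [ra_rec hi hj h, sy_ne r s h, ra_nr hj h]
    intro h'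
    exact hne ((Nat.prime_dvd_prime_iff_eq hj hi).1 h').symm

theorem Lm_congr {N N' : V → V → ZMod 2} (h : ∀ i j, i ≠ j → N i j = N' i j) : Lm N = Lm N' := by
  funext i j
  unfold Lm
  by_cases hij : i = j
  · rw [if_pos hij, if_pos hij]
    refine sum_congr rfl fun k _ => ?_
    by_cases hk : k = i
    · rw [if_pos hk, if_pos hk]
    · rw [if_neg hk, if_neg hk, h _ _ (Ne.symm hk)]
  · rw [if_neg hij, if_neg hij, h _ _ hij]

theorem Ev_congr {N N' : V → V → ZMod 2} (h : Lm N = Lm N') : Ev N = Ev N' := by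
  funext y i
  rw [← Lm_Ev, ← Lm_Ev, h]

theorem Kb_congr {N N' : V → V → ZMod 2} (h : Lm N = Lm N') (u w : V → ZMod 2) (e : ZMod 2) :
    Kb N u w e ↔ Kb N' u w e := by
  unfold Kb
  rw [Ev_congr h]

theorem Gv_congr {N N' : V → V → ZMod 2} (h : Lm N = Lm N') : Gv N ↔ Gv N' := by
  have e : ∀ N : V → V → ZMod 2, Gv N ↔ ∀ x : V → ZMod 2, (∀ q, Ev N x q = 0) →
      ∀ p q, x p = x q := fun N => Iff.rfl
  rw [e, e, Ev_congr h]

theorem Dt.hlm (H : Dt m M t r s S ρ) : Lm (Nm m ρ) = Lm (NR r s ρ) :=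
  Lm_congr fun i j h => H.nm h

/-- the signs -/
theorem Dt.hua (H : Dt m M t r s S ρ) : ua m ρ = fun i => if ρ i = 2 then s else uu (ρ i) := by
  funext i
  unfold ua
  by_cases h : ρ i = 2
  · rw [if_pos h, h]
    unfold al
    rw [ps_two]
    rcases H.pt with ⟨h1, -⟩ | ⟨-, h1, h2, h3, -⟩ | ⟨-, h1, h2, h3, -⟩ | ⟨-, h1, h2, h3, -⟩
    · have := H.tt h
      rw [h1] at this
      exact absurd this (by decide)
    · rw [PT.d2_neg H.sq h3, if_pos (by norm_num), h2]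
    · rw [h3, if_neg (by norm_num), h2]
    · rw [h3, if_pos (by norm_num), h2]
  · rw [if_neg h, al_uu (H.prime i) h]

/-- the left vector -/
theorem Dt.hwx (H : Dt m M t r s S ρ) : wx m ρ = wd r ρ := by
  funext i
  unfold Pool.Agent.N916.PQ.wx wd
  by_cases h : ρ i = 2
  · rw [if_pos h, h]
    have hod := H.od
    rcases H.pt with ⟨h1, -⟩ | ⟨-, h1, h2, h3, h4⟩ | ⟨-, h1, h2, h3, h4⟩ | ⟨-, h1, h2, h3, h4⟩
    · have := H.tt h
      rw [h1] at this
      exact absurd this (by decide)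
    · rw [if_neg (by push_cast; omega), h1]
    · rw [if_pos (by push_cast; omega), h1]
    · rw [if_pos (by push_cast; omega), h1]
  · rw [if_neg h, if_pos]
    have h1 := H.memS h
    rw [← H.pf, Nat.mem_primeFactors] at h1
    rw [Int.natCast_dvd]
    rcases H.pt with ⟨-, -, -, -, h4⟩ | ⟨-, -, -, -, h4⟩ | ⟨-, -, -, -, h4⟩ | ⟨-, -, -, -, h4⟩
    · rw [h4]
      exact h1.2.1
    · rw [h4]
      exact h1.2.1
    · rw [h4]
      exact h1.2.1.mul_left _
    · rw [h4]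
      exact h1.2.1.mul_left _

/-- the border row `5` -/
theorem Dt.hv5 (H : Dt m M t r s S ρ) (h5 : 5 ∉ S) :
    vq m 5 ρ = fun i => if ρ i = 2 then r else nr (ρ i) 5 := by
  funext i
  unfold vq
  by_cases h : ρ i = 2
  · rw [if_pos h, h, ps_two]
    rcases H.pt with ⟨h1, -⟩ | ⟨-, h1, h2, h3, h4⟩ | ⟨-, h1, h2, h3, h4⟩ | ⟨-, h1, h2, h3, h4⟩
    · have := H.tt h
      rw [h1] at this
      exact absurd this (by decide)
    · rw [PT.d2_neg H.sq h3, h1, Pool.Agent.N809.PQ.ra5]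
      decide
    · rw [h3, h1, Pool.Agent.N809.PQ.ra5]
      decide
    · rw [h3, h1, Pool.Agent.N809.PQ.ra5]
      decide
  · have hi := H.prime i
    have hne : ρ i ≠ 5 := fun h' => h5 (h' ▸ H.memS h)
    rw [if_neg h, ps_odd h, Pool.Agent.N809.PQ.ra_star (by norm_num) hi h, ra_nr hi h]
    intro h'
    exact hne ((Nat.prime_dvd_prime_iff_eq hi (by norm_num)).1 h')

end

end Pool.Agent.N916.PQ
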