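import Mathlib
import Pool.Agent.N916.PQ.Tr
import Pool.Agent.N916.PQ.Half
import Pool.Agent.N916.AM.Fd

/-!
# PQ: level 15, the natural density of `Sg15`
-/

set_option autoImplicit false
set_option linter.all false

open scoped Classical

namespace Pool.Agent.N916.PQ

open Finset Filter
open Pool.Agent.Y703.CQ (nr sg)
open Pool.Agent.N973.ND (uu nr_rec nr_self)
open Pool.Agent.N916.GB (Po Vt sy Ev Gv Gd z2_add_self eta)
open Pool.Agent.N958.GB (NR ud wd z2 mem_Vt sy_ne sy_two Gd_iff)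
open Pool.Agent.N875.X15 (PR ps ra sgp d2 oe ch ps_odd ps_two ch_odd oe_mod d2_spec)
open Pool.Agent.N875.P17 (al ra_rec al_odd ra_neg_one)
open Pool.Agent.N809.PQ
open Pool.Agent.N916.AM (LAH LAV Nd Rich dq lah_red)
open Pool.Agent.N919.BS (NN NS NF HG)

/-! ### the hypothesis LAH -/

theorem Rich.mono {M V V' : ℕ} (h : V ≤ V') {S₀ S₁ : Finset ℕ} (hR : Rich M V' S₀ S₁) :
    Rich M V S₀ S₁ := fun a ha hc => (Nat.mul_le_mul_right _ h).trans (hR a ha hc)

theorem LAH.congr {M : ℕ} (hM : 1 < M) {K : Finset ℕ} {G G' : Finset ℕ → Prop} {c : ℝ}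
    (h : ∀ S : Finset ℕ, (∀ v ∈ S, Po v) → (∏ v ∈ S, v) % M ∈ K → S.Nonempty → (G S ↔ G' S))
    (hL : LAH M K G' c) : LAH M K G c := by
  intro ε hε
  obtain ⟨V, hV⟩ := hL ε hε
  refine ⟨V + 1, ?_⟩
  intro ι _ _ S₀ p hS₀ hp hpi hpK hN hR
  obtain ⟨Q, hQ, hQ2⟩ := hV ι S₀ p hS₀ hp hpi hpK hN (Rich.mono (Nat.le_succ V) hR)
  refine ⟨Q, ?_, hQ2⟩
  intro q hqi hq
  rw [← hQ q hqi hq]
  have hcnt := hR 1 hM (Nat.coprime_one_left M)
  have hpos : 0 < ((univ.image p).filter fun x => x % M = 1).card := by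
    have : 0 < (V + 1) * (S₀.card + 1) := by positivity
    omega
  obtain ⟨x, hx⟩ := card_pos.1 hpos
  obtain ⟨i₀, -, -⟩ := mem_image.1 (mem_filter.1 hx).1
  refine h _ ?_ ?_ ⟨q i₀, mem_union_right _ (mem_image_of_mem q (mem_univ i₀))⟩
  · intro v hv
    rcases mem_union.1 hv with h | h
    · exact hS₀ v h
    · obtain ⟨i, -, rfl⟩ := mem_image.1 h
      exact (hq i).1
  · have hdis : Disjoint S₀ (univ.image q) := by
      rw [Finset.disjoint_left]
      intro x hx hx'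
      obtain ⟨i, -, rfl⟩ := mem_image.1 hx'
      exact (hq i).2.1 hx
    rw [prod_union hdis, prod_image fun i _ j _ h => hqi h]
    have h1 : (∏ i, q i) % M = (∏ i, p i) % M := by
      rw [Finset.prod_nat_mod, Finset.prod_nat_mod univ M p]
      simp only [fun i => (hq i).2.2.1]
    rw [Nat.mul_mod, h1, ← Nat.mul_mod]
    exact hpK

theorem LAH.union {M : ℕ} {K K' : Finset ℕ} {G : Finset ℕ → Prop} {c : ℝ}
    (h : LAH M K G c) (h' : LAH M K' G c) : LAH M (K ∪ K') G c := by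
  intro ε hε
  obtain ⟨V, hV⟩ := h ε hε
  obtain ⟨V', hV'⟩ := h' ε hε
  refine ⟨V + V', ?_⟩
  intro ι _ _ S₀ p hS₀ hp hpi hpK hN hR
  rcases mem_union.1 hpK with hK | hK
  · exact hV ι S₀ p hS₀ hp hpi hK hN (Rich.mono (Nat.le_add_right V V') hR)
  · exact hV' ι S₀ p hS₀ hp hpi hK hN (Rich.mono (Nat.le_add_left V' V) hR)

/-! ### the symbols at `3` and `5` -/

theorem hf3 {M : ℕ} (h3 : 3 ∣ M) (p : ℕ) (hp : Po p) (hc : p.Coprime M) :
    ra p (-3) = nr p 3 + 1 * uu p := by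
  have hne : p ≠ 3 := by
    rintro rfl
    have := Nat.Coprime.eq_one_of_dvd hc h3
    omega
  have h3p : ¬ 3 ∣ p := fun h => hne ((Nat.prime_dvd_prime_iff_eq Nat.prime_three hp.1).1 h).symm
  have e := ra_nr Nat.prime_three (by norm_num) h3p
  rw [ra_m3 hp.1, e, nr_rec hp.1 hp.2 Nat.prime_three (by norm_num) hne]
  have : uu 3 = 1 := if_pos (by norm_num)
  rw [this, mul_one, one_mul]

theorem hf5 {M : ℕ} (h5 : 5 ∣ M) (p : ℕ) (hp : Po p) (hc : p.Coprime M) :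
    ra p 5 = nr p 5 + 0 * uu p := by
  have hne : p ≠ 5 := by
    rintro rfl
    have := Nat.Coprime.eq_one_of_dvd hc h5
    omega
  have h5p : ¬ 5 ∣ p := fun h => hne ((Nat.prime_dvd_prime_iff_eq (by norm_num) hp.1).1 h).symm
  have e := ra_nr (q := 5) (by norm_num) (by norm_num) h5p
  rw [ra_5 hp.1, e, nr_rec hp.1 hp.2 (q := 5) (by norm_num) (by norm_num) hne]
  have : uu 5 = 0 := if_neg (by norm_num)
  rw [this, mul_zero, zero_mul]

/-! ### the classes -/

/-- a class of residues -/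
noncomputable def KK (M : ℕ) (P : ℤ → Prop) (s : ℤ) (k c : ℕ) : Finset ℕ :=
  (range M).filter fun a => a % 4 = c ∧ P (s * (k * a : ℕ))

/-- periodic properties -/
def Per (m : ℕ) (P : ℤ → Prop) : Prop := ∀ a b : ℤ, a % m = b % m → (P a ↔ P b)

theorem mem_KK {M m : ℕ} (hM : 0 < M) (h4 : 4 ∣ M) (hm : m ∣ M) {P : ℤ → Prop} (hP : Per m P)
    {s : ℤ} {k c : ℕ} {n : ℕ} :
    n % M ∈ KK M P s k c ↔ n % 4 = c ∧ P (s * (k * n : ℕ)) := by
  unfold KK
  rw [mem_filter, mem_range, Nat.mod_mod_of_dvd _ h4]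
  have h : (s * (k * (n % M) : ℕ)) % (m : ℤ) = (s * (k * n : ℕ)) % (m : ℤ) := by
    have h1 : (m : ℤ) ∣ M := Int.natCast_dvd_natCast.2 hm
    have h2 : ((n : ℤ) % M) % m = (n : ℤ) % m := Int.emod_emod_of_dvd _ h1
    push_cast
    rw [Int.mul_emod s, Int.mul_emod (k : ℤ), h2, ← Int.mul_emod (k : ℤ), ← Int.mul_emod s]
  rw [hP _ _ h]
  exact ⟨fun h => h.2, fun h => ⟨Nat.mod_lt _ hM, h⟩⟩

section
variable {s' : ℤ} {k c : ℕ} {t : Bool} {r s : ZMod 2}

/-- the parameters -/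
structure PM (s' : ℤ) (k c : ℕ) (t : Bool) (r s : ZMod 2) : Prop where
  hs : s' = 1 ∨ s' = -1
  hk : k = 1 ∨ k = 2
  hc : c = 1 ∨ c = 3
  pt : ∀ n : ℕ, Squarefree n → n % 4 = c → PT (s' * (k * n : ℕ)) n t r s
  tr : t = true → r ≠ 0 ∨ s ≠ 0
  ts : t = false → s = 0
  neg : s' = -1 → c % 4 = if s = 0 then 3 else 1

theorem PM.sqf (H : PM s' k c t r s) {n : ℕ} (hn : Squarefree n) (h4 : n % 4 = c) :
    Squarefree (s' * (k * n : ℕ)) := by
  have h1 : Squarefree (((k * n : ℕ)) : ℤ) := by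
    rw [Int.squarefree_natCast]
    rcases H.hk with h | h
    · rw [h, one_mul]
      exact hn
    · rw [h]
      have : n % 2 = 1 := by
        rcases H.hc with h | h <;> omega
      exact (Pool.Agent.N919.BS.sq_two this).2 hn
  rcases H.hs with h | h
  · rw [h, one_mul]
    exact h1
  · rw [h, neg_one_mul, Pool.Agent.N919.BS.sq_neg]
    exact h1

theorem prodS {S : Finset ℕ} (h : ∀ v ∈ S, Po v) :
    Squarefree (∏ v ∈ S, v) ∧ (∏ v ∈ S, v).primeFactors = S ∧ 0 < ∏ v ∈ S, v :=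
  ⟨Pool.Agent.N875.X15.sqf_prod S fun p hp => (h p hp).1,
    Nat.primeFactors_prod fun p hp => (h p hp).1, prod_pos fun p hp => (h p hp).1.pos⟩

theorem PM.dt (H : PM s' k c t r s) {V : Type} [Fintype V] {ρ : V → ℕ} {S : Finset ℕ}
    (hS : ∀ v ∈ S, Po v) (h4 : (∏ v ∈ S, v) % 4 = c) (hρ : Function.Injective ρ)
    (him : univ.image ρ = Vt t S) :
    Dt (s' * (k * ∏ v ∈ S, v : ℕ)) (∏ v ∈ S, v) t r s S ρ := by
  obtain ⟨h1, h2, h3⟩ := prodS hS
  exact ⟨H.pt _ h1 h4, H.sqf h1 h4, h1, by rcases H.hc with h | h <;> omega, h2, hS, hρ, him⟩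

theorem ne_V {V : Type} [Fintype V] {ρ : V → ℕ} {S : Finset ℕ} (hne : S.Nonempty)
    (him : univ.image ρ = Vt t S) : ∃ i, ρ i ∈ S := by
  obtain ⟨v, hv⟩ := hne
  have h1 : v ∈ Vt t S := mem_Vt.2 (Or.inr hv)
  rw [← him, mem_image] at h1
  obtain ⟨i, -, hi⟩ := h1
  exact ⟨i, by rw [hi]; exact hv⟩

theorem dvd_m {S : Finset ℕ} {v : ℕ} (hv : v ∈ S) (s' : ℤ) (k : ℕ) :
    (v : ℤ) ∣ s' * (k * ∏ v ∈ S, v : ℕ) := by
  refine Dvd.dvd.mul_left ?_ _
  exact_mod_cast (Dvd.dvd.mul_left (dvd_prod_of_mem (fun x => x) hv) k)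

theorem PM.pos (H : PM s' k c t r s) {n : ℕ} (hn : 0 < n) (h : s' = 1) : 0 < s' * (k * n : ℕ) := by
  rw [h, one_mul]
  rcases H.hk with h | h <;> rw [h] <;> push_cast <;> omega

theorem PM.neg' (H : PM s' k c t r s) {n : ℕ} (hn : 0 < n) (h : s' = -1) : s' * (k * n : ℕ) < 0 := by
  rw [h, neg_one_mul]
  rcases H.hk with h | h <;> rw [h] <;> push_cast <;> omega

/-- the criterion for the sets of primes -/
def G15 (s' : ℤ) (k : ℕ) (S : Finset ℕ) : Prop := Sg15 (s' * (k * ∏ v ∈ S, v : ℕ))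

theorem per3 : Per 15 B3 := fun a b h => by
  have h1 : a % 3 = b % 3 := by push_cast at h; omega
  unfold B3
  rw [h1]

theorem per5 : Per 15 B5 := fun a b h => by
  have h1 : a % 5 = b % 5 := by push_cast at h; omega
  unfold B5
  rw [h1]

theorem Per.and {m : ℕ} {P Q : ℤ → Prop} (hP : Per m P) (hQ : Per m Q) : Per m fun a => P a ∧ Q a :=
  fun a b h => and_congr (hP a b h) (hQ a b h)

theorem Per.not {m : ℕ} {P : ℤ → Prop} (hP : Per m P) : Per m fun a => ¬ P a :=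
  fun a b h => not_congr (hP a b h)

theorem m120 {P : ℤ → Prop} (hP : Per 15 P) {s' : ℤ} {k c : ℕ} {n : ℕ} :
    n % 120 ∈ KK 120 P s' k c ↔ n % 4 = c ∧ P (s' * (k * n : ℕ)) :=
  mem_KK (by norm_num) (by norm_num) (by norm_num) hP

theorem K120 {P : ℤ → Prop} {s' : ℤ} {k c : ℕ} {a : ℕ} (h : a ∈ KK 120 P s' k c) :
    a % 4 = c ∧ P (s' * (k * a : ℕ)) := (mem_filter.1 h).2

theorem not3 (H : PM s' k c t r s) {a : ℕ} (h : B3 (s' * (k * a : ℕ))) : ¬ 3 ∣ a := by
  intro h3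
  unfold B3 at h
  have h1 : (3 : ℤ) ∣ s' * (k * a : ℕ) := Dvd.dvd.mul_left (by exact_mod_cast h3.mul_left k) _
  omega

theorem not5 (H : PM s' k c t r s) {a : ℕ} (h : B5 (s' * (k * a : ℕ))) : ¬ 5 ∣ a := by
  intro h3
  unfold B5 at h
  have h1 : (5 : ℤ) ∣ s' * (k * a : ℕ) := Dvd.dvd.mul_left (by exact_mod_cast h3.mul_left k) _
  omega

theorem pf120 {g : ℕ} (hg : g = 3 ∨ g = 5) : g ∈ (120 : ℕ).primeFactors := by
  rw [Nat.mem_primeFactors]
  rcases hg with rfl | rfl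
  · exact ⟨by norm_num, by norm_num, by norm_num⟩
  · exact ⟨by norm_num, by norm_num, by norm_num⟩

/-- **class A** -/
theorem lahA (H : PM s' k c t r s) (hs : s' = -1) :
    LAH 120 (KK 120 (fun m => ¬ B3 m ∧ ¬ B5 m) s' k c) (G15 s' k) eta := by
  refine LAH.congr (G' := Gd t r s) (by norm_num) ?_ ?_
  · intro S hS hK hne
    obtain ⟨h4, h3, h5⟩ := (m120 (per3.not.and per5.not)).1 hK
    obtain ⟨e1, e2, e3⟩ := prodS hS
    have him : univ.image (fun x : {x // x ∈ Vt t S} => (x : ℕ)) = Vt t S := by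
      ext x
      rw [mem_image]
      exact ⟨fun ⟨y, _, hy⟩ => hy ▸ y.2, fun h => ⟨⟨x, h⟩, mem_univ _, rfl⟩⟩
    have D := H.dt hS h4 Subtype.val_injective him
    obtain ⟨i, hi⟩ := ne_V hne him
    haveI : Nonempty {x // x ∈ Vt t S} := ⟨i⟩
    rw [Gd_iff t r s Subtype.val_injective him]
    unfold G15
    rw [sgA D.ix D.sq ⟨i, dvd_m hi s' k⟩ (H.neg' e3 hs) h3 h5]
    exact Gv_congr D.hlm
  · refine lah_red (by norm_num) (by norm_num) H.ts H.tr fun a ha => ?_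
    have h1 := (K120 ha).1
    have h2 := H.neg hs
    rw [← h1] at h2
    rw [← h2]
    omega

/-- **class B** -/
theorem lahB (H : PM s' k c t r s) (hs : s' = 1) :
    LAH 120 (KK 120 (fun m => B3 m ∧ ¬ B5 m) s' k c) (G15 s' k) eta := by
  refine lah_b (t := t) (r := r) (s := s) (g := 3) (h := 3) (fu := fun p => ra p (-3))
    (fw := fun p => if p = 2 then s else uu p) (e := 1) (x0 := 1) (κ := 1) (a0 := 0) (κ' := 1)
    (by norm_num) (by norm_num) H.tr (pf120 (Or.inl rfl)) (by norm_num)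
    (pf120 (Or.inl rfl)) (by norm_num) (fun a ha => not3 H (K120 ha).2.1)
    (fun a ha => not3 H (K120 ha).2.1) (hf3 (by norm_num)) (fun p hp _ => by
      rw [if_neg hp.2]; ring) (Or.inr rfl) ?_
  intro V _ ρ S hS hK hne hρ him
  obtain ⟨h4, h3, h5⟩ := (m120 (per3.and per5.not)).1 hK
  obtain ⟨e1, e2, e3⟩ := prodS hS
  have D := H.dt hS h4 hρ him
  obtain ⟨i, hi⟩ := ne_V hne him
  haveI : Nonempty V := ⟨i⟩
  have h0 := H.pos e3 hs
  have hT := torx D.ix D.sq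
  have hU := tory D.ix D.sq
  refine ⟨?_, ?_, fun j => ?_, ?_⟩
  · unfold G15
    rw [sgB D.ix D.sq h0 h3 h5, Kb_congr D.hlm, D.hua]
    rfl
  · have := hU.sgn h0
    rw [add_zero, D.hua] at this
    simpa only [mul_one] using this
  · have := colx D.ix D.sq j
    rw [if_pos h0, D.hlm, D.hwx, D.hua] at this
    exact this
  · have := hT.at3 h3
    rw [add_zero, if_pos h0, D.hwx] at this
    rw [mul_one]
    exact this

/-- **class C** -/
theorem lahC (H : PM s' k c t r s) (hs : s' = 1) :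
    LAH 120 (KK 120 (fun m => ¬ B3 m ∧ B5 m) s' k c) (G15 s' k) eta := by
  refine lah_b (t := t) (r := r) (s := s) (g := 5) (h := 5) (fu := fun p => ra p 5)
    (fw := fun p => if p = 2 then s else uu p) (e := 0) (x0 := 1) (κ := 0) (a0 := 0) (κ' := 1)
    (by norm_num) (by norm_num) H.tr (pf120 (Or.inr rfl)) (by norm_num)
    (pf120 (Or.inr rfl)) (by norm_num) (fun a ha => not5 H (K120 ha).2.2)
    (fun a ha => not5 H (K120 ha).2.2) (hf5 (by norm_num)) (fun p hp _ => by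
      rw [if_neg hp.2]; ring) (Or.inr rfl) ?_
  intro V _ ρ S hS hK hne hρ him
  obtain ⟨h4, h3, h5⟩ := (m120 (per3.not.and per5)).1 hK
  obtain ⟨e1, e2, e3⟩ := prodS hS
  have D := H.dt hS h4 hρ him
  obtain ⟨i, hi⟩ := ne_V hne him
  haveI : Nonempty V := ⟨i⟩
  have h0 := H.pos e3 hs
  have hT := torx D.ix D.sq
  have hU := tory D.ix D.sq
  refine ⟨?_, ?_, fun j => ?_, ?_⟩
  · unfold G15
    rw [sgC D.ix D.sq h0 h3 h5, Kb_congr D.hlm, D.hua]
    rfl
  · have := hU.sgn h0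
    rw [add_zero, D.hua] at this
    simpa only [mul_one] using this
  · have := colx D.ix D.sq j
    rw [if_pos h0, D.hlm, D.hwx, D.hua] at this
    exact this
  · have := hT.at5 h5
    rw [add_zero, sm0, add_zero, D.hwx] at this
    rw [mul_zero, add_zero]
    exact this

/-- **class D** -/
theorem lahD (H : PM s' k c t r s) (hs : s' = -1) :
    LAH 120 (KK 120 (fun m => B3 m ∧ B5 m) s' k c) (G15 s' k) eta := by
  refine lah_b (t := t) (r := r) (s := s) (g := 3) (h := 5) (fu := fun p => ra p (-3))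
    (fw := fun p => if p = 2 then r else nr p 5) (e := 1) (x0 := 0) (κ := 1) (a0 := 1) (κ' := 0)
    (by norm_num) (by norm_num) H.tr (pf120 (Or.inl rfl)) (by norm_num)
    (pf120 (Or.inr rfl)) (by norm_num) (fun a ha => not3 H (K120 ha).2.1)
    (fun a ha => not5 H (K120 ha).2.2) (hf3 (by norm_num)) (fun p hp _ => by
      rw [if_neg hp.2]; ring) (Or.inl rfl) ?_
  intro V _ ρ S hS hK hne hρ him
  obtain ⟨h4, h3, h5⟩ := (m120 (per3.and per5)).1 hK
  obtain ⟨e1, e2, e3⟩ := prodS hS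
  have D := H.dt hS h4 hρ him
  obtain ⟨i, hi⟩ := ne_V hne him
  haveI : Nonempty V := ⟨i⟩
  have h0 := H.neg' e3 hs
  have hT := torx D.ix D.sq
  have hU := tory D.ix D.sq
  have h5S : 5 ∉ S := by
    intro h
    have h6 := dvd_m h s' k
    unfold B5 at h5
    push_cast at h5 h6
    omega
  have hv := D.hv5 h5S
  refine ⟨?_, ?_, fun j => ?_, ?_⟩
  · unfold G15
    rw [sgD D.ix D.sq ⟨i, dvd_m hi s' k⟩ h0 h3 h5, Kb_congr D.hlm, hv]
    rfl
  · have := hU.at5 h5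
    rw [add_zero, sm0, zero_add, hv] at this
    simpa only [mul_one] using this
  · have := colx D.ix D.sq j
    rw [if_neg (by omega), D.hlm, D.hwx, zero_mul] at this
    rw [zero_mul]
    exact this
  · have := hT.at3 h3
    rw [add_zero, if_neg (by omega), add_zero, D.hwx] at this
    rw [zero_mul, add_zero]
    exact this

/-! ### the classes with root number `+1` -/

theorem f15_pos {m : ℤ} (h : 0 < m) : f15 m = true ↔ (B3 m ∧ ¬ B5 m) ∨ (¬ B3 m ∧ B5 m) := by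
  unfold f15 B3 B5
  rw [decide_eq_true_iff, if_neg (by omega)]
  by_cases h1 : m % 3 = 2 <;> by_cases h2 : m % 5 = 1 ∨ m % 5 = 4 <;> simp [h1, h2]

theorem f15_neg {m : ℤ} (h : m < 0) : f15 m = true ↔ (¬ B3 m ∧ ¬ B5 m) ∨ (B3 m ∧ B5 m) := by
  unfold f15 B3 B5
  rw [decide_eq_true_iff, if_pos h]
  by_cases h1 : m % 3 = 2 <;> by_cases h2 : m % 5 = 1 ∨ m % 5 = 4 <;> simp [h1, h2]

theorem f15_w15 (m : ℤ) : f15 m = true ↔ w15 m = 1 := by
  unfold f15 w15
  rw [decide_eq_true_iff]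

/-- the final count -/
theorem hg_one {M : ℕ} (hM : 8 ∣ M) (hM0 : 0 < M) {f : ℤ → Bool} {Q : ℤ → Prop} {K : Finset ℕ}
    (hc : c = 1 ∨ c = 3) {η : ℝ} (h0 : 0 ≤ η) (h1 : η ≤ 1)
    (hK : ∀ n : ℕ, 0 < n → (n % M ∈ K ↔ n % 4 = c ∧ f (s' * (k * n : ℕ)) = true))
    (hL : LAH M K (fun S => Q (s' * (k * ∏ v ∈ S, v : ℕ))) η) :
    ∀ ε : ℝ, 0 < ε → ∃ Y₀ : ℕ, ∀ Y : ℕ, Y₀ ≤ Y →
      |(NN (fun d => f d = true ∧ Q d) s' k c Y : ℝ) - η * NN (fun d => f d = true) s' k c Y| ≤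
        ε * Y := by
  have hM4 : 4 ∣ M := Dvd.dvd.trans (by norm_num) hM
  -- remove the residues outside the range
  set K' := (range M).filter fun a => 0 < a ∧ a ∈ K with hK'
  have hL' : LAH M K' (fun S => Q (s' * (k * ∏ v ∈ S, v : ℕ))) η := by
    intro ε hε
    obtain ⟨V, hV⟩ := hL ε hε
    refine ⟨V, ?_⟩
    intro ι _ _ S₀ p hS₀ hp hpi hpK hN hR
    exact hV ι S₀ p hS₀ hp hpi (mem_filter.1 hpK).2.2 hN hR
  have hodd : ∀ a ∈ K', a % 2 = 1 := by
    intro a ha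
    rw [hK', mem_filter, mem_range] at ha
    have h2 := (hK a ha.2.1).1 (by rw [Nat.mod_eq_of_lt ha.1]; exact ha.2.2)
    rcases hc with h | h <;> omega
  have hmem : ∀ n : ℕ, 0 < n → (n % M ∈ K' ↔ n % 4 = c ∧ f (s' * (k * n : ℕ)) = true) := by
    intro n hn
    rw [← hK n hn, hK', mem_filter, mem_range]
    constructor
    · exact fun h => h.2.2
    · intro h
      refine ⟨Nat.mod_lt _ hM0, ?_, h⟩
      have h3 := ((hK n hn).1 h).1
      rw [← Nat.mod_mod_of_dvd n hM4] at h3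
      rcases hc with h | h <;> omega
  intro ε hε
  obtain ⟨X1, h2⟩ := dq hM hM0 h0 h1 hL' hodd ε hε
  refine ⟨X1, fun Y hY => ?_⟩
  have b1 := h2 Y hY
  have k1 : NN (fun d => f d = true ∧ Q d) s' k c Y = ((Icc 1 Y).filter fun n => Squarefree n ∧
      n % M ∈ K' ∧ Q (s' * (k * ∏ v ∈ n.primeFactors, v : ℕ))).card := by
    have hNN : NN (fun d => f d = true ∧ Q d) s' k c Y = ((Icc 1 Y).filter fun M =>
        Squarefree M ∧ M % 4 = c ∧ f (s' * (k * M : ℕ)) = true ∧ Q (s' * (k * M : ℕ))).card := by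
      unfold Pool.Agent.N919.BS.NN
      congr
    rw [hNN]
    congr 1
    ext n
    rw [mem_filter, mem_filter, mem_Icc]
    constructor
    · rintro ⟨i1, i2, i3, i4, i5⟩
      refine ⟨i1, i2, (hmem n (by omega)).2 ⟨i3, i4⟩, ?_⟩
      rw [Nat.prod_primeFactors_of_squarefree i2]
      exact i5
    · rintro ⟨i1, i2, i3, i4⟩
      rw [Nat.prod_primeFactors_of_squarefree i2] at i4
      obtain ⟨i5, i6⟩ := (hmem n (by omega)).1 i3
      exact ⟨i1, i2, i5, i6, i4⟩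
  have k2 : NN (fun d => f d = true) s' k c Y = ((Icc 1 Y).filter fun n => Squarefree n ∧
      n % M ∈ K').card := by
    have hNN : NN (fun d => f d = true) s' k c Y = ((Icc 1 Y).filter fun M =>
        Squarefree M ∧ M % 4 = c ∧ f (s' * (k * M : ℕ)) = true).card := by
      unfold Pool.Agent.N919.BS.NN
      congr
    rw [hNN]
    congr 1
    ext n
    rw [mem_filter, mem_filter, mem_Icc]
    constructor
    · rintro ⟨i1, i2, i3⟩
      exact ⟨i1, i2, (hmem n (by omega)).2 i3⟩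
    · rintro ⟨i1, i2, i3⟩
      exact ⟨i1, i2, (hmem n (by omega)).1 i3⟩
  rw [k1, k2]
  exact b1

end

theorem eta01 : 0 ≤ eta ∧ eta ≤ 1 := Pool.Agent.N916.AM.eta01

/-- the parameters in the eight classes -/
theorem pm_all {s' : ℤ} {k c : ℕ} (hs : s' = 1 ∨ s' = -1) (hk : k = 1 ∨ k = 2)
    (hc : c = 1 ∨ c = 3) : ∃ (t : Bool) (r s : ZMod 2), PM s' k c t r s := by
  have key : ∀ {n : ℕ} {d : ℤ}, Squarefree n → n % 2 = 1 → Squarefree (s' * (2 * n : ℕ)) →
      d2 (s' * (2 * n : ℕ)) = 2 ∨ d2 (s' * (2 * n : ℕ)) = -2 := by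
    intro n d h1 h2 h3
    obtain ⟨-, h4 | h4⟩ := d2_spec h3
    · exfalso
      apply h4.1
      refine Dvd.dvd.mul_left ?_ _
      push_cast
      exact Dvd.intro _ rfl
    · exact h4.2
  have sq : ∀ {n : ℕ}, Squarefree n → n % 2 = 1 → Squarefree (s' * (2 * n : ℕ)) := by
    intro n h1 h2
    have h3 : Squarefree (((2 * n : ℕ)) : ℤ) := by
      rw [Int.squarefree_natCast]
      exact (Pool.Agent.N919.BS.sq_two h2).2 h1
    rcases hs with h | h
    · rw [h, one_mul]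
      exact h3
    · rw [h, neg_one_mul, Pool.Agent.N919.BS.sq_neg]
      exact h3
  rcases hk with rfl | rfl
  · -- k = 1
    by_cases h : (s' = 1 ∧ c = 1) ∨ (s' = -1 ∧ c = 3)
    · refine ⟨false, 0, 0, hs, Or.inl rfl, hc, fun n hn h4 => Or.inl ⟨rfl, rfl, rfl, ?_, ?_⟩,
        fun h => absurd h (by decide), fun _ => rfl, fun h' => ?_⟩
      · rcases h with ⟨rfl, rfl⟩ | ⟨rfl, rfl⟩ <;> push_cast <;> omega
      · rcases h with ⟨rfl, rfl⟩ | ⟨rfl, rfl⟩ <;> omega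
      · rw [if_pos rfl]
        rcases h with ⟨rfl, rfl⟩ | ⟨rfl, rfl⟩
        · exact absurd h' (by norm_num)
        · rfl
    · have h' : (s' = 1 ∧ c = 3) ∨ (s' = -1 ∧ c = 1) := by
        rcases hs with hs | hs <;> rcases hc with hc | hc
        · exact absurd (Or.inl ⟨hs, hc⟩) h
        · exact Or.inl ⟨hs, hc⟩
        · exact Or.inr ⟨hs, hc⟩
        · exact absurd (Or.inr ⟨hs, hc⟩) h
      refine ⟨true, 0, 1, hs, Or.inl rfl, hc, fun n hn h4 => Or.inr (Or.inl ⟨rfl, rfl, rfl, ?_, ?_⟩),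
        fun _ => Or.inr (by decide), fun h => absurd h (by decide), fun h'' => ?_⟩
      · rcases h' with ⟨rfl, rfl⟩ | ⟨rfl, rfl⟩ <;> push_cast <;> omega
      · rcases h' with ⟨rfl, rfl⟩ | ⟨rfl, rfl⟩ <;> omega
      · rw [if_neg (by decide)]
        rcases h' with ⟨rfl, rfl⟩ | ⟨rfl, rfl⟩
        · exact absurd h'' (by norm_num)
        · rfl
  · -- k = 2
    by_cases h : (s' = 1 ∧ c = 1) ∨ (s' = -1 ∧ c = 3)
    · refine ⟨true, 1, 0, hs, Or.inr rfl, hc, fun n hn h4 =>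
        Or.inr (Or.inr (Or.inl ⟨rfl, rfl, rfl, ?_, ?_⟩)),
        fun _ => Or.inl (by decide), fun h => absurd h (by decide), fun h' => ?_⟩
      · have ho : n % 2 = 1 := by rcases hc with h | h <;> omega
        rcases key (d := 0) hn ho (sq hn ho) with h1 | h1
        · exact h1
        · exfalso
          have h2 := (d2_spec (sq hn ho)).1
          have h3 := oe_mod (s' * (2 * n : ℕ))
          rw [h1] at h2
          rcases h with ⟨rfl, rfl⟩ | ⟨rfl, rfl⟩ <;> push_cast at h2 h3 <;> omega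
      · rcases h with ⟨rfl, rfl⟩ | ⟨rfl, rfl⟩ <;> omega
      · rw [if_pos rfl]
        rcases h with ⟨rfl, rfl⟩ | ⟨rfl, rfl⟩
        · exact absurd h' (by norm_num)
        · rfl
    · have h' : (s' = 1 ∧ c = 3) ∨ (s' = -1 ∧ c = 1) := by
        rcases hs with hs | hs <;> rcases hc with hc | hc
        · exact absurd (Or.inl ⟨hs, hc⟩) h
        · exact Or.inl ⟨hs, hc⟩
        · exact Or.inr ⟨hs, hc⟩
        · exact absurd (Or.inr ⟨hs, hc⟩) h
      refine ⟨true, 1, 1, hs, Or.inr rfl, hc, fun n hn h4 =>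
        Or.inr (Or.inr (Or.inr ⟨rfl, rfl, rfl, ?_, ?_⟩)),
        fun _ => Or.inl (by decide), fun h => absurd h (by decide), fun h'' => ?_⟩
      · have ho : n % 2 = 1 := by rcases hc with h | h <;> omega
        rcases key (d := 0) hn ho (sq hn ho) with h1 | h1
        · exfalso
          have h2 := (d2_spec (sq hn ho)).1
          have h3 := oe_mod (s' * (2 * n : ℕ))
          rw [h1] at h2
          rcases h' with ⟨rfl, rfl⟩ | ⟨rfl, rfl⟩ <;> push_cast at h2 h3 <;> omega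
        · exact h1
      · rcases h' with ⟨rfl, rfl⟩ | ⟨rfl, rfl⟩ <;> omega
      · rw [if_neg (by decide)]
        rcases h' with ⟨rfl, rfl⟩ | ⟨rfl, rfl⟩
        · exact absurd h'' (by norm_num)
        · rfl

/-- **the density in the eight classes** -/
theorem hg15 : HG (fun d => f15 d = true) Sg15 eta := by
  intro s' k c hs hk hc
  obtain ⟨t, r, s, H⟩ := pm_all hs hk hc
  rcases hs with h | h
  · refine hg_one (M := 120) (by norm_num) (by norm_num) hc eta01.1 eta01.2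
      (K := KK 120 (fun m => B3 m ∧ ¬ B5 m) s' k c ∪ KK 120 (fun m => ¬ B3 m ∧ B5 m) s' k c) ?_
      (LAH.union (lahB H h) (lahC H h))
    intro n hn
    rw [mem_union, m120 (per3.and per5.not), m120 (per3.not.and per5), f15_pos (H.pos hn h)]
    tauto
  · refine hg_one (M := 120) (by norm_num) (by norm_num) hc eta01.1 eta01.2
      (K := KK 120 (fun m => ¬ B3 m ∧ ¬ B5 m) s' k c ∪ KK 120 (fun m => B3 m ∧ B5 m) s' k c) ?_
      (LAH.union (lahA H h) (lahD H h))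
    intro n hn
    rw [mem_union, m120 (per3.not.and per5.not), m120 (per3.and per5), f15_neg (H.neg' hn h)]
    tauto

/-- **density among all squarefree integers** -/
theorem dens15_sf : Tendsto (fun X : ℕ => (NS (fun d => f15 d = true ∧ Sg15 d) X : ℝ) /
    (NS (fun _ => True) X : ℝ)) atTop (nhds (eta / 2)) := t_NS hf15 eta01.1 hg15

/-- **density among all fundamental discriminants** -/
theorem dens15_fd : Tendsto (fun X : ℕ => (NF (fun d => f15 d = true ∧ Sg15 d) X : ℝ) /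
    (NF (fun _ => True) X : ℝ)) atTop (nhds (eta / 2)) := t_NF hf15 eta01.1 hg15

end Pool.Agent.N916.PQ
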