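import Mathlib
import Pool.Agent.N916.PQ.Fin15
import Pool.Agent.N809.PQ.Red21b

/-!
# PQ: level 21, the hypothesis LAH in the three ordinary classes
-/

set_option autoImplicit false
set_option linter.all false

open scoped Classical

namespace Pool.Agent.N916.PQ.L21

open Finset Filter
open Pool.Agent.Y703.CQ (nr sg)
open Pool.Agent.N973.ND (uu nr_rec nr_self)
open Pool.Agent.N916.GB (Po Vt sy Ev Gv Gd z2_add_self eta)
open Pool.Agent.N958.GB (NR ud wd z2 mem_Vt sy_ne sy_two Gd_iff)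
open Pool.Agent.N875.X15 (PR ps ra sgp d2 oe ch ps_odd ps_two ch_odd oe_mod d2_spec)
open Pool.Agent.N875.P17 (al ra_rec al_odd ra_neg_one)
open Pool.Agent.N809 Pool.Agent.N809.PQ
open Pool.Agent.N916.PQ
open Pool.Agent.N916.AM (LAH LAV Nd Rich dq lah_red)
open Pool.Agent.N919.BS (NN NS NF HG)

/-! ### the symbols at `3` and `7` -/

theorem hf7 {M : ℕ} (h7 : 7 ∣ M) (p : ℕ) (hp : Po p) (hc : p.Coprime M) :
    ra p (-7) = nr p 7 + 1 * uu p := by
  have hne : p ≠ 7 := by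
    rintro rfl
    have := Nat.Coprime.eq_one_of_dvd hc h7
    omega
  have h7p : ¬ 7 ∣ p := fun h => hne ((Nat.prime_dvd_prime_iff_eq (by norm_num) hp.1).1 h).symm
  have e := ra_nr (q := 7) (by norm_num) (by norm_num) h7p
  rw [ra_m7 hp.1, e, nr_rec hp.1 hp.2 (q := 7) (by norm_num) (by norm_num) hne]
  have : uu 7 = 1 := if_pos (by norm_num)
  rw [this, mul_one, one_mul]

section
variable {m : ℤ} {M : ℕ} {t : Bool} {r s : ZMod 2} {V : Type} [Fintype V] {ρ : V → ℕ} {S : Finset ℕ}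

/-- the border row `3` -/
theorem hv3 (H : Dt m M t r s S ρ) (h3 : 3 ∉ S) :
    vq m 3 ρ = fun i => if ρ i = 2 then r + s else nr (ρ i) 3 := by
  funext i
  unfold vq
  by_cases h : ρ i = 2
  · rw [if_pos h, h, ps_two]
    rcases H.pt with ⟨h1, -⟩ | ⟨-, h1, h2, h3, h4⟩ | ⟨-, h1, h2, h3, h4⟩ | ⟨-, h1, h2, h3, h4⟩
    · have := H.tt h
      rw [h1] at this
      exact absurd this (by decide)
    · rw [PT.d2_neg H.sq h3, h1, h2, ra3]
      decide
    · rw [h3, h1, h2, ra3]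
      decide
    · rw [h3, h1, h2, ra3]
      decide
  · have hi := H.prime i
    have hne : ρ i ≠ 3 := fun h' => h3 (h' ▸ H.memS h)
    rw [if_neg h, ps_odd h, ra_star (by norm_num) hi h, ra_nr hi h]
    intro h'
    exact hne ((Nat.prime_dvd_prime_iff_eq hi (by norm_num)).1 h')

end

/-! ### the classes -/

theorem per3 : Per 21 C3 := fun a b h => by
  have h1 : a % 3 = b % 3 := by push_cast at h; omega
  unfold C3
  rw [h1]

theorem per7 : Per 21 C7 := fun a b h => by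
  have h1 : a % 7 = b % 7 := by push_cast at h; omega
  unfold C7
  rw [h1]

theorem m168 {P : ℤ → Prop} (hP : Per 21 P) {s' : ℤ} {k c : ℕ} {n : ℕ} :
    n % 168 ∈ KK 168 P s' k c ↔ n % 4 = c ∧ P (s' * (k * n : ℕ)) :=
  mem_KK (by norm_num) (by norm_num) (by norm_num) hP

theorem K168 {P : ℤ → Prop} {s' : ℤ} {k c : ℕ} {a : ℕ} (h : a ∈ KK 168 P s' k c) :
    a % 4 = c ∧ P (s' * (k * a : ℕ)) := (mem_filter.1 h).2

section
variable {s' : ℤ} {k c : ℕ} {t : Bool} {r s : ZMod 2}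

theorem not3 {a : ℕ} (h : C3 (s' * (k * a : ℕ))) : ¬ 3 ∣ a := by
  intro h3
  unfold C3 at h
  have h1 : (3 : ℤ) ∣ s' * (k * a : ℕ) := Dvd.dvd.mul_left (by exact_mod_cast h3.mul_left k) _
  omega

theorem not7 {a : ℕ} (h : C7 (s' * (k * a : ℕ))) : ¬ 7 ∣ a := by
  intro h3
  unfold C7 at h
  have h1 : (7 : ℤ) ∣ s' * (k * a : ℕ) := Dvd.dvd.mul_left (by exact_mod_cast h3.mul_left k) _
  omega

theorem pf168 {g : ℕ} (hg : g = 3 ∨ g = 7) : g ∈ (168 : ℕ).primeFactors := by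
  rw [Nat.mem_primeFactors]
  rcases hg with rfl | rfl
  · exact ⟨by norm_num, by norm_num, by norm_num⟩
  · exact ⟨by norm_num, by norm_num, by norm_num⟩

/-- the criterion for the sets of primes -/
def G21 (s' : ℤ) (k : ℕ) (S : Finset ℕ) : Prop := Sg21 (s' * (k * ∏ v ∈ S, v : ℕ))

/-- **class A** -/
theorem lahA (H : PM s' k c t r s) (hs : s' = -1) :
    LAH 168 (KK 168 (fun m => ¬ C3 m ∧ ¬ C7 m) s' k c) (G21 s' k) eta := by
  refine LAH.congr (G' := Gd t r s) (by norm_num) ?_ ?_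
  · intro S hS hK hne
    obtain ⟨h4, h3, h5⟩ := (m168 (per3.not.and per7.not)).1 hK
    obtain ⟨e1, e2, e3⟩ := prodS hS
    have him : univ.image (fun x : {x // x ∈ Vt t S} => (x : ℕ)) = Vt t S := by
      ext x
      rw [mem_image]
      exact ⟨fun ⟨y, _, hy⟩ => hy ▸ y.2, fun h => ⟨⟨x, h⟩, mem_univ _, rfl⟩⟩
    have D := H.dt hS h4 Subtype.val_injective him
    obtain ⟨i, hi⟩ := ne_V hne him
    haveI : Nonempty {x // x ∈ Vt t S} := ⟨i⟩
    rw [Gd_iff t r s Subtype.val_injective him]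
    unfold G21
    rw [Red21.sgA D.ix D.sq ⟨i, dvd_m hi s' k⟩ (H.neg' e3 hs) h3 h5]
    exact Gv_congr D.hlm
  · refine lah_red (by norm_num) (by norm_num) H.ts H.tr fun a ha => ?_
    have h1 := (K168 ha).1
    have h2 := H.neg hs
    rw [← h1] at h2
    rw [← h2]
    omega

/-- **class B** -/
theorem lahB (H : PM s' k c t r s) (hs : s' = 1) :
    LAH 168 (KK 168 (fun m => ¬ C3 m ∧ C7 m) s' k c) (G21 s' k) eta := by
  refine lah_b (t := t) (r := r) (s := s) (g := 7) (h := 7) (fu := fun p => ra p (-7))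
    (fw := fun p => if p = 2 then s else uu p) (e := 1) (x0 := 1) (κ := 1) (a0 := 0) (κ' := 1)
    (by norm_num) (by norm_num) H.tr (pf168 (Or.inr rfl)) (by norm_num)
    (pf168 (Or.inr rfl)) (by norm_num) (fun a ha => not7 (K168 ha).2.2)
    (fun a ha => not7 (K168 ha).2.2) (hf7 (by norm_num)) (fun p hp _ => by
      rw [if_neg hp.2]; ring) (Or.inr rfl) ?_
  intro V _ ρ S hS hK hne hρ him
  obtain ⟨h4, h3, h7⟩ := (m168 (per3.not.and per7)).1 hK
  obtain ⟨e1, e2, e3⟩ := prodS hS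
  have D := H.dt hS h4 hρ him
  obtain ⟨i, hi⟩ := ne_V hne him
  haveI : Nonempty V := ⟨i⟩
  have h0 := H.pos e3 hs
  obtain ⟨f1, f2, f3⟩ := Red21.factsB D.ix D.sq h0 h7
  refine ⟨?_, ?_, fun j => ?_, ?_⟩
  · unfold G21
    rw [Red21.sgB D.ix D.sq h0 h3 h7, Kb_congr D.hlm, D.hua]
    rfl
  · rw [D.hua] at f1
    exact f1
  · have := f2 j
    rw [D.hlm, D.hwx, D.hua] at this
    exact this
  · rw [D.hwx] at f3
    exact f3

/-- **class C** -/
theorem lahC (H : PM s' k c t r s) (hs : s' = -1) :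
    LAH 168 (KK 168 (fun m => C3 m ∧ C7 m) s' k c) (G21 s' k) eta := by
  refine lah_b (t := t) (r := r) (s := s) (g := 7) (h := 3) (fu := fun p => ra p (-7))
    (fw := fun p => if p = 2 then r + s else nr p 3) (e := 1) (x0 := 0) (κ := 1) (a0 := 1) (κ' := 0)
    (by norm_num) (by norm_num) H.tr (pf168 (Or.inr rfl)) (by norm_num)
    (pf168 (Or.inl rfl)) (by norm_num) (fun a ha => not7 (K168 ha).2.2)
    (fun a ha => not3 (K168 ha).2.1) (hf7 (by norm_num)) (fun p hp _ => by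
      rw [if_neg hp.2]; ring) (Or.inl rfl) ?_
  intro V _ ρ S hS hK hne hρ him
  obtain ⟨h4, h3, h7⟩ := (m168 (per3.and per7)).1 hK
  obtain ⟨e1, e2, e3⟩ := prodS hS
  have D := H.dt hS h4 hρ him
  obtain ⟨i, hi⟩ := ne_V hne him
  haveI : Nonempty V := ⟨i⟩
  have h0 := H.neg' e3 hs
  have h3S : 3 ∉ S := by
    intro h
    have h6 := dvd_m h s' k
    unfold C3 at h3
    push_cast at h3 h6
    omega
  have hv := hv3 D h3S
  obtain ⟨f1, f2, f3⟩ := Red21.factsC D.ix D.sq h0 h3 h7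
  refine ⟨?_, ?_, fun j => ?_, ?_⟩
  · unfold G21
    rw [Red21.sgC D.ix D.sq ⟨i, dvd_m hi s' k⟩ h0 h3 h7, Kb_congr D.hlm, hv]
    rfl
  · rw [hv] at f1
    exact f1
  · have := f2 j
    rw [D.hlm, D.hwx, hv] at this
    exact this
  · rw [D.hwx] at f3
    exact f3

end

end Pool.Agent.N916.PQ.L21
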