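import Mathlib
import Pool.Agent.N916.PQ.LB0

/-!
# PQ: sums over the linearly independent families of a subspace
-/

set_option autoImplicit false
set_option linter.all false

open scoped Classical

namespace Pool.Agent.N916.PQ

open Finset Filter
open Pool.Agent.N916.GB (mm mm_pos mm_one_le mm_zero mm_succ In bon_even bon_odd bon bon_val card_li ch ch_zero ch_add
  ch_abs z2 z2_add_self eta eta_sum)

section
variable {E : Type} [AddCommGroup E] [Module (ZMod 2) E] [Fintype E]

/-- the linearly independent families of a subspace -/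
noncomputable def Li (k : ℕ) (W : Submodule (ZMod 2) E) : Finset (Fin k → E) :=
  univ.filter fun z => LinearIndependent (ZMod 2) z ∧ ∀ i, z i ∈ W

theorem mem_Li {k : ℕ} {W : Submodule (ZMod 2) E} {z : Fin k → E} :
    z ∈ Li k W ↔ LinearIndependent (ZMod 2) z ∧ ∀ i, z i ∈ W := by
  unfold Li
  rw [mem_filter]
  exact ⟨fun h => h.2, fun h => ⟨mem_univ _, h⟩⟩

theorem card_W (W : Submodule (ZMod 2) E) :
    ((univ.filter fun w : E => w ∈ W).card : ℝ) = 2 ^ Module.finrank (ZMod 2) W := by
  have h1 : (univ.filter fun w : E => w ∈ W).card = Fintype.card W := by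
    rw [Fintype.card_subtype]
  have h2 : Fintype.card W = 2 ^ Module.finrank (ZMod 2) W := by
    have := Module.card_eq_pow_finrank (K := ZMod 2) (V := W)
    rw [ZMod.card] at this
    convert this
  rw [h1, h2]
  push_cast
  rfl

/-- the extension of a family by one vector -/
theorem Li_succ (k : ℕ) (W : Submodule (ZMod 2) E) (φ : (Fin k → E) → ℝ) :
    ∑ z ∈ Li (k + 1) W, φ (fun i => z (Fin.castSucc i)) =
      (2 ^ Module.finrank (ZMod 2) W - 2 ^ k) * ∑ z ∈ Li k W, φ z := by
  have h1 : ∑ z ∈ Li (k + 1) W, φ (fun i => z (Fin.castSucc i)) =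
      ∑ z : Fin (k + 1) → E, if LinearIndependent (ZMod 2) z ∧ ∀ i, z i ∈ W then
        φ (fun i => z (Fin.castSucc i)) else 0 := by
    unfold Li
    rw [sum_filter]
  rw [h1, ← (Fin.snocEquiv fun _ : Fin (k + 1) => E).sum_comp, Fintype.sum_prod_type, sum_comm]
  have h2 : ∀ (z : Fin k → E) (w : E),
      (if LinearIndependent (ZMod 2) ((Fin.snocEquiv fun _ : Fin (k + 1) => E) (w, z)) ∧
        ∀ i, ((Fin.snocEquiv fun _ : Fin (k + 1) => E) (w, z)) i ∈ W then
        φ (fun i => ((Fin.snocEquiv fun _ : Fin (k + 1) => E) (w, z)) (Fin.castSucc i)) else 0) =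
      if z ∈ Li k W then (if w ∈ W ∧ w ∉ Submodule.span (ZMod 2) (Set.range z) then φ z else 0)
        else 0 := by
    intro z w
    have e1 : (Fin.snocEquiv fun _ : Fin (k + 1) => E) (w, z) =
        (Fin.snoc (α := fun _ => E) z w : Fin (k + 1) → E) := rfl
    have e2 : (fun i => (Fin.snoc (α := fun _ => E) z w : Fin (k + 1) → E) (Fin.castSucc i)) = z := by
      funext i
      exact Fin.snoc_castSucc (α := fun _ => E) w z i
    have e3 : (∀ i, (Fin.snoc (α := fun _ => E) z w : Fin (k + 1) → E) i ∈ W) ↔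
        (∀ i, z i ∈ W) ∧ w ∈ W := by
      constructor
      · intro h
        refine ⟨fun i => ?_, ?_⟩
        · have := h (Fin.castSucc i)
          rwa [Fin.snoc_castSucc] at this
        · have := h (Fin.last k)
          rwa [Fin.snoc_last] at this
      · rintro ⟨h3, h4⟩ i
        refine Fin.lastCases ?_ (fun i => ?_) i
        · rwa [Fin.snoc_last]
        · rw [Fin.snoc_castSucc]
          exact h3 i
    have e4 := linearIndependent_finSnoc (K := ZMod 2) (v := z) (x := w)
    rw [e1, e2]
    simp only [e3, e4, mem_Li]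
    by_cases a1 : LinearIndependent (ZMod 2) z <;> by_cases a2 : ∀ i, z i ∈ W <;>
      by_cases a3 : w ∈ W <;> by_cases a4 : w ∈ Submodule.span (ZMod 2) (Set.range z) <;>
      simp [a1, a2, a3, a4]
  rw [sum_congr rfl fun z _ => sum_congr rfl fun w _ => h2 z w]
  have h3 : ∀ z : Fin k → E, (∑ w : E, if z ∈ Li k W then
      (if w ∈ W ∧ w ∉ Submodule.span (ZMod 2) (Set.range z) then φ z else 0) else 0) =
      if z ∈ Li k W then (2 ^ Module.finrank (ZMod 2) W - 2 ^ k) * φ z else 0 := by
    intro z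
    by_cases hz : z ∈ Li k W
    · simp only [if_pos hz]
      rw [← sum_filter, sum_const, nsmul_eq_mul]
      congr 1
      obtain ⟨h4, h5⟩ := mem_Li.1 hz
      have h6 : Submodule.span (ZMod 2) (Set.range z) ≤ W := by
        rw [Submodule.span_le]
        rintro x ⟨i, rfl⟩
        exact h5 i
      have h7 : (univ.filter fun w : E => w ∈ W ∧ w ∉ Submodule.span (ZMod 2) (Set.range z)) =
          (univ.filter fun w : E => w ∈ W) \
            (univ.filter fun w : E => w ∈ Submodule.span (ZMod 2) (Set.range z)) := by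
        ext w
        simp only [mem_filter, Finset.mem_sdiff, mem_univ, true_and]
      have h8 : (univ.filter fun w : E => w ∈ Submodule.span (ZMod 2) (Set.range z)) ⊆
          (univ.filter fun w : E => w ∈ W) := by
        intro w hw
        rw [mem_filter] at hw ⊢
        exact ⟨mem_univ _, h6 hw.2⟩
      rw [h7, card_sdiff_of_subset h8, Nat.cast_sub (card_le_card h8), card_W, card_W,
        finrank_span_eq_card h4, Fintype.card_fin]
    · simp only [if_neg hz]
      rw [sum_const_zero]
  rw [sum_congr rfl fun z _ => h3 z, mul_sum]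
  unfold Li
  rw [sum_filter]
  refine sum_congr rfl fun z _ => ?_
  simp only [mem_filter, mem_univ, true_and]

/-- sums which depend on the first two vectors -/
theorem Li_two (k : ℕ) (W : Submodule (ZMod 2) E) (φ : E → E → ℝ) :
    ∑ z ∈ Li (k + 2) W, φ (z 0) (z 1) =
      (∏ i ∈ range k, ((2 : ℝ) ^ Module.finrank (ZMod 2) W - 2 ^ (i + 2))) *
        ∑ z ∈ Li 2 W, φ (z 0) (z 1) := by
  induction k with
  | zero => rw [range_zero, prod_empty, one_mul]
  | succ k ih =>
    have h := Li_succ (k + 2) W (fun z => φ (z 0) (z 1))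
    have e : ∑ z ∈ Li (k + 2 + 1) W, φ (z (Fin.castSucc 0)) (z (Fin.castSucc 1)) =
        ∑ z ∈ Li (k + 1 + 2) W, φ (z 0) (z 1) := rfl
    rw [← e, h, ih, prod_range_succ]
    ring

theorem Li_card (k : ℕ) (W : Submodule (ZMod 2) E) :
    ((Li k W).card : ℝ) = In k (Module.finrank (ZMod 2) W) := by
  unfold In
  induction k with
  | zero =>
    rw [range_zero, prod_empty]
    have : Li 0 W = univ := by
      ext z
      rw [mem_Li]
      refine ⟨fun _ => mem_univ _, fun _ => ⟨?_, fun i => Fin.elim0 i⟩⟩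
      exact linearIndependent_empty_type
    rw [this, card_univ, Fintype.card_fun, Fintype.card_fin, pow_zero, Nat.cast_one]
  | succ k ih =>
    have h := Li_succ k W (fun _ => 1)
    rw [sum_const, sum_const, nsmul_eq_mul, nsmul_eq_mul, mul_one, mul_one, ih] at h
    rw [h, prod_range_succ]
    ring

end

/-! ### the truncated inclusion and exclusion -/

/-- the truncated sum -/
noncomputable def Bn (K d : ℕ) : ℝ := ∑ k ∈ range (K + 1), (-1) ^ k * In k d / mm k

theorem Bn_err (K d : ℕ) : |Bn K d - (if d = 0 then (1 : ℝ) else 0)| ≤ In (K + 1) d / mm K := by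
  obtain ⟨h1, h2⟩ := bon_val K d
  unfold Bn In
  rw [bon]
  by_cases h : d = 0
  · rw [if_pos h, h1 h, sub_self, abs_zero]
    refine div_nonneg (le_of_eq ?_) (mm_pos K).le
    refine (prod_eq_zero (i := 0) (mem_range.2 (Nat.succ_pos K)) ?_).symm
    rw [h, pow_zero, sub_self]
  · rw [if_neg h, sub_zero]
    have h3 := h2 (Nat.pos_of_ne_zero h)
    rw [mul_div_assoc, abs_mul, abs_pow, abs_neg, abs_one, one_pow, one_mul, abs_of_nonneg h3,
      prod_range_succ']
    refine div_le_div_of_nonneg_right ?_ (mm_pos K).le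
    have h4 : 0 ≤ ∏ i ∈ range K, ((2 : ℝ) ^ d - 2 ^ (i + 1)) := by
      have := mul_nonneg h3 (mm_pos K).le
      rwa [div_mul_cancel₀ _ (mm_pos K).ne'] at this
    refine le_mul_of_one_le_right h4 ?_
    have h5 : (2 : ℝ) ≤ 2 ^ d := by
      calc (2 : ℝ) = 2 ^ 1 := by norm_num
        _ ≤ 2 ^ d := pow_le_pow_right₀ (by norm_num) (Nat.pos_of_ne_zero h)
    rw [pow_zero]
    linarith

theorem In_nonneg (k d : ℕ) : 0 ≤ In k d := by
  have h : (In k d : ℝ) = (Nat.card {s : Fin k → (Fin d → ZMod 2) // LinearIndependent (ZMod 2) s}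
      : ℝ) := by
    rw [card_li, Module.finrank_fintype_fun_eq_card, Fintype.card_fin]
  rw [h]
  exact Nat.cast_nonneg _

theorem In_add_two (k e : ℕ) : In (k + 2) (e + 2) = In 2 (e + 2) * (4 ^ k * In k e) := by
  unfold In
  rw [add_comm k 2, prod_range_add]
  congr 1
  have h : ∀ i ∈ range k, ((2 : ℝ) ^ (e + 2) - 2 ^ (2 + i)) = 4 * (2 ^ e - 2 ^ i) := by
    intro i _
    ring
  rw [prod_congr rfl h, prod_mul_distrib, prod_const, card_range]

theorem prod_shift (k e : ℕ) : ∏ i ∈ range k, ((2 : ℝ) ^ (e + 2) - 2 ^ (i + 2)) = 4 ^ k * In k e := by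
  unfold In
  have h : ∀ i ∈ range k, ((2 : ℝ) ^ (e + 2) - 2 ^ (i + 2)) = 4 * (2 ^ e - 2 ^ i) := by
    intro i _
    ring
  rw [prod_congr rfl h, prod_mul_distrib, prod_const, card_range]

end Pool.Agent.N916.PQ
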