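import Mathlib
import Pool.Agent.N916.PQ.LX

/-!
# PQ-LB, part 3: sums with a sign given by a symmetric form
-/

set_option autoImplicit false
set_option linter.all false

open scoped Classical

namespace Pool.Agent.N916.PQ

open Finset Filter
open Pool.Agent.N916.GB (ps sx sx_mem mm mm_pos mm_one_le In bon_even bon_odd card_li ch ch_zero ch_add
  ch_abs z2 z2_add_self orth orthZ Qf Qf_shift rad mom Pc count_val z2_eq_of_add z2_sq eta eta_sum
  comb_shift bad_card card_ps_fin)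

section mom
variable {Z : Type} [AddCommGroup Z] [Module (ZMod 2) Z] [Fintype Z] {B S : Z → Z → ZMod 2}

/-- the sum with a sign -/
theorem Q_sum2 (hB : ∀ a b c, B a (b + c) = B a b + B a c) (hs : ∀ a b, B a b = B b a)
    (hS : ∀ a b c, S a (b + c) = S a b + S a c) (hSs : ∀ a b, S a b = S b a) {k : ℕ}
    (τ : ps (Fin (k + 2)) → ZMod 2) {ρ : ℝ}
    (hρ : ∀ c : ZMod 2, ((rad fun a b => c * B a b + S a b).card : ℝ) ≤ ρ) :
    |∑ z : Fin (k + 2) → Z, ch (Qf B τ z + S (z 0) (z 1))| * Fintype.card Z ≤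
      (Fintype.card Z : ℝ) ^ (k + 2) * ρ := by
  have hcard : (0 : ℝ) < Fintype.card Z := by
    have : 0 < Fintype.card Z := Fintype.card_pos
    exact_mod_cast this
  have hB' : ∀ a b c, B (a + b) c = B a c + B b c := by
    intro a b c
    rw [hs, hB, hs c a, hs c b]
  have hS' : ∀ a b c, S (a + b) c = S a c + S b c := by
    intro a b c
    rw [hSs, hS, hSs c a, hSs c b]
  have h01 : (1 : Fin (k + 2)) ≠ 0 := by
    intro h
    have := congrArg Fin.val h
    simp at this
  set cd : (Fin (k + 2) → Z) → Prop := fun z =>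
    ∀ b, B b (∑ j, sx τ 0 j • z j) + S b (z 1) = 0 with hcd
  -- the first variable
  have h1 : (∑ z : Fin (k + 2) → Z, ch (Qf B τ z + S (z 0) (z 1))) * Fintype.card Z =
      ∑ z : Fin (k + 2) → Z, ch (Qf B τ z + S (z 0) (z 1)) *
        (if cd z then (Fintype.card Z : ℝ) else 0) := by
    have h2 : ∀ b : Z, ∑ z : Fin (k + 2) → Z, ch (Qf B τ z + S (z 0) (z 1)) =
        ∑ z : Fin (k + 2) → Z, ch (Qf B τ z + S (z 0) (z 1)) *
          ch (B b (∑ j, sx τ 0 j • z j) + S b (z 1)) := by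
      intro b
      rw [← Equiv.sum_comp (Equiv.addRight (Pi.single 0 b : Fin (k + 2) → Z))]
      refine sum_congr rfl fun z _ => ?_
      rw [Equiv.coe_addRight, Qf_shift hB hs, ← ch_add]
      have e0 : (fun x => x + (Pi.single 0 b : Fin (k + 2) → Z)) z 0 = z 0 + b := by
        show (z + (Pi.single 0 b : Fin (k + 2) → Z)) 0 = z 0 + b
        rw [Pi.add_apply, Pi.single_eq_same]
      have e1 : (fun x => x + (Pi.single 0 b : Fin (k + 2) → Z)) z 1 = z 1 := by
        show (z + (Pi.single 0 b : Fin (k + 2) → Z)) 1 = z 1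
        rw [Pi.add_apply, Pi.single_eq_of_ne h01, add_zero]
      rw [e0, e1, hS']
      congr 1
      ring
    have h3 : (∑ z : Fin (k + 2) → Z, ch (Qf B τ z + S (z 0) (z 1))) * Fintype.card Z =
        ∑ b : Z, ∑ z : Fin (k + 2) → Z, ch (Qf B τ z + S (z 0) (z 1)) *
          ch (B b (∑ j, sx τ 0 j • z j) + S b (z 1)) := by
      rw [sum_congr rfl fun b (_ : b ∈ (univ : Finset Z)) => (h2 b).symm, sum_const, card_univ,
        nsmul_eq_mul, mul_comm]
    rw [h3, sum_comm]
    refine sum_congr rfl fun z _ => ?_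
    rw [← mul_sum, orthZ (fun b => B b (∑ j, sx τ 0 j • z j) + S b (z 1)) (fun a b => by
      rw [hB', hS']
      ring)]
  have h4 : |∑ z : Fin (k + 2) → Z, ch (Qf B τ z + S (z 0) (z 1))| * Fintype.card Z ≤
      ((univ.filter cd).card : ℝ) * Fintype.card Z := by
    rw [← abs_of_pos hcard, ← abs_mul, abs_of_pos hcard, h1]
    refine (abs_sum_le_sum_abs _ _).trans ?_
    rw [card_filter, Nat.cast_sum, sum_mul]
    refine sum_le_sum fun z _ => ?_
    rw [abs_mul, ch_abs, one_mul]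
    split_ifs
    · rw [abs_of_pos hcard, Nat.cast_one, one_mul]
    · rw [abs_zero, Nat.cast_zero, zero_mul]
  refine h4.trans ?_
  -- the second variable
  have h5 : ((univ.filter cd).card : ℝ) * Fintype.card Z =
      ∑ z : Fin (k + 2) → Z, ∑ b : Z, if cd (z + (Pi.single 1 b : Fin (k + 2) → Z)) then (1 : ℝ)
        else 0 := by
    have h6 : ∀ b : Z, ((univ.filter cd).card : ℝ) = ∑ z : Fin (k + 2) → Z,
        if cd (z + (Pi.single 1 b : Fin (k + 2) → Z)) then (1 : ℝ) else 0 := by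
      intro b
      rw [card_filter, Nat.cast_sum]
      rw [← Equiv.sum_comp (Equiv.addRight (Pi.single 1 b : Fin (k + 2) → Z))]
      refine sum_congr rfl fun z _ => ?_
      rw [Equiv.coe_addRight, Nat.cast_ite, Nat.cast_one, Nat.cast_zero]
    rw [sum_comm, sum_congr rfl fun b (_ : b ∈ (univ : Finset Z)) => (h6 b).symm, sum_const,
      card_univ, nsmul_eq_mul, mul_comm]
  rw [h5]
  have h7 : ∀ z : Fin (k + 2) → Z, (∑ b : Z, if cd (z + (Pi.single 1 b : Fin (k + 2) → Z)) then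
      (1 : ℝ) else 0) ≤ ρ := by
    intro z
    refine le_trans ?_ (hρ (sx τ 0 1))
    rw [← sum_filter, sum_const, nsmul_eq_mul, mul_one]
    norm_cast
    by_cases hemp : (univ.filter fun b : Z => cd (z + (Pi.single 1 b : Fin (k + 2) → Z))) = ∅
    · rw [hemp, card_empty]
      exact Nat.zero_le _
    obtain ⟨b0, hb0⟩ := Finset.nonempty_iff_ne_empty.2 hemp
    rw [mem_filter] at hb0
    have hsh : ∀ b b' : Z, B b' (∑ j, sx τ 0 j • (z + (Pi.single 1 b : Fin (k + 2) → Z)) j) +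
        S b' ((z + (Pi.single 1 b : Fin (k + 2) → Z)) 1) =
        (B b' (∑ j, sx τ 0 j • z j) + S b' (z 1)) + (sx τ 0 1 * B b' b + S b' b) := by
      intro b b'
      rw [comb_shift, hB, Pool.Agent.N916.GB.B_smul hB, Pi.add_apply, Pi.single_eq_same, hS]
      ring
    refine card_le_card_of_injOn (fun b => b + b0) (fun b hb => ?_)
      (fun a _ b _ h => add_right_cancel h)
    have hb' := (mem_filter.1 hb).2
    rw [mem_coe]
    unfold rad
    rw [mem_filter]
    refine ⟨mem_univ _, fun b' => ?_⟩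
    have a1 := hb' b'
    have a2 := hb0.2 b'
    rw [hsh] at a1 a2
    show sx τ 0 1 * B b' (b + b0) + S b' (b + b0) = 0
    rw [hB, hS]
    have a3 := z2_add_self (B b' (∑ j, sx τ 0 j • z j) + S b' (z 1))
    linear_combination a1 + a2 - a3
  refine (sum_le_sum fun z _ => h7 z).trans (le_of_eq ?_)
  rw [sum_const, card_univ, nsmul_eq_mul, Fintype.card_fun, Fintype.card_fin, Nat.cast_pow]

/-- the moments with a sign -/
theorem mom2 (hB : ∀ a b c, B a (b + c) = B a b + B a c) (hs : ∀ a b, B a b = B b a)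
    (hS : ∀ a b c, S a (b + c) = S a b + S a c) (hSs : ∀ a b, S a b = S b a) (k : ℕ) {ρ : ℝ}
    (hρ : ∀ c : ZMod 2, ((rad fun a b => c * B a b + S a b).card : ℝ) ≤ ρ)
    (T : Finset Z) (G : Finset (Fin (k + 2) → Z))
    (hG : ∀ z, z ∉ G → ∃ c : Fin (k + 2) → ZMod 2, (∃ i, c i ≠ 0) ∧ ∑ i, c i • z i ∈ T) :
    |∑ τ : ps (Fin (k + 2)) → ZMod 2, ∑ z ∈ G, ch (Qf B τ z + S (z 0) (z 1))| *
        Fintype.card Z ≤
      2 ^ (k + 2) ^ 2 * ((Fintype.card Z : ℝ) ^ (k + 2) * (ρ + 2 ^ (k + 2) * T.card)) := by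
  have hcard : (0 : ℝ) < Fintype.card Z := by
    have : 0 < Fintype.card Z := Fintype.card_pos
    exact_mod_cast this
  have hρ0 : 0 ≤ ρ := le_trans (Nat.cast_nonneg _) (hρ 0)
  have hGc : ((Gᶜ).card : ℝ) * Fintype.card Z ≤
      2 ^ (k + 2) * ((Fintype.card Z : ℝ) ^ (k + 2) * T.card) := by
    refine le_trans (mul_le_mul_of_nonneg_right ?_ hcard.le) (bad_card (k + 2) T)
    refine Nat.cast_le.2 (card_le_card fun z hz => ?_)
    rw [mem_compl] at hz
    rw [mem_filter]
    exact ⟨mem_univ _, hG z hz⟩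
  have h1 : ∀ τ : ps (Fin (k + 2)) → ZMod 2,
      |∑ z ∈ G, ch (Qf B τ z + S (z 0) (z 1))| * Fintype.card Z ≤
        (Fintype.card Z : ℝ) ^ (k + 2) * (ρ + 2 ^ (k + 2) * T.card) := by
    intro τ
    have hall : ∑ z ∈ G, ch (Qf B τ z + S (z 0) (z 1)) =
        ∑ z, ch (Qf B τ z + S (z 0) (z 1)) - ∑ z ∈ Gᶜ, ch (Qf B τ z + S (z 0) (z 1)) := by
      rw [← sum_add_sum_compl G]
      ring
    have hc : |∑ z ∈ Gᶜ, ch (Qf B τ z + S (z 0) (z 1))| ≤ (Gᶜ).card := by
      refine (abs_sum_le_sum_abs _ _).trans ?_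
      rw [sum_congr rfl fun z _ => ch_abs _, sum_const, nsmul_eq_mul, mul_one]
    rw [hall]
    have h2 := Q_sum2 hB hs hS hSs τ hρ
    have h3 := mul_le_mul_of_nonneg_right hc hcard.le
    calc |∑ z, ch (Qf B τ z + S (z 0) (z 1)) - ∑ z ∈ Gᶜ, ch (Qf B τ z + S (z 0) (z 1))| *
          (Fintype.card Z : ℝ) ≤
        (|∑ z, ch (Qf B τ z + S (z 0) (z 1))| + |∑ z ∈ Gᶜ, ch (Qf B τ z + S (z 0) (z 1))|) *
          Fintype.card Z := mul_le_mul_of_nonneg_right (abs_sub _ _) hcard.le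
      _ ≤ (Fintype.card Z : ℝ) ^ (k + 2) * (ρ + 2 ^ (k + 2) * T.card) := by linarith
  refine (mul_le_mul_of_nonneg_right (abs_sum_le_sum_abs _ _) hcard.le).trans ?_
  rw [sum_mul]
  refine (sum_le_sum fun τ _ => h1 τ).trans ?_
  rw [sum_const, nsmul_eq_mul]
  refine mul_le_mul_of_nonneg_right ?_ (by positivity)
  rw [card_univ, Fintype.card_fun, ZMod.card, Fintype.card_coe]
  push_cast
  exact pow_le_pow_right₀ (by norm_num) (card_ps_fin (k + 2))

end mom

section
variable {R C J : Type} [Fintype R] [Fintype C] [Fintype J] [LinearOrder J]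
variable {M : R ⊕ J → C ⊕ J → ZMod 2} {X : R ⊕ J → ZMod 2} {Y : C ⊕ J → ZMod 2} {u : J → ZMod 2}

/-- a form with the diagonal `d` on `J` up to `n` products of functions -/
def Ty (S : (C ⊕ J → ZMod 2) → (C ⊕ J → ZMod 2) → ZMod 2) (d : J → ZMod 2) (n : ℕ) : Prop :=
  ∃ (I : Type) (_ : Fintype I) (ℓ : I → (C ⊕ J → ZMod 2) → ZMod 2) (g : I → C ⊕ J → ZMod 2),
    Fintype.card I ≤ n ∧ ∀ a b, S a b = ∑ m, d m * (a (Sum.inr m) * b (Sum.inr m)) +
      ∑ i, ℓ i a * ∑ q, g i q * b q

/-- the radical of such a form -/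
theorem rad_ty {S : (C ⊕ J → ZMod 2) → (C ⊕ J → ZMod 2) → ZMod 2} {d : J → ZMod 2} {n : ℕ}
    (hT : Ty S d n) (hs : ∀ a b, S a b = S b a) (k0 : J) :
    ((rad fun a b : Zs M k0 => S a b).card : ℝ) ≤ (Ann M k0).card * (2 ^ n * (2 ^ Fintype.card C *
      2 ^ (Fintype.card J - (univ.filter fun k : J => d k = 1).card))) := by
  obtain ⟨I, _, ℓ, g, hI, hS⟩ := hT
  set hf : (C ⊕ J → ZMod 2) → C ⊕ J → ZMod 2 := fun a q =>
    Sum.elim (fun _ => 0) (fun m => d m * a (Sum.inr m)) q + ∑ i, ℓ i a * g i q with hhf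
  have hfS : ∀ a b : C ⊕ J → ZMod 2, ∑ q, hf a q * b q = S b a := by
    intro a b
    rw [hs b a, hS, hhf]
    simp only [add_mul, sum_add_distrib]
    congr 1
    · rw [Fintype.sum_sum_type]
      simp only [Sum.elim_inl, Sum.elim_inr, zero_mul, sum_const_zero, zero_add]
      exact sum_congr rfl fun l _ => by ring
    · simp only [mul_sum, sum_mul]
      rw [sum_comm]
      exact sum_congr rfl fun l _ => sum_congr rfl fun i _ => by ring
  set ff : Zs M k0 → (C ⊕ J → ZMod 2) × ((I → ZMod 2) × ((C → ZMod 2) ×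
      ({l : J // l ∈ (univ.filter fun k : J => d k = 1)ᶜ} → ZMod 2))) := fun a =>
    (hf (a : C ⊕ J → ZMod 2),
      ((fun i => ℓ i (a : C ⊕ J → ZMod 2)), (fun v => (a : C ⊕ J → ZMod 2) (Sum.inl v),
        fun l => (a : C ⊕ J → ZMod 2) (Sum.inr l.1)))) with hff
  have h1 : (rad fun a b : Zs M k0 => S a b).card ≤ ((Ann M k0) ×ˢ (univ : Finset ((I → ZMod 2) ×
      ((C → ZMod 2) × ({l : J // l ∈ (univ.filter fun k : J => d k = 1)ᶜ} → ZMod 2))))).card := by
    refine card_le_card_of_injOn ff (fun a ha => ?_) ?_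
    · rw [mem_coe, mem_product]
      refine ⟨?_, mem_univ _⟩
      unfold Ann
      rw [mem_filter]
      refine ⟨mem_univ _, fun b => ?_⟩
      have h2 : a ∈ rad fun a b : Zs M k0 => S a b := ha
      unfold rad at h2
      rw [mem_filter] at h2
      rw [← h2.2 b]
      exact hfS a b
    · intro a _ b _ hab
      rw [hff] at hab
      simp only [Prod.mk.injEq] at hab
      obtain ⟨h2, h3, h4, h5⟩ := hab
      refine Subtype.ext (funext fun q => ?_)
      rcases q with v | l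
      · exact congrFun h4 v
      · by_cases hl : d l = 1
        · have h6 := congrFun h2 (Sum.inr l)
          rw [hhf] at h6
          simp only [Sum.elim_inr, hl, one_mul] at h6
          have h7 : ∀ i, ℓ i (a : C ⊕ J → ZMod 2) = ℓ i (b : C ⊕ J → ZMod 2) := congrFun h3
          simp only [h7] at h6
          exact add_right_cancel h6
        · have hm : l ∈ (univ.filter fun k : J => d k = 1)ᶜ := by
            rw [mem_compl, mem_filter]
            exact fun h => hl h.2
          exact congrFun h5 ⟨l, hm⟩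
  have h2 : ((rad fun a b : Zs M k0 => S a b).card : ℝ) ≤ _ := Nat.cast_le.2 h1
  refine h2.trans ?_
  rw [card_product, Nat.cast_mul]
  refine mul_le_mul_of_nonneg_left ?_ (Nat.cast_nonneg _)
  rw [card_univ, Fintype.card_prod, Fintype.card_prod, Fintype.card_fun, Fintype.card_fun,
    Fintype.card_fun, ZMod.card, Fintype.card_coe, card_compl]
  push_cast
  refine mul_le_mul_of_nonneg_right ?_ (by positivity)
  exact pow_le_pow_right₀ (by norm_num) hI

theorem Ty.add {S S' : (C ⊕ J → ZMod 2) → (C ⊕ J → ZMod 2) → ZMod 2} {d d' : J → ZMod 2}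
    {n n' : ℕ} (h : Ty S d n) (h' : Ty S' d' n') :
    Ty (fun a b => S a b + S' a b) (fun m => d m + d' m) (n + n') := by
  obtain ⟨I, hI, ℓ, g, h1, h2⟩ := h
  obtain ⟨I', hI', ℓ', g', h1', h2'⟩ := h'
  refine ⟨I ⊕ I', inferInstance, Sum.elim ℓ ℓ', Sum.elim g g', ?_, fun a b => ?_⟩
  · rw [Fintype.card_sum]
    exact Nat.add_le_add h1 h1'
  · show S a b + S' a b = _
    rw [h2, h2', Fintype.sum_sum_type]
    simp only [Sum.elim_inl, Sum.elim_inr, add_mul, sum_add_distrib]
    ring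

theorem Ty.mono {S : (C ⊕ J → ZMod 2) → (C ⊕ J → ZMod 2) → ZMod 2} {d : J → ZMod 2} {n n' : ℕ}
    (h : Ty S d n) (hn : n ≤ n') : Ty S d n' := by
  obtain ⟨I, hI, ℓ, g, h1, h2⟩ := h
  exact ⟨I, hI, ℓ, g, h1.trans hn, h2⟩

/-- a diagonal form -/
theorem Ty.diag (d : C ⊕ J → ZMod 2) : Ty (fun a b => ∑ q, d q * (a q * b q))
    (fun m => d (Sum.inr m)) (Fintype.card C) := by
  refine ⟨C, inferInstance, fun c a => d (Sum.inl c) * a (Sum.inl c),
    fun c q => if q = Sum.inl c then 1 else 0, le_rfl, fun a b => ?_⟩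
  show ∑ q, d q * (a q * b q) = _
  rw [Fintype.sum_sum_type, add_comm]
  congr 1
  refine sum_congr rfl fun c _ => ?_
  simp only [ite_mul, one_mul, zero_mul, sum_ite_eq', if_pos (mem_univ _)]
  ring

/-- a product of a function and a linear form -/
theorem Ty.prod (f : (C ⊕ J → ZMod 2) → ZMod 2) (g : C ⊕ J → ZMod 2) :
    Ty (fun a b => f a * ∑ q, g q * b q) (fun _ : J => 0) 1 := by
  refine ⟨Unit, inferInstance, fun _ => f, fun _ => g, by simp, fun a b => ?_⟩
  simp

/-- the form of the Laplacian system, on all the vectors -/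
def B0 (M : R ⊕ J → C ⊕ J → ZMod 2) (a b : C ⊕ J → ZMod 2) : ZMod 2 :=
  ∑ l, (a (Sum.inr l) * ev M b (Sum.inr l) + b (Sum.inr l) * ev M a (Sum.inr l))

theorem B0_ty (H : Hy M X Y u) : Ty (B0 M) u (2 * Fintype.card C + 1) := by
  refine ⟨C ⊕ C ⊕ Unit, inferInstance, Sum.elim (fun c a => a (Sum.inl c))
    (Sum.elim (fun c a => ∑ l, a (Sum.inr l) * M (Sum.inr l) (Sum.inl c))
      (fun _ a => ∑ l, u l * a (Sum.inr l))),
    Sum.elim (fun c q => Sum.elim (fun _ => 0) (fun m => M (Sum.inr m) (Sum.inl c)) q)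
      (Sum.elim (fun c q => if q = Sum.inl c then 1 else 0)
        (fun _ q => Sum.elim (fun _ => 0) u q)), ?_, fun a b => ?_⟩
  · rw [Fintype.card_sum, Fintype.card_sum, Fintype.card_unit]
    omega
  · have h1 : B0 M a b = ∑ q, hh M a q * b q := by
      unfold hh B0
      simp only [add_mul, sum_add_distrib]
      congr 1
      · unfold ev
        simp only [mul_sum, sum_mul]
        rw [sum_comm]
        refine sum_congr rfl fun v _ => sum_congr rfl fun p _ => ?_
        ring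
      · rw [Fintype.sum_sum_type]
        simp only [Sum.elim_inl, Sum.elim_inr, zero_mul, sum_const_zero, zero_add]
        exact sum_congr rfl fun l _ => mul_comm _ _
    rw [h1, Fintype.sum_sum_type]
    have h2 : ∀ c : C, hh M a (Sum.inl c) = ∑ l, a (Sum.inr l) * M (Sum.inr l) (Sum.inl c) := by
      intro c
      unfold hh
      rw [Sum.elim_inl, add_zero]
    simp only [hh_inr H, h2]
    rw [Fintype.sum_sum_type, Fintype.sum_sum_type]
    simp only [Sum.elim_inl, Sum.elim_inr, univ_unique, sum_singleton]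
    have e1 : ∀ c : C, ∑ q : C ⊕ J, (Sum.elim (fun _ => (0 : ZMod 2))
        (fun m => M (Sum.inr m) (Sum.inl c)) q) * b q = ∑ m, M (Sum.inr m) (Sum.inl c) * b (Sum.inr m) := by
      intro c
      rw [Fintype.sum_sum_type]
      simp
    have e2 : ∀ c : C, ∑ q : C ⊕ J, (if q = Sum.inl c then (1 : ZMod 2) else 0) * b q =
        b (Sum.inl c) := by
      intro c
      simp
    have e3 : ∑ q : C ⊕ J, (Sum.elim (fun _ => (0 : ZMod 2)) u q) * b q =
        ∑ m, u m * b (Sum.inr m) := by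
      rw [Fintype.sum_sum_type]
      simp
    simp only [e1, e2, e3, add_mul, sum_add_distrib]
    have e4 : ∑ m, (∑ c, M (Sum.inr m) (Sum.inl c) * a (Sum.inl c)) * b (Sum.inr m) =
        ∑ c, a (Sum.inl c) * ∑ m, M (Sum.inr m) (Sum.inl c) * b (Sum.inr m) := by
      simp only [mul_sum, sum_mul]
      rw [sum_comm]
      exact sum_congr rfl fun _ _ => sum_congr rfl fun _ _ => by ring
    have e5 : ∑ m, u m * (∑ l, u l * a (Sum.inr l)) * b (Sum.inr m) =
        (∑ l, u l * a (Sum.inr l)) * ∑ m, u m * b (Sum.inr m) := by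
      rw [mul_sum]
      exact sum_congr rfl fun _ _ => by ring
    have e6 : ∑ m, u m * a (Sum.inr m) * b (Sum.inr m) =
        ∑ m, u m * (a (Sum.inr m) * b (Sum.inr m)) := sum_congr rfl fun _ _ => by ring
    rw [e4, e5, e6]
    ring

end

end Pool.Agent.N916.PQ
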