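import Mathlib
import Pool.Agent.N916.PQ.LB3

/-!
# PQ-LB, part 4: two more columns than rows, and an alternating form on the kernel
-/

set_option autoImplicit false
set_option linter.all false

open scoped Classical

namespace Pool.Agent.N916.PQ

open Finset Filter
open Pool.Agent.N916.GB (ps sx sx_mem sx_symm sx_diag mm mm_pos mm_one_le mm_ge In bon_even bon_odd
  card_li ch ch_zero ch_one ch_add ch_abs z2 z2_add_self orth orthZ Qf rad mom Pc count_val
  z2_eq_of_add z2_sq eta eta_sum)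

section
variable {R C J : Type} [Fintype R] [Fintype C] [Fintype J] [LinearOrder J]
variable {M : R ⊕ J → C ⊕ J → ZMod 2} {X : R ⊕ J → ZMod 2} {Y : C ⊕ J → ZMod 2} {u : J → ZMod 2}

/-! ### the signed sums -/

theorem sum_Li (M : R ⊕ J → C ⊕ J → ZMod 2) (k0 : J) (k : ℕ) (σ : ps J → ZMod 2)
    (φ : (Fin k → C ⊕ J → ZMod 2) → ℝ) :
    ∑ z ∈ Li k (Kr M k0 (sx σ)), φ z =
      ∑ z : Fin k → Zs M k0, if LinearIndependent (ZMod 2) z ∧ Pc (yy z) (ee z) σ then
        φ (fun i => (z i : C ⊕ J → ZMod 2)) else 0 := by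
  rw [← sum_filter]
  have hle := Kr_le M k0 (sx σ)
  symm
  refine sum_bij (fun z _ i => (z i : C ⊕ J → ZMod 2)) ?_ ?_ ?_ ?_
  · intro z hz
    rw [mem_filter] at hz
    rw [mem_Li]
    refine ⟨?_, (Kr_iff z σ).2 hz.2.2⟩
    have h2 := hz.2.1
    rw [← LinearMap.linearIndependent_iff (Submodule.subtype _) (Submodule.ker_subtype _)] at h2
    exact h2
  · intro z _ z' _ h
    funext i
    exact Subtype.ext (congrFun h i)
  · intro z hz
    rw [mem_Li] at hz
    refine ⟨fun i => ⟨z i, hle (hz.2 i)⟩, ?_, rfl⟩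
    rw [mem_filter]
    refine ⟨mem_univ _, ?_, (Kr_iff _ σ).1 fun i => hz.2 i⟩
    rw [← LinearMap.linearIndependent_iff (Submodule.subtype _) (Submodule.ker_subtype _)]
    exact hz.1
  · intro z _
    rfl

theorem U_val (H : Hy M X Y u) (k0 : J) (k : ℕ) (φ : (Fin k → C ⊕ J → ZMod 2) → ZMod 2) :
    (∑ σ : ps J → ZMod 2, ∑ z ∈ Li k (Kr M k0 (sx σ)), ch (φ z)) * 2 ^ (k * Fintype.card J) =
      2 ^ (ps J).card * (2 ^ k * ∑ τ : ps (Fin k) → ZMod 2, ∑ z ∈ GG M k0 k,
        ch (Qf (BB M k0) τ z + φ (fun i => (z i : C ⊕ J → ZMod 2)))) := by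
  have h6 : ∑ σ : ps J → ZMod 2, ∑ z ∈ Li k (Kr M k0 (sx σ)), ch (φ z) =
      ∑ z ∈ GG M k0 k, ((univ.filter fun σ : ps J → ZMod 2 => Pc (yy z) (ee z) σ).card : ℝ) *
        ch (φ (fun i => (z i : C ⊕ J → ZMod 2))) := by
    rw [sum_congr rfl fun σ _ => sum_Li M k0 k σ (fun z => ch (φ z))]
    rw [sum_comm]
    unfold GG
    rw [sum_filter]
    refine sum_congr rfl fun z _ => ?_
    by_cases hz : z ∈ GG M k0 k
    · have hz' := hz
      unfold GG at hz'
      rw [mem_filter] at hz'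
      rw [if_pos hz'.2, card_filter, Nat.cast_sum, sum_mul]
      refine sum_congr rfl fun σ _ => ?_
      have := GG_li hz
      by_cases hσ : Pc (yy z) (ee z) σ
      · rw [if_pos ⟨this, hσ⟩, if_pos hσ, Nat.cast_one, one_mul]
      · rw [if_neg fun h => hσ h.2, if_neg hσ, Nat.cast_zero, zero_mul]
    · have hz' := hz
      unfold GG at hz'
      rw [mem_filter] at hz'
      rw [if_neg fun h => hz' ⟨mem_univ _, h⟩]
      refine sum_eq_zero fun σ _ => ?_
      rw [if_neg]
      rintro ⟨h1, h2⟩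
      exact hz (li_GG H h1 h2)
  rw [h6, sum_mul]
  have h7 : ∀ z ∈ GG M k0 k, ((univ.filter fun σ : ps J → ZMod 2 => Pc (yy z) (ee z) σ).card : ℝ) *
      ch (φ (fun i => (z i : C ⊕ J → ZMod 2))) * 2 ^ (k * Fintype.card J) =
      2 ^ (ps J).card * (2 ^ k * ∑ τ : ps (Fin k) → ZMod 2,
        ch (Qf (BB M k0) τ z + φ (fun i => (z i : C ⊕ J → ZMod 2)))) := by
    intro z hz
    unfold GG at hz
    rw [mem_filter] at hz
    rw [mul_right_comm, count_val (yy z) (ee z) hz.2 k0 (fun i => (mem_Zs.1 (z i).2).1) (sum_ee H z)]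
    rw [mul_assoc]
    congr 1
    rw [mul_assoc]
    congr 1
    rw [sum_mul]
    refine sum_congr rfl fun τ _ => ?_
    rw [ch_add]
    rfl
  rw [sum_congr rfl h7, ← mul_sum, ← mul_sum, sum_comm]

theorem U_bound (H : Hy M X Y u) (k0 : J) (k V D : ℕ) (hD : Fintype.card C = Fintype.card R + D)
    {S : (C ⊕ J → ZMod 2) → (C ⊕ J → ZMod 2) → ZMod 2} {d : J → ZMod 2} {n : ℕ}
    (hSa : ∀ a b c, S a (b + c) = S a b + S a c) (hSs : ∀ a b, S a b = S b a) (hT : Ty S d n)
    (hV1 : Fintype.card R + Fintype.card C + (n + (2 * Fintype.card C + 1)) + V ≤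
      (univ.filter fun k : J => d k = 1).card)
    (hV2 : Fintype.card R + Fintype.card C + (n + (2 * Fintype.card C + 1)) + V ≤
      (univ.filter fun k : J => d k + u k = 1).card) :
    |(∑ σ : ps J → ZMod 2, ∑ z ∈ Li (k + 2) (Kr M k0 (sx σ)), ch (S (z 0) (z 1))) /
        2 ^ (ps J).card| * 2 ^ V ≤ (2 ^ D) ^ (k + 2) * 2 ^ ((k + 2) ^ 2 + (k + 2) + 4) := by
  set T : ℝ := (∑ σ : ps J → ZMod 2, ∑ z ∈ Li (k + 2) (Kr M k0 (sx σ)), ch (S (z 0) (z 1))) /
        2 ^ (ps J).card with hTd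
  set Q : ℝ := ∑ τ : ps (Fin (k + 2)) → ZMod 2, ∑ z ∈ GG M k0 (k + 2),
    ch (Qf (BB M k0) τ z + S (z 0) (z 1)) with hQ
  set Z : ℝ := (Fintype.card (Zs M k0) : ℝ) with hZ
  have hZ1 : Z * 2 ^ (Fintype.card R + 1) = 2 ^ (Fintype.card C + Fintype.card J) := card_Zs H k0
  have hZ2 : Z * 2 = 2 ^ D * 2 ^ Fintype.card J := by
    have h2 : (0 : ℝ) < 2 ^ Fintype.card R := by positivity
    refine mul_right_cancel₀ h2.ne' ?_
    calc Z * 2 * 2 ^ Fintype.card R = Z * 2 ^ (Fintype.card R + 1) := by ring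
      _ = 2 ^ (Fintype.card C + Fintype.card J) := hZ1
      _ = 2 ^ D * 2 ^ Fintype.card J * 2 ^ Fintype.card R := by rw [hD]; ring
  have hDp : (0 : ℝ) < 2 ^ D := by positivity
  have hD1 : (1 : ℝ) ≤ 2 ^ D := one_le_pow₀ (by norm_num)
  have hZ0 : 0 < Z := by
    have : (0 : ℝ) < 2 ^ D * 2 ^ Fintype.card J := by positivity
    linarith
  have h6 := U_val H k0 (k + 2) (fun z => S (z 0) (z 1))
  have hp : (0 : ℝ) < 2 ^ (ps J).card := by positivity
  have h7 : T * 2 ^ ((k + 2) * Fintype.card J) = 2 ^ (k + 2) * Q := by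
    rw [hTd, div_mul_eq_mul_div, h6, mul_div_cancel_left₀ _ hp.ne']
  have h8 : (2 ^ D) ^ (k + 2) * (2 : ℝ) ^ ((k + 2) * Fintype.card J) = Z ^ (k + 2) * 2 ^ (k + 2) := by
    rw [← mul_pow, hZ2, mul_pow, ← pow_mul 2 (Fintype.card J), mul_comm (Fintype.card J) (k + 2)]
  have hk2 : (0 : ℝ) < 2 ^ (k + 2) := by positivity
  have h9 : T * Z ^ (k + 2) = (2 ^ D) ^ (k + 2) * Q := by
    refine mul_left_cancel₀ hk2.ne' ?_
    calc 2 ^ (k + 2) * (T * Z ^ (k + 2)) = T * (Z ^ (k + 2) * 2 ^ (k + 2)) := by ring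
      _ = (2 ^ D) ^ (k + 2) * (T * 2 ^ ((k + 2) * Fintype.card J)) := by rw [← h8]; ring
      _ = 2 ^ (k + 2) * ((2 ^ D) ^ (k + 2) * Q) := by rw [h7]; ring
  have hZk : 0 < Z ^ (k + 2) := by positivity
  have hDk : (0 : ℝ) < (2 ^ D) ^ (k + 2) := by positivity
  -- the radicals
  set n1 : ℕ := n + (2 * Fintype.card C + 1) with hn1
  set o : ℕ := Fintype.card R + Fintype.card C + n1 + V with ho
  have hoJ : o ≤ Fintype.card J := hV1.trans ((card_filter_le _ _).trans (le_of_eq card_univ))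
  set A : ℝ := ((Ann M k0).card : ℝ) with hA
  set ρ : ℝ := A * (2 ^ n1 * (2 ^ Fintype.card C * 2 ^ (Fintype.card J - o))) with hρd
  have hA0 : 0 ≤ A := Nat.cast_nonneg _
  have hBs : ∀ a b : C ⊕ J → ZMod 2, B0 M a b = B0 M b a := by
    intro a b
    unfold B0
    exact sum_congr rfl fun l _ => add_comm _ _
  have hρ : ∀ c : ZMod 2, ((rad fun a b : Zs M k0 => c * BB M k0 a b + S a b).card : ℝ) ≤ ρ := by
    intro c
    rcases z2 c with hc | hc
    · have e : (fun a b : Zs M k0 => c * BB M k0 a b + S a b) = fun a b : Zs M k0 => S a b := by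
        funext a b
        rw [hc, zero_mul, zero_add]
      rw [e]
      refine (rad_ty (M := M) (hT.mono (n' := n1) (by omega)) hSs k0).trans ?_
      rw [hρd]
      have h : (2 : ℝ) ^ (Fintype.card J - (univ.filter fun k : J => d k = 1).card) ≤
          2 ^ (Fintype.card J - o) := pow_le_pow_right₀ (by norm_num) (by omega)
      gcongr
    · have e : (fun a b : Zs M k0 => c * BB M k0 a b + S a b) =
          fun a b : Zs M k0 => (fun a b => S a b + B0 M a b) (a : C ⊕ J → ZMod 2) b := by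
        funext a b
        rw [hc, one_mul, add_comm]
        rfl
      rw [e]
      refine (rad_ty (M := M) (hT.add (B0_ty H)) (fun a b => by
        show S a b + B0 M a b = S b a + B0 M b a
        rw [hSs, hBs]) k0).trans ?_
      rw [hρd]
      have h : (2 : ℝ) ^ (Fintype.card J - (univ.filter fun k : J => d k + u k = 1).card) ≤
          2 ^ (Fintype.card J - o) := pow_le_pow_right₀ (by norm_num) (by omega)
      gcongr
  have h10 := mom2 (B := BB M k0) (S := fun a b : Zs M k0 => S a b) (BB_add M k0) (BB_symm M k0)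
    (fun a b c => by
      show S a ((b + c : Zs M k0) : C ⊕ J → ZMod 2) = _
      rw [Submodule.coe_add, hSa]) (fun a b => hSs _ _) k hρ (SU M k0) (GG M k0 (k + 2))
    (fun z hz => by
      unfold GG at hz
      rw [mem_filter] at hz
      have hz' : ¬ ∀ c : Fin (k + 2) → ZMod 2, (∀ l, ∑ i, c i * yy z i l = 0) → ∀ i, c i = 0 :=
        fun h => hz ⟨mem_univ _, h⟩
      push Not at hz'
      obtain ⟨c, hc1, hc2⟩ := hz'
      refine ⟨c, hc2, ?_⟩
      unfold SU
      rw [mem_filter]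
      refine ⟨mem_univ _, fun l => ?_⟩
      rw [Zs_coe_sum]
      exact hc1 l)
  rw [← hQ, ← hZ] at h10
  have h11 : |T| * Z ≤
      (2 ^ D) ^ (k + 2) * (2 ^ (k + 2) ^ 2 * (ρ + 2 ^ (k + 2) * (SU M k0).card)) := by
    have h12 : (2 ^ D) ^ (k + 2) * |Q| = |T| * Z ^ (k + 2) := by
      have h13 := congrArg abs h9
      rw [abs_mul, abs_mul, abs_of_pos hZk, abs_of_pos hDk] at h13
      exact h13.symm
    refine le_of_mul_le_mul_left ?_ hZk
    calc Z ^ (k + 2) * (|T| * Z) = |T| * Z ^ (k + 2) * Z := by ring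
      _ = (2 ^ D) ^ (k + 2) * (|Q| * Z) := by rw [← h12]; ring
      _ ≤ (2 ^ D) ^ (k + 2) * (2 ^ (k + 2) ^ 2 * (Z ^ (k + 2) *
          (ρ + 2 ^ (k + 2) * (SU M k0).card))) := mul_le_mul_of_nonneg_left h10 hDk.le
      _ = _ := by ring
  have h14 := card_Ann M k0
  rw [← hZ, ← hA] at h14
  have h15 : ρ * 2 ^ V ≤ 8 * Z := by
    refine le_of_mul_le_mul_left ?_ hZ0
    calc Z * (ρ * 2 ^ V) = (A * Z) * (2 ^ n1 * (2 ^ Fintype.card C * 2 ^ (Fintype.card J - o))) *
          2 ^ V := by rw [hρd]; ring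
      _ = 2 ^ (Fintype.card C + Fintype.card J + n1 + Fintype.card C + (Fintype.card J - o) + V) := by
        rw [h14]
        ring
      _ ≤ (2 : ℝ) ^ (D + Fintype.card J + (D + Fintype.card J) + 1) :=
        pow_le_pow_right₀ (by norm_num) (by omega)
      _ = (2 ^ D * 2 ^ Fintype.card J) * (2 ^ D * 2 ^ Fintype.card J) * 2 := by ring
      _ = (Z * 2) * (Z * 2) * 2 := by rw [hZ2]
      _ = Z * (8 * Z) := by ring
  have h16 : ((SU M k0).card : ℝ) * 2 ^ V ≤ 2 * Z := by
    calc ((SU M k0).card : ℝ) * 2 ^ V ≤ 2 ^ Fintype.card C * 2 ^ V := by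
          have := card_SU M k0
          gcongr
      _ = 2 ^ (Fintype.card C + V) := by ring
      _ ≤ 2 ^ Fintype.card J := pow_le_pow_right₀ (by norm_num) (by omega)
      _ ≤ 2 ^ D * 2 ^ Fintype.card J := le_mul_of_one_le_left (by positivity) hD1
      _ = 2 * Z := by rw [← hZ2]; ring
  have hk1 : (1 : ℝ) ≤ 2 ^ (k + 2) := one_le_pow₀ (by norm_num)
  have h17 : (|T| * 2 ^ V) * Z ≤ ((2 ^ D) ^ (k + 2) * 2 ^ ((k + 2) ^ 2 + (k + 2) + 4)) * Z := by
    calc (|T| * 2 ^ V) * Z = (|T| * Z) * 2 ^ V := by ring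
      _ ≤ ((2 ^ D) ^ (k + 2) * (2 ^ (k + 2) ^ 2 * (ρ + 2 ^ (k + 2) * (SU M k0).card))) *
          2 ^ V := by gcongr
      _ = (2 ^ D) ^ (k + 2) * (2 ^ (k + 2) ^ 2 * (ρ * 2 ^ V +
          2 ^ (k + 2) * ((SU M k0).card * 2 ^ V))) := by ring
      _ ≤ (2 ^ D) ^ (k + 2) * (2 ^ (k + 2) ^ 2 * (8 * Z + 2 ^ (k + 2) * (2 * Z))) := by gcongr
      _ ≤ (2 ^ D) ^ (k + 2) * (2 ^ (k + 2) ^ 2 * (8 * Z * 2 ^ (k + 2) + 2 ^ (k + 2) * (8 * Z))) := by
          have : 8 * Z ≤ 8 * Z * 2 ^ (k + 2) := le_mul_of_one_le_right (by linarith) hk1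
          have h18 : 2 * Z ≤ 8 * Z := by linarith
          gcongr
      _ = ((2 ^ D) ^ (k + 2) * 2 ^ ((k + 2) ^ 2 + (k + 2) + 4)) * Z := by ring
  exact le_of_mul_le_mul_right h17 hZ0

/-! ### the dimension of the kernel -/

/-- the matrix with the Laplacian -/
noncomputable def Ad (M : R ⊕ J → C ⊕ J → ZMod 2) (δ : J → J → ZMod 2) (r : R ⊕ J) (c : C ⊕ J) :
    ZMod 2 := M r c + Sum.elim (fun _ => 0) (fun l => Sum.elim (fun _ => 0)
      (fun m => δ l m + if m = l then ∑ n, δ l n else 0) c) r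

theorem Ad_iff (M : R ⊕ J → C ⊕ J → ZMod 2) (δ : J → J → ZMod 2) (x : C ⊕ J → ZMod 2) :
    IsS M δ x ↔ ∀ r, ∑ c, Ad M δ r c * x c = 0 := by
  have h1 : ∀ v, ∑ c, Ad M δ (Sum.inl v) c * x c = ev M x (Sum.inl v) := by
    intro v
    unfold Ad ev
    simp
  have h2 : ∀ l, ∑ c, Ad M δ (Sum.inr l) c * x c = ev M x (Sum.inr l) + lp δ x l := by
    intro l
    unfold Ad ev lp
    simp only [Sum.elim_inr, add_mul, sum_add_distrib]
    congr 1
    rw [Fintype.sum_sum_type]
    simp only [Sum.elim_inl, Sum.elim_inr, zero_mul, sum_const_zero, zero_add, add_mul,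
      sum_add_distrib, ite_mul]
    rw [sum_ite_eq', if_pos (mem_univ _)]
    congr 1
    · exact sum_congr rfl fun m _ => mul_comm _ _
    · rw [sum_mul]
      exact sum_congr rfl fun m _ => mul_comm _ _
  constructor
  · rintro ⟨h3, h4⟩ (v | l)
    · rw [h1, h3]
    · rw [h2, h4]
  · intro h
    exact ⟨fun v => by rw [← h1, h], fun l => by rw [← h2, h]⟩

/-- the number of the elements of the two kernels -/
theorem card_ker' {V W : Type} [Fintype V] [Fintype W] (A : V → W → ZMod 2) :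
    ((univ.filter fun y : W → ZMod 2 => ∀ i, ∑ j, A i j * y j = 0).card : ℝ) *
        2 ^ Fintype.card V =
      ((univ.filter fun x : V → ZMod 2 => ∀ j, ∑ i, A i j * x i = 0).card : ℝ) *
        2 ^ Fintype.card W := by
  have h1 : ∑ y : W → ZMod 2, ∑ t : V → ZMod 2, ch (∑ i, t i * ∑ j, A i j * y j) =
      ((univ.filter fun y : W → ZMod 2 => ∀ i, ∑ j, A i j * y j = 0).card : ℝ) *
        2 ^ Fintype.card V := by
    rw [card_filter, Nat.cast_sum, sum_mul]
    refine sum_congr rfl fun y _ => ?_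
    rw [orth]
    split_ifs
    · rw [Nat.cast_one, one_mul]
    · rw [Nat.cast_zero, zero_mul]
  have h2 : ∑ t : V → ZMod 2, ∑ y : W → ZMod 2, ch (∑ j, y j * ∑ i, A i j * t i) =
      ((univ.filter fun x : V → ZMod 2 => ∀ j, ∑ i, A i j * x i = 0).card : ℝ) *
        2 ^ Fintype.card W := by
    rw [card_filter, Nat.cast_sum, sum_mul]
    refine sum_congr rfl fun y _ => ?_
    rw [orth]
    split_ifs
    · rw [Nat.cast_one, one_mul]
    · rw [Nat.cast_zero, zero_mul]
  rw [← h1, ← h2, sum_comm]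
  refine sum_congr rfl fun t _ => sum_congr rfl fun y _ => congrArg ch ?_
  simp only [mul_sum]
  rw [sum_comm]
  refine sum_congr rfl fun v _ => sum_congr rfl fun p _ => ?_
  ring

theorem dim_ge (H : Hy M X Y u) (k0 : J) {D : ℕ} (hD : Fintype.card C = Fintype.card R + D)
    {δ : J → J → ZMod 2} (hδ : ∀ l m, δ l m = δ m l) :
    D ≤ Module.finrank (ZMod 2) (Kr M k0 δ) := by
  -- the left kernel
  have h1 : (2 : ℝ) ≤ ((univ.filter fun x : R ⊕ J → ZMod 2 => ∀ j, ∑ i, Ad M δ i j * x i = 0).card : ℝ)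
      := by
    have h2 : ({0, X} : Finset (R ⊕ J → ZMod 2)) ⊆
        univ.filter fun x : R ⊕ J → ZMod 2 => ∀ j, ∑ i, Ad M δ i j * x i = 0 := by
      intro x hx
      rw [mem_insert, mem_singleton] at hx
      rw [mem_filter]
      refine ⟨mem_univ _, fun j => ?_⟩
      rcases hx with h | h
      · rw [h]
        exact sum_eq_zero fun i _ => mul_zero _
      · rw [h]
        unfold Ad
        simp only [add_mul, sum_add_distrib]
        have h3 : ∑ r, M r j * X r = 0 := by
          rw [← H.kx j]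
          exact sum_congr rfl fun r _ => mul_comm _ _
        rw [h3, zero_add, Fintype.sum_sum_type]
        simp only [Sum.elim_inl, zero_mul, sum_const_zero, zero_add, Sum.elim_inr, H.x1, mul_one]
        rcases j with c | m
        · simp
        · simp only [Sum.elim_inr, sum_add_distrib]
          rw [sum_ite_eq, if_pos (mem_univ _)]
          rw [sum_congr rfl fun l _ => hδ l m, z2_add_self]
    have h3 : (0 : R ⊕ J → ZMod 2) ≠ X := by
      intro h
      have := congrFun h (Sum.inr k0)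
      rw [H.x1, Pi.zero_apply] at this
      exact zero_ne_one this
    have h4 := card_le_card h2
    rw [card_pair h3] at h4
    exact_mod_cast h4
  have h2 := card_ker' (Ad M δ)
  -- the solutions
  have h3 : ((univ.filter fun y : C ⊕ J → ZMod 2 => ∀ i, ∑ j, Ad M δ i j * y j = 0).card : ℝ) ≤
      2 * 2 ^ Module.finrank (ZMod 2) (Kr M k0 δ) := by
    rw [← card_W]
    have h4 : (univ.filter fun y : C ⊕ J → ZMod 2 => ∀ i, ∑ j, Ad M δ i j * y j = 0).card ≤
        ((univ : Finset (ZMod 2)) ×ˢ (univ.filter fun w : C ⊕ J → ZMod 2 => w ∈ Kr M k0 δ)).card := by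
      refine card_le_card_of_injOn (fun y => (y (Sum.inr k0), y + y (Sum.inr k0) • Y)) ?_ ?_
      · intro y hy
        have hy' : IsS M δ y := (Ad_iff M δ y).2 (mem_filter.1 hy).2
        rw [mem_coe, mem_product, mem_filter]
        refine ⟨mem_univ _, mem_univ _, ?_⟩
        rw [mem_Kr]
        refine ⟨?_, isS_add hy' (isS_smul _ (isS_Y H δ))⟩
        show y (Sum.inr k0) + y (Sum.inr k0) * Y (Sum.inr k0) = 0
        rw [H.y1, mul_one, z2_add_self]
      · intro y _ y' _ h
        simp only [Prod.mk.injEq] at h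
        rw [h.1] at h
        exact add_right_cancel h.2
    rw [card_product] at h4
    have h5 : (univ : Finset (ZMod 2)).card = 2 := by
      rw [card_univ, ZMod.card]
    rw [h5] at h4
    exact_mod_cast h4
  have h4 : (2 : ℝ) ^ (D + 1) * 2 ^ (Fintype.card R + Fintype.card J) ≤
      2 ^ (Module.finrank (ZMod 2) (Kr M k0 δ) + 1) * 2 ^ (Fintype.card R + Fintype.card J) := by
    calc (2 : ℝ) ^ (D + 1) * 2 ^ (Fintype.card R + Fintype.card J) =
        2 * 2 ^ (Fintype.card C + Fintype.card J) := by rw [hD]; ring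
      _ ≤ ((univ.filter fun x : R ⊕ J → ZMod 2 => ∀ j, ∑ i, Ad M δ i j * x i = 0).card : ℝ) *
          2 ^ (Fintype.card C + Fintype.card J) := by gcongr
      _ = ((univ.filter fun y : C ⊕ J → ZMod 2 => ∀ i, ∑ j, Ad M δ i j * y j = 0).card : ℝ) *
          2 ^ (Fintype.card R + Fintype.card J) := by
        rw [Fintype.card_sum, Fintype.card_sum] at h2
        convert h2.symm using 3
        all_goals
          apply congrArg Finset.card
          ext y
          simp only [mem_filter, mem_univ, true_and]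
      _ ≤ (2 * 2 ^ Module.finrank (ZMod 2) (Kr M k0 δ)) *
          2 ^ (Fintype.card R + Fintype.card J) := by gcongr
      _ = _ := by ring
  have h5 : (0 : ℝ) < 2 ^ (Fintype.card R + Fintype.card J) := by positivity
  have h6 := le_of_mul_le_mul_right h4 h5
  have h7 := (pow_le_pow_iff_right₀ (by norm_num : (1 : ℝ) < 2)).1 h6
  omega

/-! ### the good systems -/

/-- the kernel has dimension two and the form is nondegenerate on it -/
def Gd2 (M : R ⊕ J → C ⊕ J → ZMod 2) (k0 : J) (S : (C ⊕ J → ZMod 2) → (C ⊕ J → ZMod 2) → ZMod 2)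
    (δ : J → J → ZMod 2) : Prop :=
  Module.finrank (ZMod 2) (Kr M k0 δ) = 2 ∧
    ∀ a ∈ Kr M k0 δ, (∀ b ∈ Kr M k0 δ, S a b = 0) → a = 0

end

section
variable {E : Type} [AddCommGroup E] [Module (ZMod 2) E] [Fintype E]

theorem good_val {W : Submodule (ZMod 2) E} {S : E → E → ZMod 2}
    (hSa : ∀ a b c, S a (b + c) = S a b + S a c) (hSs : ∀ a b, S a b = S b a)
    (hSo : ∀ a, S a a = 0) :
    (if (Module.finrank (ZMod 2) W = 2 ∧ ∀ a ∈ W, (∀ b ∈ W, S a b = 0) → a = 0) then (12 : ℝ)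
      else 0) = (In 2 (Module.finrank (ZMod 2) W) - ∑ z ∈ Li 2 W, ch (S (z 0) (z 1))) *
        (if Module.finrank (ZMod 2) W - 2 = 0 ∧ 2 ≤ Module.finrank (ZMod 2) W then 1 else 0) := by
  by_cases hd : Module.finrank (ZMod 2) W = 2
  · rw [if_pos (show Module.finrank (ZMod 2) W - 2 = 0 ∧ 2 ≤ Module.finrank (ZMod 2) W by omega),
      mul_one, ← Li_card]
    have h0 : ∀ a, S a 0 = 0 := fun a => by
      have := hSa a 0 0
      rw [add_zero] at this
      exact left_eq_add.1 this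
    have hsm : ∀ (a b : E) (c : ZMod 2), S a (c • b) = c * S a b := by
      intro a b c
      rcases z2 c with rfl | rfl
      · rw [zero_smul, zero_mul, h0]
      · rw [one_smul, one_mul]
    have hI : ((Li 2 W).card : ℝ) = 6 := by
      rw [Li_card, hd]
      unfold In
      simp only [prod_range_succ, prod_range_zero]
      norm_num
    have hsp : ∀ z ∈ Li 2 W, ∀ a ∈ W, ∃ c : Fin 2 → ZMod 2, ∑ i, c i • z i = a := by
      intro z hz a ha
      obtain ⟨h4, h5⟩ := mem_Li.1 hz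
      have h6 : Submodule.span (ZMod 2) (Set.range z) ≤ W := by
        rw [Submodule.span_le]
        rintro x ⟨i, rfl⟩
        exact h5 i
      have h7 : Submodule.span (ZMod 2) (Set.range z) = W := by
        refine Submodule.eq_of_le_of_finrank_eq h6 ?_
        rw [finrank_span_eq_card h4, Fintype.card_fin, hd]
      rw [← h7] at ha
      exact (Submodule.mem_span_range_iff_exists_fun (ZMod 2)).1 ha
    by_cases hg : ∀ a ∈ W, (∀ b ∈ W, S a b = 0) → a = 0
    · rw [if_pos ⟨hd, hg⟩]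
      have h1 : ∀ z ∈ Li 2 W, ch (S (z 0) (z 1)) = -1 := by
        intro z hz
        rcases z2 (S (z 0) (z 1)) with h | h
        · exfalso
          obtain ⟨h4, h5⟩ := mem_Li.1 hz
          have h6 := hg (z 0) (h5 0) (by
            intro b hb
            obtain ⟨c, hc⟩ := hsp z hz b hb
            rw [← hc, Fin.sum_univ_two, hSa, hsm, hsm, hSo, h]
            ring)
          exact h4.ne_zero 0 h6
        · rw [h, ch_one]
      rw [sum_congr rfl h1, sum_const, nsmul_eq_mul, hI]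
      norm_num
    · rw [if_neg fun h => hg h.2]
      have h1 : ∀ z ∈ Li 2 W, ch (S (z 0) (z 1)) = 1 := by
        intro z hz
        rcases z2 (S (z 0) (z 1)) with h | h
        · rw [h, ch_zero]
        · exfalso
          obtain ⟨h4, h5⟩ := mem_Li.1 hz
          apply hg
          intro a ha hab
          obtain ⟨c, hc⟩ := hsp z hz a ha
          have a1 := hab (z 0) (h5 0)
          have a2 := hab (z 1) (h5 1)
          rw [hSs, ← hc, Fin.sum_univ_two, hSa, hsm, hsm, hSo, h] at a1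
          rw [hSs, ← hc, Fin.sum_univ_two, hSa, hsm, hsm, hSo, hSs, h] at a2
          have c1 : c 1 = 0 := by
            rw [mul_zero, zero_add, mul_one] at a1
            exact a1
          have c0 : c 0 = 0 := by
            rw [mul_zero, add_zero, mul_one] at a2
            exact a2
          rw [← hc, Fin.sum_univ_two, c0, c1, zero_smul, zero_smul, add_zero]
      rw [sum_congr rfl h1, sum_const, nsmul_eq_mul, mul_one, sub_self]
  · rw [if_neg fun h => hd h.1, if_neg fun h => hd (by omega), mul_zero]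

theorem psi_abs {W : Submodule (ZMod 2) E} {S : E → E → ZMod 2} :
    |∑ z ∈ Li 2 W, ch (S (z 0) (z 1))| ≤ In 2 (Module.finrank (ZMod 2) W) := by
  refine (abs_sum_le_sum_abs _ _).trans ?_
  rw [sum_congr rfl fun z _ => ch_abs _, sum_const, nsmul_eq_mul, mul_one, Li_card]

end

end Pool.Agent.N916.PQ
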