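import Mathlib
import Pool.Agent.N916.PQ.LB4

/-!
# PQ-LB, part 5: the probability of the good systems with two more columns
-/

set_option autoImplicit false
set_option linter.all false

open scoped Classical

namespace Pool.Agent.N916.PQ

open Finset Filter
open Pool.Agent.N916.GB (ps sx sx_mem sx_symm sx_diag mm mm_pos mm_one_le mm_ge In bon_even bon_odd
  card_li ch ch_zero ch_one ch_add ch_abs z2 z2_add_self orth orthZ Qf rad mom Pc count_val
  z2_eq_of_add z2_sq eta eta_sum)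

/-- the constants of the moments -/
noncomputable def ck (k : ℕ) : ℝ := 2 ^ ((k + 2) ^ 2 + (k + 2) + 4)

theorem ck_pos (k : ℕ) : 0 < ck k := by
  unfold ck
  positivity

section
variable {R C J : Type} [Fintype R] [Fintype C] [Fintype J] [LinearOrder J]
variable {M : R ⊕ J → C ⊕ J → ZMod 2} {X : R ⊕ J → ZMod 2} {Y : C ⊕ J → ZMod 2} {u : J → ZMod 2}

/-- the signed sum -/
noncomputable def Ps (M : R ⊕ J → C ⊕ J → ZMod 2) (k0 : J)
    (S : (C ⊕ J → ZMod 2) → (C ⊕ J → ZMod 2) → ZMod 2) (σ : ps J → ZMod 2) : ℝ :=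
  In 2 (Module.finrank (ZMod 2) (Kr M k0 (sx σ))) - ∑ z ∈ Li 2 (Kr M k0 (sx σ)), ch (S (z 0) (z 1))

theorem Ps_bd (M : R ⊕ J → C ⊕ J → ZMod 2) (k0 : J)
    (S : (C ⊕ J → ZMod 2) → (C ⊕ J → ZMod 2) → ZMod 2) (σ : ps J → ZMod 2) :
    0 ≤ Ps M k0 S σ ∧ Ps M k0 S σ ≤ 2 * In 2 (Module.finrank (ZMod 2) (Kr M k0 (sx σ))) := by
  have h := psi_abs (W := Kr M k0 (sx σ)) (S := S)
  rw [abs_le] at h
  unfold Ps
  constructor
  · linarith [h.2]
  · linarith [h.1]

theorem Ps_In (M : R ⊕ J → C ⊕ J → ZMod 2) (k0 : J)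
    (S : (C ⊕ J → ZMod 2) → (C ⊕ J → ZMod 2) → ZMod 2) (σ : ps J → ZMod 2) (k : ℕ)
    (hd : 2 ≤ Module.finrank (ZMod 2) (Kr M k0 (sx σ))) :
    Ps M k0 S σ * In k (Module.finrank (ZMod 2) (Kr M k0 (sx σ)) - 2) =
      (In (k + 2) (Module.finrank (ZMod 2) (Kr M k0 (sx σ))) -
        ∑ z ∈ Li (k + 2) (Kr M k0 (sx σ)), ch (S (z 0) (z 1))) / 4 ^ k := by
  obtain ⟨e, he⟩ : ∃ e, Module.finrank (ZMod 2) (Kr M k0 (sx σ)) = e + 2 :=
    ⟨Module.finrank (ZMod 2) (Kr M k0 (sx σ)) - 2, by omega⟩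
  have h1 := Li_two k (Kr M k0 (sx σ)) (fun a b => ch (S a b))
  rw [h1]
  unfold Ps
  have h2 := In_add_two k e
  rw [he, prod_shift, h2, Nat.add_sub_cancel]
  field_simp

end

theorem t_LD : ∀ ε : ℝ, 0 < ε → ∃ V₀ : ℕ, ∀ (R C J : Type) [Fintype R] [Fintype C] [Fintype J]
    [LinearOrder J] (M : R ⊕ J → C ⊕ J → ZMod 2) (X : R ⊕ J → ZMod 2) (Y : C ⊕ J → ZMod 2)
    (u : J → ZMod 2) (S : (C ⊕ J → ZMod 2) → (C ⊕ J → ZMod 2) → ZMod 2) (d : J → ZMod 2) (n : ℕ),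
    Hy M X Y u → Fintype.card C = Fintype.card R + 2 →
    (∀ a b c, S a (b + c) = S a b + S a c) → (∀ a b, S a b = S b a) → (∀ a, S a a = 0) →
    Ty S d n →
    Fintype.card R + Fintype.card C + (n + (2 * Fintype.card C + 1)) + V₀ ≤
      (univ.filter fun k : J => d k = 1).card →
    Fintype.card R + Fintype.card C + (n + (2 * Fintype.card C + 1)) + V₀ ≤
      (univ.filter fun k : J => d k + u k = 1).card →
    Fintype.card R + Fintype.card C + V₀ ≤ (univ.filter fun k : J => u k = 1).card → ∀ k0 : J,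
    |((univ.filter fun σ : ps J → ZMod 2 => Gd2 M k0 S (sx σ)).card : ℝ) / 2 ^ (ps J).card -
      4 / 3 * eta| ≤ ε := by
  intro ε hε
  have hlim := eta_sum
  rw [Metric.tendsto_atTop] at hlim
  obtain ⟨K0, hK0⟩ := hlim (ε / 8) (by linarith)
  obtain ⟨K1, hK1⟩ := pow_unbounded_of_one_lt (512 / ε) (by norm_num : (1 : ℝ) < 2)
  set K : ℕ := max K0 K1 with hK
  set M' : ℝ := ∑ k ∈ range (K + 2), ck k with hM
  have hM0 : 0 ≤ M' := sum_nonneg fun k _ => (ck_pos k).le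
  obtain ⟨V1, hV1⟩ := pow_unbounded_of_one_lt (M' * (128 / ε) + ck (K + 1))
    (by norm_num : (1 : ℝ) < 2)
  refine ⟨V1, ?_⟩
  intro R C J _ _ _ _ M X Y u S d n H hRC hSa hSs hSo hT h1 h2 h3 k0
  have hp : (0 : ℝ) < 2 ^ (ps J).card := by positivity
  have hV0 : (0 : ℝ) < 2 ^ V1 := by positivity
  set P : ℝ := ((univ.filter fun σ : ps J → ZMod 2 => Gd2 M k0 S (sx σ)).card : ℝ) /
    2 ^ (ps J).card with hP
  set D : (ps J → ZMod 2) → ℕ := fun σ => Module.finrank (ZMod 2) (Kr M k0 (sx σ)) with hD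
  have hD2 : ∀ σ, 2 ≤ D σ := fun σ => dim_ge H k0 hRC (fun l m => sx_symm σ l m)
  set A : ℕ → ℝ := fun k => (∑ σ : ps J → ZMod 2, In k (D σ)) / 2 ^ (ps J).card with hA
  set G : ℕ → ℝ := fun k => (∑ σ : ps J → ZMod 2, ∑ z ∈ Li (k + 2) (Kr M k0 (sx σ)),
    ch (S (z 0) (z 1))) / 2 ^ (ps J).card with hG
  have hAb : ∀ k, |A (k + 2) - 16 * 4 ^ k| ≤ 16 * 4 ^ k * (ck k / 2 ^ V1) := by
    intro k
    have h := T_bound H k0 (k + 2) V1 2 hRC h3
    have e : ((2 : ℝ) ^ 2) ^ (k + 2) = 16 * 4 ^ k := by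
      rw [pow_add]
      norm_num
      ring
    rw [e] at h
    rw [← mul_div_assoc, le_div_iff₀ hV0]
    exact h
  have hGb : ∀ k, |G k| ≤ 16 * 4 ^ k * (ck k / 2 ^ V1) := by
    intro k
    have h := U_bound H k0 k V1 2 hRC hSa hSs hT h1 h2
    have e : ((2 : ℝ) ^ 2) ^ (k + 2) = 16 * 4 ^ k := by
      rw [pow_add]
      norm_num
      ring
    rw [e] at h
    rw [← mul_div_assoc, le_div_iff₀ hV0]
    exact h
  -- the good systems
  have hPs : 12 * ((univ.filter fun σ : ps J → ZMod 2 => Gd2 M k0 S (sx σ)).card : ℝ) =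
      ∑ σ : ps J → ZMod 2, Ps M k0 S σ * (if D σ - 2 = 0 then 1 else 0) := by
    rw [card_filter, Nat.cast_sum, mul_sum]
    refine sum_congr rfl fun σ _ => ?_
    have h4 := good_val (W := Kr M k0 (sx σ)) hSa hSs hSo
    have h5 : (D σ - 2 = 0 ∧ 2 ≤ D σ) ↔ D σ - 2 = 0 := ⟨fun h => h.1, fun h => ⟨h, hD2 σ⟩⟩
    have h6 : Ps M k0 S σ * (if D σ - 2 = 0 then (1 : ℝ) else 0) =
        Ps M k0 S σ * (if D σ - 2 = 0 ∧ 2 ≤ D σ then 1 else 0) := by
      by_cases h : D σ - 2 = 0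
      · rw [if_pos h, if_pos (h5.2 h)]
      · rw [if_neg h, if_neg fun h' => h (h5.1 h')]
    rw [h6]
    unfold Ps
    rw [← h4]
    unfold Gd2
    by_cases h : Module.finrank (ZMod 2) (Kr M k0 (sx σ)) = 2 ∧
        ∀ a ∈ Kr M k0 (sx σ), (∀ b ∈ Kr M k0 (sx σ), S a b = 0) → a = 0
    · rw [if_pos h, if_pos h, Nat.cast_one, mul_one]
    · rw [if_neg h, if_neg h, Nat.cast_zero, mul_zero]
  -- the truncated sum
  set B : ℝ := (∑ σ : ps J → ZMod 2, Ps M k0 S σ * Bn K (D σ - 2)) / 2 ^ (ps J).card with hB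
  have hB1 : B = ∑ k ∈ range (K + 1), (-1) ^ k * (A (k + 2) - G k) / (4 ^ k * mm k) := by
    rw [hB]
    unfold Bn
    simp only [mul_sum]
    rw [sum_comm, sum_div]
    refine sum_congr rfl fun k _ => ?_
    rw [hA, hG]
    simp only
    rw [← sub_div, ← sum_sub_distrib]
    have h4 : ∀ σ : ps J → ZMod 2, Ps M k0 S σ * ((-1) ^ k * In k (D σ - 2) / mm k) =
        (In (k + 2) (D σ) - ∑ z ∈ Li (k + 2) (Kr M k0 (sx σ)), ch (S (z 0) (z 1))) *
          ((-1) ^ k / (4 ^ k * mm k)) := by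
      intro σ
      have h5 := Ps_In M k0 S σ k (hD2 σ)
      have hm := (mm_pos k).ne'
      have h4k : (4 : ℝ) ^ k ≠ 0 := by positivity
      calc Ps M k0 S σ * ((-1) ^ k * In k (D σ - 2) / mm k) =
          (Ps M k0 S σ * In k (D σ - 2)) * ((-1) ^ k / mm k) := by ring
        _ = _ := by
          rw [h5]
          field_simp
          rfl
    rw [sum_congr rfl fun σ _ => h4 σ, ← sum_mul]
    ring
  have hB2 : |B - 16 * ∑ k ∈ range (K + 1), (-1 : ℝ) ^ k / mm k| ≤ 32 * (M' / 2 ^ V1) := by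
    rw [hB1, mul_sum, ← sum_sub_distrib]
    refine (abs_sum_le_sum_abs _ _).trans ?_
    have h4 : ∀ k ∈ range (K + 1), |(-1) ^ k * (A (k + 2) - G k) / (4 ^ k * mm k) -
        16 * ((-1 : ℝ) ^ k / mm k)| ≤ 32 * (ck k / 2 ^ V1) := by
      intro k _
      have hm := mm_pos k
      have h4k : (0 : ℝ) < 4 ^ k := by positivity
      have h5 : (-1) ^ k * (A (k + 2) - G k) / (4 ^ k * mm k) - 16 * ((-1 : ℝ) ^ k / mm k) =
          (-1) ^ k * (((A (k + 2) - 16 * 4 ^ k) - G k) / (4 ^ k * mm k)) := by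
        field_simp
        ring
      rw [h5, abs_mul, abs_pow, abs_neg, abs_one, one_pow, one_mul, abs_div,
        abs_of_pos (mul_pos h4k hm), div_le_iff₀ (mul_pos h4k hm)]
      have h6 : |(A (k + 2) - 16 * 4 ^ k) - G k| ≤ 32 * 4 ^ k * (ck k / 2 ^ V1) := by
        have := abs_sub (A (k + 2) - 16 * 4 ^ k) (G k)
        have a1 := hAb k
        have a2 := hGb k
        linarith
      refine h6.trans ?_
      have h7 := mm_one_le k
      have h8 : 0 ≤ 32 * 4 ^ k * (ck k / 2 ^ V1) :=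
        mul_nonneg (by positivity) (div_nonneg (ck_pos k).le hV0.le)
      calc 32 * 4 ^ k * (ck k / 2 ^ V1) = 32 * 4 ^ k * (ck k / 2 ^ V1) * 1 := by ring
        _ ≤ 32 * 4 ^ k * (ck k / 2 ^ V1) * mm k := mul_le_mul_of_nonneg_left h7 h8
        _ = _ := by ring
    refine (sum_le_sum h4).trans ?_
    rw [← mul_sum, ← sum_div]
    refine mul_le_mul_of_nonneg_left (div_le_div_of_nonneg_right ?_ hV0.le) (by norm_num)
    rw [hM]
    exact sum_le_sum_of_subset_of_nonneg (fun k hk => by rw [mem_range] at hk ⊢; omega)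
      fun k _ _ => (ck_pos k).le
  have hB3 : |12 * P - B| ≤ 32 * (1 + ck (K + 1) / 2 ^ V1) / mm K := by
    have e1 : 12 * P - B = (∑ σ : ps J → ZMod 2, Ps M k0 S σ *
        ((if D σ - 2 = 0 then 1 else 0) - Bn K (D σ - 2))) / 2 ^ (ps J).card := by
      rw [hP, hB, ← mul_div_assoc, hPs, ← sub_div, ← sum_sub_distrib]
      refine congrArg (fun x => x / _) (sum_congr rfl fun σ _ => ?_)
      ring
    have hm := mm_pos K
    have h4K : (0 : ℝ) < 4 ^ (K + 1) := by positivity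
    have e2 : ∀ σ : ps J → ZMod 2, |Ps M k0 S σ *
        ((if D σ - 2 = 0 then 1 else 0) - Bn K (D σ - 2))| ≤
        In (K + 3) (D σ) * (2 / (4 ^ (K + 1) * mm K)) := by
      intro σ
      obtain ⟨b1, b2⟩ := Ps_bd M k0 S σ
      rw [abs_mul, abs_of_nonneg b1, abs_sub_comm]
      have h6 := Bn_err K (D σ - 2)
      have h7 : (2 * In 2 (D σ)) * (In (K + 1) (D σ - 2) / mm K) =
          In (K + 3) (D σ) * (2 / (4 ^ (K + 1) * mm K)) := by
        obtain ⟨e, he⟩ : ∃ e, D σ = e + 2 := ⟨D σ - 2, by have := hD2 σ; omega⟩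
        have h8 := In_add_two (K + 1) e
        rw [he, Nat.add_sub_cancel, show K + 3 = K + 1 + 2 by rfl, h8]
        field_simp
      rw [← h7]
      exact mul_le_mul b2 h6 (abs_nonneg _) (by
        have := In_nonneg 2 (D σ)
        linarith)
    have e3 : |12 * P - B| ≤ A (K + 3) * (2 / (4 ^ (K + 1) * mm K)) := by
      rw [e1, abs_div, abs_of_pos hp, hA]
      simp only
      rw [div_mul_eq_mul_div, sum_mul]
      exact div_le_div_of_nonneg_right ((abs_sum_le_sum_abs _ _).trans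
        (sum_le_sum fun σ _ => e2 σ)) hp.le
    have e4 : A (K + 3) ≤ 16 * 4 ^ (K + 1) * (1 + ck (K + 1) / 2 ^ V1) := by
      have := (abs_le.1 (hAb (K + 1))).2
      have e : A (K + 1 + 2) = A (K + 3) := rfl
      rw [e] at this
      linarith
    refine e3.trans ?_
    have h5 : (0 : ℝ) ≤ 2 / (4 ^ (K + 1) * mm K) := by positivity
    refine (mul_le_mul_of_nonneg_right e4 h5).trans (le_of_eq ?_)
    field_simp
    ring
  -- the estimates
  have c1 : M' / 2 ^ V1 ≤ ε / 128 := by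
    rw [div_le_div_iff₀ hV0 (by norm_num)]
    have h4 : M' * (128 / ε) ≤ 2 ^ V1 := by
      have := (ck_pos (K + 1)).le
      linarith
    calc M' * 128 = (M' * (128 / ε)) * ε := by field_simp
      _ ≤ 2 ^ V1 * ε := by gcongr
      _ = ε * 2 ^ V1 := by ring
  have c2 : ck (K + 1) / 2 ^ V1 ≤ 1 := by
    rw [div_le_one hV0]
    have h4 : 0 ≤ M' * (128 / ε) := by positivity
    linarith
  have c3 : 32 * (1 + ck (K + 1) / 2 ^ V1) / mm K ≤ ε / 4 := by
    rw [div_le_iff₀ (mm_pos K)]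
    have h4 : (2 : ℝ) ^ K ≤ 2 * mm K := mm_ge K
    have h5 : (2 : ℝ) ^ K1 ≤ 2 ^ K := pow_le_pow_right₀ (by norm_num) (le_max_right _ _)
    have h6 : 512 / ε ≤ 2 * mm K := by linarith
    rw [div_le_iff₀ hε] at h6
    nlinarith
  have c4 := hK0 (K + 1) (by have := le_max_left K0 K1; omega)
  rw [Real.dist_eq, abs_lt] at c4
  rw [abs_le] at hB2 hB3 ⊢
  constructor
  · linarith [hB2.1, hB3.1, c4.1]
  · linarith [hB2.2, hB3.2, c4.2]

end Pool.Agent.N916.PQ
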