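import Mathlib
import Pool.Agent.N916.PQ.LB5
import Pool.Agent.N916.PQ.Dual

/-!
# PQ-LB, part 6: the exceptional class, in terms of the Rédei matrix
-/

set_option autoImplicit false
set_option linter.all false

open scoped Classical

namespace Pool.Agent.N916.PQ

open Finset Filter
open Pool.Agent.N916.GB (ps sx sx_symm sx_diag eta Ev pt Ev_inl Ev_inr z2 z2_add_self z2_eq_of_add)

/-- the bilinear form -/
def SF {V : Type} [Fintype V] (κ θ : V → ZMod 2) (x : V → ZMod 2) (s a : ZMod 2)
    (x' : V → ZMod 2) (s' a' : ZMod 2) : ZMod 2 :=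
  ∑ i, κ i * (x i * x' i) + a * ∑ i, θ i * x' i + a' * ∑ i, θ i * x i +
    (∑ i, κ i * x i + s + a) * (∑ i, κ i * x' i + s' + a') + (s + a) * (s' + a')

/-- the left kernel -/
def IK {V : Type} [Fintype V] (N : V → V → ZMod 2) (α β : V → ZMod 2) (x : V → ZMod 2)
    (s a : ZMod 2) : Prop := ∀ j, ∑ i, Lm N i j * x i + s * α j + a * β j = 0

/-- the criterion of the exceptional class -/
def CE {V : Type} [Fintype V] (N : V → V → ZMod 2) (α β κ θ wd : V → ZMod 2) : Prop :=
  (∀ y : V → ZMod 2, (∀ i, Ev N y i = 0) → ∑ j, α j * y j = 0 → ∑ j, β j * y j = 0 →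
    ∃ b : ZMod 2, ∀ j, y j = b) ∧
  (∀ (x : V → ZMod 2) (s a : ZMod 2), IK N α β x s a →
    (∀ (x' : V → ZMod 2) (s' a' : ZMod 2), IK N α β x' s' a' → SF κ θ x s a x' s' a' = 0) →
    a = 0 ∧ ∀ i, x i = s * wd i)

/-- the number of the elements of the two kernels -/
theorem card_ker2 {V W : Type} [Fintype V] [Fintype W] (A : V → W → ZMod 2)
    (S : Finset (W → ZMod 2)) (L : Finset (V → ZMod 2))
    (hS : ∀ y, y ∈ S ↔ ∀ i, ∑ j, A i j * y j = 0) (hL : ∀ x, x ∈ L ↔ ∀ j, ∑ i, A i j * x i = 0) :
    (S.card : ℝ) * 2 ^ Fintype.card V = L.card * 2 ^ Fintype.card W := by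
  have h := card_ker' A
  have e1 : S = univ.filter fun y : W → ZMod 2 => ∀ i, ∑ j, A i j * y j = 0 := by
    ext y
    rw [hS, mem_filter]
    exact ⟨fun h => ⟨mem_univ _, h⟩, fun h => h.2⟩
  have e2 : L = univ.filter fun x : V → ZMod 2 => ∀ j, ∑ i, A i j * x i = 0 := by
    ext y
    rw [hL, mem_filter]
    exact ⟨fun h => ⟨mem_univ _, h⟩, fun h => h.2⟩
  rw [e1, e2]
  exact h

theorem Lmr {V : Type} [Fintype V] (N : V → V → ZMod 2) (i : V) : ∑ j, Lm N i j = 0 := by
  have h := Lm_Ev N (fun _ => 1) i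
  rw [Pool.Agent.N916.GB.Ev_const] at h
  simpa only [mul_one] using h

section
variable {U J : Type} [Fintype U] [Fintype J]

/-- the index -/
def pe : Option (Option U) ⊕ J → Option (Option (U ⊕ J))
  | Sum.inl none => none
  | Sum.inl (some none) => some none
  | Sum.inl (some (some v)) => some (some (Sum.inl v))
  | Sum.inr l => some (some (Sum.inr l))

theorem sum_pe (f : Option (Option (U ⊕ J)) → ZMod 2) :
    ∑ i : Option (Option U) ⊕ J, f (pe i) = f none + f (some none) + ∑ i, f (some (some i)) := by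
  rw [Fintype.sum_sum_type, Fintype.sum_option, Fintype.sum_option, Fintype.sum_sum_type]
  simp only [pe]
  ring

/-- the transposed matrix with two more columns -/
noncomputable def Te {V : Type} [Fintype V] (N : V → V → ZMod 2) (α β : V → ZMod 2) (j : V) :
    Option (Option V) → ZMod 2
  | none => α j
  | some none => β j
  | some (some i) => Lm N i j

/-- the transposed matrix, reindexed -/
noncomputable def Me (N : U ⊕ J → U ⊕ J → ZMod 2) (α β : U ⊕ J → ZMod 2) (j : U ⊕ J)
    (c : Option (Option U) ⊕ J) : ZMod 2 := Te N α β j (pe c)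

/-- a vector -/
def ve (x : U ⊕ J → ZMod 2) (s a : ZMod 2) (c : Option (Option U) ⊕ J) : ZMod 2 :=
  Option.elim (pe c) s fun o => Option.elim o a x

/-- the coordinates -/
def xz (z : Option (Option U) ⊕ J → ZMod 2) : U ⊕ J → ZMod 2
  | Sum.inl v => z (Sum.inl (some (some v)))
  | Sum.inr l => z (Sum.inr l)
def sz (z : Option (Option U) ⊕ J → ZMod 2) : ZMod 2 := z (Sum.inl none)
def az (z : Option (Option U) ⊕ J → ZMod 2) : ZMod 2 := z (Sum.inl (some none))

theorem z_ve (z : Option (Option U) ⊕ J → ZMod 2) : z = ve (xz z) (sz z) (az z) := by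
  funext c
  rcases c with (_ | _ | v) | l <;> rfl

theorem xz_ve (x : U ⊕ J → ZMod 2) (s a : ZMod 2) : xz (ve x s a) = x := by
  funext i
  rcases i with v | l <;> rfl

theorem xz_add (z z' : Option (Option U) ⊕ J → ZMod 2) (i : U ⊕ J) :
    xz (z + z') i = xz z i + xz z' i := by
  rcases i with v | l <;> rfl

theorem sum_ve (x : U ⊕ J → ZMod 2) (s a : ZMod 2) (z : Option (Option U) ⊕ J → ZMod 2) :
    ∑ c, ve x s a c * z c = ∑ i, x i * xz z i + s * sz z + a * az z := by
  have h : ∀ c : Option (Option U) ⊕ J, ve x s a c * z c =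
      (fun o : Option (Option (U ⊕ J)) => Option.elim o s (fun o => Option.elim o a x) *
        Option.elim o (sz z) fun o => Option.elim o (az z) (xz z)) (pe c) := by
    intro c
    rcases c with (_ | _ | v) | l <;> rfl
  rw [sum_congr rfl fun c _ => h c]
  refine (sum_pe (U := U) (J := J) (fun o => Option.elim o s (fun o => Option.elim o a x) *
    Option.elim o (sz z) fun o => Option.elim o (az z) (xz z))).trans ?_
  simp only [Option.elim_none, Option.elim_some]
  ring

theorem ev_Me (N : U ⊕ J → U ⊕ J → ZMod 2) (α β : U ⊕ J → ZMod 2)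
    (z : Option (Option U) ⊕ J → ZMod 2) (j : U ⊕ J) :
    ∑ c, Me N α β j c * z c = ∑ i, Lm N i j * xz z i + sz z * α j + az z * β j := by
  have h : ∀ c : Option (Option U) ⊕ J, Me N α β j c * z c =
      ve (fun i => Lm N i j) (α j) (β j) c * z c := by
    intro c
    rcases c with (_ | _ | v) | l <;> rfl
  rw [sum_congr rfl fun c _ => h c, sum_ve]
  ring

/-- the form -/
def Se (κ θ : U ⊕ J → ZMod 2) (z z' : Option (Option U) ⊕ J → ZMod 2) : ZMod 2 :=
  SF κ θ (xz z) (sz z) (az z) (xz z') (sz z') (az z')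

theorem Se_symm (κ θ : U ⊕ J → ZMod 2) (z z' : Option (Option U) ⊕ J → ZMod 2) :
    Se κ θ z z' = Se κ θ z' z := by
  unfold Se SF
  have e : ∑ i, κ i * (xz z i * xz z' i) = ∑ i, κ i * (xz z' i * xz z i) :=
    sum_congr rfl fun i _ => by rw [mul_comm (xz z i)]
  rw [e]
  ring

theorem Se_self (κ θ : U ⊕ J → ZMod 2) (z : Option (Option U) ⊕ J → ZMod 2) : Se κ θ z z = 0 := by
  unfold Se SF
  have e : ∑ i, κ i * (xz z i * xz z i) = ∑ i, κ i * xz z i := by
    refine sum_congr rfl fun i _ => ?_
    have key : ∀ t : ZMod 2, t * t = t := by decide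
    rw [key]
  rw [e]
  generalize ∑ i, κ i * xz z i = A
  generalize ∑ i, θ i * xz z i = B
  have key : ∀ A B s a : ZMod 2, A + a * B + a * B + (A + s + a) * (A + s + a) +
      (s + a) * (s + a) = 0 := by decide
  exact key _ _ _ _

theorem Se_eq (κ θ : U ⊕ J → ZMod 2) (z z' : Option (Option U) ⊕ J → ZMod 2) :
    Se κ θ z z' = ∑ c, ve κ 0 0 c * (z c * z' c) + (az z * ∑ c, ve θ 0 0 c * z' c +
      ((∑ i, θ i * xz z i) * ∑ c, ve (fun _ => 0) 0 1 c * z' c +
      ((∑ i, κ i * xz z i + sz z + az z) * ∑ c, ve κ 1 1 c * z' c +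
      (sz z + az z) * ∑ c, ve (fun _ => 0) 1 1 c * z' c))) := by
  have h : ∑ c, ve κ 0 0 c * (z c * z' c) = ∑ i, κ i * (xz z i * xz z' i) := by
    have h1 := sum_ve κ 0 0 (fun c => z c * z' c)
    rw [h1, zero_mul, zero_mul, add_zero, add_zero]
    refine sum_congr rfl fun i _ => ?_
    rcases i with v | l <;> rfl
  rw [h, sum_ve, sum_ve, sum_ve, sum_ve]
  unfold Se SF
  simp only [zero_mul, sum_const_zero]
  ring

theorem Se_add (κ θ : U ⊕ J → ZMod 2) (z z' z'' : Option (Option U) ⊕ J → ZMod 2) :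
    Se κ θ z (z' + z'') = Se κ θ z z' + Se κ θ z z'' := by
  rw [Se_eq, Se_eq, Se_eq]
  simp only [Pi.add_apply, mul_add, sum_add_distrib]
  ring

theorem Se_ty [LinearOrder J] (κ θ : U ⊕ J → ZMod 2) : Ty (Se κ θ) (fun m => κ (Sum.inr m))
    (Fintype.card (Option (Option U)) + 4) := by
  have h := (Ty.diag (C := Option (Option U)) (J := J) (ve κ 0 0)).add
    ((Ty.prod (C := Option (Option U)) (J := J) (fun z => az z) (ve θ 0 0)).add
    ((Ty.prod (fun z => ∑ i, θ i * xz z i) (ve (fun _ => 0) 0 1)).add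
    ((Ty.prod (fun z => ∑ i, κ i * xz z i + sz z + az z) (ve κ 1 1)).add
    (Ty.prod (fun z => sz z + az z) (ve (fun _ => 0) 1 1)))))
  have e1 : Se κ θ = fun z z' => ∑ c, ve κ 0 0 c * (z c * z' c) + (az z * ∑ c, ve θ 0 0 c * z' c +
      ((∑ i, θ i * xz z i) * ∑ c, ve (fun _ => 0) 0 1 c * z' c +
      ((∑ i, κ i * xz z i + sz z + az z) * ∑ c, ve κ 1 1 c * z' c +
      (sz z + az z) * ∑ c, ve (fun _ => 0) 1 1 c * z' c))) := by
    funext z z'
    exact Se_eq κ θ z z'
  have e2 : (fun m : J => κ (Sum.inr m)) = fun m => ve κ 0 0 (Sum.inr m) + (0 + (0 + (0 + 0))) := by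
    funext m
    rw [add_zero, add_zero, add_zero, add_zero]
    rfl
  rw [e1, e2]
  exact h

/-- the Laplacian -/
noncomputable def De (δ : J → J → ZMod 2) : U ⊕ J → U ⊕ J → ZMod 2
  | Sum.inr l, Sum.inr m => δ l m + if l = m then ∑ n, δ l n else 0
  | _, _ => 0

theorem Lm_pt (N : U ⊕ J → U ⊕ J → ZMod 2) {δ : J → J → ZMod 2} (hδ : ∀ l, δ l l = 0)
    (i j : U ⊕ J) : Lm (pt N δ) i j = Lm N i j + De δ i j := by
  have h0 : ∀ l m, l ≠ m → pt N δ (Sum.inr l) (Sum.inr m) = N (Sum.inr l) (Sum.inr m) + δ l m :=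
    fun l m _ => rfl
  by_cases h : i = j
  · subst h
    unfold Lm
    rw [if_pos rfl, if_pos rfl]
    rcases i with v | l
    · show _ = _ + 0
      rw [add_zero]
      refine sum_congr rfl fun k _ => ?_
      rcases k with w | k <;> rfl
    · show _ = _ + (δ l l + if l = l then ∑ n, δ l n else 0)
      rw [hδ, zero_add, if_pos rfl, Fintype.sum_sum_type, Fintype.sum_sum_type, add_assoc,
        ← sum_add_distrib]
      congr 1
      refine sum_congr rfl fun k _ => ?_
      by_cases hk : k = l
      · rw [if_pos (by rw [hk]), if_pos (by rw [hk]), hk, hδ, add_zero]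
      · have hk' : ¬ (Sum.inr k : U ⊕ J) = Sum.inr l := fun h => hk (Sum.inr_injective h)
        rw [if_neg hk', if_neg hk']
        rfl
  · rw [Lm_ne _ h, Lm_ne _ h]
    rcases i with v | l
    · show _ = _ + 0
      rw [add_zero]
      rfl
    · rcases j with w | m
      · show _ = _ + 0
        rw [add_zero]
        rfl
      · show N (Sum.inr l) (Sum.inr m) + δ l m = _ + (δ l m + if l = m then ∑ n, δ l n else 0)
        rw [if_neg fun h' => h (by rw [h']), add_zero]

theorem De_inl (δ : J → J → ZMod 2) (x : U ⊕ J → ZMod 2) (v : U) :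
    ∑ i, De δ i (Sum.inl v) * x i = 0 := by
  refine sum_eq_zero fun i _ => ?_
  rcases i with w | l
  · exact zero_mul _
  · exact zero_mul _

theorem De_inr {δ : J → J → ZMod 2} (hs : ∀ l m, δ l m = δ m l)
    (z : Option (Option U) ⊕ J → ZMod 2) (l : J) :
    ∑ i, De δ i (Sum.inr l) * xz z i = lp δ z l := by
  rw [Fintype.sum_sum_type]
  have h1 : ∑ v : U, De δ (Sum.inl v) (Sum.inr l) * xz z (Sum.inl v) = 0 :=
    sum_eq_zero fun v _ => zero_mul _
  have h2 : ∀ m : J, De δ (Sum.inr m : U ⊕ J) (Sum.inr l) * xz z (Sum.inr m) =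
      z (Sum.inr m) * δ l m + if m = l then z (Sum.inr l) * ∑ n, δ l n else 0 := by
    intro m
    show (δ m l + if m = l then ∑ n, δ m n else 0) * z (Sum.inr m) = _
    rw [hs m l]
    by_cases h : m = l
    · rw [if_pos h, if_pos h, h]
      ring
    · rw [if_neg h, if_neg h]
      ring
  rw [h1, zero_add, sum_congr rfl fun m _ => h2 m, sum_add_distrib, sum_ite_eq', if_pos (mem_univ _)]
  unfold lp
  rw [mul_sum, ← sum_add_distrib]
  exact sum_congr rfl fun m _ => by ring

theorem isS_Me (N : U ⊕ J → U ⊕ J → ZMod 2) (α β : U ⊕ J → ZMod 2) {δ : J → J → ZMod 2}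
    (hδ : ∀ l, δ l l = 0) (hs : ∀ l m, δ l m = δ m l) (z : Option (Option U) ⊕ J → ZMod 2) :
    IsS (Me N α β) δ z ↔ ∀ j, ∑ c, Me (pt N δ) α β j c * z c = 0 := by
  have h : ∀ j, ∑ c, Me (pt N δ) α β j c * z c = ev (Me N α β) z j + ∑ i, De δ i j * xz z i := by
    intro j
    unfold ev
    rw [ev_Me, ev_Me]
    simp only [Lm_pt N hδ, add_mul, sum_add_distrib]
    ring
  constructor
  · rintro ⟨h1, h2⟩ (v | l)
    · rw [h, De_inl, add_zero, h1]
    · rw [h, De_inr hs, h2]
  · intro h1
    refine ⟨fun v => ?_, fun l => ?_⟩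
    · have := h1 (Sum.inl v)
      rw [h, De_inl, add_zero] at this
      exact this
    · have := h1 (Sum.inr l)
      rw [h, De_inr hs] at this
      exact this

theorem isS_IK (N : U ⊕ J → U ⊕ J → ZMod 2) (α β : U ⊕ J → ZMod 2) {δ : J → J → ZMod 2}
    (hδ : ∀ l, δ l l = 0) (hs : ∀ l m, δ l m = δ m l) (z : Option (Option U) ⊕ J → ZMod 2) :
    IsS (Me N α β) δ z ↔ IK (pt N δ) α β (xz z) (sz z) (az z) := by
  rw [isS_Me N α β hδ hs]
  unfold IK
  exact forall_congr' fun j => by rw [ev_Me]

end

section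
variable {R C J : Type} [Fintype R] [Fintype C] [Fintype J] [LinearOrder J]
variable {M : R ⊕ J → C ⊕ J → ZMod 2} {X : R ⊕ J → ZMod 2} {Y : C ⊕ J → ZMod 2} {u : J → ZMod 2}

/-- the number of the solutions -/
theorem card_isS (H : Hy M X Y u) (k0 : J) (δ : J → J → ZMod 2)
    (S : Finset (C ⊕ J → ZMod 2)) (hS : ∀ y, y ∈ S ↔ IsS M δ y) :
    (S.card : ℝ) = 2 * 2 ^ Module.finrank (ZMod 2) (Kr M k0 δ) := by
  rw [← card_W]
  have h4 : S.card =
      ((univ : Finset (ZMod 2)) ×ˢ (univ.filter fun w : C ⊕ J → ZMod 2 => w ∈ Kr M k0 δ)).card := by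
    refine card_bij (fun y _ => (y (Sum.inr k0), y + y (Sum.inr k0) • Y)) ?_ ?_ ?_
    · intro y hy
      have hy' : IsS M δ y := (hS y).1 hy
      rw [mem_product, mem_filter]
      refine ⟨mem_univ _, mem_univ _, ?_⟩
      rw [mem_Kr]
      refine ⟨?_, isS_add hy' (isS_smul _ (isS_Y H δ))⟩
      show y (Sum.inr k0) + y (Sum.inr k0) * Y (Sum.inr k0) = 0
      rw [H.y1, mul_one, z2_add_self]
    · intro y _ y' _ h
      simp only [Prod.mk.injEq] at h
      rw [h.1] at h
      exact add_right_cancel h.2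
    · rintro ⟨b, w⟩ hw
      rw [mem_product, mem_filter] at hw
      obtain ⟨h1, h2⟩ := mem_Kr.1 hw.2.2
      refine ⟨w + b • Y, ?_, ?_⟩
      · rw [hS]
        exact isS_add h2 (isS_smul _ (isS_Y H δ))
      · have e : (w + b • Y) (Sum.inr k0) = b := by
          show w (Sum.inr k0) + b * Y (Sum.inr k0) = b
          have h1' : w (Sum.inr k0) = 0 := h1
          rw [h1', H.y1, mul_one, zero_add]
        rw [e]
        refine Prod.ext rfl ?_
        funext q
        show w q + b * Y q + b * Y q = w q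
        rw [add_assoc, z2_add_self, add_zero]
  rw [h4, card_product, card_univ, ZMod.card]
  push_cast
  rfl

end

section
variable {U J : Type} [Fintype U] [Fintype J] [LinearOrder J]

/-- the link of the two criteria -/
theorem Gd2_CE {N : U ⊕ J → U ⊕ J → ZMod 2} {α β κ θ wd : U ⊕ J → ZMod 2} {u : J → ZMod 2}
    (H : Hy (Me N α β) (fun _ => 1) (ve wd 1 0) u) (y7 : U → ZMod 2)
    (h7 : ∀ z, Se κ θ (ve wd 1 0) z = ∑ v, y7 v * ev (Me N α β) z (Sum.inl v)) (k0 : J)
    {δ : J → J → ZMod 2} (hδ : ∀ l, δ l l = 0) (hs : ∀ l m, δ l m = δ m l) :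
    Gd2 (Me N α β) k0 (Se κ θ) δ ↔ CE (pt N δ) α β κ θ wd := by
  have hY : ∀ z, IsS (Me N α β) δ z → Se κ θ (ve wd 1 0) z = 0 := by
    intro z hz
    rw [h7]
    exact sum_eq_zero fun v _ => by rw [hz.1 v, mul_zero]
  have hYS := isS_Y H δ
  have hY0 : (ve wd 1 0 : Option (Option U) ⊕ J → ZMod 2) (Sum.inr k0) = 1 := H.y1 k0
  unfold Gd2 CE
  refine and_congr ?_ ?_
  · -- the left kernel
    set L : Finset (U ⊕ J → ZMod 2) := univ.filter fun x : U ⊕ J → ZMod 2 =>
      ∀ j, ∑ i, Me (pt N δ) α β i j * x i = 0 with hL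
    have h3 : ((L.card : ℝ)) * 2 = 2 ^ Module.finrank (ZMod 2) (Kr (Me N α β) k0 δ) := by
      have h4 := card_isS H k0 δ (univ.filter fun y : Option (Option U) ⊕ J → ZMod 2 =>
        IsS (Me N α β) δ y) fun y => by
          rw [mem_filter]
          exact ⟨fun h => h.2, fun h => ⟨mem_univ _, h⟩⟩
      have h6 := card_ker2 (Me (pt N δ) α β)
        (univ.filter fun y : Option (Option U) ⊕ J → ZMod 2 => IsS (Me N α β) δ y) L
        (fun y => by
          rw [mem_filter, isS_Me N α β hδ hs]
          exact ⟨fun h => h.2, fun h => ⟨mem_univ _, h⟩⟩)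
        (fun x => by
          rw [hL, mem_filter]
          exact ⟨fun h => h.2, fun h => ⟨mem_univ _, h⟩⟩)
      rw [h4] at h6
      rw [Fintype.card_sum, Fintype.card_sum, Fintype.card_option, Fintype.card_option] at h6
      have h8 : (0 : ℝ) < 2 * 2 ^ (Fintype.card U + Fintype.card J) := by positivity
      refine mul_right_cancel₀ h8.ne' ?_
      calc (L.card : ℝ) * 2 * (2 * 2 ^ (Fintype.card U + Fintype.card J)) =
          L.card * 2 ^ (Fintype.card U + 1 + 1 + Fintype.card J) := by ring
        _ = _ := by rw [← h6]; ring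
    have hmem : ∀ y : U ⊕ J → ZMod 2, y ∈ L ↔ (∀ i, Ev (pt N δ) y i = 0) ∧
        ∑ j, α j * y j = 0 ∧ ∑ j, β j * y j = 0 := by
      intro y
      rw [hL, mem_filter]
      constructor
      · rintro ⟨-, h4⟩
        refine ⟨fun i => ?_, h4 (Sum.inl none), h4 (Sum.inl (some none))⟩
        rw [← Lm_Ev]
        rcases i with v | l
        · exact h4 (Sum.inl (some (some v)))
        · exact h4 (Sum.inr l)
      · rintro ⟨h4, h5, h6⟩
        refine ⟨mem_univ _, ?_⟩
        rintro ((_ | _ | v) | l)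
        · exact h5
        · exact h6
        · have := h4 (Sum.inl v)
          rw [← Lm_Ev] at this
          exact this
        · have := h4 (Sum.inr l)
          rw [← Lm_Ev] at this
          exact this
    have h01 : ({fun _ => 0, fun _ => 1} : Finset (U ⊕ J → ZMod 2)) ⊆ L := by
      intro y hy
      have ha : ∑ j, α j = 0 := by
        have := H.kx (Sum.inl none)
        simp only [one_mul] at this
        exact this
      have hb : ∑ j, β j = 0 := by
        have := H.kx (Sum.inl (some none))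
        simp only [one_mul] at this
        exact this
      rw [mem_insert, mem_singleton] at hy
      rw [hmem]
      rcases hy with h | h
      · rw [h]
        exact ⟨fun i => Pool.Agent.N916.GB.Ev_const _ _ _, by simp, by simp⟩
      · rw [h]
        refine ⟨fun i => Pool.Agent.N916.GB.Ev_const _ _ _, ?_, ?_⟩
        · simpa only [mul_one] using ha
        · simpa only [mul_one] using hb
    have hne : (fun _ => 0 : U ⊕ J → ZMod 2) ≠ fun _ => 1 := by
      intro h
      have := congrFun h (Sum.inr k0)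
      exact zero_ne_one this
    have h2c : ({fun _ => 0, fun _ => 1} : Finset (U ⊕ J → ZMod 2)).card = 2 := card_pair hne
    constructor
    · intro h4 y h5 h6 h8
      rw [h4] at h3
      have h9 : L.card = 2 := by
        have : (L.card : ℝ) = 2 := by linarith
        exact_mod_cast this
      have h10 : ({fun _ => 0, fun _ => 1} : Finset (U ⊕ J → ZMod 2)) = L :=
        eq_of_subset_of_card_le h01 (by rw [h9, h2c])
      have h11 : y ∈ L := (hmem y).2 ⟨h5, h6, h8⟩
      rw [← h10, mem_insert, mem_singleton] at h11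
      rcases h11 with h | h
      · exact ⟨0, fun j => by rw [h]⟩
      · exact ⟨1, fun j => by rw [h]⟩
    · intro h4
      have h5 : L = {fun _ => 0, fun _ => 1} := by
        refine Subset.antisymm (fun y hy => ?_) h01
        obtain ⟨h6, h8, h9⟩ := (hmem y).1 hy
        obtain ⟨b, hb⟩ := h4 y h6 h8 h9
        rw [mem_insert, mem_singleton]
        rcases z2 b with h | h
        · left
          funext j
          rw [hb, h]
        · right
          funext j
          rw [hb, h]
      rw [h5, h2c] at h3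
      have h6 : (2 : ℝ) ^ 2 = 2 ^ Module.finrank (ZMod 2) (Kr (Me N α β) k0 δ) := by
        rw [← h3]
        norm_num
      exact ((pow_right_injective₀ (by norm_num : (0 : ℝ) < 2) (by norm_num)) h6).symm
  · constructor
    · intro h x s a hK hR
      set z : Option (Option U) ⊕ J → ZMod 2 := ve x s a with hz
      have hxz : xz z = x := xz_ve x s a
      have hKz : IsS (Me N α β) δ z := by
        rw [isS_IK N α β hδ hs, hxz]
        exact hK
      have hRz : ∀ b, IsS (Me N α β) δ b → Se κ θ z b = 0 := by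
        intro b hb
        rw [isS_IK N α β hδ hs] at hb
        have := hR _ _ _ hb
        unfold Se
        rw [hxz]
        exact this
      have h1 : z + z (Sum.inr k0) • ve wd 1 0 ∈ Kr (Me N α β) k0 δ := by
        rw [mem_Kr]
        refine ⟨?_, isS_add hKz (isS_smul _ hYS)⟩
        show z (Sum.inr k0) + z (Sum.inr k0) * _ = 0
        rw [hY0, mul_one, z2_add_self]
      have h2 := h _ h1 (by
        intro b hb
        have hb2 := (mem_Kr.1 hb).2
        rw [Se_symm, Se_add, Se_symm κ θ b z, hRz b hb2, zero_add]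
        rcases z2 (z (Sum.inr k0)) with e | e
        · rw [e, zero_smul]
          have := Se_add κ θ b 0 0
          rw [add_zero] at this
          exact left_eq_add.1 this
        · rw [e, one_smul, Se_symm, hY b hb2])
      have h3 : ∀ c, z c = z (Sum.inr k0) * ve wd 1 0 c := by
        intro c
        have := congrFun h2 c
        exact z2_eq_of_add this
      have e1 : s = z (Sum.inr k0) := by
        have := h3 (Sum.inl none)
        change s = z (Sum.inr k0) * 1 at this
        rw [mul_one] at this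
        exact this
      have e2 : a = 0 := by
        have := h3 (Sum.inl (some none))
        change a = z (Sum.inr k0) * 0 at this
        rw [mul_zero] at this
        exact this
      refine ⟨e2, fun i => ?_⟩
      rw [e1]
      rcases i with v | l
      · exact h3 (Sum.inl (some (some v)))
      · exact h3 (Sum.inr l)
    · intro h a ha hR
      obtain ⟨ha0, haS⟩ := mem_Kr.1 ha
      have haY : Se κ θ a (ve wd 1 0) = 0 := by
        rw [Se_symm]
        exact hY a haS
      have hR' : ∀ z, IsS (Me N α β) δ z → Se κ θ a z = 0 := by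
        intro z hz
        have h1 : z + z (Sum.inr k0) • ve wd 1 0 ∈ Kr (Me N α β) k0 δ := by
          rw [mem_Kr]
          refine ⟨?_, isS_add hz (isS_smul _ hYS)⟩
          show z (Sum.inr k0) + z (Sum.inr k0) * _ = 0
          rw [hY0, mul_one, z2_add_self]
        have h2 := hR _ h1
        rw [Se_add] at h2
        rcases z2 (z (Sum.inr k0)) with e | e
        · rw [e, zero_smul] at h2
          have := Se_add κ θ a 0 0
          rw [add_zero] at this
          rw [left_eq_add.1 this, add_zero] at h2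
          exact h2
        · rw [e, one_smul, haY, add_zero] at h2
          exact h2
      obtain ⟨h1, h2⟩ := h (xz a) (sz a) (az a) ((isS_IK N α β hδ hs a).1 haS) (by
        intro x' s' a' h'
        have h3 := hR' (ve x' s' a') (by
          rw [isS_IK N α β hδ hs, xz_ve]
          exact h')
        unfold Se at h3
        rw [xz_ve] at h3
        exact h3)
      have h3 : sz a = 0 := by
        have h4 := h2 (Sum.inr k0)
        have h5 : wd (Sum.inr k0) = 1 := hY0
        rw [h5, mul_one] at h4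
        rw [← h4]
        exact ha0
      funext c
      rcases c with (_ | _ | v) | l
      · exact h3
      · exact h1
      · have := h2 (Sum.inl v)
        rw [h3, zero_mul] at this
        exact this
      · have := h2 (Sum.inr l)
        rw [h3, zero_mul] at this
        exact this

end

/-- **the probability that a random system of the exceptional class is good** -/
theorem t_LE : ∀ ε : ℝ, 0 < ε → ∃ V₀ : ℕ, ∀ (U J : Type) [Fintype U] [Fintype J]
    [LinearOrder J] (N : U ⊕ J → U ⊕ J → ZMod 2) (wd ud α β κ θ : U ⊕ J → ZMod 2) (y7 : U → ZMod 2),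
    (∀ k, wd (Sum.inr k) = 1) →
    (∀ i j, i ≠ j → wd i * N i j + wd j * N j i = ud i * ud j) →
    ∑ j, α j = 0 → ∑ j, β j = 0 →
    (∀ j, ∑ i, Lm N i j * wd i + α j = 0) →
    (∀ i, κ i * wd i + (∑ i, κ i * wd i + 1) * κ i = ∑ v, Lm N i (Sum.inl v) * y7 v) →
    1 + (∑ i, κ i * wd i + 1) = ∑ v, α (Sum.inl v) * y7 v →
    ∑ i, θ i * wd i + 1 + (∑ i, κ i * wd i + 1) = ∑ v, β (Sum.inl v) * y7 v →
    (∀ b : U → ZMod 2, (∀ l, ∑ v, b v * N (Sum.inr l) (Sum.inl v) = 0) → ∀ v, b v = 0) →
    (∀ (b : U → ZMod 2) (a c : ZMod 2), (∀ l, ∑ v, b v * N (Sum.inl v) (Sum.inr l) +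
      a * β (Sum.inr l) + c * α (Sum.inr l) = 0) → (∀ v, b v = 0) ∧ a = 0 ∧ c = 0) →
    5 * (Fintype.card U + 5) + V₀ ≤ (univ.filter fun k : J => κ (Sum.inr k) = 1).card →
    5 * (Fintype.card U + 5) + V₀ ≤
      (univ.filter fun k : J => κ (Sum.inr k) + ud (Sum.inr k) = 1).card →
    5 * (Fintype.card U + 5) + V₀ ≤ (univ.filter fun k : J => ud (Sum.inr k) = 1).card →
    |((univ.filter fun σ : ps J → ZMod 2 => CE (pt N (sx σ)) α β κ θ wd).card : ℝ) /
      2 ^ (ps J).card - 4 / 3 * eta| ≤ ε := by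
  intro ε hε
  obtain ⟨V₀, hV₀⟩ := t_LD ε hε
  refine ⟨V₀, ?_⟩
  intro U J _ _ _ N wd ud α β κ θ y7 hw h3 hα hβ hcol hr1 hr2 hr3 hnr hnc hV1 hV2 hV3
  have hJ : (univ.filter fun k : J => ud (Sum.inr k) = 1).Nonempty := by
    rw [← card_pos]
    omega
  obtain ⟨k0, -⟩ := hJ
  have H : Hy (Me N α β) (fun _ => 1) (ve wd 1 0) (fun k => ud (Sum.inr k)) := by
    refine ⟨fun l => rfl, fun l => hw l, ?_, ?_, ?_, ?_, ?_⟩
    · intro c
      simp only [one_mul]
      rcases c with (_ | _ | v) | l
      · exact hα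
      · exact hβ
      · exact Lmr N (Sum.inl v)
      · exact Lmr N (Sum.inr l)
    · intro j
      rw [ev_Me, xz_ve]
      have := hcol j
      show _ + 1 * α j + 0 * β j = 0
      rw [one_mul, zero_mul, add_zero]
      exact this
    · intro b hb
      refine hnr b fun l => ?_
      rw [← hb l]
      refine sum_congr rfl fun v _ => ?_
      congr 1
      exact (Lm_ne N (by simp)).symm
    · intro b hb
      obtain ⟨h4, h5, h6⟩ := hnc (fun v => b (some (some v))) (b (some none)) (b none) fun l => by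
        have h7 := hb l
        rw [Fintype.sum_option, Fintype.sum_option] at h7
        rw [← h7]
        have e : ∀ v : U, Me N α β (Sum.inr l) (Sum.inl (some (some v))) =
            N (Sum.inl v) (Sum.inr l) := fun v => Lm_ne N (by simp)
        simp only [e]
        show _ = α (Sum.inr l) * b none + (β (Sum.inr l) * b (some none) + _)
        simp only [mul_comm (b _)]
        ring
      intro c
      rcases c with _ | _ | v
      · exact h6
      · exact h5
      · exact h4 v
    · intro k l hkl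
      have h := h3 (Sum.inr l) (Sum.inr k) fun h => hkl (Sum.inr_injective h).symm
      rw [hw, hw, one_mul, one_mul] at h
      rw [mul_comm (ud (Sum.inr k)), ← h]
      show Lm N (Sum.inr l) (Sum.inr k) + Lm N (Sum.inr k) (Sum.inr l) = _
      rw [Lm_ne _ fun h => hkl (Sum.inr_injective h).symm, Lm_ne _ fun h => hkl (Sum.inr_injective h)]
  have h7 : ∀ z, Se κ θ (ve wd 1 0) z = ∑ v, y7 v * ev (Me N α β) z (Sum.inl v) := by
    intro z
    have e1 : ∑ v, y7 v * ev (Me N α β) z (Sum.inl v) =
        ∑ i, (∑ v, Lm N i (Sum.inl v) * y7 v) * xz z i + (∑ v, α (Sum.inl v) * y7 v) * sz z +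
          (∑ v, β (Sum.inl v) * y7 v) * az z := by
      unfold ev
      simp only [ev_Me]
      simp only [mul_add, sum_add_distrib, sum_mul, mul_sum]
      congr 1
      · congr 1
        · rw [sum_comm]
          exact sum_congr rfl fun i _ => sum_congr rfl fun v _ => by ring
        · exact sum_congr rfl fun v _ => by ring
      · exact sum_congr rfl fun v _ => by ring
    rw [e1, ← hr2, ← hr3]
    simp only [← hr1]
    unfold Se SF
    rw [xz_ve]
    have e2 : sz (ve wd 1 0 : Option (Option U) ⊕ J → ZMod 2) = 1 := rfl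
    have e3 : az (ve wd 1 0 : Option (Option U) ⊕ J → ZMod 2) = 0 := rfl
    rw [e2, e3]
    set g : ZMod 2 := ∑ i, κ i * wd i + 1 with hg
    have e4 : ∑ i, (κ i * wd i + g * κ i) * xz z i =
        ∑ i, κ i * (wd i * xz z i) + g * ∑ i, κ i * xz z i := by
      rw [mul_sum, ← sum_add_distrib]
      exact sum_congr rfl fun i _ => by ring
    rw [e4]
    simp only [zero_mul, add_zero]
    ring
  have h := hV₀ U (Option (Option U)) J (Me N α β) _ _ _ (Se κ θ) _ _ H (by
      rw [Fintype.card_option, Fintype.card_option]) (Se_add κ θ) (Se_symm κ θ) (Se_self κ θ)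
    (Se_ty κ θ) (by
      rw [Fintype.card_option, Fintype.card_option]
      omega) (by
      rw [Fintype.card_option, Fintype.card_option]
      omega) (by
      rw [Fintype.card_option, Fintype.card_option]
      omega) k0
  have h2 : (univ.filter fun σ : ps J → ZMod 2 => Gd2 (Me N α β) k0 (Se κ θ) (sx σ)) =
      univ.filter fun σ : ps J → ZMod 2 => CE (pt N (sx σ)) α β κ θ wd :=
    filter_congr fun σ _ => Gd2_CE H y7 h7 k0 (fun l => sx_diag σ l) (fun l m => sx_symm σ l m)
  rw [h2] at h
  exact h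

end Pool.Agent.N916.PQ
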