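import Mathlib
import Pool.Agent.N916.PQ.Fin21
import Pool.Agent.N916.PQ.LB6

/-!
# PQ: level 21, the hypothesis LAH in the exceptional class
-/

set_option autoImplicit false
set_option linter.all false

open scoped Classical

namespace Pool.Agent.N916.PQ.L21

open Finset Filter
open Pool.Agent.Y703.CQ (nr sg)
open Pool.Agent.N973.ND (uu nr_rec nr_self)
open Pool.Agent.N916.GB (Po Vt sy Ev Gv Gd z2_add_self eta pt sx)
open Pool.Agent.N958.GB (NR ud wd z2 mem_Vt sy_ne sy_two Gd_iff lb rr rr_inj rr_im sgm two_tuples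
  rec_NR Vt_sub)
open Pool.Agent.N875.X15 (PR ra sgp d2 oe ch ps_odd ps_two ch_odd oe_mod d2_spec)
open Pool.Agent.N875.P17 (al ra_rec al_odd ra_neg_one)
open Pool.Agent.N809 Pool.Agent.N809.PQ
open Pool.Agent.N916.PQ
open Pool.Agent.N916.AM (LAH LAV Nd Rich dq lah_red Bs)
open Pool.Agent.N919.BS (NN NS NF HG)

theorem CE_congr {V : Type} [Fintype V] {N N' : V → V → ZMod 2} (h : Lm N = Lm N')
    (α β κ θ wd : V → ZMod 2) : CE N α β κ θ wd ↔ CE N' α β κ θ wd := by
  unfold CE IK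
  rw [Ev_congr h, h]

/-- the border functions -/
noncomputable def fa (s : ZMod 2) (p : ℕ) : ZMod 2 := if p = 2 then s else uu p
noncomputable def fb (r s : ZMod 2) (p : ℕ) : ZMod 2 := if p = 2 then r + s else nr p 3
/-- the diagonal -/
noncomputable def kf {V : Type} [Fintype V] (r s : ZMod 2) (ρ : V → ℕ) (i : V) : ZMod 2 :=
  if ρ i = 7 then Lm (NR r s ρ) i i else ra (ρ i) (-7)

section
variable {m : ℤ} {M : ℕ} {t : Bool} {r s : ZMod 2} {V : Type} [Fintype V] {ρ : V → ℕ} {S : Finset ℕ}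

theorem kv_kf (H : Dt m M t r s S ρ) : Red21.kv m ρ = kf r s ρ := by
  funext i
  unfold Red21.kv kf
  by_cases h : ρ i = 7
  · rw [if_pos h, ← H.hlm, ← H.ix.lm]
    congr 1
    exact h.symm
  · unfold Pool.Agent.N875.P17.Lm
    rw [if_neg h, if_neg h, ps7]

/-- the criterion -/
theorem ce_iff (H : Dt m M t r s S ρ) (h0 : 0 < m) (h3 : C3 m) (h7 : ¬ C7 m) (h3S : 3 ∉ S) :
    Sg21 m ↔ CE (NR r s ρ) (fun i => fa s (ρ i)) (fun i => fb r s (ρ i)) (kf r s ρ) (uc (-3) ρ)
      (wd r ρ) := by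
  have h := Red21.sgE H.ix H.sq h0 h3 h7
  have h' : Sg21 m ↔ CE (Nm m ρ) (ua m ρ) (vq m 3 ρ) (Red21.kv m ρ) (uc (-3) ρ) (wx m ρ) := h
  rw [h', CE_congr H.hlm, kv_kf H, H.hua, H.hwx, hv3 H h3S]
  rfl

theorem zz {a b : ZMod 2} (h : a + b = 0) : a = b := by
  have key : ∀ a b : ZMod 2, a + b = 0 → a = b := by decide
  exact key _ _ h

/-- the facts -/
theorem ce_facts (H : Dt m M t r s S ρ) (h0 : 0 < m) (h3 : C3 m) (h7 : ¬ C7 m) (h3S : 3 ∉ S) :
    ∑ i, fa s (ρ i) = 0 ∧ ∑ i, fb r s (ρ i) = 0 ∧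
    (∀ j, ∑ i, Lm (NR r s ρ) i j * wd r ρ i + fa s (ρ j) = 0) ∧
    (∀ i, kf r s ρ i * wd r ρ i + (∑ i, kf r s ρ i * wd r ρ i + 1) * kf r s ρ i =
      ∑ j, Lm (NR r s ρ) i j * Red21.d7 ρ j) ∧
    1 + (∑ i, kf r s ρ i * wd r ρ i + 1) = ∑ j, fa s (ρ j) * Red21.d7 ρ j ∧
    ∑ i, uc (-3) ρ i * wd r ρ i + 1 + (∑ i, kf r s ρ i * wd r ρ i + 1) =
      ∑ j, fb r s (ρ j) * Red21.d7 ρ j := by
  have ea : ua m ρ = fun i => fa s (ρ i) := H.hua
  have eb : vq m 3 ρ = fun i => fb r s (ρ i) := hv3 H h3S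
  have T := Red21.torx H.ix H.sq
  rw [if_pos h0] at T
  have hc := Red21.c_gam H.ix H.sq h7 T
  have hc' : (if (7 : ℤ) ∣ m then (0 : ZMod 2) else 1) = ∑ i, kf r s ρ i * wd r ρ i + 1 := by
    rw [hc]
    unfold Red21.gam
    rw [kv_kf H, H.hwx, add_zero]
  have hrow := T.row
  have hsgn := T.sgn h0
  have hat3 := T.at3 h3
  rw [hc', ea] at hsgn
  rw [hc', eb, H.hwx] at hat3
  refine ⟨?_, ?_, fun j => ?_, fun i => ?_, ?_, ?_⟩
  · have := Red21.sum_ua H.ix H.sq h0
    rw [ea] at this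
    exact this
  · have := Red21.sum_v3 H.ix H.sq h3
    rw [eb] at this
    exact this
  · have := Red21.InK_wx H.ix H.sq h0 j
    rw [H.hlm, H.hwx, ea, one_mul, zero_mul, add_zero] at this
    exact this
  · have := hrow i
    rw [hc', H.hlm, H.hwx, kv_kf H, zero_mul, add_zero] at this
    have key : ∀ a b c : ZMod 2, a + b + c = 0 → a + c = b := by decide
    exact key _ _ _ this
  · have key : ∀ a c : ZMod 2, a + 1 + 0 + c = 0 → 1 + c = a := by decide
    exact key _ _ hsgn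
  · have key : ∀ a b c : ZMod 2, a + b + 1 + 0 + c = 0 → a + 1 + c = b := by decide
    exact key _ _ _ hat3

end

section
variable {s' : ℤ} {k c : ℕ} {t : Bool} {r s : ZMod 2}

/-- **class E** -/
theorem lahE (H : PM s' k c t r s) (hs : s' = 1) :
    LAH 168 (KK 168 (fun m => C3 m ∧ ¬ C7 m) s' k c) (G21 s' k) (4 / 3 * eta) := by
  intro ε hε
  obtain ⟨V₀, hV₀⟩ := t_LE ε hε
  refine ⟨V₀ + 30, ?_⟩
  intro ι _ _ S₀ p hS₀ hp hpi hpK hN hR
  set K := KK 168 (fun m => C3 m ∧ ¬ C7 m) s' k c with hK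
  have hM : 8 ∣ 168 := by norm_num
  have hM0 : 0 < 168 := by norm_num
  have h2S : 2 ∉ S₀ := fun h => (hS₀ 2 h).2 rfl
  set r₀ := rr t S₀ p with hr₀
  have hrp : ∀ i, (r₀ i).Prime := prm hS₀ hp
  have hrinj : Function.Injective r₀ := rr_inj t hpi (fun i => (hp i).2.1) fun i => (hp i).1.2
  -- the primes in the class of 5
  have hcl : ∀ a < 168, a.Coprime 168 → (V₀ + 30) * (S₀.card + 1) ≤
      (univ.filter fun i => p i % 168 = a).card := by
    intro a ha hac
    refine (hR a ha hac).trans ?_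
    rw [Finset.filter_image, Finset.card_image_of_injective _ hpi]
  have hc5 := hcl 5 (by norm_num) (by norm_num)
  have hc3 := Pool.Agent.N916.AM.rich3 hM hM0 hpi hR
  have hV1 : 5 * (Fintype.card (Vt t S₀ : Finset ℕ) + 5) + V₀ ≤ (V₀ + 30) * (S₀.card + 1) := by
    have d1 := card_Vt (t := t) (S₀ := S₀)
    have : (V₀ + 30) * (S₀.card + 1) = V₀ * S₀.card + V₀ + 30 * S₀.card + 30 := by ring
    rw [this]
    have := Nat.zero_le (V₀ * S₀.card)
    omega
  have hιn : 0 < (univ.filter fun i => uu (p i) = 1).card := by omega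
  obtain ⟨i₀, -⟩ := card_pos.1 hιn
  have hprod : ∀ q : ι → ℕ, Function.Injective q → (∀ i, q i ∉ S₀) →
      ∏ x ∈ S₀ ∪ univ.image q, x = (∏ v ∈ S₀, v) * ∏ i, q i := by
    intro q hqi hq
    have hdis : Disjoint S₀ (univ.image q) := by
      rw [Finset.disjoint_left]
      intro x hx hx'
      obtain ⟨i, -, rfl⟩ := mem_image.1 hx'
      exact hq i hx
    rw [prod_union hdis, prod_image fun i _ j _ h => hqi h]
  have hKq : ∀ q : ι → ℕ, Function.Injective q → (∀ i, q i ∉ S₀) →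
      (∀ i, q i % 168 = p i % 168) → (∏ x ∈ S₀ ∪ univ.image q, x) % 168 ∈ K := by
    intro q hqi hq hqm
    rw [hprod q hqi hq]
    have h1 : (∏ i, q i) % 168 = (∏ i, p i) % 168 := by
      rw [Finset.prod_nat_mod, Finset.prod_nat_mod univ 168 p]
      simp only [hqm]
    rw [Nat.mul_mod, h1, ← Nat.mul_mod]
    exact hpK
  have hPoS : ∀ q : ι → ℕ, (∀ i, Po (q i)) → ∀ v ∈ S₀ ∪ univ.image q, Po v := by
    intro q hq v hv
    rcases mem_union.1 hv with h | h
    · exact hS₀ v h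
    · obtain ⟨i, -, rfl⟩ := mem_image.1 h
      exact hq i
  -- the data of a tuple
  have hdat : ∀ q : ι → ℕ, Function.Injective q → (∀ i, Po (q i)) → (∀ i, q i ∉ S₀) →
      (∀ i, q i % 168 = p i % 168) →
      Dt (s' * (k * ∏ v ∈ S₀ ∪ univ.image q, v : ℕ)) (∏ v ∈ S₀ ∪ univ.image q, v) t r s
        (S₀ ∪ univ.image q) (rr t S₀ q) ∧ 0 < s' * (k * ∏ v ∈ S₀ ∪ univ.image q, v : ℕ) ∧
      C3 (s' * (k * ∏ v ∈ S₀ ∪ univ.image q, v : ℕ)) ∧
      ¬ C7 (s' * (k * ∏ v ∈ S₀ ∪ univ.image q, v : ℕ)) ∧ 3 ∉ S₀ ∪ univ.image q := by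
    intro q hqi hqP hqS hqm
    have hSq := hPoS q hqP
    obtain ⟨h4, h3, h7⟩ := (m168 (per3.and per7.not)).1 (hKq q hqi hqS hqm)
    obtain ⟨e1, e2, e3⟩ := prodS hSq
    have D := H.dt hSq h4 (rr_inj t hqi hqS fun i => (hqP i).2) (rr_im t)
    refine ⟨D, H.pos e3 hs, h3, h7, fun h => ?_⟩
    have h6 := dvd_m h s' k
    unfold C3 at h3
    push_cast at h3 h6
    omega
  obtain ⟨D, k0, k3, k7, k3S⟩ := hdat p hpi (fun i => (hp i).1) (fun i => (hp i).2.1) fun i => rfl
  obtain ⟨f1, f2, f3, f4, f5, f6⟩ := ce_facts D k0 k3 k7 k3S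
  have hp7 : ∀ (q : ι → ℕ), (∀ i, (q i).Coprime 168) → ∀ i, q i ≠ 7 := by
    intro q hq i h
    have h1 := hq i
    rw [h] at h1
    revert h1
    decide
  have hd7 : ∀ f : (Vt t S₀ : Finset ℕ) ⊕ ι → ZMod 2, ∑ j, f j * Red21.d7 r₀ j =
      ∑ v, f (Sum.inl v) * Red21.d7 r₀ (Sum.inl v) := by
    intro f
    rw [Fintype.sum_sum_type]
    have : ∑ i, f (Sum.inr i) * Red21.d7 r₀ (Sum.inr i) = 0 := by
      refine sum_eq_zero fun i _ => ?_
      have h1 : Red21.d7 r₀ (Sum.inr i) = 0 := if_neg (hp7 p (fun i => (hp i).2.2) i)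
      rw [h1, mul_zero]
    rw [this, add_zero]
  have hN1 : ∀ (v : (Vt t S₀ : Finset ℕ)) (l : ι), NR r s r₀ (Sum.inl v) (Sum.inr l) = nr (p l) v :=
    fun v l => sy_ne r s (hp l).1.2
  have hud : ∀ l : ι, ud s r₀ (Sum.inr l) = uu (p l) := fun l => if_neg (hp l).1.2
  have hwd : ∀ l : ι, wd r r₀ (Sum.inr l) = 1 := fun l => if_neg (hp l).1.2
  have h3B : 3 ∈ Bs 168 S₀ := mem_union_right _ (pf168 (Or.inl rfl))
  have h7B : 7 ∈ Bs 168 S₀ := mem_union_right _ (pf168 (Or.inr rfl))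
  have h3V : 3 ∉ Vt t S₀ := fun h => by
    rcases mem_Vt.1 h with h | h
    · exact absurd h.2 (by norm_num)
    · exact k3S (mem_union_left _ h)
  -- the diagonal at the large primes
  have hk : ∀ l : ι, kf r s r₀ (Sum.inr l) = ra (p l) (-7) := fun l =>
    if_neg (hp7 p (fun i => (hp i).2.2) l)
  have hk5 : ∀ l : ι, p l % 168 = 5 → kf r s r₀ (Sum.inr l) = 1 ∧ uu (p l) = 0 := by
    intro l hl
    rw [hk, ra_m7 (hp l).1.1, ra7]
    constructor
    · rw [if_neg]
      omega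
    · unfold uu
      rw [if_neg]
      omega
  have h2 := hV₀ (Vt t S₀) ι (NR r s r₀) (wd r r₀) (ud s r₀) (fun i => fa s (r₀ i))
    (fun i => fb r s (r₀ i)) (kf r s r₀) (uc (-3) r₀) (fun v => Red21.d7 r₀ (Sum.inl v)) hwd
    (fun i j hij => rec_NR r s hrinj hrp i j hij) f1 f2 f3
    (fun i => by rw [f4 i, hd7]) (by rw [f5, hd7]) (by rw [f6, hd7])
    (by
      intro b hb
      obtain ⟨h3, h4, h5⟩ := nd_use hM hM0 hN h3B h3V (fun v => b v * wd r r₀ (Sum.inl v)) 0
        (∑ v, b v * ud s r₀ (Sum.inl v)) fun l => by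
        have h6 := hb l
        have h8 : ∀ v, NR r s r₀ (Sum.inr l) (Sum.inl v) = wd r r₀ (Sum.inl v) * nr (p l) v +
            ud s r₀ (Sum.inl v) * uu (p l) := by
          intro v
          have h9 := rec_NR r s hrinj hrp (Sum.inr l) (Sum.inl v) (by simp)
          rw [hwd, hud, one_mul, hN1] at h9
          have h10 := z2_add_self (wd r r₀ (Sum.inl v) * nr (p l) v)
          linear_combination h9 - h10
        simp only [h8] at h6
        refine Eq.trans ?_ h6
        rw [sum_mul, zero_mul, add_zero]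
        simp only [mul_add, sum_add_distrib, mul_assoc]
      intro v
      rcases Pool.Agent.N958.GB.z2 (wd r r₀ (Sum.inl v)) with h6 | h6
      · obtain ⟨h7, h8⟩ := uniq2 H.tr hS₀ v h6
        rw [sum_eq_single v] at h5
        · rw [h7, mul_one] at h5
          exact h5
        · intro v' _ hv'
          rcases Pool.Agent.N958.GB.z2 (wd r r₀ (Sum.inl v')) with h9 | h9
          · exact absurd (h8 v' h9).symm hv'
          · have : b v' * wd r r₀ (Sum.inl v') = 0 := h3 v'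
            rw [h9, mul_one] at this
            rw [this, zero_mul]
        · intro h
          exact absurd (mem_univ v) h
      · have : b v * wd r r₀ (Sum.inl v) = 0 := h3 v
        rw [h6, mul_one] at this
        exact this)
    (by
      intro b a c' hb
      refine nd_use hM hM0 hN h3B h3V b a c' fun l => ?_
      have h6 := hb l
      simp only [hN1] at h6
      have e1 : fa s (r₀ (Sum.inr l)) = uu (p l) := if_neg (hp l).1.2
      have e2 : fb r s (r₀ (Sum.inr l)) = nr (p l) 3 := if_neg (hp l).1.2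
      rw [e1, e2] at h6
      exact h6)
    (by
      refine hV1.trans (hc5.trans (card_le_card fun l hl => ?_))
      rw [mem_filter] at hl ⊢
      exact ⟨hl.1, (hk5 l hl.2).1⟩)
    (by
      refine hV1.trans (hc5.trans (card_le_card fun l hl => ?_))
      rw [mem_filter] at hl ⊢
      refine ⟨hl.1, ?_⟩
      rw [hud, (hk5 l hl.2).1, (hk5 l hl.2).2, add_zero])
    (by
      refine hV1.trans (hc3.trans (card_le_card fun l hl => ?_))
      rw [mem_filter] at hl ⊢
      refine ⟨hl.1, ?_⟩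
      rw [hud]
      exact hl.2)
  refine ⟨fun σ => CE (pt (NR r s r₀) (sx (σ + sgm p))) (fun i => fa s (r₀ i))
    (fun i => fb r s (r₀ i)) (kf r s r₀) (uc (-3) r₀) (wd r r₀), ?_, ?_⟩
  · intro q hqi hq
    obtain ⟨a1, a2, a3, a4⟩ := two_q (t := t) (r := r) (s := s) hM hM0 hS₀ hp hpi hqi hq
    obtain ⟨Dq, q0, q3, q7, q3S⟩ := hdat q hqi (fun i => (hq i).1) (fun i => (hq i).2.1)
      fun i => (hq i).2.2.1
    unfold G21
    rw [ce_iff Dq q0 q3 q7 q3S]
    have c1 : (fun i => fa s (rr t S₀ q i)) = fun i => fa s (r₀ i) := by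
      funext i
      rcases i with v | l
      · rfl
      · show fa s (q l) = fa s (p l)
        unfold fa
        rw [if_neg (hq l).1.2, if_neg (hp l).1.2, a4 l]
    have c2 : (fun i => fb r s (rr t S₀ q i)) = fun i => fb r s (r₀ i) := by
      funext i
      rcases i with v | l
      · rfl
      · show fb r s (q l) = fb r s (p l)
        unfold fb
        rw [if_neg (hq l).1.2, if_neg (hp l).1.2, a3 l 3 h3B]
    have c3 : kf r s (rr t S₀ q) = kf r s r₀ := by
      funext i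
      rcases i with v | l
      · have e0 : rr t S₀ q (Sum.inl v) = v := rfl
        have e1 : r₀ (Sum.inl v) = v := rfl
        unfold kf
        rw [e0, e1]
        by_cases hv : (v : ℕ) = 7
        · rw [if_pos hv, if_pos hv, a1, Lm_pt _ (fun l => Pool.Agent.N916.GB.sx_diag _ l)]
          exact add_zero _
        · rw [if_neg hv, if_neg hv]
      · rw [hk]
        have e1 : kf r s (rr t S₀ q) (Sum.inr l) = ra (q l) (-7) := if_neg (hp7 q a2 l)
        rw [e1, hf7 (by norm_num) (q l) (hq l).1 (a2 l), hf7 (by norm_num) (p l) (hp l).1 (hp l).2.2,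
          a3 l 7 h7B, a4 l]
    have c4 : uc (-3) (rr t S₀ q) = uc (-3) r₀ := by
      funext i
      rcases i with v | l
      · rfl
      · show ra (q l) (-3) = ra (p l) (-3)
        rw [hf3 (by norm_num) (q l) (hq l).1 (a2 l), hf3 (by norm_num) (p l) (hp l).1 (hp l).2.2,
          a3 l 3 h3B, a4 l]
    have c5 : wd r (rr t S₀ q) = wd r r₀ := by
      funext i
      rcases i with v | l
      · rfl
      · rw [hwd]
        exact if_neg (hq l).1.2
    rw [c1, c2, c3, c4, c5, a1]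
    rfl
  · rw [shift_card (fun σ => CE (pt (NR r s r₀) (sx σ)) (fun i => fa s (r₀ i))
      (fun i => fb r s (r₀ i)) (kf r s r₀) (uc (-3) r₀) (wd r r₀))]
    exact h2

end

end Pool.Agent.N916.PQ.L21
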