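import Mathlib
import Pool.Agent.N916.PQ.Fin15

/-!
# PQ: level 15, the natural density of `Sg15` among all squarefree integers, among all fundamental
# discriminants, and among those with root number `+1`
-/

set_option autoImplicit false
set_option linter.all false

open scoped Classical

namespace Pool.Agent.N916.PQ

open Finset Filter
open Pool.Agent.N916.GB (eta)
open Pool.Agent.N809.PQ
open Pool.Agent.N919.BS (NN NS NF HG Fund core)

/-- half of the squarefree integers -/
theorem half_NS {M : ℕ} {f : ℤ → Bool} (H : Hf M f) :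
    Tendsto (fun X : ℕ => (NS (fun d => f d = true) X : ℝ) / (NS (fun _ => True) X : ℝ)) atTop
      (nhds (1 / 2)) := by
  have h := t_NS H (G := fun _ => True) (c := 1) zero_le_one (by
    intro s k r _ _ _ ε hε
    refine ⟨0, fun Y _ => ?_⟩
    simp only [and_true, one_mul, sub_self, abs_zero]
    positivity)
  simpa only [and_true] using h

/-- half of the fundamental discriminants -/
theorem half_NF {M : ℕ} {f : ℤ → Bool} (H : Hf M f) :
    Tendsto (fun X : ℕ => (NF (fun d => f d = true) X : ℝ) / (NF (fun _ => True) X : ℝ)) atTop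
      (nhds (1 / 2)) := by
  have h := t_NF H (G := fun _ => True) (c := 1) zero_le_one (by
    intro s k r _ _ _ ε hε
    refine ⟨0, fun Y _ => ?_⟩
    simp only [and_true, one_mul, sub_self, abs_zero]
    positivity)
  simpa only [and_true] using h

theorem ratio2 {A F T : ℕ → ℝ} {c : ℝ} (hA : Tendsto (fun X => A X / T X) atTop (nhds (c / 2)))
    (hF : Tendsto (fun X => F X / T X) atTop (nhds (1 / 2))) (hT : ∀ᶠ X in atTop, T X ≠ 0) :
    Tendsto (fun X => A X / F X) atTop (nhds c) := by
  have h := hA.div hF (by norm_num)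
  have e : c / 2 / (1 / 2) = c := by ring
  rw [e] at h
  refine h.congr' ?_
  filter_upwards [hT] with X hX
  show A X / T X / (F X / T X) = A X / F X
  rw [div_div_div_cancel_right₀ hX]

theorem NS_ne : ∀ᶠ X : ℕ in atTop, (NS (fun _ => True) X : ℝ) ≠ 0 := by
  filter_upwards [eventually_ge_atTop 1] with X hX
  have : 0 < NS (fun _ => True) X := by
    unfold Pool.Agent.N919.BS.NS
    rw [card_pos]
    refine ⟨1, ?_⟩
    simp only [mem_filter, mem_Icc]
    exact ⟨⟨by omega, by exact_mod_cast hX⟩, squarefree_one, trivial⟩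
  exact_mod_cast this.ne'

theorem NF_ne : ∀ᶠ X : ℕ in atTop, (NF (fun _ => True) X : ℝ) ≠ 0 := by
  filter_upwards [eventually_ge_atTop 1] with X hX
  have : 0 < NF (fun _ => True) X := by
    unfold Pool.Agent.N919.BS.NF
    rw [card_pos]
    refine ⟨1, ?_⟩
    simp only [mem_filter, mem_Icc]
    exact ⟨⟨by omega, by exact_mod_cast hX⟩, Or.inl ⟨squarefree_one, by norm_num⟩, trivial⟩
  exact_mod_cast this.ne'

theorem core_sq {D : ℤ} (h : Fund D) : Squarefree (core D) := by
  unfold core
  rcases h with ⟨h1, h2⟩ | ⟨m, h1, h2, h3⟩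
  · rw [if_pos (by omega)]
    exact h1
  · rw [if_neg (by omega), h1, Int.mul_ediv_cancel_left _ (by norm_num)]
    exact h2

/-- the criterion implies the root number `+1` -/
theorem f15_of_sg {m : ℤ} (hs : Squarefree m) (h : Sg15 m) : f15 m = true := by
  by_cases h1 : m = 1
  · rw [h1]
    decide
  · by_cases h2 : m = -1
    · rw [h2]
      decide
    · rw [f15_w15]
      exact sg15_parity hs h1 h2 h

theorem NS15 (X : ℕ) : NS (fun d => f15 d = true ∧ Sg15 d) X = NS Sg15 X := by
  unfold Pool.Agent.N919.BS.NS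
  congr 1
  ext d
  simp only [mem_filter]
  exact ⟨fun h => ⟨h.1, h.2.1, h.2.2.2⟩, fun h => ⟨h.1, h.2.1, f15_of_sg h.2.1 h.2.2, h.2.2⟩⟩

theorem NF15 (X : ℕ) : NF (fun d => f15 d = true ∧ Sg15 d) X = NF Sg15 X := by
  unfold Pool.Agent.N919.BS.NF
  congr 1
  ext d
  simp only [mem_filter]
  exact ⟨fun h => ⟨h.1, h.2.1, h.2.2.2⟩,
    fun h => ⟨h.1, h.2.1, f15_of_sg (core_sq h.2.1) h.2.2, h.2.2⟩⟩

/-- **level 15: the proportion of the squarefree `d` with `Sg15 d` is `η / 2`** -/
theorem sf15 : Tendsto (fun X : ℕ => (NS Sg15 X : ℝ) / (NS (fun _ => True) X : ℝ)) atTop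
    (nhds (eta / 2)) := by
  have h := dens15_sf
  simp only [NS15] at h
  exact h

/-- **level 15: the proportion of the fundamental discriminants with `Sg15` is `η / 2`** -/
theorem fd15 : Tendsto (fun X : ℕ => (NF Sg15 X : ℝ) / (NF (fun _ => True) X : ℝ)) atTop
    (nhds (eta / 2)) := by
  have h := dens15_fd
  simp only [NF15] at h
  exact h

/-- **level 15: the proportion is `η` among the squarefree `d` with root number `+1`** -/
theorem rt15_sf : Tendsto (fun X : ℕ => (NS Sg15 X : ℝ) / (NS (fun d => w15 d = 1) X : ℝ)) atTop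
    (nhds eta) := by
  have h := ratio2 sf15 (half_NS hf15) NS_ne
  have e : (fun d => f15 d = true) = fun d => w15 d = 1 := funext fun d => propext (f15_w15 d)
  rw [e] at h
  exact h

/-- **level 15: the proportion is `η` among the fundamental discriminants with root number `+1`** -/
theorem rt15_fd : Tendsto (fun X : ℕ => (NF Sg15 X : ℝ) / (NF (fun d => w15 d = 1) X : ℝ)) atTop
    (nhds eta) := by
  have h := ratio2 fd15 (half_NF hf15) NF_ne
  have e : (fun d => f15 d = true) = fun d => w15 d = 1 := funext fun d => propext (f15_w15 d)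
  rw [e] at h
  exact h

end Pool.Agent.N916.PQ
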