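import Mathlib
import Pool.Agent.N916.PQ.Half
import Pool.Agent.N855.GF.Sq
import Pool.Agent.N809.PQ.Red21b

/-!
# PQ: level 21, the densities of the classes of squarefree integers
-/

set_option autoImplicit false
set_option linter.all false

namespace Pool.Agent.N916.PQ.L21

open Finset Filter
open Pool.Agent.N916.PQ
open Pool.Agent.N919.BS (UU NN NS NF NS_eq NF_eq)
open Pool.Agent.N855.GF (SQ wt RR dl dl_pos lim_class floor_lim)
open Pool.Agent.N809.Red21 (f21 fD)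

/-- the weight of a class, times `21` -/
def wn (a : ℕ) : ℕ := if a.gcd 84 = 1 then 21 else if a.gcd 84 = 3 then 14 else
  if a.gcd 84 = 7 then 18 else if a.gcd 84 = 21 then 12 else 0

theorem wt_key : ∀ a ∈ range 84, a % 2 = 1 →
    (a.gcd 84 = 1 ∨ a.gcd 84 = 3 ∨ a.gcd 84 = 7 ∨ a.gcd 84 = 21) ∧
      (RR 84 a).card * 21 = wn a * a.gcd 84 := by
  decide +kernel

theorem wt_wn {a : ℕ} (ha : a < 84) (h2 : a % 2 = 1) : wt 84 a = wn a / 21 := by
  obtain ⟨h3, h4⟩ := wt_key a (mem_range.2 ha) h2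
  have hsq : Squarefree (a.gcd 84) := by
    rcases h3 with h | h | h | h <;> rw [h]
    · exact squarefree_one
    · exact Nat.prime_three.squarefree
    · exact (by norm_num : Nat.Prime 7).squarefree
    · have : (21 : ℕ) = 3 * 7 := by norm_num
      rw [this, Nat.squarefree_mul (by norm_num)]
      exact ⟨Nat.prime_three.squarefree, (by norm_num : Nat.Prime 7).squarefree⟩
  have hg : (0 : ℝ) < (a.gcd 84 : ℕ) := by
    have : 0 < a.gcd 84 := by omega
    exact_mod_cast this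
  unfold Pool.Agent.N855.GF.wt
  rw [if_pos hsq, div_eq_div_iff hg.ne' (by norm_num)]
  exact_mod_cast h4

/-- the weight of a property -/
def WF (f : ℤ → Bool) (s : ℤ) (k c : ℕ) : ℤ := ∑ a ∈ range 84, fi f s k c a * wn a

theorem NN_lim (f : ℤ → Bool) (s : ℤ) (k c : ℕ) (hc : c = 1 ∨ c = 3)
    (hf : ∀ n : ℕ, n % 2 = 1 → f (s * (k * n : ℕ)) = f (s * (k * (n % 84) : ℕ))) :
    Tendsto (fun Y : ℕ => (NN (fun d => f d = true) s k c Y : ℝ) / Y) atTop
      (nhds ((WF f s k c : ℝ) / 21 * dl 84)) := by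
  have h1 : ∀ Y : ℕ, (NN (fun d => f d = true) s k c Y : ℝ) / Y =
      ∑ a ∈ range 84, (fi f s k c a : ℝ) * (((SQ 84 a Y).card : ℝ) / Y) := by
    intro Y
    rw [NN_w (by norm_num) (by norm_num) f s k c hc hf, sum_div]
    refine sum_congr rfl fun a _ => ?_
    have : (UU 84 a Y).card = (SQ 84 a Y).card := by
      unfold Pool.Agent.N919.BS.UU Pool.Agent.N855.GF.SQ
      congr
    rw [this]
    ring
  have h2 : (WF f s k c : ℝ) / 21 * dl 84 =
      ∑ a ∈ range 84, (fi f s k c a : ℝ) * (wt 84 a * dl 84) := by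
    unfold WF
    push_cast
    rw [sum_div, sum_mul]
    refine sum_congr rfl fun a ha => ?_
    by_cases h : a % 2 = 1
    · rw [wt_wn (mem_range.1 ha) h]
      ring
    · have : fi f s k c a = 0 := by
        unfold fi
        rw [if_neg]
        rintro ⟨h3, -⟩
        rcases hc with h | h <;> omega
      rw [this, Int.cast_zero, zero_mul, zero_mul, zero_div, zero_mul]
  rw [h2]
  simp only [h1]
  exact tendsto_finsetSum _ fun a ha =>
    (lim_class (by norm_num) (mem_range.1 ha)).const_mul _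

theorem div_top {e : ℕ} (he : 0 < e) : Tendsto (fun X : ℕ => X / e) atTop atTop := by
  rw [tendsto_atTop]
  intro b
  filter_upwards [eventually_ge_atTop (b * e)] with X hX
  exact (Nat.le_div_iff_mul_le he).2 hX

theorem lim_div {F : ℕ → ℝ} {a : ℝ} {e : ℕ} (he : 0 < e)
    (h : Tendsto (fun Y : ℕ => F Y / Y) atTop (nhds a)) :
    Tendsto (fun X : ℕ => F (X / e) / X) atTop (nhds (a * (1 / e))) := by
  refine ((h.comp (div_top he)).mul (floor_lim he)).congr' ?_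
  filter_upwards [eventually_ge_atTop e] with X hX
  have h1 : 0 < X / e := Nat.div_pos hX he
  have h2 : ((X / e : ℕ) : ℝ) ≠ 0 := by exact_mod_cast h1.ne'
  have h3 : (X : ℝ) ≠ 0 := by
    have : 0 < X := by omega
    exact_mod_cast this.ne'
  simp only [Function.comp_apply]
  field_simp

/-- the limit over the eight classes -/
theorem lim_NS {P : ℤ → Prop} {a b : ℝ}
    (h1 : ∀ k c, (k = 1 ∨ k = 2) → (c = 1 ∨ c = 3) →
      Tendsto (fun Y : ℕ => (NN P 1 k c Y : ℝ) / Y) atTop (nhds a))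
    (h2 : ∀ k c, (k = 1 ∨ k = 2) → (c = 1 ∨ c = 3) →
      Tendsto (fun Y : ℕ => (NN P (-1) k c Y : ℝ) / Y) atTop (nhds b)) :
    Tendsto (fun X : ℕ => (NS P X : ℝ) / X) atTop (nhds (3 * (a + b))) := by
  have a1 := h1 1 1 (Or.inl rfl) (Or.inl rfl)
  have a2 := h1 1 3 (Or.inl rfl) (Or.inr rfl)
  have a3 := lim_div (by norm_num : 0 < 2) (h1 2 1 (Or.inr rfl) (Or.inl rfl))
  have a4 := lim_div (by norm_num : 0 < 2) (h1 2 3 (Or.inr rfl) (Or.inr rfl))
  have b1 := h2 1 1 (Or.inl rfl) (Or.inl rfl)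
  have b2 := h2 1 3 (Or.inl rfl) (Or.inr rfl)
  have b3 := lim_div (by norm_num : 0 < 2) (h2 2 1 (Or.inr rfl) (Or.inl rfl))
  have b4 := lim_div (by norm_num : 0 < 2) (h2 2 3 (Or.inr rfl) (Or.inr rfl))
  have h := (((a1.add a2).add a3).add a4).add (((b1.add b2).add b3).add b4)
  have e : a + a + a * (1 / (2 : ℕ)) + a * (1 / (2 : ℕ)) +
      (b + b + b * (1 / (2 : ℕ)) + b * (1 / (2 : ℕ))) = 3 * (a + b) := by
    push_cast
    ring
  rw [e] at h
  refine h.congr fun X => ?_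
  rw [NS_eq]
  push_cast
  ring

theorem lim_NF {P : ℤ → Prop} {a b : ℝ}
    (h1 : ∀ k c, (k = 1 ∨ k = 2) → (c = 1 ∨ c = 3) →
      Tendsto (fun Y : ℕ => (NN P 1 k c Y : ℝ) / Y) atTop (nhds a))
    (h2 : ∀ k c, (k = 1 ∨ k = 2) → (c = 1 ∨ c = 3) →
      Tendsto (fun Y : ℕ => (NN P (-1) k c Y : ℝ) / Y) atTop (nhds b)) :
    Tendsto (fun X : ℕ => (NF P X : ℝ) / X) atTop (nhds (3 / 2 * (a + b))) := by
  have a1 := h1 1 1 (Or.inl rfl) (Or.inl rfl)
  have a2 := lim_div (by norm_num : 0 < 4) (h1 1 3 (Or.inl rfl) (Or.inr rfl))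
  have a3 := lim_div (by norm_num : 0 < 8) (h1 2 1 (Or.inr rfl) (Or.inl rfl))
  have a4 := lim_div (by norm_num : 0 < 8) (h1 2 3 (Or.inr rfl) (Or.inr rfl))
  have b1 := lim_div (by norm_num : 0 < 4) (h2 1 1 (Or.inl rfl) (Or.inl rfl))
  have b2 := h2 1 3 (Or.inl rfl) (Or.inr rfl)
  have b3 := lim_div (by norm_num : 0 < 8) (h2 2 1 (Or.inr rfl) (Or.inl rfl))
  have b4 := lim_div (by norm_num : 0 < 8) (h2 2 3 (Or.inr rfl) (Or.inr rfl))
  have h := (((a1.add a2).add a3).add a4).add (((b1.add b2).add b3).add b4)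
  have e : a + a * (1 / (4 : ℕ)) + a * (1 / (8 : ℕ)) + a * (1 / (8 : ℕ)) +
      (b * (1 / (4 : ℕ)) + b + b * (1 / (8 : ℕ)) + b * (1 / (8 : ℕ))) = 3 / 2 * (a + b) := by
    push_cast
    ring
  rw [e] at h
  refine h.congr fun X => ?_
  rw [NF_eq]
  push_cast
  ring

/-! ### the values -/

/-- the ordinary classes -/
def fO (m : ℤ) : Bool := f21 m && !fD m

theorem wT : ∀ k c, (k = 1 ∨ k = 2) → (c = 1 ∨ c = 3) → WF (fun _ => true) 1 k c = 384 := by
  rintro k c (rfl | rfl) (rfl | rfl) <;> decide +kernel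

theorem wT' : ∀ k c, (k = 1 ∨ k = 2) → (c = 1 ∨ c = 3) → WF (fun _ => true) (-1) k c = 384 := by
  rintro k c (rfl | rfl) (rfl | rfl) <;> decide +kernel

theorem wO : ∀ k c, (k = 1 ∨ k = 2) → (c = 1 ∨ c = 3) → WF fO 1 k c = 105 := by
  rintro k c (rfl | rfl) (rfl | rfl) <;> decide +kernel

theorem wO' : ∀ k c, (k = 1 ∨ k = 2) → (c = 1 ∨ c = 3) → WF fO (-1) k c = 198 := by
  rintro k c (rfl | rfl) (rfl | rfl) <;> decide +kernel

theorem wD : ∀ k c, (k = 1 ∨ k = 2) → (c = 1 ∨ c = 3) → WF fD 1 k c = 81 := by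
  rintro k c (rfl | rfl) (rfl | rfl) <;> decide +kernel

theorem wD' : ∀ k c, (k = 1 ∨ k = 2) → (c = 1 ∨ c = 3) → WF fD (-1) k c = 0 := by
  rintro k c (rfl | rfl) (rfl | rfl) <;> decide +kernel

theorem per_D : ∀ (s : ℤ) (k n : ℕ), (s = 1 ∨ s = -1) → (k = 1 ∨ k = 2) → n % 2 = 1 →
    fD (s * (k * n : ℕ)) = fD (s * (k * (n % 84) : ℕ)) := by
  intro s k n hs hk hn
  unfold Pool.Agent.N809.Red21.fD
  have e0 : (0 < s * (k * n : ℕ)) ↔ (0 < s * (k * (n % 84) : ℕ)) := by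
    rcases hs with rfl | rfl <;> rcases hk with rfl | rfl <;> push_cast <;> omega
  have e3 : (s * (k * n : ℕ)) % 3 = (s * (k * (n % 84) : ℕ)) % 3 := by
    rcases hs with rfl | rfl <;> rcases hk with rfl | rfl <;> push_cast <;> omega
  have e5 : (s * (k * n : ℕ)) % 7 = (s * (k * (n % 84) : ℕ)) % 7 := by
    rcases hs with rfl | rfl <;> rcases hk with rfl | rfl <;> push_cast <;> omega
  simp only [e0, e3, e5]

theorem per_O : ∀ (s : ℤ) (k n : ℕ), (s = 1 ∨ s = -1) → (k = 1 ∨ k = 2) → n % 2 = 1 →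
    fO (s * (k * n : ℕ)) = fO (s * (k * (n % 84) : ℕ)) := by
  intro s k n hs hk hn
  unfold fO
  rw [per_D s k n hs hk hn, Pool.Agent.N809.Red21.hf21.per s k n hs hk hn]

end Pool.Agent.N916.PQ.L21
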