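import Mathlib
import Pool.Agent.N916.PQ.LahE
import Pool.Agent.N916.PQ.Wt21
import Pool.Agent.N916.PQ.Main15

/-!
# PQ: level 21, the natural density of `Sg21` among all squarefree integers, among all fundamental
# discriminants, in the exceptional class, and in its complement
-/

set_option autoImplicit false
set_option linter.all false

open scoped Classical

namespace Pool.Agent.N916.PQ.L21

open Finset Filter
open Pool.Agent.N916.GB (eta)
open Pool.Agent.N809 Pool.Agent.N809.PQ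
open Pool.Agent.N916.PQ
open Pool.Agent.N919.BS (NN NS NF HG Fund core)
open Pool.Agent.N855.GF (dl dl_pos)
open Pool.Agent.N809.Red21 (f21 fD f21_iff fD_iff fD_f21 hf21)

theorem fD_pos {m : ℤ} (h : 0 < m) : fD m = true ↔ C3 m ∧ ¬ C7 m := by
  rw [fD_iff]
  exact ⟨fun h => h.2, fun h' => ⟨h, h'⟩⟩

theorem fD_neg {m : ℤ} (h : m < 0) : fD m = false := by
  rcases hD : fD m with _ | _
  · rfl
  · have := ((fD_iff m).1 hD).1
    omega

theorem fO_iff (m : ℤ) : fO m = true ↔ f21 m = true ∧ fD m = false := by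
  unfold fO
  cases f21 m <;> cases fD m <;> decide

theorem fO_pos {m : ℤ} (h : 0 < m) : fO m = true ↔ ¬ C3 m ∧ C7 m := by
  rw [fO_iff, f21_iff]
  have hD := fD_pos h
  have e : (fD m = false) ↔ ¬ (C3 m ∧ ¬ C7 m) := by
    rw [← hD]
    cases fD m <;> simp
  rw [e]
  unfold w21 C3 C7
  rw [if_neg (by omega)]
  by_cases h1 : m % 3 = 1 <;> by_cases h2 : m % 7 = 3 ∨ m % 7 = 5 ∨ m % 7 = 6 <;> simp [h1, h2]

theorem fO_neg {m : ℤ} (h : m < 0) : fO m = true ↔ (¬ C3 m ∧ ¬ C7 m) ∨ (C3 m ∧ C7 m) := by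
  rw [fO_iff, f21_iff, fD_neg h]
  unfold w21 C3 C7
  rw [if_pos h]
  by_cases h1 : m % 3 = 1 <;> by_cases h2 : m % 7 = 3 ∨ m % 7 = 5 ∨ m % 7 = 6 <;> simp [h1, h2]

theorem eta_half : eta ≤ 1 / 2 := by
  refine le_of_tendsto Pool.Agent.N916.GB.eta_tendsto ?_
  filter_upwards [eventually_ge_atTop 1] with n hn
  obtain ⟨k, rfl⟩ : ∃ k, n = k + 1 := ⟨n - 1, by omega⟩
  rw [prod_range_succ']
  have h1 : ∏ i ∈ range k, (1 - (1 / 2 : ℝ) ^ (i + 1 + 1)) ≤ 1 := by
    refine prod_le_one (fun i _ => ?_) fun i _ => ?_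
    · have : (1 / 2 : ℝ) ^ (i + 1 + 1) ≤ 1 := pow_le_one₀ (by norm_num) (by norm_num)
      linarith
    · have : (0 : ℝ) ≤ (1 / 2 : ℝ) ^ (i + 1 + 1) := by positivity
      linarith
  norm_num at h1 ⊢
  linarith

theorem eta43 : 0 ≤ 4 / 3 * eta ∧ 4 / 3 * eta ≤ 1 := by
  have h0 := eta01.1
  refine ⟨by positivity, ?_⟩
  have h1 := eta_half
  linarith

theorem NN_zero {P : ℤ → Prop} {s : ℤ} {k c Y : ℕ} (h : ∀ n : ℕ, 0 < n → ¬ P (s * (k * n : ℕ))) :
    NN P s k c Y = 0 := by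
  unfold Pool.Agent.N919.BS.NN
  rw [card_eq_zero, filter_eq_empty_iff]
  intro n hn h1
  exact h n (mem_Icc.1 hn).1 h1.2.2

/-- **the density in the ordinary classes** -/
theorem hgO : HG (fun d => fO d = true) Sg21 eta := by
  intro s' k c hs hk hc
  obtain ⟨t, r, s, H⟩ := pm_all hs hk hc
  rcases hs with h | h
  · refine hg_one (M := 168) (by norm_num) (by norm_num) hc eta01.1 eta01.2
      (K := KK 168 (fun m => ¬ C3 m ∧ C7 m) s' k c) ?_ (lahB H h)
    intro n hn
    rw [m168 (per3.not.and per7), fO_pos (H.pos hn h)]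
  · refine hg_one (M := 168) (by norm_num) (by norm_num) hc eta01.1 eta01.2
      (K := KK 168 (fun m => ¬ C3 m ∧ ¬ C7 m) s' k c ∪ KK 168 (fun m => C3 m ∧ C7 m) s' k c) ?_
      (LAH.union (lahA H h) (lahC H h))
    intro n hn
    rw [mem_union, m168 (per3.not.and per7.not), m168 (per3.and per7), fO_neg (H.neg' hn h)]
    tauto

/-- **the density in the exceptional class** -/
theorem hgD : HG (fun d => fD d = true) Sg21 (4 / 3 * eta) := by
  intro s' k c hs hk hc
  obtain ⟨t, r, s, H⟩ := pm_all hs hk hc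
  rcases hs with h | h
  · refine hg_one (M := 168) (by norm_num) (by norm_num) hc eta43.1 eta43.2
      (K := KK 168 (fun m => C3 m ∧ ¬ C7 m) s' k c) ?_ (lahE H h)
    intro n hn
    rw [m168 (per3.and per7.not), fD_pos (H.pos hn h)]
  · intro ε hε
    refine ⟨0, fun Y _ => ?_⟩
    have h1 : ∀ n : ℕ, 0 < n → ¬ fD (s' * (k * n : ℕ)) = true := fun n hn => by
      rw [fD_neg (H.neg' hn h)]
      decide
    rw [NN_zero fun n hn h' => h1 n hn h'.1, NN_zero h1, Nat.cast_zero, mul_zero, sub_zero, abs_zero]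
    positivity

/-- from the counts to the limits -/
theorem hg_lim {f : ℤ → Bool} {G : ℤ → Prop} {c η w : ℝ} (hG : HG (fun d => f d = true) G η)
    {s : ℤ} {k r : ℕ} (hs : s = 1 ∨ s = -1) (hk : k = 1 ∨ k = 2) (hr : r = 1 ∨ r = 3)
    (hw : Tendsto (fun Y : ℕ => (NN (fun d => f d = true) s k r Y : ℝ) / Y) atTop (nhds w)) :
    Tendsto (fun Y : ℕ => (NN (fun d => f d = true ∧ G d) s k r Y : ℝ) / Y) atTop
      (nhds (η * w)) := by
  have h1 : Tendsto (fun Y : ℕ => (NN (fun d => f d = true ∧ G d) s k r Y : ℝ) / Y -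
      η * ((NN (fun d => f d = true) s k r Y : ℝ) / Y)) atTop (nhds 0) := by
    rw [Metric.tendsto_atTop]
    intro ε hε
    obtain ⟨Y₀, hY₀⟩ := hG s k r hs hk hr (ε / 2) (by linarith)
    refine ⟨Y₀ + 1, fun Y hY => ?_⟩
    have hY0 : (0 : ℝ) < Y := by
      have : 0 < Y := by omega
      exact_mod_cast this
    have h2 := hY₀ Y (by omega)
    rw [Real.dist_eq, sub_zero]
    have h3 : (NN (fun d => f d = true ∧ G d) s k r Y : ℝ) / Y -
        η * ((NN (fun d => f d = true) s k r Y : ℝ) / Y) =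
        ((NN (fun d => f d = true ∧ G d) s k r Y : ℝ) - η * NN (fun d => f d = true) s k r Y) / Y := by
      ring
    rw [h3, abs_div, abs_of_pos hY0, div_lt_iff₀ hY0]
    have h4 : ε / 2 * Y < ε * Y := by
      have := mul_pos hε hY0
      linarith
    linarith
  have h2 := h1.add (hw.const_mul η)
  rw [zero_add] at h2
  refine h2.congr fun Y => ?_
  ring

theorem limO (k c : ℕ) (hk : k = 1 ∨ k = 2) (hc : c = 1 ∨ c = 3) :
    Tendsto (fun Y : ℕ => (NN (fun d => fO d = true) 1 k c Y : ℝ) / Y) atTop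
      (nhds (5 * dl 84)) := by
  have h := NN_lim fO 1 k c hc fun n hn => per_O 1 k n (Or.inl rfl) hk hn
  rw [wO k c hk hc] at h
  have e : (((105 : ℤ) : ℝ) / 21 * dl 84) = 5 * dl 84 := by
    norm_num
  rw [e] at h
  exact h

theorem limO' (k c : ℕ) (hk : k = 1 ∨ k = 2) (hc : c = 1 ∨ c = 3) :
    Tendsto (fun Y : ℕ => (NN (fun d => fO d = true) (-1) k c Y : ℝ) / Y) atTop
      (nhds (66 / 7 * dl 84)) := by
  have h := NN_lim fO (-1) k c hc fun n hn => per_O (-1) k n (Or.inr rfl) hk hn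
  rw [wO' k c hk hc] at h
  have e : (((198 : ℤ) : ℝ) / 21 * dl 84) = 66 / 7 * dl 84 := by
    norm_num
  rw [e] at h
  exact h

theorem limD (k c : ℕ) (hk : k = 1 ∨ k = 2) (hc : c = 1 ∨ c = 3) :
    Tendsto (fun Y : ℕ => (NN (fun d => fD d = true) 1 k c Y : ℝ) / Y) atTop
      (nhds (27 / 7 * dl 84)) := by
  have h := NN_lim fD 1 k c hc fun n hn => per_D 1 k n (Or.inl rfl) hk hn
  rw [wD k c hk hc] at h
  have e : (((81 : ℤ) : ℝ) / 21 * dl 84) = 27 / 7 * dl 84 := by
    norm_num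
  rw [e] at h
  exact h

theorem limD' (k c : ℕ) (hk : k = 1 ∨ k = 2) (hc : c = 1 ∨ c = 3) :
    Tendsto (fun Y : ℕ => (NN (fun d => fD d = true) (-1) k c Y : ℝ) / Y) atTop (nhds 0) := by
  have h := NN_lim fD (-1) k c hc fun n hn => per_D (-1) k n (Or.inr rfl) hk hn
  rw [wD' k c hk hc] at h
  have e : (((0 : ℤ) : ℝ) / 21 * dl 84) = 0 := by
    norm_num
  rw [e] at h
  exact h

theorem limT (s : ℤ) (k c : ℕ) (hs : s = 1 ∨ s = -1) (hk : k = 1 ∨ k = 2) (hc : c = 1 ∨ c = 3) :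
    Tendsto (fun Y : ℕ => (NN (fun _ => True) s k c Y : ℝ) / Y) atTop (nhds (128 / 7 * dl 84)) := by
  have h := NN_lim (fun _ => true) s k c hc fun n hn => rfl
  have hw : WF (fun _ => true) s k c = 384 := by
    rcases hs with rfl | rfl
    · exact wT k c hk hc
    · exact wT' k c hk hc
  rw [hw] at h
  have e : (((384 : ℤ) : ℝ) / 21 * dl 84) = 128 / 7 * dl 84 := by
    norm_num
  rw [e] at h
  simp only [NN_T]
  exact h

theorem dl84 : 0 < dl 84 := dl_pos (by norm_num)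

/-- the criterion implies the root number `+1` -/
theorem f21_of_sg {m : ℤ} (hs : Squarefree m) (h : Sg21 m) : f21 m = true := by
  by_cases h1 : m = 1
  · rw [h1]
    decide
  · rw [f21_iff]
    exact sg21_parity hs h1 h

theorem sq_k {s : ℤ} {k n : ℕ} (hs : s = 1 ∨ s = -1) (hk : k = 1 ∨ k = 2) (hn : Squarefree n)
    (h2 : n % 2 = 1) : Squarefree (s * (k * n : ℕ)) := by
  have h3 : Squarefree (((k * n : ℕ)) : ℤ) := by
    rw [Int.squarefree_natCast]
    rcases hk with h | h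
    · rw [h, one_mul]
      exact hn
    · rw [h]
      exact (Pool.Agent.N919.BS.sq_two h2).2 hn
  rcases hs with h | h
  · rw [h, one_mul]
    exact h3
  · rw [h, neg_one_mul, Pool.Agent.N919.BS.sq_neg]
    exact h3

theorem NN_split {P Q R : ℤ → Prop} {s : ℤ} {k c Y : ℕ}
    (h : ∀ n : ℕ, Squarefree n → n % 4 = c → (P (s * (k * n : ℕ)) ↔ Q (s * (k * n : ℕ)) ∨
      R (s * (k * n : ℕ)))) (hdis : ∀ d, Q d → ¬ R d) :
    NN P s k c Y = NN Q s k c Y + NN R s k c Y := by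
  unfold Pool.Agent.N919.BS.NN
  rw [← card_union_of_disjoint]
  · congr 1
    ext n
    rw [mem_union, mem_filter, mem_filter, mem_filter]
    constructor
    · rintro ⟨h1, h2, h3, h4⟩
      rcases (h n h2 h3).1 h4 with h5 | h5
      · exact Or.inl ⟨h1, h2, h3, h5⟩
      · exact Or.inr ⟨h1, h2, h3, h5⟩
    · rintro (⟨h1, h2, h3, h4⟩ | ⟨h1, h2, h3, h4⟩)
      · exact ⟨h1, h2, h3, (h n h2 h3).2 (Or.inl h4)⟩
      · exact ⟨h1, h2, h3, (h n h2 h3).2 (Or.inr h4)⟩
  · rw [Finset.disjoint_left]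
    intro n h1 h2
    rw [mem_filter] at h1 h2
    exact hdis _ h1.2.2.2 h2.2.2.2

/-- the two parts -/
theorem NN_parts {s : ℤ} {k c Y : ℕ} (hs : s = 1 ∨ s = -1) (hk : k = 1 ∨ k = 2)
    (hc : c = 1 ∨ c = 3) : NN Sg21 s k c Y = NN (fun d => fO d = true ∧ Sg21 d) s k c Y +
      NN (fun d => fD d = true ∧ Sg21 d) s k c Y := by
  refine NN_split (fun n h2 h3 => ?_) fun d h1 h2 => ?_
  · constructor
    · intro h4
      have h5 := f21_of_sg (sq_k hs hk h2 (by rcases hc with h | h <;> omega)) h4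
      by_cases hD : fD (s * (k * n : ℕ)) = true
      · exact Or.inr ⟨hD, h4⟩
      · exact Or.inl ⟨(fO_iff _).2 ⟨h5, Bool.eq_false_iff.2 hD⟩, h4⟩
    · rintro (h | h)
      · exact h.2
      · exact h.2
  · have h3 := ((fO_iff _).1 h1.1).2
    rw [h2.1] at h3
    exact absurd h3 (by decide)

theorem limS (k c : ℕ) (hk : k = 1 ∨ k = 2) (hc : c = 1 ∨ c = 3) :
    Tendsto (fun Y : ℕ => (NN Sg21 1 k c Y : ℝ) / Y) atTop
      (nhds (eta * (5 * dl 84) + 4 / 3 * eta * (27 / 7 * dl 84))) := by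
  have h1 := hg_lim (c := 0) hgO (Or.inl rfl) hk hc (limO k c hk hc)
  have h2 := hg_lim (c := 0) hgD (Or.inl rfl) hk hc (limD k c hk hc)
  refine (h1.add h2).congr fun Y => ?_
  rw [NN_parts (Or.inl rfl) hk hc]
  push_cast
  ring

theorem limS' (k c : ℕ) (hk : k = 1 ∨ k = 2) (hc : c = 1 ∨ c = 3) :
    Tendsto (fun Y : ℕ => (NN Sg21 (-1) k c Y : ℝ) / Y) atTop
      (nhds (eta * (66 / 7 * dl 84) + 4 / 3 * eta * 0)) := by
  have h1 := hg_lim (c := 0) hgO (Or.inr rfl) hk hc (limO' k c hk hc)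
  have h2 := hg_lim (c := 0) hgD (Or.inr rfl) hk hc (limD' k c hk hc)
  refine (h1.add h2).congr fun Y => ?_
  rw [NN_parts (Or.inr rfl) hk hc]
  push_cast
  ring

theorem quo {F T : ℕ → ℝ} {a b c : ℝ} (hF : Tendsto (fun X : ℕ => F X / X) atTop (nhds a))
    (hT : Tendsto (fun X : ℕ => T X / X) atTop (nhds b)) (hb : b ≠ 0) (hc : a / b = c) :
    Tendsto (fun X => F X / T X) atTop (nhds c) := by
  have h := hF.div hT hb
  rw [hc] at h
  refine h.congr' ?_
  filter_upwards [eventually_ge_atTop 1] with X hX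
  have : (X : ℝ) ≠ 0 := by
    have : 0 < X := hX
    exact_mod_cast this.ne'
  show F X / X / (T X / X) = F X / T X
  rw [div_div_div_cancel_right₀ this]

/-- **level 21: the proportion of the squarefree `d` with `Sg21 d` is `137 η / 256`** -/
theorem sf21 : Tendsto (fun X : ℕ => (NS Sg21 X : ℝ) / (NS (fun _ => True) X : ℝ)) atTop
    (nhds (137 / 256 * eta)) := by
  have hd := dl84
  refine quo (lim_NS limS limS') (lim_NS (fun k c => limT 1 k c (Or.inl rfl))
    fun k c => limT (-1) k c (Or.inr rfl)) ?_ ?_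
  · positivity
  · field_simp
    ring

/-- **level 21: the proportion of the fundamental discriminants with `Sg21` is `137 η / 256`** -/
theorem fd21 : Tendsto (fun X : ℕ => (NF Sg21 X : ℝ) / (NF (fun _ => True) X : ℝ)) atTop
    (nhds (137 / 256 * eta)) := by
  have hd := dl84
  refine quo (lim_NF limS limS') (lim_NF (fun k c => limT 1 k c (Or.inl rfl))
    fun k c => limT (-1) k c (Or.inr rfl)) ?_ ?_
  · positivity
  · field_simp
    ring

theorem fun_w : (fun d => f21 d = true) = fun d => w21 d = 1 := funext fun d => propext (f21_iff d)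

/-- **level 21: the proportion is `137 η / 128` among the squarefree `d` with root number `+1`** -/
theorem rt21_sf : Tendsto (fun X : ℕ => (NS Sg21 X : ℝ) / (NS (fun d => w21 d = 1) X : ℝ)) atTop
    (nhds (137 / 128 * eta)) := by
  have h0 : Tendsto (fun X : ℕ => (NS Sg21 X : ℝ) / (NS (fun _ => True) X : ℝ)) atTop
      (nhds (137 / 128 * eta / 2)) := by
    have e : 137 / 128 * eta / 2 = 137 / 256 * eta := by ring
    rw [e]
    exact sf21
  have h := ratio2 h0 (half_NS hf21) NS_ne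
  rw [fun_w] at h
  exact h

/-- **level 21: the proportion is `137 η / 128` among the fundamental discriminants with root
number `+1`** -/
theorem rt21_fd : Tendsto (fun X : ℕ => (NF Sg21 X : ℝ) / (NF (fun d => w21 d = 1) X : ℝ)) atTop
    (nhds (137 / 128 * eta)) := by
  have h0 : Tendsto (fun X : ℕ => (NF Sg21 X : ℝ) / (NF (fun _ => True) X : ℝ)) atTop
      (nhds (137 / 128 * eta / 2)) := by
    have e : 137 / 128 * eta / 2 = 137 / 256 * eta := by ring
    rw [e]
    exact fd21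
  have h := ratio2 h0 (half_NF hf21) NF_ne
  rw [fun_w] at h
  exact h

/-! ### the two kinds of classes -/

/-- **the exceptional class `d > 0`, `d % 3 = 1`, `d % 7 ∉ {3, 5, 6}`: the proportion `4 η / 3`** -/
theorem ex21_sf : Tendsto (fun X : ℕ => (NS (fun d => (0 < d ∧ C3 d ∧ ¬ C7 d) ∧ Sg21 d) X : ℝ) /
    (NS (fun d => 0 < d ∧ C3 d ∧ ¬ C7 d) X : ℝ)) atTop (nhds (4 / 3 * eta)) := by
  have hd := dl84
  have e : (fun d => fD d = true) = fun d => 0 < d ∧ C3 d ∧ ¬ C7 d :=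
    funext fun d => propext (fD_iff d)
  have e2 : (fun d => fD d = true ∧ Sg21 d) = fun d => (0 < d ∧ C3 d ∧ ¬ C7 d) ∧ Sg21 d :=
    funext fun d => propext (and_congr_left fun _ => fD_iff d)
  rw [← e, ← e2]
  refine quo (lim_NS (fun k c hk hc => hg_lim (c := 0) hgD (Or.inl rfl) hk hc (limD k c hk hc))
    (fun k c hk hc => hg_lim (c := 0) hgD (Or.inr rfl) hk hc (limD' k c hk hc)))
    (lim_NS limD limD') ?_ ?_
  · positivity
  · field_simp

/-- **the complement of the exceptional class, root number `+1`: the proportion `η`** -/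
theorem or21_sf : Tendsto (fun X : ℕ => (NS (fun d => (w21 d = 1 ∧ ¬ (0 < d ∧ C3 d ∧ ¬ C7 d)) ∧
    Sg21 d) X : ℝ) / (NS (fun d => w21 d = 1 ∧ ¬ (0 < d ∧ C3 d ∧ ¬ C7 d)) X : ℝ)) atTop
    (nhds eta) := by
  have hd := dl84
  have h0 : ∀ d, fO d = true ↔ w21 d = 1 ∧ ¬ (0 < d ∧ C3 d ∧ ¬ C7 d) := by
    intro d
    rw [fO_iff, f21_iff, ← fD_iff]
    cases fD d <;> simp
  have e : (fun d => fO d = true) = fun d => w21 d = 1 ∧ ¬ (0 < d ∧ C3 d ∧ ¬ C7 d) :=
    funext fun d => propext (h0 d)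
  have e2 : (fun d => fO d = true ∧ Sg21 d) =
      fun d => (w21 d = 1 ∧ ¬ (0 < d ∧ C3 d ∧ ¬ C7 d)) ∧ Sg21 d :=
    funext fun d => propext (and_congr_left fun _ => h0 d)
  rw [← e, ← e2]
  refine quo (lim_NS (fun k c hk hc => hg_lim (c := 0) hgO (Or.inl rfl) hk hc (limO k c hk hc))
    (fun k c hk hc => hg_lim (c := 0) hgO (Or.inr rfl) hk hc (limO' k c hk hc)))
    (lim_NS limO limO') ?_ ?_
  · positivity
  · field_simp

end Pool.Agent.N916.PQ.L21
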