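import Mathlib
import Pool.Agent.N916.PQ.Main21
import Pool.Agent.N855.GF.Lc17

/-!
# PQ: level 21 with local conditions
-/

set_option autoImplicit false
set_option linter.all false

open scoped Classical

namespace Pool.Agent.N916.PQ.L21.Loc

open Finset Filter
open Pool.Agent.Y703.CQ (nr sg)
open Pool.Agent.N973.ND (uu nr_rec nr_self)
open Pool.Agent.N916.GB (Po Vt sy Ev Gv Gd z2_add_self eta pt sx)
open Pool.Agent.N958.GB (NR ud wd mem_Vt sy_ne sy_two Gd_iff lb rr rr_inj rr_im sgm two_tuples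
  rec_NR Vt_sub)
open Pool.Agent.N875.X15 (PR ra sgp d2 oe ch ps_odd ps_two ch_odd oe_mod d2_spec)
open Pool.Agent.N875.P17 (al ra_rec al_odd ra_neg_one)
open Pool.Agent.N809 Pool.Agent.N809.PQ
open Pool.Agent.N916.PQ Pool.Agent.N916.PQ.L21
open Pool.Agent.N916.AM (LAH LAV Nd Rich dq lah_red Bs)
open Pool.Agent.N919.BS (NN NS NF HG)
open Pool.Agent.N809.Red21 (f21 fD f21_iff fD_iff)
open Pool.Agent.N855.GF.Lc17 (Lc)

theorem mKM {M : ℕ} (hM : 168 ∣ M) (hM0 : 0 < M) {P : ℤ → Prop} (hP : Per 21 P) {s' : ℤ}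
    {k c : ℕ} {n : ℕ} : n % M ∈ KK M P s' k c ↔ n % 4 = c ∧ P (s' * (k * n : ℕ)) :=
  mem_KK hM0 (Dvd.dvd.trans (by norm_num) hM) (Dvd.dvd.trans (by norm_num) hM) hP

theorem KMa {M : ℕ} {P : ℤ → Prop} {s' : ℤ} {k c : ℕ} {a : ℕ} (h : a ∈ KK M P s' k c) :
    a % 4 = c ∧ P (s' * (k * a : ℕ)) := (mem_filter.1 h).2

theorem pfM {M : ℕ} (hM : 168 ∣ M) (hM0 : 0 < M) {g : ℕ} (hg : g = 3 ∨ g = 7) :
    g ∈ M.primeFactors := by
  rw [Nat.mem_primeFactors]
  rcases hg with rfl | rfl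
  · exact ⟨by norm_num, Dvd.dvd.trans (by norm_num) hM, hM0.ne'⟩
  · exact ⟨by norm_num, Dvd.dvd.trans (by norm_num) hM, hM0.ne'⟩

theorem lift5 {M : ℕ} (hM : 168 ∣ M) (hM0 : 0 < M) : ∃ a < M, a.Coprime M ∧ a % 168 = 5 := by
  haveI : NeZero M := ⟨hM0.ne'⟩
  obtain ⟨v, hv⟩ := ZMod.unitsMap_surjective hM (ZMod.unitOfCoprime 5 (by norm_num))
  refine ⟨(v : ZMod M).val, ZMod.val_lt _, ZMod.val_coe_unit_coprime v, ?_⟩
  have h1 := congrArg Units.val hv
  rw [ZMod.unitsMap_val, ZMod.coe_unitOfCoprime] at h1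
  have h2 : (((v : ZMod M).val : ℕ) : ZMod 168) = ((5 : ℕ) : ZMod 168) := by
    rw [← h1, ZMod.natCast_val]
  have h3 := (ZMod.natCast_eq_natCast_iff' _ _ 168).1 h2
  rw [h3]

theorem LAH.anti {M : ℕ} {K K' : Finset ℕ} (h : K ⊆ K') {G : Finset ℕ → Prop} {c : ℝ}
    (hL : LAH M K' G c) : LAH M K G c := by
  intro ε hε
  obtain ⟨V, hV⟩ := hL ε hε
  refine ⟨V, ?_⟩
  intro ι _ _ S₀ p hS₀ hp hpi hpK hN hR
  exact hV ι S₀ p hS₀ hp hpi (h hpK) hN hR

section
variable {s' : ℤ} {k c : ℕ} {t : Bool} {r s : ZMod 2} {M : ℕ} (hMM : 168 ∣ M) (hM0 : 0 < M)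
include hMM hM0

/-- **class A** -/
theorem lahA (H : PM s' k c t r s) (hs : s' = -1) :
    LAH M (KK M (fun m => ¬ C3 m ∧ ¬ C7 m) s' k c) (G21 s' k) eta := by
  refine LAH.congr (G' := Gd t r s) (by have := Nat.le_of_dvd hM0 hMM; omega) ?_ ?_
  · intro S hS hK hne
    obtain ⟨h4, h3, h5⟩ := (mKM hMM hM0 (per3.not.and per7.not)).1 hK
    obtain ⟨e1, e2, e3⟩ := prodS hS
    have him : univ.image (fun x : {x // x ∈ Vt t S} => (x : ℕ)) = Vt t S := by
      ext x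
      rw [mem_image]
      exact ⟨fun ⟨y, _, hy⟩ => hy ▸ y.2, fun h => ⟨⟨x, h⟩, mem_univ _, rfl⟩⟩
    have D := H.dt hS h4 Subtype.val_injective him
    obtain ⟨i, hi⟩ := ne_V hne him
    haveI : Nonempty {x // x ∈ Vt t S} := ⟨i⟩
    rw [Gd_iff t r s Subtype.val_injective him]
    unfold G21
    rw [Red21.sgA D.ix D.sq ⟨i, dvd_m hi s' k⟩ (H.neg' e3 hs) h3 h5]
    exact Gv_congr D.hlm
  · refine lah_red (Dvd.dvd.trans (by norm_num) hMM) hM0 H.ts H.tr fun a ha => ?_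
    have h1 := (KMa ha).1
    have h2 := H.neg hs
    rw [← h1] at h2
    rw [← h2]
    omega

/-- **class B** -/
theorem lahB (H : PM s' k c t r s) (hs : s' = 1) :
    LAH M (KK M (fun m => ¬ C3 m ∧ C7 m) s' k c) (G21 s' k) eta := by
  refine lah_b (t := t) (r := r) (s := s) (g := 7) (h := 7) (fu := fun p => ra p (-7))
    (fw := fun p => if p = 2 then s else uu p) (e := 1) (x0 := 1) (κ := 1) (a0 := 0) (κ' := 1)
    (Dvd.dvd.trans (by norm_num) hMM) hM0 H.tr (pfM hMM hM0 (Or.inr rfl)) (by norm_num)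
    (pfM hMM hM0 (Or.inr rfl)) (by norm_num) (fun a ha => not7 (KMa ha).2.2)
    (fun a ha => not7 (KMa ha).2.2) (hf7 (Dvd.dvd.trans (by norm_num) hMM)) (fun p hp _ => by
      rw [if_neg hp.2]; ring) (Or.inr rfl) ?_
  intro V _ ρ S hS hK hne hρ him
  obtain ⟨h4, h3, h7⟩ := (mKM hMM hM0 (per3.not.and per7)).1 hK
  obtain ⟨e1, e2, e3⟩ := prodS hS
  have D := H.dt hS h4 hρ him
  obtain ⟨i, hi⟩ := ne_V hne him
  haveI : Nonempty V := ⟨i⟩
  have h0 := H.pos e3 hs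
  obtain ⟨f1, f2, f3⟩ := Red21.factsB D.ix D.sq h0 h7
  refine ⟨?_, ?_, fun j => ?_, ?_⟩
  · unfold G21
    rw [Red21.sgB D.ix D.sq h0 h3 h7, Kb_congr D.hlm, D.hua]
    rfl
  · rw [D.hua] at f1
    exact f1
  · have := f2 j
    rw [D.hlm, D.hwx, D.hua] at this
    exact this
  · rw [D.hwx] at f3
    exact f3

/-- **class C** -/
theorem lahC (H : PM s' k c t r s) (hs : s' = -1) :
    LAH M (KK M (fun m => C3 m ∧ C7 m) s' k c) (G21 s' k) eta := by
  refine lah_b (t := t) (r := r) (s := s) (g := 7) (h := 3) (fu := fun p => ra p (-7))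
    (fw := fun p => if p = 2 then r + s else nr p 3) (e := 1) (x0 := 0) (κ := 1) (a0 := 1) (κ' := 0)
    (Dvd.dvd.trans (by norm_num) hMM) hM0 H.tr (pfM hMM hM0 (Or.inr rfl)) (by norm_num)
    (pfM hMM hM0 (Or.inl rfl)) (by norm_num) (fun a ha => not7 (KMa ha).2.2)
    (fun a ha => not3 (KMa ha).2.1) (hf7 (Dvd.dvd.trans (by norm_num) hMM)) (fun p hp _ => by
      rw [if_neg hp.2]; ring) (Or.inl rfl) ?_
  intro V _ ρ S hS hK hne hρ him
  obtain ⟨h4, h3, h7⟩ := (mKM hMM hM0 (per3.and per7)).1 hK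
  obtain ⟨e1, e2, e3⟩ := prodS hS
  have D := H.dt hS h4 hρ him
  obtain ⟨i, hi⟩ := ne_V hne him
  haveI : Nonempty V := ⟨i⟩
  have h0 := H.neg' e3 hs
  have h3S : 3 ∉ S := by
    intro h
    have h6 := dvd_m h s' k
    unfold C3 at h3
    push_cast at h3 h6
    omega
  have hv := hv3 D h3S
  obtain ⟨f1, f2, f3⟩ := Red21.factsC D.ix D.sq h0 h3 h7
  refine ⟨?_, ?_, fun j => ?_, ?_⟩
  · unfold G21
    rw [Red21.sgC D.ix D.sq ⟨i, dvd_m hi s' k⟩ h0 h3 h7, Kb_congr D.hlm, hv]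
    rfl
  · rw [hv] at f1
    exact f1
  · have := f2 j
    rw [D.hlm, D.hwx, hv] at this
    exact this
  · rw [D.hwx] at f3
    exact f3


/-- **class E** -/
theorem lahE (H : PM s' k c t r s) (hs : s' = 1) :
    LAH M (KK M (fun m => C3 m ∧ ¬ C7 m) s' k c) (G21 s' k) (4 / 3 * eta) := by
  intro ε hε
  obtain ⟨V₀, hV₀⟩ := t_LE ε hε
  refine ⟨V₀ + 30, ?_⟩
  intro ι _ _ S₀ p hS₀ hp hpi hpK hN hR
  set K := KK M (fun m => C3 m ∧ ¬ C7 m) s' k c with hK
  have hM : 8 ∣ M := Dvd.dvd.trans (by norm_num) hMM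
  obtain ⟨a5, ha5, hc5', hm5⟩ := lift5 hMM hM0
  have h2S : 2 ∉ S₀ := fun h => (hS₀ 2 h).2 rfl
  set r₀ := rr t S₀ p with hr₀
  have hrp : ∀ i, (r₀ i).Prime := prm hS₀ hp
  have hrinj : Function.Injective r₀ := rr_inj t hpi (fun i => (hp i).2.1) fun i => (hp i).1.2
  -- the primes in the class of 5
  have hcl : ∀ a < M, a.Coprime M → (V₀ + 30) * (S₀.card + 1) ≤
      (univ.filter fun i => p i % M = a).card := by
    intro a ha hac
    refine (hR a ha hac).trans ?_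
    rw [Finset.filter_image, Finset.card_image_of_injective _ hpi]
  have hc5 := hcl a5 ha5 hc5'
  have hc3 := Pool.Agent.N916.AM.rich3 hM hM0 hpi hR
  have hV1 : 5 * (Fintype.card (Vt t S₀ : Finset ℕ) + 5) + V₀ ≤ (V₀ + 30) * (S₀.card + 1) := by
    have d1 := card_Vt (t := t) (S₀ := S₀)
    have : (V₀ + 30) * (S₀.card + 1) = V₀ * S₀.card + V₀ + 30 * S₀.card + 30 := by ring
    rw [this]
    have := Nat.zero_le (V₀ * S₀.card)
    omega
  have hιn : 0 < (univ.filter fun i => uu (p i) = 1).card := by omega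
  obtain ⟨i₀, -⟩ := card_pos.1 hιn
  have hprod : ∀ q : ι → ℕ, Function.Injective q → (∀ i, q i ∉ S₀) →
      ∏ x ∈ S₀ ∪ univ.image q, x = (∏ v ∈ S₀, v) * ∏ i, q i := by
    intro q hqi hq
    have hdis : Disjoint S₀ (univ.image q) := by
      rw [Finset.disjoint_left]
      intro x hx hx'
      obtain ⟨i, -, rfl⟩ := mem_image.1 hx'
      exact hq i hx
    rw [prod_union hdis, prod_image fun i _ j _ h => hqi h]
  have hKq : ∀ q : ι → ℕ, Function.Injective q → (∀ i, q i ∉ S₀) →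
      (∀ i, q i % M = p i % M) → (∏ x ∈ S₀ ∪ univ.image q, x) % M ∈ K := by
    intro q hqi hq hqm
    rw [hprod q hqi hq]
    have h1 : (∏ i, q i) % M = (∏ i, p i) % M := by
      rw [Finset.prod_nat_mod, Finset.prod_nat_mod univ M p]
      simp only [hqm]
    rw [Nat.mul_mod, h1, ← Nat.mul_mod]
    exact hpK
  have hPoS : ∀ q : ι → ℕ, (∀ i, Po (q i)) → ∀ v ∈ S₀ ∪ univ.image q, Po v := by
    intro q hq v hv
    rcases mem_union.1 hv with h | h
    · exact hS₀ v h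
    · obtain ⟨i, -, rfl⟩ := mem_image.1 h
      exact hq i
  -- the data of a tuple
  have hdat : ∀ q : ι → ℕ, Function.Injective q → (∀ i, Po (q i)) → (∀ i, q i ∉ S₀) →
      (∀ i, q i % M = p i % M) →
      Dt (s' * (k * ∏ v ∈ S₀ ∪ univ.image q, v : ℕ)) (∏ v ∈ S₀ ∪ univ.image q, v) t r s
        (S₀ ∪ univ.image q) (rr t S₀ q) ∧ 0 < s' * (k * ∏ v ∈ S₀ ∪ univ.image q, v : ℕ) ∧
      C3 (s' * (k * ∏ v ∈ S₀ ∪ univ.image q, v : ℕ)) ∧
      ¬ C7 (s' * (k * ∏ v ∈ S₀ ∪ univ.image q, v : ℕ)) ∧ 3 ∉ S₀ ∪ univ.image q := by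
    intro q hqi hqP hqS hqm
    have hSq := hPoS q hqP
    obtain ⟨h4, h3, h7⟩ := (mKM hMM hM0 (per3.and per7.not)).1 (hKq q hqi hqS hqm)
    obtain ⟨e1, e2, e3⟩ := prodS hSq
    have D := H.dt hSq h4 (rr_inj t hqi hqS fun i => (hqP i).2) (rr_im t)
    refine ⟨D, H.pos e3 hs, h3, h7, fun h => ?_⟩
    have h6 := dvd_m h s' k
    unfold C3 at h3
    push_cast at h3 h6
    omega
  obtain ⟨D, k0, k3, k7, k3S⟩ := hdat p hpi (fun i => (hp i).1) (fun i => (hp i).2.1) fun i => rfl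
  obtain ⟨f1, f2, f3, f4, f5, f6⟩ := ce_facts D k0 k3 k7 k3S
  have hp7 : ∀ (q : ι → ℕ), (∀ i, (q i).Coprime M) → ∀ i, q i ≠ 7 := by
    intro q hq i h
    have h1 := hq i
    rw [h] at h1
    have h2 := Nat.Coprime.eq_one_of_dvd h1 (Dvd.dvd.trans (by norm_num) hMM)
    exact absurd h2 (by norm_num)
  have hd7 : ∀ f : (Vt t S₀ : Finset ℕ) ⊕ ι → ZMod 2, ∑ j, f j * Red21.d7 r₀ j =
      ∑ v, f (Sum.inl v) * Red21.d7 r₀ (Sum.inl v) := by
    intro f
    rw [Fintype.sum_sum_type]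
    have : ∑ i, f (Sum.inr i) * Red21.d7 r₀ (Sum.inr i) = 0 := by
      refine sum_eq_zero fun i _ => ?_
      have h1 : Red21.d7 r₀ (Sum.inr i) = 0 := if_neg (hp7 p (fun i => (hp i).2.2) i)
      rw [h1, mul_zero]
    rw [this, add_zero]
  have hN1 : ∀ (v : (Vt t S₀ : Finset ℕ)) (l : ι), NR r s r₀ (Sum.inl v) (Sum.inr l) = nr (p l) v :=
    fun v l => sy_ne r s (hp l).1.2
  have hud : ∀ l : ι, ud s r₀ (Sum.inr l) = uu (p l) := fun l => if_neg (hp l).1.2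
  have hwd : ∀ l : ι, wd r r₀ (Sum.inr l) = 1 := fun l => if_neg (hp l).1.2
  have h3B : 3 ∈ Bs M S₀ := mem_union_right _ (pfM hMM hM0 (Or.inl rfl))
  have h7B : 7 ∈ Bs M S₀ := mem_union_right _ (pfM hMM hM0 (Or.inr rfl))
  have h3V : 3 ∉ Vt t S₀ := fun h => by
    rcases mem_Vt.1 h with h | h
    · exact absurd h.2 (by norm_num)
    · exact k3S (mem_union_left _ h)
  -- the diagonal at the large primes
  have hk : ∀ l : ι, kf r s r₀ (Sum.inr l) = ra (p l) (-7) := fun l =>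
    if_neg (hp7 p (fun i => (hp i).2.2) l)
  have hk5 : ∀ l : ι, p l % M = a5 → kf r s r₀ (Sum.inr l) = 1 ∧ uu (p l) = 0 := by
    intro l hl'
    have hl : p l % 168 = 5 := by
      rw [← Nat.mod_mod_of_dvd (p l) hMM, hl', hm5]
    rw [hk, ra_m7 (hp l).1.1, ra7]
    constructor
    · rw [if_neg]
      omega
    · unfold uu
      rw [if_neg]
      omega
  have h2 := hV₀ (Vt t S₀) ι (NR r s r₀) (wd r r₀) (ud s r₀) (fun i => fa s (r₀ i))
    (fun i => fb r s (r₀ i)) (kf r s r₀) (uc (-3) r₀) (fun v => Red21.d7 r₀ (Sum.inl v)) hwd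
    (fun i j hij => rec_NR r s hrinj hrp i j hij) f1 f2 f3
    (fun i => by rw [f4 i, hd7]) (by rw [f5, hd7]) (by rw [f6, hd7])
    (by
      intro b hb
      obtain ⟨h3, h4, h5⟩ := nd_use hM hM0 hN h3B h3V (fun v => b v * wd r r₀ (Sum.inl v)) 0
        (∑ v, b v * ud s r₀ (Sum.inl v)) fun l => by
        have h6 := hb l
        have h8 : ∀ v, NR r s r₀ (Sum.inr l) (Sum.inl v) = wd r r₀ (Sum.inl v) * nr (p l) v +
            ud s r₀ (Sum.inl v) * uu (p l) := by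
          intro v
          have h9 := rec_NR r s hrinj hrp (Sum.inr l) (Sum.inl v) (by simp)
          rw [hwd, hud, one_mul, hN1] at h9
          have h10 := z2_add_self (wd r r₀ (Sum.inl v) * nr (p l) v)
          linear_combination h9 - h10
        simp only [h8] at h6
        refine Eq.trans ?_ h6
        rw [sum_mul, zero_mul, add_zero]
        simp only [mul_add, sum_add_distrib, mul_assoc]
      intro v
      rcases Pool.Agent.N958.GB.z2 (wd r r₀ (Sum.inl v)) with h6 | h6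
      · obtain ⟨h7, h8⟩ := uniq2 H.tr hS₀ v h6
        rw [sum_eq_single v] at h5
        · rw [h7, mul_one] at h5
          exact h5
        · intro v' _ hv'
          rcases Pool.Agent.N958.GB.z2 (wd r r₀ (Sum.inl v')) with h9 | h9
          · exact absurd (h8 v' h9).symm hv'
          · have : b v' * wd r r₀ (Sum.inl v') = 0 := h3 v'
            rw [h9, mul_one] at this
            rw [this, zero_mul]
        · intro h
          exact absurd (mem_univ v) h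
      · have : b v * wd r r₀ (Sum.inl v) = 0 := h3 v
        rw [h6, mul_one] at this
        exact this)
    (by
      intro b a c' hb
      refine nd_use hM hM0 hN h3B h3V b a c' fun l => ?_
      have h6 := hb l
      simp only [hN1] at h6
      have e1 : fa s (r₀ (Sum.inr l)) = uu (p l) := if_neg (hp l).1.2
      have e2 : fb r s (r₀ (Sum.inr l)) = nr (p l) 3 := if_neg (hp l).1.2
      rw [e1, e2] at h6
      exact h6)
    (by
      refine hV1.trans (hc5.trans (card_le_card fun l hl => ?_))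
      rw [mem_filter] at hl ⊢
      exact ⟨hl.1, (hk5 l hl.2).1⟩)
    (by
      refine hV1.trans (hc5.trans (card_le_card fun l hl => ?_))
      rw [mem_filter] at hl ⊢
      refine ⟨hl.1, ?_⟩
      rw [hud, (hk5 l hl.2).1, (hk5 l hl.2).2, add_zero])
    (by
      refine hV1.trans (hc3.trans (card_le_card fun l hl => ?_))
      rw [mem_filter] at hl ⊢
      refine ⟨hl.1, ?_⟩
      rw [hud]
      exact hl.2)
  refine ⟨fun σ => CE (pt (NR r s r₀) (sx (σ + sgm p))) (fun i => fa s (r₀ i))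
    (fun i => fb r s (r₀ i)) (kf r s r₀) (uc (-3) r₀) (wd r r₀), ?_, ?_⟩
  · intro q hqi hq
    obtain ⟨a1, a2, a3, a4⟩ := two_q (t := t) (r := r) (s := s) hM hM0 hS₀ hp hpi hqi hq
    obtain ⟨Dq, q0, q3, q7, q3S⟩ := hdat q hqi (fun i => (hq i).1) (fun i => (hq i).2.1)
      fun i => (hq i).2.2.1
    unfold G21
    rw [ce_iff Dq q0 q3 q7 q3S]
    have c1 : (fun i => fa s (rr t S₀ q i)) = fun i => fa s (r₀ i) := by
      funext i
      rcases i with v | l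
      · rfl
      · show fa s (q l) = fa s (p l)
        unfold fa
        rw [if_neg (hq l).1.2, if_neg (hp l).1.2, a4 l]
    have c2 : (fun i => fb r s (rr t S₀ q i)) = fun i => fb r s (r₀ i) := by
      funext i
      rcases i with v | l
      · rfl
      · show fb r s (q l) = fb r s (p l)
        unfold fb
        rw [if_neg (hq l).1.2, if_neg (hp l).1.2, a3 l 3 h3B]
    have c3 : kf r s (rr t S₀ q) = kf r s r₀ := by
      funext i
      rcases i with v | l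
      · have e0 : rr t S₀ q (Sum.inl v) = v := rfl
        have e1 : r₀ (Sum.inl v) = v := rfl
        unfold kf
        rw [e0, e1]
        by_cases hv : (v : ℕ) = 7
        · rw [if_pos hv, if_pos hv, a1, Lm_pt _ (fun l => Pool.Agent.N916.GB.sx_diag _ l)]
          exact add_zero _
        · rw [if_neg hv, if_neg hv]
      · rw [hk]
        have e1 : kf r s (rr t S₀ q) (Sum.inr l) = ra (q l) (-7) := if_neg (hp7 q a2 l)
        rw [e1, hf7 (Dvd.dvd.trans (by norm_num) hMM) (q l) (hq l).1 (a2 l), hf7 (Dvd.dvd.trans (by norm_num) hMM) (p l) (hp l).1 (hp l).2.2,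
          a3 l 7 h7B, a4 l]
    have c4 : uc (-3) (rr t S₀ q) = uc (-3) r₀ := by
      funext i
      rcases i with v | l
      · rfl
      · show ra (q l) (-3) = ra (p l) (-3)
        rw [hf3 (Dvd.dvd.trans (by norm_num) hMM) (q l) (hq l).1 (a2 l), hf3 (Dvd.dvd.trans (by norm_num) hMM) (p l) (hp l).1 (hp l).2.2,
          a3 l 3 h3B, a4 l]
    have c5 : wd r (rr t S₀ q) = wd r r₀ := by
      funext i
      rcases i with v | l
      · rfl
      · rw [hwd]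
        exact if_neg (hq l).1.2
    rw [c1, c2, c3, c4, c5, a1]
    rfl
  · rw [shift_card (fun σ => CE (pt (NR r s r₀) (sx σ)) (fun i => fa s (r₀ i))
      (fun i => fb r s (r₀ i)) (kf r s r₀) (uc (-3) r₀) (wd r r₀))]
    exact h2


end

/-- the count with an arbitrary property -/
theorem hg_gen {M : ℕ} (hM : 8 ∣ M) (hM0 : 0 < M) {P Q : ℤ → Prop} {K : Finset ℕ}
    {s' : ℤ} {k c : ℕ} (hc : c = 1 ∨ c = 3) {η : ℝ} (h0 : 0 ≤ η) (h1 : η ≤ 1)
    (hKc : ∀ a ∈ K, a % 4 = c)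
    (hK : ∀ n : ℕ, Squarefree n → (n % M ∈ K ↔ n % 4 = c ∧ P (s' * (k * n : ℕ))))
    (hL : LAH M K (fun S => Q (s' * (k * ∏ v ∈ S, v : ℕ))) η) :
    ∀ ε : ℝ, 0 < ε → ∃ Y₀ : ℕ, ∀ Y : ℕ, Y₀ ≤ Y →
      |(NN (fun d => P d ∧ Q d) s' k c Y : ℝ) - η * NN P s' k c Y| ≤ ε * Y := by
  intro ε hε
  obtain ⟨X1, h2⟩ := dq hM hM0 h0 h1 hL (fun a ha => by
    have := hKc a ha
    rcases hc with h | h <;> omega) ε hε
  refine ⟨X1, fun Y hY => ?_⟩
  have b1 := h2 Y hY
  have k1 : NN (fun d => P d ∧ Q d) s' k c Y = ((Icc 1 Y).filter fun n => Squarefree n ∧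
      n % M ∈ K ∧ Q (s' * (k * ∏ v ∈ n.primeFactors, v : ℕ))).card := by
    have hNN : NN (fun d => P d ∧ Q d) s' k c Y = ((Icc 1 Y).filter fun M =>
        Squarefree M ∧ M % 4 = c ∧ P (s' * (k * M : ℕ)) ∧ Q (s' * (k * M : ℕ))).card := by
      unfold Pool.Agent.N919.BS.NN
      congr
    rw [hNN]
    congr 1
    ext n
    rw [mem_filter, mem_filter, mem_Icc]
    constructor
    · rintro ⟨i1, i2, i3, i4, i5⟩
      refine ⟨i1, i2, (hK n i2).2 ⟨i3, i4⟩, ?_⟩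
      rw [Nat.prod_primeFactors_of_squarefree i2]
      exact i5
    · rintro ⟨i1, i2, i3, i4⟩
      rw [Nat.prod_primeFactors_of_squarefree i2] at i4
      obtain ⟨i5, i6⟩ := (hK n i2).1 i3
      exact ⟨i1, i2, i5, i6, i4⟩
  have k2 : NN P s' k c Y = ((Icc 1 Y).filter fun n => Squarefree n ∧ n % M ∈ K).card := by
    have hNN : NN P s' k c Y = ((Icc 1 Y).filter fun M =>
        Squarefree M ∧ M % 4 = c ∧ P (s' * (k * M : ℕ))).card := by
      unfold Pool.Agent.N919.BS.NN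
      congr
    rw [hNN]
    congr 1
    ext n
    rw [mem_filter, mem_filter, mem_Icc]
    constructor
    · rintro ⟨i1, i2, i3⟩
      exact ⟨i1, i2, (hK n i2).2 i3⟩
    · rintro ⟨i1, i2, i3⟩
      exact ⟨i1, i2, (hK n i2).1 i3⟩
  rw [k1, k2]
  exact b1

/-- the residues of a local condition -/
noncomputable def KL (M : ℕ) (Q : ℤ → Prop) (s' : ℤ) (k : ℕ) (K : Finset ℕ) : Finset ℕ :=
  K.filter fun a => ∃ N : ℕ, Squarefree N ∧ N % 2 = 1 ∧ N % M = a ∧ Q (s' * ((k * N : ℕ) : ℤ))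

theorem mem_KL {M : ℕ} {Q : ℤ → Prop} (hQ : Lc M Q) {s' : ℤ} {k : ℕ} {K : Finset ℕ}
    (hs : s' = 1 ∨ s' = -1) (hk : k = 1 ∨ k = 2) {n : ℕ} (hn : Squarefree n) (h2 : n % 2 = 1) :
    n % M ∈ KL M Q s' k K ↔ n % M ∈ K ∧ Q (s' * ((k * n : ℕ) : ℤ)) := by
  unfold KL
  rw [mem_filter]
  constructor
  · rintro ⟨h3, N, h4, h5, h6, h7⟩
    exact ⟨h3, (hQ s' k N n hs hk h4 hn h5 h2 h6).1 h7⟩
  · rintro ⟨h3, h4⟩
    exact ⟨h3, n, hn, h2, rfl, h4⟩

section
variable {M : ℕ} (hMM : 168 ∣ M) (hM0 : 0 < M) {Q : ℤ → Prop} (hQ : Lc M Q)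
include hMM hM0 hQ

/-- one class -/
theorem hg_cls {s' : ℤ} {k c : ℕ} (hs : s' = 1 ∨ s' = -1) (hk : k = 1 ∨ k = 2)
    (hc : c = 1 ∨ c = 3) {f : ℤ → Bool} {K : Finset ℕ} {η : ℝ} (h0 : 0 ≤ η) (h1 : η ≤ 1)
    (hKc : ∀ a ∈ K, a % 4 = c)
    (hK : ∀ n : ℕ, 0 < n → (n % M ∈ K ↔ n % 4 = c ∧ f (s' * (k * n : ℕ)) = true))
    (hL : LAH M K (G21 s' k) η) :
    ∀ ε : ℝ, 0 < ε → ∃ Y₀ : ℕ, ∀ Y : ℕ, Y₀ ≤ Y →
      |(NN (fun d => (f d = true ∧ Q d) ∧ Sg21 d) s' k c Y : ℝ) -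
        η * NN (fun d => f d = true ∧ Q d) s' k c Y| ≤ ε * Y := by
  refine hg_gen (P := fun d => f d = true ∧ Q d) (Q := Sg21) (K := KL M Q s' k K)
    (Dvd.dvd.trans (by norm_num) hMM) hM0 hc h0 h1 (fun a ha => hKc a (mem_filter.1 ha).1)
    (fun n hn => ?_) (LAH.anti (filter_subset _ _) hL)
  have hn0 : 0 < n := Nat.pos_of_ne_zero hn.ne_zero
  constructor
  · intro h
    have h3 := (hK n hn0).1 (mem_filter.1 h).1
    have h4 := ((mem_KL hQ hs hk hn (by rcases hc with h | h <;> omega)).1 h).2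
    exact ⟨h3.1, h3.2, h4⟩
  · rintro ⟨h3, h4, h5⟩
    exact (mem_KL hQ hs hk hn (by rcases hc with h | h <;> omega)).2 ⟨(hK n hn0).2 ⟨h3, h4⟩, h5⟩

/-- **the density in the ordinary classes, with local conditions** -/
theorem hgO_loc : HG (fun d => fO d = true ∧ Q d) Sg21 eta := by
  intro s' k c hs hk hc
  obtain ⟨t, r, s, H⟩ := pm_all hs hk hc
  rcases hs with h | h
  · refine hg_cls hMM hM0 hQ (Or.inl h) hk hc eta01.1 eta01.2
      (K := KK M (fun m => ¬ C3 m ∧ C7 m) s' k c) (fun a ha => (KMa ha).1) ?_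
      (lahB hMM hM0 H h)
    intro n hn
    rw [mKM hMM hM0 (per3.not.and per7), fO_pos (H.pos hn h)]
  · refine hg_cls hMM hM0 hQ (Or.inr h) hk hc eta01.1 eta01.2
      (K := KK M (fun m => ¬ C3 m ∧ ¬ C7 m) s' k c ∪ KK M (fun m => C3 m ∧ C7 m) s' k c)
      (fun a ha => ?_) ?_ (LAH.union (lahA hMM hM0 H h) (lahC hMM hM0 H h))
    · rcases mem_union.1 ha with h' | h'
      · exact (KMa h').1
      · exact (KMa h').1
    · intro n hn
      rw [mem_union, mKM hMM hM0 (per3.not.and per7.not), mKM hMM hM0 (per3.and per7),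
        fO_neg (H.neg' hn h)]
      tauto

/-- **the density in the exceptional class, with local conditions** -/
theorem hgD_loc : HG (fun d => fD d = true ∧ Q d) Sg21 (4 / 3 * eta) := by
  intro s' k c hs hk hc
  obtain ⟨t, r, s, H⟩ := pm_all hs hk hc
  rcases hs with h | h
  · refine hg_cls hMM hM0 hQ (Or.inl h) hk hc eta43.1 eta43.2
      (K := KK M (fun m => C3 m ∧ ¬ C7 m) s' k c) (fun a ha => (KMa ha).1) ?_
      (lahE hMM hM0 H h)
    intro n hn
    rw [mKM hMM hM0 (per3.and per7.not), fD_pos (H.pos hn h)]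
  · intro ε hε
    refine ⟨0, fun Y _ => ?_⟩
    have h1 : ∀ n : ℕ, 0 < n → ¬ fD (s' * (k * n : ℕ)) = true := fun n hn => by
      rw [fD_neg (H.neg' hn h)]
      decide
    rw [NN_zero fun n hn h' => h1 n hn h'.1.1, NN_zero fun n hn h' => h1 n hn h'.1,
      Nat.cast_zero, mul_zero, sub_zero, abs_zero]
    positivity

end

end Pool.Agent.N916.PQ.L21.Loc
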